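import Pool.Agent.Lib.MP_ad286f_nt.E2Tr

/-!
# Module AL (about 180 lines): all Atkin-Lehner matrices at once

`e e' = 6`, `e a d - e' b c = 1`, `N = (e a, b; 6 c, e d)` (determinant `e`), `j = 6 c t + e d`.
Claim `e F(N t) = eps_e j^2 F(t)`, `eps_1 = eps_2 = 1`, `eps_3 = eps_6 = -1`.
PROOF. Lemma (`E2c_AL`): for naturals `g, d1, e1, k` with `g * d1 * e1 * k = 6`, `e = g * e1`
(`delta = g d1` a divisor of 6, `g = gcd(delta, e)`, `e' = d1 k`), `e a d - d1 k b c = 1`: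
 `e * (delta * E2c (delta * N t)) = (d1 e1) j^2 E2c (d1 e1 t) + (36 c/(pi i)) j`.
Indeed `delta * N t = gam (d1 e1 t)`, `gam = (g a, d1 b; k c, e1 d)` (determinant `e a d - d1 k b c = 1`; with
`w = d1 e1 t`: `(g a w + d1 b)/(k c w + e1 d) = d1 (e a t + b)/((k d1 e1 c t + e1 d)) = g d1 (e a t + b)/(g(..))` and
`g (k d1 e1 c t + e1 d) = 6 c t + e d = j`), so `E2c_tr` gives `E2c(delta N t) = (j/g)^2 E2c(w) + (6/(pi i)) k c (j/g)`;
multiply by `e delta = g e1 g d1`: `(g^2 e1 d1)(j/g)^2 = e1 d1 j^2`, `g e1 g d1 (6/(pi i)) k c j/g = 36 c j/(pi i)`.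
Then `6 F(t) = 3E2(3t) + 6E2(6t) - E2(t) - 2E2(2t)`: the anomalies cancel, and `delta -> d1 e1` is:
`e = 1`: identity; `e = 2`: `1 <-> 2, 3 <-> 6` (sign +); `e = 3`: `1 <-> 3, 2 <-> 6` (sign -);
`e = 6`: `1 <-> 6, 2 <-> 3` (sign -). Sixteen instances of the lemma, `(g, d1, e1, k)` for `(e, delta)`.
-/

namespace Pool.Agent.Lib.Z32

open Complex

/-- The sign of the Atkin-Lehner involution of type `e`. -/
noncomputable def eps (e : ℕ) : ℂ := if e = 1 ∨ e = 2 then 1 else -1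

/-- The transformation of `delta * E2(delta * t)`. -/
theorem E2c_AL {g d1 e1 k : ℕ} (h6 : g * d1 * e1 * k = 6) {a b c d : ℤ}
    (h : (g : ℤ) * e1 * a * d - d1 * k * b * c = 1) {τ : ℂ} (hτ : 0 < τ.im) :
    (g : ℂ) * e1 * (g * d1 * E2c (g * d1 * ((g * e1 * a * τ + b) / (6 * c * τ + g * e1 * d)))) =
      d1 * e1 * (6 * c * τ + g * e1 * d) ^ 2 * E2c (d1 * e1 * τ)
        + 36 / (Real.pi * I) * c * (6 * c * τ + g * e1 * d) := by
  have hg : (g : ℂ) ≠ 0 := by
    intro h0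
    have h1 : g = 0 := by exact_mod_cast h0
    simp [h1] at h6
  have hd1 : 0 < d1 := by
    rcases Nat.eq_zero_or_pos d1 with h0 | h0
    · simp [h0] at h6
    · exact h0
  have he1 : 0 < e1 := by
    rcases Nat.eq_zero_or_pos e1 with h0 | h0
    · simp [h0] at h6
    · exact h0
  have h6' : (g : ℂ) * d1 * e1 * k = 6 := by exact_mod_cast h6
  have hw : 0 < ((d1 : ℂ) * e1 * τ).im := by
    have h1 : ((d1 : ℂ) * e1 * τ) = (((d1 * e1 : ℕ) : ℝ) : ℂ) * τ := by push_cast; ring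
    rw [h1, Complex.im_ofReal_mul]
    have h2 : (0 : ℝ) < ((d1 * e1 : ℕ) : ℝ) := by exact_mod_cast Nat.mul_pos hd1 he1
    exact mul_pos h2 hτ
  have hdet : ((g : ℤ) * a) * (e1 * d) - (d1 * b) * (k * c) = 1 := by
    rw [← h]
    ring
  have htr := E2c_tr hdet hw
  push_cast at htr
  have hm : (6 * c * τ + g * e1 * d : ℂ) = g * (k * c * (d1 * e1 * τ) + e1 * d) := by
    linear_combination (-(c * τ)) * h6'
  have harg : (g : ℂ) * d1 * ((g * e1 * a * τ + b) / (6 * c * τ + g * e1 * d)) =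
      (g * a * (d1 * e1 * τ) + d1 * b) / (k * c * (d1 * e1 * τ) + e1 * d) := by
    rw [hm, mul_div_assoc', mul_assoc (g : ℂ) (d1 : ℂ), mul_div_mul_left _ _ hg]
    congr 1
    ring
  rw [harg, htr, hm]
  have hpi : (Real.pi : ℂ) * I ≠ 0 := mul_ne_zero (by exact_mod_cast Real.pi_ne_zero) I_ne_zero
  have h36 : (36 : ℂ) / (Real.pi * I) = 6 / (Real.pi * I) * (g * d1 * e1 * k) := by
    rw [h6']
    ring
  rw [h36]
  ring

/-- An Atkin-Lehner matrix preserves the upper half plane. -/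
theorem AL_im {e e' : ℕ} (he : e * e' = 6) {a b c d : ℤ} {l : ℕ} (hl : 0 < l)
    (h : (e : ℤ) * a * d - e' * b * c = l) {τ : ℂ} (hτ : 0 < τ.im) :
    (6 * c * τ + e * d : ℂ) ≠ 0 ∧ 0 < ((e * a * τ + b) / (6 * c * τ + e * d) : ℂ).im := by
  have hepos : 0 < e := by
    rcases Nat.eq_zero_or_pos e with h0 | h0
    · simp [h0] at he
    · exact h0
  have heR : (0 : ℝ) < e := by exact_mod_cast hepos
  have hlR : (0 : ℝ) < l := by exact_mod_cast hl
  have heeR : (e : ℝ) * e' = 6 := by exact_mod_cast he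
  have hR : (e : ℝ) * a * d - e' * b * c = l := by exact_mod_cast h
  have hj : (6 * c * τ + e * d : ℂ) ≠ 0 := by
    intro h0
    have him := congrArg Complex.im h0
    have hre := congrArg Complex.re h0
    simp at him hre
    have hc : (c : ℝ) = 0 := by
      rcases him with h1 | h1
      · exact_mod_cast h1
      · exact absurd h1 hτ.ne'
    have hd : (d : ℝ) = 0 := by
      have hc' : c = 0 := by exact_mod_cast hc
      rw [hc'] at hre
      simp at hre
      rcases hre with h1 | h1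
      · exact absurd h1 hepos.ne'
      · exact_mod_cast h1
    rw [hc, hd] at hR
    simp at hR
    linarith
  refine ⟨hj, ?_⟩
  have hns : 0 < Complex.normSq (6 * c * τ + e * d) := Complex.normSq_pos.mpr hj
  have h1 : ((e * a * τ + b) / (6 * c * τ + e * d) : ℂ).im =
      (e * (e * a * d - e' * b * c) * τ.im) / Complex.normSq (6 * c * τ + e * d) := by
    rw [Complex.div_im]
    simp
    field_simp
    have h6 : (6 : ℝ) = e * e' := heeR.symm
    rw [h6]
    ring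
  rw [h1, hR]
  positivity

/-- The form used below. -/
private theorem E2c_AL' {g d1 e1 k e dl dl' : ℕ} (h6 : g * d1 * e1 * k = 6) (he : e = g * e1)
    (hdl : dl = g * d1) (hdl' : dl' = d1 * e1) {a b c d : ℤ}
    (h : (e : ℤ) * a * d - d1 * k * b * c = 1) {τ : ℂ} (hτ : 0 < τ.im) :
    (e : ℂ) * (dl * E2c (dl * ((e * a * τ + b) / (6 * c * τ + e * d)))) =
      dl' * (6 * c * τ + e * d) ^ 2 * E2c (dl' * τ)
        + 36 / (Real.pi * I) * c * (6 * c * τ + e * d) := by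
  subst he hdl hdl'
  push_cast at h ⊢
  exact E2c_AL h6 h hτ

private theorem FF_six (τ : ℂ) : 6 * FF τ = 3 * E2c (3 * τ) + 6 * E2c (6 * τ) - E2c (1 * τ) -
    2 * E2c (2 * τ) := by
  unfold FF E3c
  have h1 : 3 * (2 * τ) = 6 * τ := by ring
  rw [h1, one_mul]
  ring

theorem FF_AL {e e' : ℕ} (he : e * e' = 6) {a b c d : ℤ}
    (h : (e : ℤ) * a * d - e' * b * c = 1) {τ : ℂ} (hτ : 0 < τ.im) :
    e * FF ((e * a * τ + b) / (6 * c * τ + e * d)) = eps e * (6 * c * τ + e * d) ^ 2 * FF τ := by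
  have hle : e ∣ 6 := ⟨e', he.symm⟩
  have hle' : e ≤ 6 := Nat.le_of_dvd (by norm_num) hle
  have h6 : ∀ x : ℂ, FF x = (6 * FF x) / 6 := fun x => by ring
  have hcases : (e = 1 ∧ e' = 6) ∨ (e = 2 ∧ e' = 3) ∨ (e = 3 ∧ e' = 2) ∨ (e = 6 ∧ e' = 1) := by
    have he0 : 0 < e := Nat.pos_of_dvd_of_pos hle (by norm_num)
    interval_cases e <;> omega
  rcases hcases with ⟨rfl, rfl⟩ | ⟨rfl, rfl⟩ | ⟨rfl, rfl⟩ | ⟨rfl, rfl⟩
  · have k1 := E2c_AL' (g := 1) (d1 := 1) (e1 := 1) (k := 6) (e := 1) (dl := 1) (dl' := 1)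
      rfl rfl rfl rfl (a := a) (b := b) (c := c) (d := d) (by push_cast at h ⊢; linarith) hτ
    have k2 := E2c_AL' (g := 1) (d1 := 2) (e1 := 1) (k := 3) (e := 1) (dl := 2) (dl' := 2)
      rfl rfl rfl rfl (a := a) (b := b) (c := c) (d := d) (by push_cast at h ⊢; linarith) hτ
    have k3 := E2c_AL' (g := 1) (d1 := 3) (e1 := 1) (k := 2) (e := 1) (dl := 3) (dl' := 3)
      rfl rfl rfl rfl (a := a) (b := b) (c := c) (d := d) (by push_cast at h ⊢; linarith) hτ
    have k6 := E2c_AL' (g := 1) (d1 := 6) (e1 := 1) (k := 1) (e := 1) (dl := 6) (dl' := 6)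
      rfl rfl rfl rfl (a := a) (b := b) (c := c) (d := d) (by push_cast at h ⊢; linarith) hτ
    rw [h6 ((_ : ℂ) / _), h6 τ, FF_six, FF_six]
    have heps : eps 1 = 1 := by simp [eps]
    rw [heps]
    push_cast at k1 k2 k3 k6 ⊢
    linear_combination (k3 + k6 - k1 - k2) / 6
  · have k1 := E2c_AL' (g := 1) (d1 := 1) (e1 := 2) (k := 3) (e := 2) (dl := 1) (dl' := 2)
      rfl rfl rfl rfl (a := a) (b := b) (c := c) (d := d) (by push_cast at h ⊢; linarith) hτ
    have k2 := E2c_AL' (g := 2) (d1 := 1) (e1 := 1) (k := 3) (e := 2) (dl := 2) (dl' := 1)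
      rfl rfl rfl rfl (a := a) (b := b) (c := c) (d := d) (by push_cast at h ⊢; linarith) hτ
    have k3 := E2c_AL' (g := 1) (d1 := 3) (e1 := 2) (k := 1) (e := 2) (dl := 3) (dl' := 6)
      rfl rfl rfl rfl (a := a) (b := b) (c := c) (d := d) (by push_cast at h ⊢; linarith) hτ
    have k6 := E2c_AL' (g := 2) (d1 := 3) (e1 := 1) (k := 1) (e := 2) (dl := 6) (dl' := 3)
      rfl rfl rfl rfl (a := a) (b := b) (c := c) (d := d) (by push_cast at h ⊢; linarith) hτ
    rw [h6 ((_ : ℂ) / _), h6 τ, FF_six, FF_six]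
    have heps : eps 2 = 1 := by simp [eps]
    rw [heps]
    push_cast at k1 k2 k3 k6 ⊢
    linear_combination (k3 + k6 - k1 - k2) / 6
  · have k1 := E2c_AL' (g := 1) (d1 := 1) (e1 := 3) (k := 2) (e := 3) (dl := 1) (dl' := 3)
      rfl rfl rfl rfl (a := a) (b := b) (c := c) (d := d) (by push_cast at h ⊢; linarith) hτ
    have k2 := E2c_AL' (g := 1) (d1 := 2) (e1 := 3) (k := 1) (e := 3) (dl := 2) (dl' := 6)
      rfl rfl rfl rfl (a := a) (b := b) (c := c) (d := d) (by push_cast at h ⊢; linarith) hτ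
    have k3 := E2c_AL' (g := 3) (d1 := 1) (e1 := 1) (k := 2) (e := 3) (dl := 3) (dl' := 1)
      rfl rfl rfl rfl (a := a) (b := b) (c := c) (d := d) (by push_cast at h ⊢; linarith) hτ
    have k6 := E2c_AL' (g := 3) (d1 := 2) (e1 := 1) (k := 1) (e := 3) (dl := 6) (dl' := 2)
      rfl rfl rfl rfl (a := a) (b := b) (c := c) (d := d) (by push_cast at h ⊢; linarith) hτ
    rw [h6 ((_ : ℂ) / _), h6 τ, FF_six, FF_six]
    have heps : eps 3 = -1 := by simp [eps]
    rw [heps]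
    push_cast at k1 k2 k3 k6 ⊢
    linear_combination (k3 + k6 - k1 - k2) / 6
  · have k1 := E2c_AL' (g := 1) (d1 := 1) (e1 := 6) (k := 1) (e := 6) (dl := 1) (dl' := 6)
      rfl rfl rfl rfl (a := a) (b := b) (c := c) (d := d) (by push_cast at h ⊢; linarith) hτ
    have k2 := E2c_AL' (g := 2) (d1 := 1) (e1 := 3) (k := 1) (e := 6) (dl := 2) (dl' := 3)
      rfl rfl rfl rfl (a := a) (b := b) (c := c) (d := d) (by push_cast at h ⊢; linarith) hτ
    have k3 := E2c_AL' (g := 3) (d1 := 1) (e1 := 2) (k := 1) (e := 6) (dl := 3) (dl' := 2)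
      rfl rfl rfl rfl (a := a) (b := b) (c := c) (d := d) (by push_cast at h ⊢; linarith) hτ
    have k6 := E2c_AL' (g := 6) (d1 := 1) (e1 := 1) (k := 1) (e := 6) (dl := 6) (dl' := 1)
      rfl rfl rfl rfl (a := a) (b := b) (c := c) (d := d) (by push_cast at h ⊢; linarith) hτ
    rw [h6 ((_ : ℂ) / _), h6 τ, FF_six, FF_six]
    have heps : eps 6 = -1 := by simp [eps]
    rw [heps]
    push_cast at k1 k2 k3 k6 ⊢
    linear_combination (k3 + k6 - k1 - k2) / 6

end Pool.Agent.Lib.Z32
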