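import Pool.Agent.Lib.MP_ad286f_nt.ZLoc

/-!
# Module AlgAB: two roots with product `p^2`

PROOF. `s = al ::ₘ be ::ₘ s'`, so `e_(k+2)(s) = e_(k+2)(s') + t e_(k+1)(s') + p^2 e_k(s')`. By induction
`e_k(s')` is in `ZL p`. The cardinality of `s'` is `p - 1`, so `e_(p+1)(s) = p^2 e_(p-1)(s')`,
`e_(p-1)(s') = de`, `e_p(s) = t de + p^2 e_(p-2)(s')`.
-/

namespace Pool.Agent.Lib.Z32

private theorem ab_cons (x : ℂ) (s : Multiset ℂ) (k : ℕ) :
    (x ::ₘ s).esymm (k + 1) = s.esymm (k + 1) + x * s.esymm k := by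
  simp only [Multiset.esymm, Multiset.powersetCard_cons, Multiset.map_add, Multiset.sum_add,
    Multiset.map_map, Function.comp_def, Multiset.prod_cons, Multiset.sum_map_mul_left]

private theorem ab_big {s : Multiset ℂ} {k : ℕ} (h : Multiset.card s < k) : s.esymm k = 0 := by
  simp [Multiset.esymm, Multiset.powersetCard_eq_empty k h]

theorem alg_ab {p : ℕ} [Fact p.Prime] (hp : 3 < p) {s : Multiset ℂ} (hs : Multiset.card s = p + 1)
    (h : ∀ k, s.esymm k ∈ ZL p) {al be t de : ℂ} (ha : al ∈ s) (hb : be ∈ s) (hne : al ≠ be)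
    (ht : t ∈ ZL p) (h1 : al + be = t) (h2 : al * be = (p : ℂ) ^ 2)
    (h3 : s.esymm (p + 1) = (p : ℂ) ^ 2 * de) :
    ∃ r ∈ ZL p, s.esymm p = t * de + (p : ℂ) ^ 2 * r := by
  obtain ⟨s1, rfl⟩ := Multiset.exists_cons_of_mem ha
  have hb1 : be ∈ s1 := by
    rcases Multiset.mem_cons.mp hb with h | h
    · exact absurd h.symm hne
    · exact h
  obtain ⟨s', rfl⟩ := Multiset.exists_cons_of_mem hb1
  have hcard : Multiset.card s' = p - 1 := by
    simp only [Multiset.card_cons] at hs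
    omega
  have key : ∀ k, (al ::ₘ be ::ₘ s').esymm (k + 2) =
      s'.esymm (k + 2) + t * s'.esymm (k + 1) + (p : ℂ) ^ 2 * s'.esymm k := by
    intro k
    rw [ab_cons, ab_cons be s' (k + 1), ab_cons be s' k, ← h1, ← h2]
    ring
  have hp2 : (p : ℂ) ^ 2 ∈ ZL p := Subring.pow_mem _ (ZL_nat p) 2
  have h0 : s'.esymm 0 = 1 := by simp [Multiset.esymm]
  have hmem : ∀ k, s'.esymm k ∈ ZL p ∧ s'.esymm (k + 1) ∈ ZL p := by
    intro k
    induction k with
    | zero =>
      refine ⟨by rw [h0]; exact Subring.one_mem _, ?_⟩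
      have e1 : (al ::ₘ be ::ₘ s').esymm 1 = s'.esymm 1 + t := by
        rw [ab_cons, ab_cons be s' 0, h0]
        have : (be ::ₘ s').esymm 0 = 1 := by simp [Multiset.esymm]
        rw [this, ← h1]
        ring
      have e2 : s'.esymm 1 = (al ::ₘ be ::ₘ s').esymm 1 - t := by rw [e1]; ring
      rw [zero_add, e2]
      exact Subring.sub_mem _ (h 1) ht
    | succ k ih =>
      refine ⟨ih.2, ?_⟩
      have e2 : s'.esymm (k + 1 + 1) = (al ::ₘ be ::ₘ s').esymm (k + 2)
          - t * s'.esymm (k + 1) - (p : ℂ) ^ 2 * s'.esymm k := by rw [key k]; ring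
      rw [e2]
      exact Subring.sub_mem _ (Subring.sub_mem _ (h _) (Subring.mul_mem _ ht ih.2))
        (Subring.mul_mem _ hp2 ih.1)
  have hp0 : (p : ℂ) ^ 2 ≠ 0 := by
    have : (p : ℂ) ≠ 0 := by exact_mod_cast (by omega : p ≠ 0)
    exact pow_ne_zero 2 this
  have e1 := key (p - 1)
  rw [show p - 1 + 2 = p + 1 by omega, show p - 1 + 1 = p by omega,
    ab_big (s := s') (k := p + 1) (by omega), ab_big (s := s') (k := p) (by omega), h3] at e1
  have e2 : de = s'.esymm (p - 1) := by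
    apply mul_left_cancel₀ hp0
    rw [e1]; ring
  have e3 := key (p - 2)
  rw [show p - 2 + 2 = p by omega, show p - 2 + 1 = p - 1 by omega,
    ab_big (s := s') (k := p) (by omega), ← e2] at e3
  exact ⟨s'.esymm (p - 2), (hmem (p - 2)).1, by rw [e3]; ring⟩

end Pool.Agent.Lib.Z32
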