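import Mathlib

/-!
Franel numbers `f_n = ∑ C(n,k)^3`: the three term recurrence (certificate) and MacMahon's formula.
-/

namespace MPad286f

open Finset

/-- The Franel numbers. -/
def fr (n : ℕ) : ℕ := ∑ k ∈ range (n + 1), (n.choose k) ^ 3

private def cq (N k : ℤ) : ℤ :=
  4 * k ^ 3 - 6 * (3 * N + 2) * k ^ 2 + 3 * (N + 1) * (9 * N + 4) * k - 2 * (N + 1) ^ 2 * (7 * N + 2)

private lemma cert_key (N k d e : ℤ) (h : k * d = (N + 1 - k) * e) :
    N * (N + 1) ^ 2 * (d + e) ^ 3 - N * (7 * N ^ 2 + 7 * N + 2) * d ^ 3 - 8 * ((N - k) * d) ^ 3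
      = cq N (k + 1) * d ^ 3 - cq N k * e ^ 3 := by
  unfold cq
  linear_combination (((N + 1) * (4 - 5 * N) - (2 * N + 8) * (N + 1 - k) + 4 * (N + 1 - k) ^ 2) * d ^ 2
    + (3 * (N + 1) * N + (4 - 2 * N) * (N + 1 - k) - 4 * (N + 1 - k) ^ 2) * d * e
    + (3 * (N + 1) * N + 6 * N * (N + 1 - k) + 4 * (N + 1 - k) ^ 2) * e ^ 2) * h

private lemma fr_ext (n m : ℕ) (h : n + 1 ≤ m) : fr n = ∑ k ∈ range m, (n.choose k) ^ 3 := by
  unfold fr
  apply Finset.sum_subset
  · intro x hx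
    simp only [Finset.mem_range] at hx ⊢
    omega
  · intro x _ hx
    simp only [Finset.mem_range, not_lt] at hx
    rw [Nat.choose_eq_zero_of_lt (by omega)]
    simp

/-- The shifted binomial coefficient `C(N, k-1)`. -/
private def pc (N : ℕ) : ℕ → ℤ
  | 0 => 0
  | k + 1 => (N.choose k : ℤ)

private lemma pc_rel (N k : ℕ) : (k : ℤ) * (N.choose k : ℤ) = ((N : ℤ) + 1 - k) * pc N k := by
  cases k with
  | zero => simp [pc]
  | succ k =>
    simp only [pc]
    have h := Nat.choose_succ_right_eq N k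
    rcases le_or_gt k N with hk | hk
    · have h2 : ((N.choose (k + 1) * (k + 1) : ℕ) : ℤ) = ((N.choose k * (N - k) : ℕ) : ℤ) := by rw [h]
      push_cast [Nat.cast_sub hk] at h2
      push_cast
      linear_combination h2
    · rw [Nat.choose_eq_zero_of_lt hk, Nat.choose_eq_zero_of_lt (by omega)]
      simp

private lemma pc_add (N k : ℕ) : (((N + 1).choose k : ℕ) : ℤ) = (N.choose k : ℤ) + pc N k := by
  cases k with
  | zero => simp [pc]
  | succ k =>
    simp only [pc]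
    rw [Nat.choose_succ_succ]
    push_cast
    ring

lemma low_rel (n k : ℕ) :
    ((n : ℤ) + 1) * (n.choose k : ℤ) = ((n : ℤ) + 1 - k) * ((n + 1).choose k : ℤ) := by
  have h := Nat.choose_mul_succ_eq n k
  rcases le_or_gt k (n + 1) with hk | hk
  · have h2 : ((n.choose k * (n + 1) : ℕ) : ℤ) = (((n + 1).choose k * (n + 1 - k) : ℕ) : ℤ) := by rw [h]
    push_cast [Nat.cast_sub hk] at h2
    linear_combination h2
  · rw [Nat.choose_eq_zero_of_lt (show n + 1 < k by omega), Nat.choose_eq_zero_of_lt (show n < k by omega)]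
    simp

/-- The Franel recurrence, in the form with `N = n + 1`. -/
theorem fr_rec (n : ℕ) :
    ((n : ℤ) + 2) ^ 2 * (fr (n + 2) : ℤ)
      = (7 * ((n : ℤ) + 1) ^ 2 + 7 * ((n : ℤ) + 1) + 2) * (fr (n + 1) : ℤ)
        + 8 * ((n : ℤ) + 1) ^ 2 * (fr n : ℤ) := by
  have hN : ((n : ℤ) + 1) ≠ 0 := by positivity
  have e2 : (fr (n + 2) : ℤ) = ∑ k ∈ range (n + 3), (((n + 1).choose k : ℤ) + pc (n + 1) k) ^ 3 := by
    rw [fr_ext (n + 2) (n + 3) (by omega)]
    push_cast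
    refine Finset.sum_congr rfl fun k _ => ?_
    rw [← pc_add]
  have e1 : (fr (n + 1) : ℤ) = ∑ k ∈ range (n + 3), ((n + 1).choose k : ℤ) ^ 3 := by
    rw [fr_ext (n + 1) (n + 3) (by omega)]
    push_cast
    rfl
  have e0 : ((n : ℤ) + 1) ^ 3 * (fr n : ℤ)
      = ∑ k ∈ range (n + 3), (((n : ℤ) + 1 - k) * ((n + 1).choose k : ℤ)) ^ 3 := by
    rw [fr_ext n (n + 3) (by omega)]
    push_cast
    rw [Finset.mul_sum]
    refine Finset.sum_congr rfl fun k _ => ?_
    rw [← low_rel]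
    ring
  have tele : ∑ k ∈ range (n + 3), (cq ((n : ℤ) + 1) ((k : ℤ) + 1) * ((n + 1).choose k : ℤ) ^ 3
      - cq ((n : ℤ) + 1) (k : ℤ) * pc (n + 1) k ^ 3) = 0 := by
    have h := Finset.sum_range_sub (fun k : ℕ => cq ((n : ℤ) + 1) (k : ℤ) * pc (n + 1) k ^ 3) (n + 3)
    have h2 : ∀ k : ℕ, cq ((n : ℤ) + 1) ((k : ℤ) + 1) * ((n + 1).choose k : ℤ) ^ 3
      = cq ((n : ℤ) + 1) ((k + 1 : ℕ) : ℤ) * pc (n + 1) (k + 1) ^ 3 := by
      intro k
      simp only [pc]
      push_cast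
      ring
    rw [Finset.sum_congr rfl (fun k _ => by rw [h2 k])]
    rw [h]
    simp only [pc]
    rw [Nat.choose_eq_zero_of_lt (show n + 1 < n + 2 by omega)]
    simp
  have main : ∀ k ∈ range (n + 3),
      ((n : ℤ) + 1) * ((n : ℤ) + 2) ^ 2 * (((n + 1).choose k : ℤ) + pc (n + 1) k) ^ 3
        - ((n : ℤ) + 1) * (7 * ((n : ℤ) + 1) ^ 2 + 7 * ((n : ℤ) + 1) + 2) * ((n + 1).choose k : ℤ) ^ 3
        - 8 * (((n : ℤ) + 1 - k) * ((n + 1).choose k : ℤ)) ^ 3
      = cq ((n : ℤ) + 1) ((k : ℤ) + 1) * ((n + 1).choose k : ℤ) ^ 3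
      - cq ((n : ℤ) + 1) (k : ℤ) * pc (n + 1) k ^ 3 := by
    intro k _
    have h := cert_key ((n : ℤ) + 1) k ((n + 1).choose k : ℤ) (pc (n + 1) k) (by
      have := pc_rel (n + 1) k
      push_cast at this
      linear_combination this)
    rw [← h]
    ring
  have hs := Finset.sum_congr rfl main
  rw [tele, Finset.sum_sub_distrib, Finset.sum_sub_distrib, ← Finset.mul_sum, ← Finset.mul_sum,
    ← Finset.mul_sum, ← e2, ← e1, ← e0] at hs
  have h3 : ((n : ℤ) + 1) * (((n : ℤ) + 2) ^ 2 * (fr (n + 2) : ℤ))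
      = ((n : ℤ) + 1) * ((7 * ((n : ℤ) + 1) ^ 2 + 7 * ((n : ℤ) + 1) + 2) * (fr (n + 1) : ℤ)
        + 8 * ((n : ℤ) + 1) ^ 2 * (fr n : ℤ)) := by
    linear_combination hs
  exact mul_left_cancel₀ hN h3

lemma fr_zero : fr 0 = 1 := by simp [fr]
lemma fr_one : fr 1 = 2 := by simp [fr, Finset.sum_range_succ]

/-! ### MacMahon's formula -/

/-- Inverse factorial on the integers (zero at negative integers). -/
private noncomputable def phi (k : ℤ) : ℚ := if k < 0 then 0 else 1 / ((k.toNat).factorial : ℚ)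

private lemma phi_pred (k : ℤ) : phi (k - 1) = k * phi k := by
  unfold phi
  rcases lt_trichotomy k 0 with h | h | h
  · rw [if_pos (by omega), if_pos h, mul_zero]
  · subst h
    simp
  · rw [if_neg (by omega), if_neg (by omega)]
    obtain ⟨m, rfl⟩ : ∃ m : ℕ, k = m + 1 := ⟨(k - 1).toNat, by omega⟩
    have h1 : ((m : ℤ) + 1 - 1).toNat = m := by omega
    have h2 : ((m : ℤ) + 1).toNat = m + 1 := by omega
    rw [h1, h2, Nat.factorial_succ]
    have hm : ((m.factorial : ℕ) : ℚ) ≠ 0 := by exact_mod_cast Nat.factorial_ne_zero m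
    have hm1 : ((m : ℚ) + 1) ≠ 0 := by positivity
    push_cast
    field_simp

private lemma phi_neg (k : ℤ) (h : k < 0) : phi k = 0 := by
  unfold phi
  rw [if_pos h]

private lemma phi_nat (k : ℕ) : phi (k : ℤ) = 1 / (k.factorial : ℚ) := by
  unfold phi
  rw [if_neg (by omega)]
  simp

private noncomputable def mT (n j : ℕ) : ℚ :=
  ((n + j).factorial : ℚ) * phi ((n : ℤ) - 2 * j) * phi (j : ℤ) ^ 3 * (2 : ℚ) ^ n / 4 ^ j

private noncomputable def mS (n j : ℕ) : ℚ :=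
  ((n + j).factorial : ℚ) * phi ((n : ℤ) + 2 - 2 * j) * phi (j : ℤ) ^ 3 * (2 : ℚ) ^ n / 4 ^ j

private lemma mT0 (n j : ℕ) :
    mT n j = ((n : ℚ) + 1 - 2 * j) * ((n : ℚ) + 2 - 2 * j) * mS n j := by
  unfold mT mS
  have h1 := phi_pred ((n : ℤ) + 1 - 2 * j)
  have h2 := phi_pred ((n : ℤ) + 2 - 2 * j)
  have a1 : (n : ℤ) + 1 - 2 * j - 1 = n - 2 * j := by ring
  have a2 : (n : ℤ) + 2 - 2 * j - 1 = n + 1 - 2 * j := by ring
  rw [a1] at h1
  rw [a2] at h2
  rw [h1, h2]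
  push_cast
  ring

private lemma mT1 (n j : ℕ) :
    mT (n + 1) j = ((n : ℚ) + 1 + j) * ((n : ℚ) + 2 - 2 * j) * 2 * mS n j := by
  unfold mT mS
  have h2 := phi_pred ((n : ℤ) + 2 - 2 * j)
  have a2 : (n : ℤ) + 2 - 2 * j - 1 = ((n + 1 : ℕ) : ℤ) - 2 * j := by push_cast; ring
  rw [a2] at h2
  have a3 : n + 1 + j = (n + j) + 1 := by ring
  rw [h2, a3, Nat.factorial_succ]
  push_cast
  ring

private lemma mT2 (n j : ℕ) :
    mT (n + 2) j = ((n : ℚ) + 2 + j) * ((n : ℚ) + 1 + j) * 4 * mS n j := by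
  unfold mT mS
  have a2 : ((n + 2 : ℕ) : ℤ) - 2 * j = (n : ℤ) + 2 - 2 * j := by push_cast; ring
  have a3 : n + 2 + j = (n + j) + 1 + 1 := by ring
  rw [a2, a3, Nat.factorial_succ, Nat.factorial_succ]
  push_cast
  ring

private lemma mS_succ (n j : ℕ) :
    ((j : ℚ) + 1) ^ 3 * mS n (j + 1)
      = ((n : ℚ) + j + 1) * ((n : ℚ) + 1 - 2 * j) * ((n : ℚ) + 2 - 2 * j) / 4 * mS n j := by
  unfold mS
  have h1 := phi_pred ((n : ℤ) + 1 - 2 * j)
  have h2 := phi_pred ((n : ℤ) + 2 - 2 * j)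
  have h3 := phi_pred ((j : ℤ) + 1)
  have a1 : (n : ℤ) + 1 - 2 * j - 1 = n + 2 - 2 * ((j + 1 : ℕ) : ℤ) := by push_cast; ring
  have a2 : (n : ℤ) + 2 - 2 * j - 1 = n + 1 - 2 * j := by ring
  have a4 : (j : ℤ) + 1 - 1 = j := by ring
  rw [a1] at h1
  rw [a2] at h2
  rw [a4] at h3
  have a5 : ((j + 1 : ℕ) : ℤ) = (j : ℤ) + 1 := by push_cast; ring
  have a3 : n + (j + 1) = (n + j) + 1 := by ring
  rw [h1, h2, h3, a3, Nat.factorial_succ, a5]
  push_cast
  ring

private lemma m_cert (n j : ℕ) :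
    ((n : ℚ) + 2) ^ 2 * mT (n + 2) j
      - (7 * ((n : ℚ) + 1) ^ 2 + 7 * ((n : ℚ) + 1) + 2) * mT (n + 1) j
      - 8 * ((n : ℚ) + 1) ^ 2 * mT n j
    = -24 * (3 * n + 4) * (((j + 1 : ℕ) : ℚ) ^ 3 * mS n (j + 1))
      - -24 * (3 * n + 4) * ((j : ℚ) ^ 3 * mS n j) := by
  have h := mS_succ n j
  push_cast
  rw [h, mT2 n j, mT1 n j, mT0 n j]
  ring

private noncomputable def mg (n : ℕ) : ℚ := ∑ j ∈ range (n + 1), mT n j

private lemma mT_zero (n j : ℕ) (h : n < 2 * j) : mT n j = 0 := by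
  unfold mT
  rw [phi_neg _ (by omega)]
  simp

private lemma mg_ext (n m : ℕ) (h : n + 1 ≤ m) : mg n = ∑ j ∈ range m, mT n j := by
  unfold mg
  apply Finset.sum_subset
  · intro x hx
    simp only [Finset.mem_range] at hx ⊢
    omega
  · intro x _ hx
    simp only [Finset.mem_range, not_lt] at hx
    exact mT_zero _ _ (by omega)

private lemma mg_rec (n : ℕ) :
    ((n : ℚ) + 2) ^ 2 * mg (n + 2)
      = (7 * ((n : ℚ) + 1) ^ 2 + 7 * ((n : ℚ) + 1) + 2) * mg (n + 1)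
        + 8 * ((n : ℚ) + 1) ^ 2 * mg n := by
  have hs := Finset.sum_congr rfl (fun j (_ : j ∈ range (n + 3)) => m_cert n j)
  rw [Finset.sum_sub_distrib, Finset.sum_sub_distrib, ← Finset.mul_sum, ← Finset.mul_sum,
    ← Finset.mul_sum, ← mg_ext (n + 2) (n + 3) (by omega), ← mg_ext (n + 1) (n + 3) (by omega),
    ← mg_ext n (n + 3) (by omega)] at hs
  have ht := Finset.sum_range_sub
    (fun j : ℕ => -24 * (3 * (n : ℚ) + 4) * ((j : ℚ) ^ 3 * mS n j)) (n + 3)
  rw [ht] at hs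
  have hz : mS n (n + 3) = 0 := by
    unfold mS
    rw [phi_neg _ (by push_cast; omega)]
    simp
  rw [hz] at hs
  norm_num at hs
  linear_combination hs

private lemma mg_eq (n : ℕ) : mg n = (fr n : ℚ) := by
  induction n using Nat.strong_induction_on with
  | _ n ih =>
    match n with
    | 0 =>
      rw [fr_zero]
      unfold mg mT
      have := phi_nat 0
      simp only [Nat.cast_zero] at this
      simp [this]
    | 1 =>
      rw [fr_one]
      unfold mg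
      rw [Finset.sum_range_succ, Finset.sum_range_one, mT_zero 1 1 (by omega)]
      unfold mT
      have h0 := phi_nat 0
      have h1 := phi_nat 1
      simp only [Nat.cast_zero, Nat.cast_one] at h0 h1
      simp [h0, h1]
    | n + 2 =>
      have r1 := mg_rec n
      rw [ih n (by omega), ih (n + 1) (by omega)] at r1
      have r2 : (((n : ℤ) + 2) ^ 2 * (fr (n + 2) : ℤ) : ℚ)
        = (7 * ((n : ℤ) + 1) ^ 2 + 7 * ((n : ℤ) + 1) + 2) * (fr (n + 1) : ℤ)
        + 8 * ((n : ℤ) + 1) ^ 2 * (fr n : ℤ) := by exact_mod_cast fr_rec n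
      push_cast at r2
      rw [← r2] at r1
      have hn : ((n : ℚ) + 2) ^ 2 ≠ 0 := by positivity
      exact mul_left_cancel₀ hn r1

/-- The trinomial coefficient `(3j)!/j!^3`. -/
def tc (j : ℕ) : ℕ := (3 * j).choose j * (2 * j).choose j

lemma tc_fact (j : ℕ) : tc j * (j.factorial) ^ 3 = (3 * j).factorial := by
  unfold tc
  have h1 := Nat.choose_mul_factorial_mul_factorial (show j ≤ 3 * j by omega)
  have h2 := Nat.choose_mul_factorial_mul_factorial (show j ≤ 2 * j by omega)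
  have a1 : 3 * j - j = 2 * j := by omega
  have a2 : 2 * j - j = j := by omega
  rw [a1] at h1
  rw [a2] at h2
  rw [← h1, ← h2]
  ring

private lemma mT_eq (n j : ℕ) :
    mT n j = (((n + j).choose (3 * j) * tc j : ℕ) : ℚ) * 2 ^ n / 4 ^ j := by
  rcases le_or_gt (2 * j) n with h | h
  · unfold mT
    have a1 : (n : ℤ) - 2 * j = ((n - 2 * j : ℕ) : ℤ) := by omega
    rw [a1, phi_nat, phi_nat]
    have h1 := Nat.choose_mul_factorial_mul_factorial (show 3 * j ≤ n + j by omega)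
    have a2 : n + j - 3 * j = n - 2 * j := by omega
    rw [a2, ← tc_fact] at h1
    have h2 : (((n + j).choose (3 * j) * (tc j * j.factorial ^ 3) * (n - 2 * j).factorial : ℕ) : ℚ)
      = (((n + j).factorial : ℕ) : ℚ) := by rw [h1]
    push_cast at h2 ⊢
    have f1 : ((j.factorial : ℕ) : ℚ) ≠ 0 := by exact_mod_cast Nat.factorial_ne_zero _
    have f2 : (((n - 2 * j).factorial : ℕ) : ℚ) ≠ 0 := by exact_mod_cast Nat.factorial_ne_zero _
    rw [← h2]
    field_simp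
  · rw [mT_zero n j h, Nat.choose_eq_zero_of_lt (by omega)]
    simp

/-- MacMahon's formula for the Franel numbers (cleared of denominators). -/
theorem macmahon (n : ℕ) :
    4 ^ n * fr n = ∑ j ∈ range (n + 1), (n + j).choose (3 * j) * tc j * 2 ^ n * 4 ^ (n - j) := by
  have h : ((4 ^ n * fr n : ℕ) : ℚ)
      = ((∑ j ∈ range (n + 1), (n + j).choose (3 * j) * tc j * 2 ^ n * 4 ^ (n - j) : ℕ) : ℚ) := by
    push_cast
    rw [← mg_eq]
    unfold mg
    rw [Finset.mul_sum]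
    refine Finset.sum_congr rfl fun j hj => ?_
    rw [mT_eq]
    have hj' : j ≤ n := by
      simp only [Finset.mem_range] at hj
      omega
    have : (4 : ℚ) ^ n = 4 ^ (n - j) * 4 ^ j := by
      rw [← pow_add]
      congr 1
      omega
    rw [this]
    push_cast
    field_simp
  exact_mod_cast h

end MPad286f
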