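import Pool.Agent.Lib.MP_ad286f_nt.E2Tr

/-!
# Module FTr (about 250 lines): transformation and q-expansion of `E3c`, `F`, `D`

`E3c` is the level 3 form `(3E2(3t) - E2(t))/2 = 1 + 12 s`. From `E2c_tr`, `kappa = 6/(pi i)`:
* `gamma = (a,b;c,d)`, `ad - bc = 1`, `3 | c`: `3 E2(3 gamma t) = (ct+d)^2 3E2(3t) + kappa c (ct+d)`
  (matrix `(a,3b;c/3,d)` at `3t`), so `E3c(gamma t) = (ct+d)^2 E3c(t)`.
* `E3c(-1/(3t)) = -3t^2 E3c(t)`.
* `W6 t = -1/(6t) = -1/(3(2t))`: `E3c(W6 t) = -12 t^2 E3c(2t) = J6 * 2 E3c(2t)`,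
  `2 W6 t = -1/(3t)`: `2 E3c(2 W6 t) = -6t^2 E3c(t) = J6 * E3c(t)`.
* `W3 t = (3t-2)/(6t-3) = W(g t)`, `W u = -1/(3u)`, `g = (2,-1;-3,2)`, `g t = (2t-1)/(-3t+2)`:
  `E3c(W3 t) = -3 (g t)^2 (-3t+2)^2 E3c(t) = -3(2t-1)^2 E3c(t) = J3 E3c(t)`;
  `2 W3 t = W(g' (2t))`, `g' = (1,-1;-3,4)`, `g'(2t) = (2t-1)/(-6t+4)`: `E3c(2 W3 t) = J3 E3c(2t)`.
* `gamma` in `Gamma_0(6)`: `2 gamma t = (a,2b;c/2,d)(2t)`, `3 | c/2`: `E3c(2 gamma t) = (ct+d)^2 E3c(2t)`.
The statements for `FF`, `DD` follow. The `q`-expansions: `E3c = 1 + 12 s`, `E3c(2t) = 1 + 12 t`.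
-/

namespace Pool.Agent.Lib.Z32

open Complex

private theorem ftr_den {a b c d : ℤ} (h : a * d - b * c = 1) {τ : ℂ} (hτ : 0 < τ.im) :
    (c : ℂ) * τ + d ≠ 0 := by
  intro h0
  have him := congrArg Complex.im h0
  have hre := congrArg Complex.re h0
  simp at him hre
  rcases him with hc | hc
  · subst hc
    simp at hre
    subst hre
    simp at h
  · exact absurd hc hτ.ne'

private theorem ftr_im {a b c d : ℤ} (h : a * d - b * c = 1) {τ : ℂ} (hτ : 0 < τ.im) :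
    0 < (((a : ℂ) * τ + b) / ((c : ℂ) * τ + d)).im := by
  have hne := ftr_den h hτ
  have hn : 0 < Complex.normSq ((c : ℂ) * τ + d) := Complex.normSq_pos.2 hne
  rw [Complex.div_im, ← sub_div]
  refine div_pos ?_ hn
  have hR : (a : ℝ) * d - b * c = 1 := by exact_mod_cast h
  have e : ((a : ℂ) * τ + b).im * ((c : ℂ) * τ + d).re - ((a : ℂ) * τ + b).re * ((c : ℂ) * τ + d).im =
      τ.im := by
    simp
    linear_combination τ.im * hR
  rw [e]
  exact hτ

private theorem ftr_gam {a b c d : ℤ} (h : a * d - b * c = 1) (h3 : 3 ∣ c) {τ : ℂ} (hτ : 0 < τ.im) :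
    E3c ((a * τ + b) / (c * τ + d)) = (c * τ + d) ^ 2 * E3c τ := by
  obtain ⟨c', rfl⟩ := h3
  have hne := ftr_den h hτ
  have h1 := E2c_tr h hτ
  have hτ3 : 0 < ((3 : ℂ) * τ).im := by
    simpa using hτ
  have h2 := E2c_tr (a := a) (b := 3 * b) (c := c') (d := d) (by linarith) hτ3
  have e1 : (a * (3 * τ) + ((3 * b : ℤ) : ℂ)) / (c' * (3 * τ) + d) =
      3 * ((a * τ + b) / (((3 * c' : ℤ) : ℂ) * τ + d)) := by
    push_cast
    rw [← mul_div_assoc]
    congr 1 <;> ring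
  rw [e1] at h2
  unfold E3c
  rw [h1, h2]
  push_cast
  ring

private theorem ftr_W {τ : ℂ} (hτ : 0 < τ.im) : E3c (-1 / (3 * τ)) = -3 * τ ^ 2 * E3c τ := by
  have hτ0 : τ ≠ 0 := by
    rintro rfl
    simp at hτ
  have hτ3 : 0 < ((3 : ℂ) * τ).im := by
    simpa using hτ
  have h1 := E2c_tr (a := 0) (b := -1) (c := 1) (d := 0) (by norm_num) hτ
  have h2 := E2c_tr (a := 0) (b := -1) (c := 1) (d := 0) (by norm_num) hτ3
  have e1 : (((0 : ℤ) : ℂ) * τ + ((-1 : ℤ) : ℂ)) / (((1 : ℤ) : ℂ) * τ + ((0 : ℤ) : ℂ)) =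
      3 * (-1 / (3 * τ)) := by
    push_cast
    rw [zero_mul, zero_add, one_mul, add_zero]
    field_simp
  have e2 : (((0 : ℤ) : ℂ) * (3 * τ) + ((-1 : ℤ) : ℂ)) / (((1 : ℤ) : ℂ) * (3 * τ) + ((0 : ℤ) : ℂ)) =
      -1 / (3 * τ) := by
    push_cast
    ring
  rw [e1] at h1
  rw [e2] at h2
  unfold E3c
  rw [h1, h2]
  push_cast
  ring

private theorem ftr_C (n : ℕ) [n.AtLeastTwo] :
    (OfNat.ofNat n : PowerSeries ℂ) = PowerSeries.C (OfNat.ofNat n : ℂ) :=
  (map_ofNat (PowerSeries.C (R := ℂ)) n).symm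

private theorem ftr_CZ (n : ℕ) [n.AtLeastTwo] :
    (OfNat.ofNat n : PowerSeries ℤ) = PowerSeries.C (OfNat.ofNat n : ℤ) :=
  (map_ofNat (PowerSeries.C (R := ℤ)) n).symm

private theorem ftr_toC1 (A : PowerSeries ℤ) : toC (1 + 12 * A) = 1 + 12 * toC A := by
  unfold toC
  rw [map_add, map_one, map_mul, map_ofNat]

theorem E3c_qe : QEZ E3c (1 + 12 * AS) := by
  have h1 := E2c_qe
  have h2 := h1.exd (l := 3) (by norm_num)
  have h3 := (QE.const (1 / 2)).mul (((QE.const 3).mul h2).sub h1)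
  unfold QEZ
  have e : PowerSeries.C (1 / 2 : ℂ) * (PowerSeries.C (3 : ℂ) *
      ex 3 (PowerSeries.mk (fun n => if n = 0 then (1 : ℂ) else -24 * (sg n : ℂ))) -
      PowerSeries.mk (fun n => if n = 0 then (1 : ℂ) else -24 * (sg n : ℂ))) = toC (1 + 12 * AS) := by
    rw [ftr_toC1]
    ext n
    rw [PowerSeries.coeff_C_mul, map_sub, PowerSeries.coeff_C_mul, ex, PowerSeries.coeff_mk,
      PowerSeries.coeff_mk, PowerSeries.coeff_mk, map_add, ftr_C 12, PowerSeries.coeff_C_mul, toC,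
      PowerSeries.coeff_map, AS, PowerSeries.coeff_mk, PowerSeries.coeff_one]
    rcases Nat.eq_zero_or_pos n with rfl | hn
    · simp [sg]
      norm_num
    · have hn0 : n ≠ 0 := hn.ne'
      rw [if_neg hn0, if_neg hn0]
      by_cases h3n : 3 ∣ n
      · have hn3 : n / 3 ≠ 0 := by
          obtain ⟨m, rfl⟩ := h3n
          omega
        rw [if_pos h3n, if_neg hn3, if_pos h3n]
        simp
        ring
      · rw [if_neg h3n, if_neg h3n]
        simp
        ring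
  rw [← e]
  refine h3.congr (fun τ _ => ?_)
  unfold E3c
  push_cast
  ring

private theorem ftr_qe2 : QEZ (fun τ => E3c (2 * τ)) (1 + 12 * AT) := by
  have h1 := E3c_qe
  unfold QEZ at h1
  have h2 := h1.exd (l := 2) (by norm_num)
  unfold QEZ
  have e : ex 2 (toC (1 + 12 * AS)) = toC (1 + 12 * AT) := by
    rw [← toC_ex]
    congr 1
    ext n
    rw [ex, PowerSeries.coeff_mk, AT, map_add, map_add, ftr_CZ 12, PowerSeries.coeff_C_mul,
      PowerSeries.coeff_C_mul, ex, PowerSeries.coeff_mk, PowerSeries.coeff_one, PowerSeries.coeff_one]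
    by_cases h2n : 2 ∣ n
    · rw [if_pos h2n, if_pos h2n]
      have : (n / 2 = 0) ↔ n = 0 := by
        obtain ⟨m, rfl⟩ := h2n
        omega
      simp only [this]
    · rw [if_neg h2n, if_neg h2n]
      have : n ≠ 0 := by
        rintro rfl
        exact h2n (dvd_zero 2)
      rw [if_neg this]
      ring
  rw [← e]
  refine h2.congr (fun τ _ => ?_)
  push_cast
  ring

theorem E3c_W6 {τ : ℂ} (hτ : 0 < τ.im) : E3c (W6 τ) = J6 τ * (2 * E3c (2 * τ)) := by
  have hτ2 : 0 < ((2 : ℂ) * τ).im := by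
    simpa using hτ
  have h1 := ftr_W hτ2
  have e : W6 τ = -1 / (3 * (2 * τ)) := by
    unfold W6
    rw [← mul_assoc]
    norm_num
  rw [e, h1]
  unfold J6
  ring

theorem E3c_2W6 {τ : ℂ} (hτ : 0 < τ.im) : 2 * E3c (2 * W6 τ) = J6 τ * E3c τ := by
  have hτ0 : τ ≠ 0 := by
    rintro rfl
    simp at hτ
  have h1 := ftr_W hτ
  have e : 2 * W6 τ = -1 / (3 * τ) := by
    unfold W6
    field_simp
    norm_num
  rw [e, h1]
  unfold J6
  ring

private theorem ftr_a (N D : ℂ) (hN : N ≠ 0) (hD : D ≠ 0) :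
    -1 / (3 * (N / D)) = -D / (3 * N) := by
  field_simp

private theorem ftr_b (N D E : ℂ) (hD : D ≠ 0) :
    -3 * (N / D) ^ 2 * (D ^ 2 * E) = -3 * N ^ 2 * E := by
  field_simp

theorem E3c_W3 {τ : ℂ} (hτ : 0 < τ.im) : E3c (W3 τ) = J3 τ * E3c τ := by
  have hd : ((2 : ℤ)) * 2 - (-1) * (-3) = 1 := by norm_num
  have h1 := ftr_gam hd (by norm_num) hτ
  have him := ftr_im hd hτ
  have hne := ftr_den hd hτ
  have h2 := ftr_W him
  have hN : ((2 : ℤ) : ℂ) * τ + ((-1 : ℤ) : ℂ) ≠ 0 := by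
    intro h0
    have := congrArg Complex.im h0
    simp at this
    exact hτ.ne' this
  rw [ftr_a _ _ hN hne, h1, ftr_b _ _ _ hne] at h2
  have e : W3 τ = -(((-3 : ℤ) : ℂ) * τ + ((2 : ℤ) : ℂ)) / (3 * (((2 : ℤ) : ℂ) * τ + ((-1 : ℤ) : ℂ))) := by
    unfold W3
    push_cast
    congr 1 <;> ring
  rw [e, h2]
  unfold J3
  push_cast
  ring

theorem E3c_2W3 {τ : ℂ} (hτ : 0 < τ.im) : E3c (2 * W3 τ) = J3 τ * E3c (2 * τ) := by
  have hτ2 : 0 < ((2 : ℂ) * τ).im := by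
    simpa using hτ
  have hd : ((1 : ℤ)) * 4 - (-1) * (-3) = 1 := by norm_num
  have h1 := ftr_gam hd (by norm_num) hτ2
  have him := ftr_im hd hτ2
  have hne := ftr_den hd hτ2
  have h2 := ftr_W him
  have hN : ((1 : ℤ) : ℂ) * (2 * τ) + ((-1 : ℤ) : ℂ) ≠ 0 := by
    intro h0
    have := congrArg Complex.im h0
    simp at this
    exact hτ.ne' this
  rw [ftr_a _ _ hN hne, h1, ftr_b _ _ _ hne] at h2
  have e : 2 * W3 τ = -(((-3 : ℤ) : ℂ) * (2 * τ) + ((4 : ℤ) : ℂ)) /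
      (3 * (((1 : ℤ) : ℂ) * (2 * τ) + ((-1 : ℤ) : ℂ))) := by
    unfold W3
    push_cast
    rw [← mul_div_assoc]
    congr 1 <;> ring
  rw [e, h2]
  unfold J3
  push_cast
  ring

theorem FF_qe : QEZ FF AF := by
  have h1 := E3c_qe
  have h2 := ftr_qe2
  unfold QEZ at h1 h2 ⊢
  have h3 := (QE.const (1 / 3)).mul (h1.add ((QE.const 2).mul h2))
  have e : PowerSeries.C (1 / 3 : ℂ) * (toC (1 + 12 * AS) + PowerSeries.C 2 * toC (1 + 12 * AT)) =
      toC AF := by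
    rw [ftr_toC1, ftr_toC1]
    have e1 : toC AF = 1 + 4 * toC AS + 8 * toC AT := by
      unfold toC AF
      rw [map_add, map_add, map_one, map_mul, map_mul, map_ofNat, map_ofNat]
    rw [e1]
    have e2 : PowerSeries.C (1 / 3 : ℂ) * 3 = 1 := by
      rw [ftr_C 3, ← map_mul]
      norm_num
    rw [← ftr_C 2]
    linear_combination (1 + 4 * toC AS + 8 * toC AT) * e2
  rw [← e]
  refine h3.congr (fun τ _ => ?_)
  unfold FF
  ring

theorem DD_qe : QEZ DD AD := by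
  have h1 := E3c_qe
  have h2 := ftr_qe2
  unfold QEZ at h1 h2 ⊢
  have h3 := (QE.const (1 / 36)).mul ((h1.sub h2).mul (((QE.const 4).mul h2).sub h1))
  have e : PowerSeries.C (1 / 36 : ℂ) * ((toC (1 + 12 * AS) - toC (1 + 12 * AT)) *
      (PowerSeries.C 4 * toC (1 + 12 * AT) - toC (1 + 12 * AS))) = toC AD := by
    rw [ftr_toC1, ftr_toC1]
    have e1 : toC AD = (toC AS - toC AT) * (1 + 16 * toC AT - 4 * toC AS) := by
      unfold toC AD
      rw [map_mul, map_sub, map_sub, map_add, map_one, map_mul, map_mul, map_ofNat, map_ofNat]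
    rw [e1]
    have e2 : PowerSeries.C (1 / 36 : ℂ) * 36 = 1 := by
      rw [ftr_C 36, ← map_mul]
      norm_num
    rw [← ftr_C 4]
    linear_combination ((toC AS - toC AT) * (1 + 16 * toC AT - 4 * toC AS)) * e2
  rw [← e]
  refine h3.congr (fun τ _ => ?_)
  unfold DD
  ring

theorem FF_W6 {τ : ℂ} (hτ : 0 < τ.im) : FF (W6 τ) = J6 τ * FF τ := by
  unfold FF
  rw [E3c_2W6 hτ, E3c_W6 hτ]
  ring

theorem FF_W3 {τ : ℂ} (hτ : 0 < τ.im) : FF (W3 τ) = J3 τ * FF τ := by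
  unfold FF
  rw [E3c_2W3 hτ, E3c_W3 hτ]
  ring

theorem DD_W6 {τ : ℂ} (hτ : 0 < τ.im) : DD (W6 τ) = J6 τ ^ 2 * DD τ := by
  have h1 := E3c_W6 hτ
  have h2 : E3c (2 * W6 τ) = J6 τ * E3c τ / 2 := by
    linear_combination E3c_2W6 hτ / 2
  unfold DD
  rw [h1, h2]
  ring

theorem DD_W3 {τ : ℂ} (hτ : 0 < τ.im) : DD (W3 τ) = J3 τ ^ 2 * DD τ := by
  unfold DD
  rw [E3c_2W3 hτ, E3c_W3 hτ]
  ring

theorem FF_gam {a b c d : ℤ} (h : a * d - b * c = 1) (h6 : 6 ∣ c) {τ : ℂ} (hτ : 0 < τ.im) :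
    FF ((a * τ + b) / (c * τ + d)) = (c * τ + d) ^ 2 * FF τ := by
  obtain ⟨c', rfl⟩ := h6
  have hτ2 : 0 < ((2 : ℂ) * τ).im := by
    simpa using hτ
  have h1 := ftr_gam h (Dvd.dvd.mul_right (by norm_num) c') hτ
  have h2 := ftr_gam (a := a) (b := 2 * b) (c := 3 * c') (d := d) (by linarith)
    (dvd_mul_right 3 c') hτ2
  have e1 : (a * (2 * τ) + ((2 * b : ℤ) : ℂ)) / (((3 * c' : ℤ) : ℂ) * (2 * τ) + d) =
      2 * ((a * τ + b) / (((6 * c' : ℤ) : ℂ) * τ + d)) := by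
    push_cast
    rw [← mul_div_assoc]
    congr 1 <;> ring
  rw [e1] at h2
  unfold FF
  rw [h1, h2]
  push_cast
  ring

private theorem AS_c (n : ℕ) : PowerSeries.coeff n AS =
    (sg n : ℤ) - 3 * (if 3 ∣ n then (sg (n / 3) : ℤ) else 0) := by
  unfold AS
  rw [PowerSeries.coeff_mk]

private theorem AS0 : PowerSeries.coeff 0 AS = 0 := by rw [AS_c]; decide
private theorem AS1 : PowerSeries.coeff 1 AS = 1 := by rw [AS_c]; decide
private theorem AS2 : PowerSeries.coeff 2 AS = 3 := by rw [AS_c]; decide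
private theorem AS3 : PowerSeries.coeff 3 AS = 1 := by rw [AS_c]; decide
private theorem AT_c (n : ℕ) : PowerSeries.coeff n AT =
    if 2 ∣ n then PowerSeries.coeff (n / 2) AS else 0 := by
  unfold AT ex
  rw [PowerSeries.coeff_mk]
private theorem AT0 : PowerSeries.coeff 0 AT = 0 := by rw [AT_c]; simpa using AS0
private theorem AT1 : PowerSeries.coeff 1 AT = 0 := by rw [AT_c, if_neg (by norm_num)]
private theorem AT2 : PowerSeries.coeff 2 AT = 1 := by
  rw [AT_c, if_pos (by norm_num)]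
  exact AS1
private theorem AT3 : PowerSeries.coeff 3 AT = 0 := by rw [AT_c, if_neg (by norm_num)]

private theorem AF_c (n : ℕ) : PowerSeries.coeff n AF =
    (if n = 0 then 1 else 0) + 4 * PowerSeries.coeff n AS + 8 * PowerSeries.coeff n AT := by
  unfold AF
  rw [map_add, map_add, ftr_CZ 4, ftr_CZ 8, PowerSeries.coeff_C_mul, PowerSeries.coeff_C_mul,
    PowerSeries.coeff_one]

private theorem B_c (n : ℕ) : PowerSeries.coeff n (1 + 16 * AT - 4 * AS) =
    (if n = 0 then 1 else 0) + 16 * PowerSeries.coeff n AT - 4 * PowerSeries.coeff n AS := by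
  rw [map_sub, map_add, ftr_CZ 4, ftr_CZ 16, PowerSeries.coeff_C_mul, PowerSeries.coeff_C_mul,
    PowerSeries.coeff_one]

theorem AF_0 : PowerSeries.coeff 0 AF = 1 := by
  rw [AF_c, AS0, AT0]
  norm_num

theorem AF_1 : PowerSeries.coeff 1 AF = 4 := by
  rw [AF_c, AS1, AT1]
  norm_num

theorem AF_2 : PowerSeries.coeff 2 AF = 20 := by
  rw [AF_c, AS2, AT2]
  norm_num

private theorem AD0 : PowerSeries.coeff 0 AD = 0 := by
  unfold AD
  rw [PowerSeries.coeff_mul]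
  simp only [Finset.Nat.antidiagonal_zero, Finset.sum_singleton, map_sub, AS0, AT0]
  norm_num

theorem AD_eq : AD = PowerSeries.X * AV := by
  ext n
  rcases n with _ | n
  · rw [PowerSeries.coeff_zero_X_mul]
    exact AD0
  · rw [PowerSeries.coeff_succ_X_mul]
    unfold AV
    rw [PowerSeries.coeff_mk]

private theorem AV_c (n : ℕ) : PowerSeries.coeff n AV = PowerSeries.coeff (n + 1) AD := by
  unfold AV
  rw [PowerSeries.coeff_mk]

private theorem AD_c (n : ℕ) : PowerSeries.coeff n AD = ∑ x ∈ Finset.HasAntidiagonal.antidiagonal n,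
    (PowerSeries.coeff x.1 AS - PowerSeries.coeff x.1 AT) *
      ((if x.2 = 0 then 1 else 0) + 16 * PowerSeries.coeff x.2 AT - 4 * PowerSeries.coeff x.2 AS) := by
  unfold AD
  rw [PowerSeries.coeff_mul]
  refine Finset.sum_congr rfl (fun x _ => ?_)
  rw [map_sub, B_c]

theorem AV_0 : PowerSeries.coeff 0 AV = 1 := by
  rw [AV_c, AD_c]
  have e : Finset.HasAntidiagonal.antidiagonal (0 + 1) = {((0 : ℕ), (1 : ℕ)), (1, 0)} := by decide
  rw [e, Finset.sum_insert (by decide), Finset.sum_singleton]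
  simp only [AS0, AS1, AT0, AT1]
  norm_num

theorem AV_1 : PowerSeries.coeff 1 AV = -2 := by
  rw [AV_c, AD_c]
  have e : Finset.HasAntidiagonal.antidiagonal (1 + 1) = {((0 : ℕ), (2 : ℕ)), (1, 1), (2, 0)} := by decide
  rw [e, Finset.sum_insert (by decide), Finset.sum_insert (by decide), Finset.sum_singleton]
  simp only [AS0, AS1, AS2, AT0, AT1, AT2]
  norm_num

theorem AV_2 : PowerSeries.coeff 2 AV = -3 := by
  rw [AV_c, AD_c]
  have e : Finset.HasAntidiagonal.antidiagonal (2 + 1) = {((0 : ℕ), (3 : ℕ)), (1, 2), (2, 1), (3, 0)} := by decide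
  rw [e, Finset.sum_insert (by decide), Finset.sum_insert (by decide),
    Finset.sum_insert (by decide), Finset.sum_singleton]
  simp only [AS0, AS1, AS2, AS3, AT0, AT1, AT2, AT3]
  norm_num

end Pool.Agent.Lib.Z32
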