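import Pool.Agent.Lib.MP_ad286f_nt.QAlg

/-!
# Module Rigid (about 200 lines): Liouville for the group generated by `T`, `W6`, `W3`

PROOF. (1) For every `tau` with `0 < im tau` there is `tau'` with `1/5 <= im tau'` and
`f tau' = f tau`. Descent: shift by an integer (`QE.per`, both directions) so that `|re tau| <= 1/2`.
If `im tau < 1/5`:
* `|re tau| <= 1/3`: `6|tau|^2 <= 6(1/9 + 1/25) < 1/1.1`, `im (W6 tau) = im tau/(6|tau|^2) >= 1.1 im tau`;
* `1/3 <= re tau <= 1/2`: `im (W3 tau) = im tau/(3|2tau-1|^2)`, `3|2tau-1|^2 = 12|tau-1/2|^2 <= 12(1/36+1/25)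
  < 0.82`; for `-1/2 <= re tau <= -1/3` first replace `tau` by `tau + 1` (`|tau+1-1/2| = |tau+1/2|`).
Iterate: `im` grows by a factor `>= 1.1`, so after finitely many steps it is `>= 1/5`
(strong induction on `n` with `1/5 <= 1.1^n im tau`).
(2) `phi w = sum a_n w^n` is analytic on the unit disc, `phi 0 = 0`, `f = phi o qm`. By (1) the maximum of
`|phi|` on the closed ball of radius `exp(-2 pi/5) < 1` is a maximum over the open unit disc
(`qm_surj`, `qm_norm_eq`), so `phi` is constant on the disc (`Complex.eqOn_of_isPreconnected_of_isMaxOn_norm`),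
`= phi 0 = 0`.
-/

namespace Pool.Agent.Lib.Z32

open Complex

private theorem W6_im_eq (τ : ℂ) : (W6 τ).im = 6 * τ.im / (36 * (τ.re ^ 2 + τ.im ^ 2)) := by
  have h : W6 τ = -(6 * τ)⁻¹ := by
    rw [W6, neg_div, one_div]
  rw [h, neg_im, inv_im, normSq_apply]
  simp only [mul_re, mul_im, re_ofNat, im_ofNat]
  ring

private theorem W3_im_eq {τ : ℂ} (hτ : 0 < τ.im) :
    (W3 τ).im = 3 * τ.im / (36 * ((τ.re - 1 / 2) ^ 2 + τ.im ^ 2)) := by
  have hne : 6 * τ - 3 ≠ 0 := by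
    intro h
    have := congrArg Complex.im h
    simp at this
    exact hτ.ne' this
  have h : W3 τ = 1 / 2 - (1 / 2) * (6 * τ - 3)⁻¹ := by
    rw [W3, div_eq_iff hne]
    linear_combination (1 / 2) * inv_mul_cancel₀ hne
  rw [h, sub_im, mul_im, inv_im, normSq_apply]
  simp only [sub_re, sub_im, mul_re, mul_im, re_ofNat, im_ofNat]
  norm_num
  ring

theorem W6_im {τ : ℂ} (hτ : 0 < τ.im) : 0 < (W6 τ).im := by
  rw [W6_im_eq]
  positivity

theorem W3_im {τ : ℂ} (hτ : 0 < τ.im) : 0 < (W3 τ).im := by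
  rw [W3_im_eq hτ]
  positivity

private theorem qcongr {f : ℂ → ℂ} {A : PowerSeries ℂ} (hA : QE f A) {τ τ' : ℂ} (h : 0 < τ.im)
    (h' : 0 < τ'.im) (hq : qm τ = qm τ') : f τ = f τ' := by
  have h1 := hA τ h
  have h2 := hA τ' h'
  rw [hq] at h1
  exact h1.unique h2

private theorem qm_int (τ : ℂ) (k : ℤ) : qm (τ + k) = qm τ := by
  unfold qm
  rw [Complex.exp_eq_exp_iff_exists_int]
  exact ⟨k, by ring⟩

private theorem W6_grow {τ : ℂ} (hτ : 0 < τ.im) (h5 : τ.im < 1 / 5) (hr : |τ.re| ≤ 1 / 3) :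
    11 / 10 * τ.im ≤ (W6 τ).im := by
  rw [W6_im_eq, le_div_iff₀ (by positivity)]
  have h1 : τ.re ^ 2 ≤ (1 / 3) ^ 2 := sq_le_sq' (by linarith [neg_abs_le τ.re]) (by
    linarith [le_abs_self τ.re])
  have h2 : τ.im ^ 2 ≤ (1 / 5) ^ 2 := pow_le_pow_left₀ hτ.le h5.le 2
  have h3 : 36 * (τ.re ^ 2 + τ.im ^ 2) ≤ 60 / 11 := by nlinarith
  nlinarith

private theorem W3_grow {τ : ℂ} (hτ : 0 < τ.im) (h5 : τ.im < 1 / 5) (hr : |τ.re - 1 / 2| ≤ 1 / 6) :
    11 / 10 * τ.im ≤ (W3 τ).im := by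
  rw [W3_im_eq hτ, le_div_iff₀ (by positivity)]
  have h1 : (τ.re - 1 / 2) ^ 2 ≤ (1 / 6) ^ 2 := sq_le_sq' (by linarith [neg_abs_le (τ.re - 1 / 2)]) (by
    linarith [le_abs_self (τ.re - 1 / 2)])
  have h2 : τ.im ^ 2 ≤ (1 / 5) ^ 2 := pow_le_pow_left₀ hτ.le h5.le 2
  have h3 : 36 * ((τ.re - 1 / 2) ^ 2 + τ.im ^ 2) ≤ 30 / 11 := by nlinarith
  nlinarith

/-- One step of the descent. -/
private theorem stepR {f : ℂ → ℂ} {A : PowerSeries ℂ} (hA : QE f A)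
    (h6 : ∀ τ : ℂ, 0 < τ.im → f (W6 τ) = f τ) (h3 : ∀ τ : ℂ, 0 < τ.im → f (W3 τ) = f τ)
    {τ : ℂ} (hτ : 0 < τ.im) (h5 : τ.im < 1 / 5) :
    ∃ τ' : ℂ, 11 / 10 * τ.im ≤ τ'.im ∧ f τ' = f τ := by
  set k : ℤ := round τ.re with hk
  have hx : |τ.re - k| ≤ 1 / 2 := abs_sub_round τ.re
  set τ1 : ℂ := τ + ((-k : ℤ) : ℂ) with hτ1
  have him1 : τ1.im = τ.im := by rw [hτ1]; simp
  have hre1 : τ1.re = τ.re - k := by rw [hτ1]; simp; ring
  have hf1 : f τ1 = f τ := qcongr hA (by rw [him1]; exact hτ) hτ (qm_int τ (-k))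
  rw [← hre1] at hx
  by_cases ha : |τ1.re| ≤ 1 / 3
  · refine ⟨W6 τ1, ?_, ?_⟩
    · have := W6_grow (τ := τ1) (by rw [him1]; exact hτ) (by rw [him1]; exact h5) ha
      rwa [him1] at this
    · rw [h6 τ1 (by rw [him1]; exact hτ), hf1]
  · by_cases hb : 0 ≤ τ1.re
    · rw [abs_of_nonneg hb] at ha hx
      refine ⟨W3 τ1, ?_, ?_⟩
      · have := W3_grow (τ := τ1) (by rw [him1]; exact hτ) (by rw [him1]; exact h5) (by
          rw [abs_le]; constructor <;> linarith)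
        rwa [him1] at this
      · rw [h3 τ1 (by rw [him1]; exact hτ), hf1]
    · rw [abs_of_neg (not_le.mp hb)] at ha hx
      set τ2 : ℂ := τ1 + ((1 : ℤ) : ℂ) with hτ2
      have him2 : τ2.im = τ.im := by rw [hτ2, ← him1]; simp
      have hre2 : τ2.re = τ1.re + 1 := by rw [hτ2]; simp
      have hf2 : f τ2 = f τ := by
        rw [← hf1]
        exact qcongr hA (by rw [him2]; exact hτ) (by rw [him1]; exact hτ) (qm_int τ1 1)
      refine ⟨W3 τ2, ?_, ?_⟩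
      · have := W3_grow (τ := τ2) (by rw [him2]; exact hτ) (by rw [him2]; exact h5) (by
          rw [hre2, abs_le]; constructor <;> linarith)
        rwa [him2] at this
      · rw [h3 τ2 (by rw [him2]; exact hτ), hf2]

private theorem descent {f : ℂ → ℂ} {A : PowerSeries ℂ} (hA : QE f A)
    (h6 : ∀ τ : ℂ, 0 < τ.im → f (W6 τ) = f τ) (h3 : ∀ τ : ℂ, 0 < τ.im → f (W3 τ) = f τ) (n : ℕ) :
    ∀ τ : ℂ, 0 < τ.im → 1 / 5 ≤ (11 / 10 : ℝ) ^ n * τ.im → ∃ τ' : ℂ, 1 / 5 ≤ τ'.im ∧ f τ' = f τ := by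
  induction n with
  | zero =>
    intro τ _ h
    exact ⟨τ, by simpa using h, rfl⟩
  | succ n ih =>
    intro τ hτ h
    by_cases h5 : 1 / 5 ≤ τ.im
    · exact ⟨τ, h5, rfl⟩
    · obtain ⟨τ1, h1, h2⟩ := stepR hA h6 h3 hτ (not_le.mp h5)
      obtain ⟨τ2, h4, h5⟩ := ih τ1 (by linarith) (by
        have : (0 : ℝ) < (11 / 10) ^ n := by positivity
        calc 1 / 5 ≤ (11 / 10 : ℝ) ^ (n + 1) * τ.im := h
          _ = (11 / 10 : ℝ) ^ n * (11 / 10 * τ.im) := by ring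
          _ ≤ (11 / 10 : ℝ) ^ n * τ1.im := by nlinarith)
      exact ⟨τ2, h4, h5.trans h2⟩

private theorem exists_high {f : ℂ → ℂ} {A : PowerSeries ℂ} (hA : QE f A)
    (h6 : ∀ τ : ℂ, 0 < τ.im → f (W6 τ) = f τ) (h3 : ∀ τ : ℂ, 0 < τ.im → f (W3 τ) = f τ)
    {τ : ℂ} (hτ : 0 < τ.im) : ∃ τ' : ℂ, 1 / 5 ≤ τ'.im ∧ f τ' = f τ := by
  obtain ⟨n, hn⟩ := pow_unbounded_of_one_lt (1 / 5 / τ.im) (by norm_num : (1 : ℝ) < 11 / 10)
  refine descent hA h6 h3 n τ hτ ?_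
  rw [div_lt_iff₀ hτ] at hn
  exact hn.le

theorem rigid0 {f : ℂ → ℂ} {A : PowerSeries ℂ} (hA : QE f A) (h0 : PowerSeries.coeff 0 A = 0)
    (h6 : ∀ τ : ℂ, 0 < τ.im → f (W6 τ) = f τ) (h3 : ∀ τ : ℂ, 0 < τ.im → f (W3 τ) = f τ) :
    ∀ τ : ℂ, 0 < τ.im → f τ = 0 := by
  set r : ℝ := Real.exp (-2 * Real.pi * (1 / 5)) with hr
  have hr0 : 0 < r := Real.exp_pos _
  have hr1 : r < 1 := by
    rw [hr, Real.exp_lt_one_iff]
    have := Real.pi_pos
    linarith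
  set φ : ℂ → ℂ := fun w => ∑' n : ℕ, PowerSeries.coeff n A * w ^ n with hφ
  have hsum : Summable (fun n : ℕ => ‖PowerSeries.coeff n A‖ * r ^ n) := by
    have h1 := (hA ((1 / 5 : ℝ) * I) (by simp)).summable.norm
    refine h1.congr fun n => ?_
    rw [norm_mul, norm_pow, qm_norm_eq]
    simp [hr]
  have hcont : ContinuousOn φ (Metric.closedBall 0 r) := by
    refine continuousOn_tsum (fun n => ?_) hsum (fun n w hw => ?_)
    · exact (continuous_const.mul (continuous_id.pow n)).continuousOn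
    · rw [norm_mul, norm_pow]
      have : ‖w‖ ≤ r := by simpa using hw
      exact mul_le_mul_of_nonneg_left (pow_le_pow_left₀ (norm_nonneg _) this n) (norm_nonneg _)
  obtain ⟨w0, hw0, hmax⟩ := (isCompact_closedBall (0 : ℂ) r).exists_isMaxOn
    ⟨0, by simp [hr0.le]⟩ hcont.norm
  have hfφ : ∀ τ : ℂ, 0 < τ.im → f τ = φ (qm τ) := fun τ hτ => (hA τ hτ).tsum_eq.symm
  have hbound : ∀ τ : ℂ, 0 < τ.im → ‖f τ‖ ≤ ‖φ w0‖ := by
    intro τ hτ
    obtain ⟨τ', h1, h2⟩ := exists_high hA h6 h3 hτ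
    rw [← h2, hfφ τ' (by linarith)]
    apply hmax
    rw [mem_closedBall_zero_iff, qm_norm_eq, hr, Real.exp_le_exp]
    have := Real.pi_pos
    nlinarith
  have hφ0 : φ 0 = 0 := by
    rw [hφ]
    simp only
    rw [tsum_eq_single 0 (fun n hn => by rw [zero_pow hn, mul_zero])]
    rw [h0]; simp
  by_cases hw : w0 = 0
  · intro τ hτ
    have := hbound τ hτ
    rw [hw, hφ0, norm_zero] at this
    exact norm_le_zero_iff.mp this
  · have hw1 : ‖w0‖ < 1 := by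
      have : ‖w0‖ ≤ r := by simpa using hw0
      linarith
    obtain ⟨τ0, hτ0, hq0⟩ := qm_surj hw hw1
    have hU : IsOpen {w : ℂ | 0 < w.im} := isOpen_lt continuous_const Complex.continuous_im
    have hpre : IsPreconnected {w : ℂ | 0 < w.im} := (convex_halfSpace_im_gt 0).isPreconnected
    have hd : DifferentiableOn ℂ f {w : ℂ | 0 < w.im} := fun w hw =>
      (hA.diff hw).differentiableWithinAt
    have hm : IsMaxOn (norm ∘ f) {w : ℂ | 0 < w.im} τ0 := by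
      intro τ hτ
      show ‖f τ‖ ≤ ‖f τ0‖
      rw [hfφ τ0 hτ0, hq0]
      exact hbound τ hτ
    have heq := Complex.eqOn_of_isPreconnected_of_isMaxOn_norm hpre hU hd hτ0 hm
    have hconst : QE f (PowerSeries.C (f τ0)) := (QE.const (f τ0)).congr (fun τ hτ => heq hτ)
    have hAC := hA.uniq hconst
    rw [hAC] at h0
    simp at h0
    intro τ hτ
    rw [heq hτ]
    exact h0

end Pool.Agent.Lib.Z32
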