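import Pool.Agent.Lib.MP_ad286f_nt.QDiv
import Pool.Agent.Lib.MP_ad286f_nt.FTr
import Pool.Agent.Lib.MP_ad286f_nt.Rigid

/-!
# Module DNe (about 250 lines): `D` has no zero in the upper half plane

PROOF. Let `P tau = Delta(tau) Delta(2tau) Delta(3tau) Delta(6tau)` (Mathlib
`ModularForm.discriminant`, nonvanishing: `discriminant_ne_zero`, weight 12 for `SL2(Z)`:
`CuspForm.discriminant`, `q`-expansion `q + ...`: `discriminant_cuspFunction_eqOn` /
`discriminant_qExpansion_coeff_one`). `P` has a `q`-expansion `X^12 * V`, `V_0 = 1`, and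
* `P(W6 t) = J6^24 P(t)`: `Delta(-1/(e t)) = (e t)^12 Delta(e t)`, `e = 6,3,2,1`; `6*3*2*1 = 36`, `36^12 t^48`;
* `P(W3 t) = J3^24 P(t)`: `Delta(W3 t) = (6t-3)^12 Delta(3t)` (matrix `(1,-2;2,-3)` at `3t`), `Delta(2 W3 t) =
  (6t-3)^12 Delta(6t)` (`(1,-4;1,-3)` at `6t`), `Delta(3 W3 t) = (2t-1)^12 Delta(t)` (`(3,-2;2,-1)`),
  `Delta(6 W3 t) = (2t-1)^12 Delta(2t)` (`(3,-4;1,-1)` at `2t`); `(6t-3)^24 (2t-1)^24 = (9(2t-1)^4)^12`.
So `f = DD^12/P` is invariant under `W6`, `W3`, and has a `q`-expansion with constant coefficient 1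
(`QE.divXk`), `rigid0` for `f - 1`: `DD^12 = P`, never zero.
-/

namespace Pool.Agent.Lib.Z32

open Complex
open scoped MatrixGroups ModularForm

private noncomputable def Dl (τ : ℂ) : ℂ :=
  ModularForm.discriminant (UpperHalfPlane.ofComplex τ)

private theorem Dl_ne (τ : ℂ) : Dl τ ≠ 0 := ModularForm.discriminant_ne_zero _

private theorem Dl_eq {τ : ℂ} (h : 0 < τ.im) : Dl τ = ModularForm.discriminant ⟨τ, h⟩ := by
  rw [Dl, UpperHalfPlane.ofComplex_apply_of_im_pos h]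

private theorem Dl_qe : QE Dl (UpperHalfPlane.qExpansion 1 ModularForm.discriminant) := by
  intro τ hτ
  have h := ModularForm.hasSum_qExpansion (CuspForm.discriminant) one_pos
    (by simp) ⟨τ, hτ⟩
  rw [Dl_eq hτ]
  simp only [CuspForm.coe_discriminant] at h
  refine h.congr_fun fun n => ?_
  simp [qm, Function.Periodic.qParam]

private theorem coeff0 :
    PowerSeries.coeff 0 (UpperHalfPlane.qExpansion 1 ModularForm.discriminant) = 0 := by
  rw [UpperHalfPlane.qExpansion_coeff]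
  have := ModularForm.discriminant_cuspFunction_eqOn (Metric.mem_ball_self one_pos)
  simp [this]

private theorem SL_tr (γ : SL(2, ℤ)) :
    (ModularForm.discriminant ∣[(12 : ℤ)] γ) = ModularForm.discriminant :=
  SlashInvariantForm.slash_action_generators_SL2Z ModularForm.discriminant_S_invariant
    ModularForm.discriminant_T_invariant γ

private theorem Dl_tr (a b c d : ℤ) (h : a * d - b * c = 1) {τ : ℂ} (hτ : 0 < τ.im) :
    Dl ((a * τ + b) / (c * τ + d)) = (c * τ + d) ^ 12 * Dl τ := by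
  let γ : SL(2, ℤ) := ⟨!![a, b; c, d], by rw [Matrix.det_fin_two_of]; exact h⟩
  have h1 := congrFun (SL_tr γ) ⟨τ, hτ⟩
  have hco : ((γ • (⟨τ, hτ⟩ : UpperHalfPlane) : UpperHalfPlane) : ℂ) =
      (a * τ + b) / (c * τ + d) := by
    rw [UpperHalfPlane.coe_specialLinearGroup_apply]
    simp [γ]
  have him : 0 < ((a * τ + b) / (c * τ + d)).im := by
    rw [← hco]
    exact (γ • (⟨τ, hτ⟩ : UpperHalfPlane)).im_pos
  have hpt : γ • (⟨τ, hτ⟩ : UpperHalfPlane) = ⟨_, him⟩ := UpperHalfPlane.ext hco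
  have hden : UpperHalfPlane.denom γ (⟨τ, hτ⟩ : UpperHalfPlane) = c * τ + d := by
    rw [ModularGroup.denom_apply]
    simp [γ]
  have hne : (c * τ + d) ≠ 0 := by
    rw [← hden]
    exact UpperHalfPlane.denom_ne_zero _ _
  rw [ModularForm.SL_slash_apply, hpt, hden] at h1
  rw [Dl_eq him, Dl_eq hτ, ← h1]
  rw [zpow_neg]
  have : (c * τ + d) ^ (12 : ℤ) = (c * τ + d) ^ 12 := zpow_ofNat _ 12
  rw [this, mul_comm ((c * τ + d) ^ 12), mul_assoc, inv_mul_cancel₀ (pow_ne_zero 12 hne), mul_one]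

private noncomputable def P (τ : ℂ) : ℂ :=
  Dl τ * Dl ((2 : ℕ) * τ) * Dl ((3 : ℕ) * τ) * Dl ((6 : ℕ) * τ)

private theorem P_ne (τ : ℂ) : P τ ≠ 0 :=
  mul_ne_zero (mul_ne_zero (mul_ne_zero (Dl_ne _) (Dl_ne _)) (Dl_ne _)) (Dl_ne _)

private theorem im_mul {τ : ℂ} (h : 0 < τ.im) (n : ℕ) (hn : 0 < n) : 0 < ((n : ℂ) * τ).im := by
  have : ((n : ℂ) * τ).im = n * τ.im := by simp
  rw [this]
  have : (0 : ℝ) < n := by exact_mod_cast hn
  positivity

private theorem P_W6 {τ : ℂ} (h : 0 < τ.im) : P (W6 τ) = J6 τ ^ 24 * P τ := by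
  have h0 : τ ≠ 0 := by rintro rfl; simp at h
  have e1 := Dl_tr 0 (-1) 1 0 (by norm_num) (im_mul h 6 (by norm_num))
  have e2 := Dl_tr 0 (-1) 1 0 (by norm_num) (im_mul h 3 (by norm_num))
  have e3 := Dl_tr 0 (-1) 1 0 (by norm_num) (im_mul h 2 (by norm_num))
  have e4 := Dl_tr 0 (-1) 1 0 (by norm_num) h
  have p1 : W6 τ = (((0 : ℤ) : ℂ) * ((6 : ℕ) * τ) + ((-1 : ℤ) : ℂ)) /
      (((1 : ℤ) : ℂ) * ((6 : ℕ) * τ) + ((0 : ℤ) : ℂ)) := by
    simp only [W6]; push_cast; ring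
  have p2 : (2 : ℕ) * W6 τ = (((0 : ℤ) : ℂ) * ((3 : ℕ) * τ) + ((-1 : ℤ) : ℂ)) /
      (((1 : ℤ) : ℂ) * ((3 : ℕ) * τ) + ((0 : ℤ) : ℂ)) := by
    simp only [W6]; push_cast; field_simp; ring
  have p3 : (3 : ℕ) * W6 τ = (((0 : ℤ) : ℂ) * ((2 : ℕ) * τ) + ((-1 : ℤ) : ℂ)) /
      (((1 : ℤ) : ℂ) * ((2 : ℕ) * τ) + ((0 : ℤ) : ℂ)) := by
    simp only [W6]; push_cast; field_simp; ring
  have p4 : (6 : ℕ) * W6 τ = (((0 : ℤ) : ℂ) * τ + ((-1 : ℤ) : ℂ)) /
      (((1 : ℤ) : ℂ) * τ + ((0 : ℤ) : ℂ)) := by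
    simp only [W6]; push_cast
    rw [zero_mul, zero_add, one_mul, add_zero]; field_simp
  simp only [P]
  rw [p2, p3, p4, e2, e3, e4, p1, e1]
  simp only [J6]
  push_cast
  ring

private theorem P_W3 {τ : ℂ} (h : 0 < τ.im) : P (W3 τ) = J3 τ ^ 24 * P τ := by
  have h0 : 2 * τ - 1 ≠ 0 := by
    intro h'
    have := congrArg Complex.im h'
    simp at this
    exact h.ne' this
  have e1 := Dl_tr 1 (-2) 2 (-3) (by norm_num) (im_mul h 3 (by norm_num))
  have e2 := Dl_tr 1 (-4) 1 (-3) (by norm_num) (im_mul h 6 (by norm_num))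
  have e3 := Dl_tr 3 (-2) 2 (-1) (by norm_num) h
  have e4 := Dl_tr 3 (-4) 1 (-1) (by norm_num) (im_mul h 2 (by norm_num))
  have q1 : (6 : ℂ) * τ - 3 = 3 * (2 * τ - 1) := by ring
  have p1 : W3 τ = (((1 : ℤ) : ℂ) * ((3 : ℕ) * τ) + ((-2 : ℤ) : ℂ)) /
      (((2 : ℤ) : ℂ) * ((3 : ℕ) * τ) + ((-3 : ℤ) : ℂ)) := by
    simp only [W3]; push_cast; congr 1 <;> ring
  have p2 : (2 : ℕ) * W3 τ = (((1 : ℤ) : ℂ) * ((6 : ℕ) * τ) + ((-4 : ℤ) : ℂ)) /
      (((1 : ℤ) : ℂ) * ((6 : ℕ) * τ) + ((-3 : ℤ) : ℂ)) := by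
    simp only [W3]; push_cast; rw [mul_div_assoc']; congr 1 <;> ring
  have p3 : (3 : ℕ) * W3 τ = (((3 : ℤ) : ℂ) * τ + ((-2 : ℤ) : ℂ)) /
      (((2 : ℤ) : ℂ) * τ + ((-1 : ℤ) : ℂ)) := by
    simp only [W3]; push_cast
    rw [q1, show (2 : ℂ) * τ + -1 = 2 * τ - 1 by ring]; field_simp; ring
  have p4 : (6 : ℕ) * W3 τ = (((3 : ℤ) : ℂ) * ((2 : ℕ) * τ) + ((-4 : ℤ) : ℂ)) /
      (((1 : ℤ) : ℂ) * ((2 : ℕ) * τ) + ((-1 : ℤ) : ℂ)) := by
    simp only [W3]; push_cast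
    rw [q1, show (1 : ℂ) * (2 * τ) + -1 = 2 * τ - 1 by ring]; field_simp; ring
  simp only [P]
  rw [p2, p3, p4, e2, e3, e4, p1, e1]
  simp only [J3]
  push_cast
  ring

private theorem ex_X (l : ℕ) (hl : 0 < l) :
    ex l (PowerSeries.X : PowerSeries ℂ) = PowerSeries.X ^ l := by
  ext n
  simp only [ex, PowerSeries.coeff_mk, PowerSeries.coeff_X, PowerSeries.coeff_X_pow]
  by_cases hn : n = l
  · subst hn
    simp [Nat.div_self hl]
  · rw [if_neg hn]
    split_ifs with h1 h2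
    · exfalso
      obtain ⟨m, rfl⟩ := h1
      rw [Nat.mul_div_cancel_left m hl] at h2
      exact hn (by rw [h2, mul_one])
    · rfl
    · rfl

private theorem ex_cc (l : ℕ) (V : PowerSeries ℂ) :
    PowerSeries.coeff 0 (ex l V) = PowerSeries.coeff 0 V := by
  simp [ex]

theorem DD_ne {τ : ℂ} (h : 0 < τ.im) : DD τ ≠ 0 := by
  obtain ⟨A, hA⟩ : ∃ A, A = UpperHalfPlane.qExpansion 1 ModularForm.discriminant := ⟨_, rfl⟩
  have hq : QE Dl A := by rw [hA]; exact Dl_qe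
  have h0 : PowerSeries.coeff 0 A = 0 := by rw [hA]; exact coeff0
  have h1 : PowerSeries.coeff 1 A = 1 := by
    rw [hA]; exact ModularForm.discriminant_qExpansion_coeff_one
  obtain ⟨V, hV⟩ : (PowerSeries.X : PowerSeries ℂ) ∣ A := by
    rw [PowerSeries.X_dvd_iff, ← PowerSeries.coeff_zero_eq_constantCoeff_apply]
    exact h0
  have hV0 : PowerSeries.coeff 0 V = 1 := by
    rw [hV, PowerSeries.coeff_succ_X_mul] at h1
    exact h1
  have hP : QE P (PowerSeries.X ^ 12 * (V * ex 2 V * ex 3 V * ex 6 V)) := by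
    have hp := ((hq.mul (hq.exd (l := 2) (by norm_num))).mul (hq.exd (l := 3) (by norm_num))).mul
      (hq.exd (l := 6) (by norm_num))
    have e : A * ex 2 A * ex 3 A * ex 6 A =
        PowerSeries.X ^ 12 * (V * ex 2 V * ex 3 V * ex 6 V) := by
      rw [hV, ex_mul 2 (by norm_num), ex_mul 3 (by norm_num), ex_mul 6 (by norm_num),
        ex_X 2 (by norm_num), ex_X 3 (by norm_num), ex_X 6 (by norm_num)]
      ring
    rw [← e]
    exact hp
  have hD : QE (fun τ => DD τ ^ 12) (PowerSeries.X ^ 12 * (toC AV) ^ 12) := by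
    have hd := QE.pow DD_qe 12
    have e : toC AD ^ 12 = PowerSeries.X ^ 12 * (toC AV) ^ 12 := by
      rw [AD_eq, toC, map_mul, PowerSeries.map_X, mul_pow]
      rfl
    rw [← e]
    exact hd
  have hW0 : PowerSeries.coeff 0 (V * ex 2 V * ex 3 V * ex 6 V) = 1 := by
    have e2 := ex_cc 2 V
    have e3 := ex_cc 3 V
    have e6 := ex_cc 6 V
    rw [PowerSeries.coeff_zero_eq_constantCoeff_apply] at hV0 e2 e3 e6 ⊢
    rw [PowerSeries.coeff_zero_eq_constantCoeff_apply, hV0] at e2 e3 e6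
    rw [map_mul, map_mul, map_mul, e2, e3, e6, hV0]
    norm_num
  obtain ⟨C, hC, hCV⟩ := QE.divXk hD hP (by rw [hW0]; exact one_ne_zero) (fun τ _ => P_ne τ)
  have hC0 : PowerSeries.coeff 0 C = 1 := by
    have h2 := congrArg (PowerSeries.coeff 0) hCV
    have h3 := AV_0
    rw [PowerSeries.coeff_zero_eq_constantCoeff_apply] at hW0 h3
    simp only [PowerSeries.coeff_zero_eq_constantCoeff_apply] at h2 ⊢
    rw [map_mul, hW0, mul_one, map_pow] at h2
    rw [h2]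
    have h4 : PowerSeries.constantCoeff (toC AV) = 1 := by
      rw [← PowerSeries.coeff_zero_eq_constantCoeff_apply, toC, PowerSeries.coeff_map,
        PowerSeries.coeff_zero_eq_constantCoeff_apply, h3]
      simp
    rw [h4, one_pow]
  have hf := hC.sub (QE.const 1)
  have hz := rigid0 hf (by
    rw [map_sub, hC0, PowerSeries.coeff_C]
    simp) (fun τ hτ => by
      have hJ : J6 τ ≠ 0 := by
        have h0 : τ ≠ 0 := by rintro rfl; simp at hτ
        simp [J6, h0]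
      rw [DD_W6 hτ, P_W6 hτ, mul_pow, ← pow_mul]
      rw [mul_div_mul_left _ _ (pow_ne_zero _ hJ)]) (fun τ hτ => by
      have hJ : J3 τ ≠ 0 := by
        have h0 : 2 * τ - 1 ≠ 0 := by
          intro h'
          have := congrArg Complex.im h'
          simp at this
          exact hτ.ne' this
        simp [J3, h0]
      rw [DD_W3 hτ, P_W3 hτ, mul_pow, ← pow_mul]
      rw [mul_div_mul_left _ _ (pow_ne_zero _ hJ)]) τ h
  intro hd
  rw [hd] at hz
  norm_num at hz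

end Pool.Agent.Lib.Z32
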