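import Pool.Agent.Lib.MP_ad286f_nt.HIx
import Pool.Agent.Lib.MP_ad286f_nt.FTr
import Pool.Agent.Lib.MP_ad286f_nt.DNe

/-!
# Module CMPt (about 200 lines): the point `tau0 = i/sqrt 6`

* `tau0^2 = -1/6`, `W6 tau0 = tau0`, `J6 tau0 = 1`.
* `E3c_W6` at `tau0`: `E3c tau0 = 2 E3c (2 tau0)` =: `2 v`. So `F = (2v + 2v)/3 = 4v/3`, `D = (2v - v)(4v - 2v)/36 = v^2/18`, `F^2 = 16 v^2/9 =
  32 D`. `DD_ne` gives `v <> 0`, so `F <> 0`.
* `root_a`: `p = x^2 + 6y^2`, `X = (x, -y; 6y, x)` (`e = 1, e' = 6, a = x, b = -y, c = y, d = x`: `e a d - e' b c = x^2 + 6y^2 = p`),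
  `X tau0 = tau0` (`x tau0 - y = tau0 (6 y tau0 + x)`), `exists_Ix`, `Ix_eval`: `p^2 F = j^2 FM M tau0`, `j = x + 6 y tau0`,
  `j (x - 6 y tau0) = x^2 + 6 y^2 = p`, so `FM M tau0 = (x - 6 y tau0)^2 F`.
* `root_b`: `p = 2x^2 + 3y^2`, `X = (2x, -y; 6y, 2x)` (`e = 2, e' = 3, a = x, b = -y, c = y, d = x`: `2x^2 + 3y^2 = p`), `X tau0 = tau0`,
  `j = 2x + 6 y tau0`, `j (2x - 6 y tau0) = 4x^2 + 6y^2 = 2p`; `2 p^2 F = j^2 FM M tau0`, so `FM M tau0 = (2x - 6 y tau0)^2/2 F`.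
In `root_a`, `root_b` the integers `x, y` are arbitrary, so `y -> -y` gives the conjugate root. Membership in `fam`: `fam_eq`.
-/

namespace Pool.Agent.Lib.Z32

open Complex

/-- The CM point. -/
noncomputable def tau0 : ℂ := I / (Real.sqrt 6 : ℝ)

theorem tau0_sq : tau0 ^ 2 = -1 / 6 := by
  unfold tau0
  rw [div_pow, I_sq, ← Complex.ofReal_pow, Real.sq_sqrt (by norm_num)]
  norm_num

theorem tau0_im : 0 < tau0.im := by
  unfold tau0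
  have h1 : (0 : ℝ) < Real.sqrt 6 := Real.sqrt_pos.mpr (by norm_num)
  rw [Complex.div_ofReal_im, Complex.I_im]
  positivity

private theorem tau0_ne : tau0 ≠ 0 := by
  intro h
  have h1 := tau0_im
  rw [h, Complex.zero_im] at h1
  exact lt_irrefl _ h1

theorem W6_tau0 : W6 tau0 = tau0 := by
  unfold W6
  rw [div_eq_iff (mul_ne_zero (by norm_num) tau0_ne)]
  linear_combination (-6) * tau0_sq

theorem J6_tau0 : J6 tau0 = 1 := by
  unfold J6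
  rw [tau0_sq]
  norm_num

theorem FF_tau0 : FF tau0 ^ 2 = 32 * DD tau0 ∧ FF tau0 ≠ 0 := by
  have h1 := E3c_W6 tau0_im
  rw [W6_tau0, J6_tau0, one_mul] at h1
  have hF : FF tau0 = 4 * E3c (2 * tau0) / 3 := by
    unfold FF
    rw [h1]
    ring
  have hD : DD tau0 = E3c (2 * tau0) ^ 2 / 18 := by
    unfold DD
    rw [h1]
    ring
  refine ⟨?_, ?_⟩
  · rw [hF, hD]
    ring
  · intro h0
    have h2 : E3c (2 * tau0) = 0 := by
      rw [hF] at h0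
      have h3 : E3c (2 * tau0) = 3 / 4 * (4 * E3c (2 * tau0) / 3) := by ring
      rw [h3, h0, mul_zero]
    apply DD_ne tau0_im
    rw [hD, h2]
    ring

private theorem mem_fam {p : ℕ} [Fact p.Prime] (M : Option (ZMod p)) : FM p M tau0 ∈ fam p tau0 := by
  rw [fam_eq]
  exact Multiset.mem_map.mpr ⟨M, Finset.mem_univ_val M, rfl⟩

theorem root_a {p : ℕ} [Fact p.Prime] (hp : 3 < p) {x y : ℤ} (h : (p : ℤ) = x ^ 2 + 6 * y ^ 2) :
    (x - 6 * y * tau0) ^ 2 * FF tau0 ∈ fam p tau0 := by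
  have hpp : p.Prime := Fact.out
  have hp0 : (p : ℂ) ≠ 0 := by exact_mod_cast hpp.ne_zero
  have hC : (p : ℂ) = x ^ 2 + 6 * y ^ 2 := by exact_mod_cast congrArg (Int.cast : ℤ → ℂ) h
  have hdet : ((1 : ℕ) : ℤ) * x * x - ((6 : ℕ) : ℤ) * (-y) * y = p := by
    rw [h]
    push_cast
    ring
  obtain ⟨M, hM⟩ := exists_Ix (l := p) (a := ((1 : ℕ) : ℤ) * x) (b := -y) (c := 6 * y)
    (d := ((1 : ℕ) : ℤ) * x) ⟨1, by rw [h]; push_cast; ring⟩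
  have h1 := Ix_eval hp (e := 1) (e' := 6) (by norm_num) hdet hM tau0_im
  have hj : (6 * y * tau0 + ((1 : ℕ) : ℂ) * x) * (x - 6 * y * tau0) = p := by
    rw [hC]
    push_cast
    linear_combination (-36 * (y : ℂ) ^ 2) * tau0_sq
  have hj0 : (6 * y * tau0 + ((1 : ℕ) : ℂ) * x) ≠ 0 := by
    intro h0
    rw [h0, zero_mul] at hj
    exact hp0 hj.symm
  have hfix : (((1 : ℕ) : ℂ) * x * tau0 + ((-y : ℤ) : ℂ)) / (6 * y * tau0 + ((1 : ℕ) : ℂ) * x) =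
      tau0 := by
    rw [div_eq_iff hj0]
    push_cast
    linear_combination (-6 * (y : ℂ)) * tau0_sq
  rw [hfix] at h1
  have heps : eps 1 = 1 := by simp [eps]
  rw [heps] at h1
  have h2 : (x - 6 * y * tau0) ^ 2 * FF tau0 = FM p M tau0 := by
    apply mul_left_cancel₀ (pow_ne_zero 2 hj0)
    have h3 : (6 * y * tau0 + ((1 : ℕ) : ℂ) * x) ^ 2 * ((x - 6 * y * tau0) ^ 2 * FF tau0) =
        ((6 * y * tau0 + ((1 : ℕ) : ℂ) * x) * (x - 6 * y * tau0)) ^ 2 * FF tau0 := by ring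
    rw [h3, hj]
    push_cast at h1 ⊢
    linear_combination h1
  rw [h2]
  exact mem_fam M

theorem root_b {p : ℕ} [Fact p.Prime] (hp : 3 < p) {x y : ℤ}
    (h : (p : ℤ) = 2 * x ^ 2 + 3 * y ^ 2) :
    (2 * x - 6 * y * tau0) ^ 2 / 2 * FF tau0 ∈ fam p tau0 := by
  have hpp : p.Prime := Fact.out
  have hp0 : (p : ℂ) ≠ 0 := by exact_mod_cast hpp.ne_zero
  have hC : (p : ℂ) = 2 * x ^ 2 + 3 * y ^ 2 := by exact_mod_cast congrArg (Int.cast : ℤ → ℂ) h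
  have hdet : ((2 : ℕ) : ℤ) * x * x - ((3 : ℕ) : ℤ) * (-y) * y = p := by
    rw [h]
    push_cast
    ring
  obtain ⟨M, hM⟩ := exists_Ix (l := p) (a := ((2 : ℕ) : ℤ) * x) (b := -y) (c := 6 * y)
    (d := ((2 : ℕ) : ℤ) * x) ⟨2, by rw [h]; push_cast; ring⟩
  have h1 := Ix_eval hp (e := 2) (e' := 3) (by norm_num) hdet hM tau0_im
  have hj : (6 * y * tau0 + ((2 : ℕ) : ℂ) * x) * (2 * x - 6 * y * tau0) = 2 * p := by
    rw [hC]
    push_cast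
    linear_combination (-36 * (y : ℂ) ^ 2) * tau0_sq
  have hj0 : (6 * y * tau0 + ((2 : ℕ) : ℂ) * x) ≠ 0 := by
    intro h0
    rw [h0, zero_mul] at hj
    exact (mul_ne_zero two_ne_zero hp0) hj.symm
  have hfix : (((2 : ℕ) : ℂ) * x * tau0 + ((-y : ℤ) : ℂ)) / (6 * y * tau0 + ((2 : ℕ) : ℂ) * x) =
      tau0 := by
    rw [div_eq_iff hj0]
    push_cast
    linear_combination (-6 * (y : ℂ)) * tau0_sq
  rw [hfix] at h1
  have heps : eps 2 = 1 := by simp [eps]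
  rw [heps] at h1
  have h2 : (2 * x - 6 * y * tau0) ^ 2 / 2 * FF tau0 = FM p M tau0 := by
    apply mul_left_cancel₀ (pow_ne_zero 2 hj0)
    have h3 : (6 * y * tau0 + ((2 : ℕ) : ℂ) * x) ^ 2 *
        ((2 * x - 6 * y * tau0) ^ 2 / 2 * FF tau0) =
        ((6 * y * tau0 + ((2 : ℕ) : ℂ) * x) * (2 * x - 6 * y * tau0)) ^ 2 / 2 * FF tau0 := by ring
    rw [h3, hj]
    push_cast at h1 ⊢
    linear_combination h1
  rw [h2]
  exact mem_fam M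

theorem xy_ne {p : ℕ} (hp : p.Prime) (h3 : 3 < p) {x y : ℤ} :
    ((p : ℤ) = x ^ 2 + 6 * y ^ 2 → x ≠ 0 ∧ y ≠ 0) ∧
      ((p : ℤ) = 2 * x ^ 2 + 3 * y ^ 2 → x ≠ 0 ∧ y ≠ 0) := by
  have hpi : Prime (p : ℤ) := Nat.prime_iff_prime_int.mp hp
  have key : ∀ m : ℕ, m ≤ 3 → 1 < m → ∀ n : ℤ, (p : ℤ) ≠ m * n := by
    intro m hm h1 n hn
    have hd : (m : ℤ) ∣ p := ⟨n, hn⟩
    have hd' : m ∣ p := by exact_mod_cast hd
    rcases (Nat.dvd_prime hp).mp hd' with h2 | h2 <;> omega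
  have hsq : ∀ n : ℤ, (p : ℤ) ≠ n ^ 2 := by
    intro n hn
    have h1 : (p : ℤ) ∣ n ^ 2 := ⟨1, by rw [hn, mul_one]⟩
    obtain ⟨k, hk⟩ := hpi.dvd_of_dvd_pow h1
    rw [hk] at hn
    have hp0 : (p : ℤ) ≠ 0 := hpi.ne_zero
    have h2 : (p : ℤ) * k ^ 2 = 1 := by
      apply mul_left_cancel₀ hp0
      linear_combination -hn
    have h3 : (p : ℤ) ∣ 1 := ⟨k ^ 2, h2.symm⟩
    exact hpi.not_isUnit (isUnit_of_dvd_one h3)
  refine ⟨fun h => ⟨fun hx => ?_, fun hy => ?_⟩, fun h => ⟨fun hx => ?_, fun hy => ?_⟩⟩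
  · rw [hx] at h
    exact key 2 (by norm_num) (by norm_num) (3 * y ^ 2) (by rw [h]; push_cast; ring)
  · rw [hy] at h
    exact hsq x (by rw [h]; ring)
  · rw [hx] at h
    exact key 3 (by norm_num) (by norm_num) (y ^ 2) (by rw [h]; push_cast; ring)
  · rw [hy] at h
    exact key 2 (by norm_num) (by norm_num) (x ^ 2) (by rw [h]; push_cast; ring)

end Pool.Agent.Lib.Z32
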