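import Mathlib
import Pool.Agent.Lib.MP_ad286f_nt.CFranel

/-!
Step 1 of part (c): the quadratic first integral of the third order operator, modulo `p^2`.
-/

namespace MPad286f

open Finset Polynomial

/-- `a_n = C(2n,n) f_n`. -/
def an (n : ℕ) : ℤ := (((2 * n).choose n * fr n : ℕ) : ℤ)

theorem an_rec (n : ℕ) :
    ((n : ℤ) + 2) ^ 3 * an (n + 2)
      = (28 * ((n : ℤ) + 1) ^ 3 + 42 * ((n : ℤ) + 1) ^ 2 + 22 * ((n : ℤ) + 1) + 4) * an (n + 1)
        + (128 * (n : ℤ) ^ 3 + 384 * (n : ℤ) ^ 2 + 352 * n + 96) * an n := by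
  have h1 := Nat.succ_mul_centralBinom_succ n
  have h2 := Nat.succ_mul_centralBinom_succ (n + 1)
  have hf := fr_rec n
  simp only [Nat.centralBinom] at h1 h2
  have h1' : (((n + 1) * (2 * (n + 1)).choose (n + 1) : ℕ) : ℤ)
    = ((2 * (2 * n + 1) * (2 * n).choose n : ℕ) : ℤ) := by exact_mod_cast h1
  have h2' : (((n + 2) * (2 * (n + 2)).choose (n + 2) : ℕ) : ℤ)
    = ((2 * (2 * (n + 1) + 1) * (2 * (n + 1)).choose (n + 1) : ℕ) : ℤ) := by exact_mod_cast h2
  unfold an
  push_cast at h1' h2' ⊢
  generalize ((2 * (n + 2)).choose (n + 2) : ℤ) = c2 at h1' h2' ⊢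
  generalize ((2 * (n + 1)).choose (n + 1) : ℤ) = c1 at h1' h2' ⊢
  generalize ((2 * n).choose n : ℤ) = c0 at h1' h2' ⊢
  linear_combination (((n : ℤ) + 2) ^ 2 * (fr (n + 2) : ℤ)) * h2'
    + (2 * (2 * ((n : ℤ) + 1) + 1) * c1) * hf
    + (16 * (2 * (n : ℤ) + 3) * ((n : ℤ) + 1) * (fr n : ℤ)) * h1'

lemma an_zero : an 0 = 1 := by simp [an, fr_zero]
lemma an_one : an 1 = 4 := by simp [an, fr_one]

/-- The Euler operator. -/
noncomputable def th (F : ℤ[X]) : ℤ[X] := X * derivative F

lemma coeff_th (F : ℤ[X]) (n : ℕ) : (th F).coeff n = n * F.coeff n := by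
  unfold th
  cases n with
  | zero => simp
  | succ n =>
    rw [coeff_X_mul, coeff_derivative]
    push_cast
    ring

/-- The truncated generating function. -/
noncomputable def GP (p : ℕ) : ℤ[X] := ∑ n ∈ range p, monomial n (an n)

lemma coeff_GP (p n : ℕ) : (GP p).coeff n = if n < p then an n else 0 := by
  unfold GP
  rw [finsetSum_coeff]
  simp only [coeff_monomial]
  rw [Finset.sum_ite_eq']
  simp

/-- The third order operator. -/
noncomputable def LL (H : ℤ[X]) : ℤ[X] :=
  th (th (th H)) - X * (28 * th (th (th H)) + 42 * th (th H) + 22 * th H + 4 * H)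
    - X * (X * (128 * th (th (th H)) + 384 * th (th H) + 352 * th H + 96 * H))

/-- The quadratic first integral. -/
noncomputable def II (H : ℤ[X]) : ℤ[X] :=
  (1 - 28 * X - 128 * X ^ 2) * ((th H) ^ 2 - 2 * H * th (th H))
    + (28 * X + 256 * X ^ 2) * (H * th H) + (8 * X + 96 * X ^ 2) * H ^ 2

lemma th_II (H : ℤ[X]) : th (II H) = -2 * (H * LL H) := by
  unfold II LL th
  simp only [derivative_mul, derivative_add, derivative_sub, derivative_X, derivative_one,
    derivative_pow, derivative_ofNat]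
  simp only [Nat.cast_ofNat, map_ofNat]
  ring

lemma coeff_LL (H : ℤ[X]) (n : ℕ) :
    (LL H).coeff (n + 2) = ((n : ℤ) + 2) ^ 3 * H.coeff (n + 2)
      - (28 * ((n : ℤ) + 1) ^ 3 + 42 * ((n : ℤ) + 1) ^ 2 + 22 * ((n : ℤ) + 1) + 4) * H.coeff (n + 1)
      - (128 * (n : ℤ) ^ 3 + 384 * (n : ℤ) ^ 2 + 352 * n + 96) * H.coeff n := by
  unfold LL
  have e : ∀ (k : ℕ) (F : ℤ[X]) (m : ℕ) [k.AtLeastTwo],
      ((OfNat.ofNat k : ℤ[X]) * F).coeff m = (OfNat.ofNat k : ℤ) * F.coeff m := by
    intro k F m _
    rw [← C_ofNat]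
    exact coeff_C_mul F
  rw [coeff_sub, coeff_sub, coeff_X_mul, coeff_X_mul, coeff_X_mul]
  simp only [coeff_add, coeff_th, e]
  push_cast
  ring

lemma coeff_LL_one (H : ℤ[X]) : (LL H).coeff 1 = H.coeff 1 - 4 * H.coeff 0 := by
  unfold LL
  have e : ∀ (k : ℕ) (F : ℤ[X]) (m : ℕ) [k.AtLeastTwo],
      ((OfNat.ofNat k : ℤ[X]) * F).coeff m = (OfNat.ofNat k : ℤ) * F.coeff m := by
    intro k F m _
    rw [← C_ofNat]
    exact coeff_C_mul F
  rw [coeff_sub, coeff_sub, coeff_X_mul, coeff_X_mul, coeff_X_mul_zero]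
  simp only [coeff_add, coeff_th, e]
  push_cast
  ring

lemma coeff_LL_zero (H : ℤ[X]) : (LL H).coeff 0 = 0 := by
  unfold LL
  rw [coeff_sub, coeff_sub, coeff_X_mul_zero, coeff_X_mul_zero]
  simp only [coeff_th]
  push_cast
  ring

lemma LL_GP (p : ℕ) (hp : 2 ≤ p) (b : ℕ) :
    (LL (GP p)).coeff b
      = if b = p then -(p : ℤ) ^ 3 * an p
        else if b = p + 1 then -(32 * (p : ℤ) * (4 * (p : ℤ) ^ 2 - 1)) * an (p - 1) else 0 := by
  match b with
  | 0 =>
    rw [coeff_LL_zero, if_neg (by omega), if_neg (by omega)]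
  | 1 =>
    rw [coeff_LL_one, if_neg (by omega), if_neg (by omega), coeff_GP, coeff_GP, if_pos (by omega),
      if_pos (by omega), an_zero, an_one]
    norm_num
  | n + 2 =>
    rw [coeff_LL, coeff_GP, coeff_GP, coeff_GP]
    have hr := an_rec n
    rcases lt_trichotomy (n + 2) p with h | h | h
    · rw [if_pos h, if_pos (by omega), if_pos (by omega), if_neg (by omega), if_neg (by omega)]
      linear_combination hr
    · subst h
      rw [if_neg (by omega), if_pos (by omega), if_pos (by omega), if_pos rfl]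
      push_cast
      linear_combination hr
    · rw [if_neg (by omega), if_neg (by omega : ¬ n + 1 < p), if_neg (by omega : ¬ n + 2 = p)]
      by_cases h2 : n + 2 = p + 1
      · have h3 : n = p - 1 := by omega
        have h4 : (n : ℤ) = p - 1 := by omega
        rw [if_pos (by omega), if_pos h2, ← h3, h4]
        ring
      · rw [if_neg (by omega), if_neg h2]
        ring

lemma p_dvd_an (p : ℕ) (hp : p.Prime) : (p : ℤ) ∣ an (p - 1) := by
  have h2 := hp.two_le
  have h : p ∣ (2 * (p - 1)).choose (p - 1) :=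
    Nat.Prime.dvd_choose hp (by omega) (by omega) (by omega)
  unfold an
  push_cast
  exact Dvd.dvd.mul_right (by exact_mod_cast h) _

/-- All the coefficients of the first integral at the truncated series are divisible by `p^2`. -/
theorem sq_dvd_II (p : ℕ) (hp : p.Prime) (hp2 : p ≠ 2) (j : ℕ) :
    (p : ℤ) ^ 2 ∣ (II (GP p)).coeff j := by
  have h2 := hp.two_le
  obtain ⟨r, hr⟩ := p_dvd_an p hp
  have hp0 : (p : ℤ) ≠ 0 := by exact_mod_cast hp.ne_zero
  -- each `LL` coefficient is divisible by `p^2`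
  have hL : ∀ b, (p : ℤ) ^ 2 ∣ (LL (GP p)).coeff b := by
    intro b
    rw [LL_GP p h2 b]
    split_ifs
    · exact ⟨-(p : ℤ) * an p, by ring⟩
    · rw [hr]
      exact ⟨-(32 * (4 * (p : ℤ) ^ 2 - 1)) * r, by ring⟩
    · exact dvd_zero _
  have hj : (j : ℤ) * (II (GP p)).coeff j
      = -2 * ∑ x ∈ antidiagonal j, (GP p).coeff x.1 * (LL (GP p)).coeff x.2 := by
    rw [← coeff_th, th_II, ← coeff_mul]
    have : (-2 : ℤ[X]) = C (-2) := by simp
    rw [this, coeff_C_mul]
  rcases Nat.eq_zero_or_pos j with h0 | hjpos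
  · -- constant coefficient vanishes
    subst h0
    have : (II (GP p)).coeff 0 = 0 := by
      unfold II th
      simp [coeff_zero_eq_eval_zero]
    rw [this]
    exact dvd_zero _
  by_cases hpj : p ∣ j
  · by_cases hbig : 2 * p < j
    · -- large index: zero
      have hz : ∑ x ∈ antidiagonal j, (GP p).coeff x.1 * (LL (GP p)).coeff x.2 = 0 := by
        apply Finset.sum_eq_zero
        rintro ⟨a, b⟩ hab
        rw [HasAntidiagonal.mem_antidiagonal] at hab
        simp only at hab ⊢
        rw [coeff_GP]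
        by_cases ha : a < p
        · rw [LL_GP p h2, if_neg (show ¬ b = p by omega), if_neg (show ¬ b = p + 1 by omega), mul_zero]
        · rw [if_neg ha, zero_mul]
      rw [hz, mul_zero] at hj
      have hj0 : (j : ℤ) ≠ 0 := by exact_mod_cast hjpos.ne'
      rcases mul_eq_zero.mp hj with h | h
      · exact absurd h hj0
      · rw [h]
        exact dvd_zero _
    · have h3 : (p : ℤ) ^ 3 ∣ (j : ℤ) * (II (GP p)).coeff j := by
        rw [hj]
        apply Dvd.dvd.mul_left
        apply Finset.dvd_sum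
        rintro ⟨a, b⟩ hab
        rw [HasAntidiagonal.mem_antidiagonal] at hab
        simp only at hab ⊢
        rw [coeff_GP, LL_GP p h2 b]
        by_cases hb : b = p
        · rw [if_pos hb]
          exact ⟨(if a < p then an a else 0) * (-an p), by ring⟩
        · rw [if_neg hb]
          by_cases hb1 : b = p + 1
          · rw [if_pos hb1]
            by_cases ha : a < p
            · obtain ⟨i, hi⟩ := hpj
              have hi2 : i = 2 := by
                have hi1 : i ≤ 2 := by
                  by_contra hcon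
                  have : p * 3 ≤ p * i := Nat.mul_le_mul_left p (by omega)
                  omega
                have hi3 : 2 ≤ i := by
                  by_contra hcon
                  have : p * i ≤ p * 1 := Nat.mul_le_mul_left p (by omega)
                  omega
                omega
              subst hi2
              have ha2 : a = p - 1 := by omega
              rw [if_pos ha, ha2, hr]
              exact ⟨-(32 * (4 * (p : ℤ) ^ 2 - 1)) * r ^ 2, by ring⟩
            · rw [if_neg ha, zero_mul]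
              exact dvd_zero _
          · rw [if_neg hb1, mul_zero]
            exact dvd_zero _
      obtain ⟨i, hi⟩ := hpj
      have hi0 : i = 1 ∨ i = 2 := by
        have hi1 : i ≤ 2 := by
          by_contra hcon
          have : p * 3 ≤ p * i := Nat.mul_le_mul_left p (by omega)
          omega
        have : i ≠ 0 := by
          rintro rfl
          omega
        omega
      have h4 : (p : ℤ) ^ 2 ∣ (i : ℤ) * (II (GP p)).coeff j := by
        obtain ⟨s, hs⟩ := h3
        refine ⟨s, ?_⟩
        apply mul_left_cancel₀ hp0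
        rw [hi] at hs ⊢
        push_cast at hs ⊢
        linear_combination hs
      rcases hi0 with rfl | rfl
      · simpa using h4
      · have hc : IsCoprime ((p : ℤ) ^ 2) (2 : ℤ) := by
          apply IsCoprime.pow_left
          have : Nat.Coprime p 2 := by
            rw [Nat.coprime_primes hp Nat.prime_two]
            exact hp2
          exact_mod_cast Nat.isCoprime_iff_coprime.mpr this
        exact hc.dvd_of_dvd_mul_left (by exact_mod_cast h4)
  · have h4 : (p : ℤ) ^ 2 ∣ (j : ℤ) * (II (GP p)).coeff j := by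
      rw [hj]
      apply Dvd.dvd.mul_left
      apply Finset.dvd_sum
      intro x _
      exact Dvd.dvd.mul_left (hL _) _
    have hc : IsCoprime ((p : ℤ) ^ 2) (j : ℤ) := by
      apply IsCoprime.pow_left
      exact Nat.isCoprime_iff_coprime.mpr ((Nat.Prime.coprime_iff_not_dvd hp).mpr hpj)
    exact hc.dvd_of_dvd_mul_left h4

/-- Step 1: in `Z/p^2`, with `32 t = 1`, `G(t) (36 (theta G)(t) + 11 G(t)) = 0`. -/
theorem step_one (p : ℕ) (hp : p.Prime) (hp2 : p ≠ 2) (t : ZMod (p ^ 2)) (ht : 32 * t = 1) :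
    (∑ n ∈ range p, (an n : ZMod (p ^ 2)) * t ^ n)
      * (36 * (∑ n ∈ range p, (n : ZMod (p ^ 2)) * ((an n : ZMod (p ^ 2)) * t ^ n))
        + 11 * ∑ n ∈ range p, (an n : ZMod (p ^ 2)) * t ^ n) = 0 := by
  set φ := Int.castRingHom (ZMod (p ^ 2)) with hφ
  have hmap : (II (GP p)).map φ = 0 := by
    ext j
    rw [coeff_map, coeff_zero]
    have := sq_dvd_II p hp hp2 j
    rw [hφ]
    simp only [eq_intCast]
    rw [ZMod.intCast_zmod_eq_zero_iff_dvd]
    exact_mod_cast this
  have hev : eval₂ φ t (II (GP p)) = 0 := by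
    rw [eval₂_eq_eval_map, hmap, eval_zero]
  have hG : eval₂ φ t (GP p) = ∑ n ∈ range p, (an n : ZMod (p ^ 2)) * t ^ n := by
    unfold GP
    rw [eval₂_finsetSum]
    refine Finset.sum_congr rfl fun n _ => ?_
    rw [eval₂_monomial]
    simp [hφ]
  have hG1 : eval₂ φ t (th (GP p))
      = ∑ n ∈ range p, (n : ZMod (p ^ 2)) * ((an n : ZMod (p ^ 2)) * t ^ n) := by
    unfold GP th
    rw [derivative_sum, Finset.mul_sum, eval₂_finsetSum]
    refine Finset.sum_congr rfl fun n _ => ?_
    rw [derivative_monomial, eval₂_mul, eval₂_X, eval₂_monomial]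
    cases n with
    | zero => simp
    | succ n =>
      simp [hφ]
      ring
  have h16 : (1 : ZMod (p ^ 2)) - 28 * t - 128 * t ^ 2 = 0 := by
    have : (1 : ZMod (p ^ 2)) - 28 * t - 128 * t ^ 2 = (1 - 32 * t) * (1 + 4 * t) := by ring
    rw [this, ht]
    ring
  unfold II at hev
  simp only [eval₂_add, eval₂_sub, eval₂_mul, eval₂_pow, eval₂_X, eval₂_one, eval₂_ofNat] at hev
  rw [hG, hG1, h16] at hev
  generalize (∑ n ∈ range p, (an n : ZMod (p ^ 2)) * t ^ n) = g at hev ⊢
  generalize (∑ n ∈ range p, (n : ZMod (p ^ 2)) * ((an n : ZMod (p ^ 2)) * t ^ n)) = g1 at hev ⊢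
  -- multiply by `32`
  linear_combination (32 : ZMod (p ^ 2)) * hev
    - ((28 * g * g1 + 8 * g ^ 2) + (256 * t + 8) * g * g1 + (96 * t + 3) * g ^ 2) * ht
end MPad286f
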