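import Mathlib
import Pool.Agent.Lib.MP_ad286f_nt.CStepOne

/-!
Step 2 of part (c): the reversed truncated Franel polynomial modulo `p` expanded at `8`.
-/

namespace MPad286f

open Finset Polynomial

section Recurrence

variable {p : ℕ} [Fact p.Prime]

private lemma cast_ne_zero_of_lt {n : ℕ} (h0 : 0 < n) (h : n < p) : (n : ZMod p) ≠ 0 := by
  intro hcon
  rw [ZMod.natCast_eq_zero_iff] at hcon
  exact absurd (Nat.le_of_dvd h0 hcon) (by omega)

/-- Symmetry of the solution of the recurrence. -/
private lemma sym_rec (z : ℕ → ZMod p)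
    (r0 : 72 * z 1 + 6 * z 0 = 0)
    (r : ∀ n : ℕ, ((n : ZMod p) + 1) ^ 2 * z n
      + (17 * ((n : ZMod p) + 1) * ((n : ZMod p) + 2) + 6) * z (n + 1)
      + 72 * ((n : ZMod p) + 2) ^ 2 * z (n + 2) = 0)
    (htop : z (p - 1) = 1) (n : ℕ) (hn : n ≤ p - 1) :
    z 0 * z (p - 1 - n) = 72 ^ n * z n := by
  have h2 := (Fact.out : p.Prime).two_le
  have hp0 : ((p : ℕ) : ZMod p) = 0 := ZMod.natCast_self p
  induction n using Nat.strong_induction_on with
  | _ n ih =>
    match n with
    | 0 =>
      rw [Nat.sub_zero, htop]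
      ring
    | 1 =>
      obtain ⟨q, hq⟩ : ∃ q, p = q + 2 := ⟨p - 2, by omega⟩
      have hr := r q
      have hq0 : (q : ZMod p) + 2 = 0 := by
        have := congrArg (fun x : ℕ => (x : ZMod p)) hq
        push_cast at this
        rw [hp0] at this
        linear_combination -this
      have e1 : p - 1 = q + 1 := by omega
      have e2 : p - 1 - 1 = q := by omega
      rw [e1] at htop
      rw [htop] at hr
      rw [e2]
      have hq1 : (q : ZMod p) = -2 := by linear_combination hq0
      rw [hq1] at hr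
      linear_combination z 0 * hr - r0
    | n + 2 =>
      have i0 := ih n (by omega) (by omega)
      have i1 := ih (n + 1) (by omega) (by omega)
      obtain ⟨q, hq⟩ : ∃ q, p = q + n + 3 := ⟨p - n - 3, by omega⟩
      have e2 : p - 1 - (n + 2) = q := by omega
      have e1 : p - 1 - (n + 1) = q + 1 := by omega
      have e0 : p - 1 - n = q + 2 := by omega
      rw [e2]
      rw [e1] at i1
      rw [e0] at i0
      have hq0 : (q : ZMod p) = -(n : ZMod p) - 3 := by
        have := congrArg (fun x : ℕ => (x : ZMod p)) hq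
        push_cast at this
        rw [hp0] at this
        linear_combination -this
      have hr := r q
      have hr2 := r n
      rw [hq0] at hr
      have hne : ((n : ZMod p) + 2) ≠ 0 := by
        have := cast_ne_zero_of_lt (p := p) (n := n + 2) (by omega) (by omega)
        push_cast at this
        exact this
      have hne2 : ((n : ZMod p) + 2) ^ 2 ≠ 0 := pow_ne_zero 2 hne
      apply mul_left_cancel₀ hne2
      linear_combination z 0 * hr - 72 ^ (n + 1) * hr2
        - (17 * ((n : ZMod p) + 1) * ((n : ZMod p) + 2) + 6) * i1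
        - 72 * ((n : ZMod p) + 1) ^ 2 * i0

private lemma zero_forward (z : ℕ → ZMod p) (h72 : (72 : ZMod p) ≠ 0)
    (r : ∀ n : ℕ, ((n : ZMod p) + 1) ^ 2 * z n
      + (17 * ((n : ZMod p) + 1) * ((n : ZMod p) + 2) + 6) * z (n + 1)
      + 72 * ((n : ZMod p) + 2) ^ 2 * z (n + 2) = 0)
    (m : ℕ) (h0 : z m = 0) (h1 : z (m + 1) = 0) (i : ℕ) (hi : m + i ≤ p - 1) : z (m + i) = 0 := by
  have h2 := (Fact.out : p.Prime).two_le
  induction i using Nat.strong_induction_on with
  | _ i ih =>
    match i with
    | 0 => exact h0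
    | 1 => exact h1
    | i + 2 =>
      have i0 := ih i (by omega) (by omega)
      have i1 := ih (i + 1) (by omega) (by omega)
      have hr := r (m + i)
      rw [i0, show m + i + 1 = m + (i + 1) by ring, i1] at hr
      have hne : (((m + i : ℕ) : ZMod p) + 2) ≠ 0 := by
        have := cast_ne_zero_of_lt (p := p) (n := m + i + 2) (by omega) (by omega)
        push_cast at this ⊢
        exact this
      have hne2 : 72 * (((m + i : ℕ) : ZMod p) + 2) ^ 2 ≠ 0 :=
        mul_ne_zero h72 (pow_ne_zero 2 hne)
      rw [show m + i + 2 = m + (i + 2) by ring] at hr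
      have hr' : 72 * (((m + i : ℕ) : ZMod p) + 2) ^ 2 * z (m + (i + 2)) = 0 := by
        linear_combination hr
      exact (mul_eq_zero.mp hr').resolve_left hne2

end Recurrence

section Poly

variable (p : ℕ)

/-- The reversed truncated Franel polynomial. -/
private noncomputable def YP : (ZMod p)[X] := ∑ k ∈ range p, C (fr k : ZMod p) * X ^ (p - 1 - k)

private lemma coeff_YP (i : ℕ) : (YP p).coeff i = if i < p then (fr (p - 1 - i) : ZMod p) else 0 := by
  unfold YP
  rw [finsetSum_coeff]
  simp only [coeff_C_mul, coeff_X_pow]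
  by_cases h : i < p
  · rw [if_pos h, Finset.sum_eq_single (p - 1 - i)]
    · rw [if_pos (by omega), mul_one]
    · intro b hb hne
      simp only [Finset.mem_range] at hb
      rw [if_neg (by omega), mul_zero]
    · intro hcon
      simp only [Finset.mem_range] at hcon
      omega
  · rw [if_neg h]
    apply Finset.sum_eq_zero
    intro b hb
    simp only [Finset.mem_range] at hb
    rw [if_neg (by omega), mul_zero]

private lemma coeff_ode (Y : (ZMod p)[X]) (n : ℕ) :
    (derivative ((X ^ 2 - 7 * X - 8) * (X * derivative Y)) + (X - 2) * Y).coeff (n + 1)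
      = ((n : ZMod p) + 1) ^ 2 * Y.coeff n
        - (7 * ((n : ZMod p) + 1) * ((n : ZMod p) + 2) + 2) * Y.coeff (n + 1)
        - 8 * ((n : ZMod p) + 2) ^ 2 * Y.coeff (n + 2) := by
  have hx : ∀ k : ℕ, (X * derivative Y).coeff k = (k : ZMod p) * Y.coeff k := by
    intro k
    cases k with
    | zero => simp
    | succ k =>
      rw [coeff_X_mul, coeff_derivative]
      push_cast
      ring
  have e1 : (X ^ 2 - 7 * X - 8) * (X * derivative Y)
      = X * (X * (X * derivative Y)) - X * (7 * (X * derivative Y)) - 8 * (X * derivative Y) := by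
    ring
  have e2 : (X - 2) * Y = X * Y - 2 * Y := by ring
  have e : ∀ (k : ℕ) (F : (ZMod p)[X]) (m : ℕ) [k.AtLeastTwo],
      ((OfNat.ofNat k : (ZMod p)[X]) * F).coeff m = (OfNat.ofNat k : ZMod p) * F.coeff m := by
    intro k F m _
    rw [← C_ofNat]
    exact coeff_C_mul F
  rw [coeff_add, coeff_derivative, e1, e2, coeff_sub, coeff_sub, coeff_sub, coeff_X_mul (n := n + 1),
    coeff_X_mul (n := n), coeff_X_mul (n := n + 1), coeff_X_mul (n := n), e, e, e, hx, hx, hx]
  push_cast
  ring

private lemma coeff_ode_zero (Y : (ZMod p)[X]) :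
    (derivative ((X ^ 2 - 7 * X - 8) * (X * derivative Y)) + (X - 2) * Y).coeff 0
      = - 2 * Y.coeff 0 - 8 * Y.coeff 1 := by
  have e1 : (X ^ 2 - 7 * X - 8) * (X * derivative Y)
      = X * ((X ^ 2 - 7 * X - 8) * derivative Y) := by
    ring
  rw [coeff_add, coeff_derivative, e1, coeff_X_mul]
  simp [coeff_zero_eq_eval_zero]
  have : (derivative Y).eval 0 = Y.coeff 1 := by
    rw [← coeff_zero_eq_eval_zero, coeff_derivative]
    simp
  rw [this]
  ring

variable [Fact p.Prime]

private lemma ode_YP :
    derivative ((X ^ 2 - 7 * X - 8) * (X * derivative (YP p))) + (X - 2) * (YP p) = 0 := by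
  have h2 := (Fact.out : p.Prime).two_le
  have hp0 : ((p : ℕ) : ZMod p) = 0 := ZMod.natCast_self p
  have hrec : ∀ n : ℕ, ((n : ZMod p) + 2) ^ 2 * (fr (n + 2) : ZMod p)
      = (7 * ((n : ZMod p) + 1) ^ 2 + 7 * ((n : ZMod p) + 1) + 2) * (fr (n + 1) : ZMod p)
        + 8 * ((n : ZMod p) + 1) ^ 2 * (fr n : ZMod p) := by
    intro n
    have h := congrArg (Int.cast : ℤ → ZMod p) (fr_rec n)
    push_cast at h
    exact h
  ext i
  rw [coeff_zero]
  cases i with
  | zero =>
    rw [coeff_ode_zero, coeff_YP, coeff_YP, if_pos (by omega), if_pos (by omega)]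
    obtain ⟨n, hn⟩ : ∃ n, p = n + 2 := ⟨p - 2, by omega⟩
    have e1 : p - 1 - 0 = n + 1 := by omega
    have e2 : p - 1 - 1 = n := by omega
    rw [e1, e2]
    have hr := hrec n
    have hn0 : (n : ZMod p) = -2 := by
      have := congrArg (fun x : ℕ => (x : ZMod p)) hn
      push_cast at this
      rw [hp0] at this
      linear_combination -this
    rw [hn0] at hr
    linear_combination hr
  | succ i =>
    rw [coeff_ode, coeff_YP, coeff_YP, coeff_YP]
    rcases lt_trichotomy (i + 2) p with h | h | h
    · -- generic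
      obtain ⟨n, hn⟩ : ∃ n, p = n + i + 3 := ⟨p - i - 3, by omega⟩
      rw [if_pos (by omega), if_pos (by omega), if_pos (by omega)]
      have e0 : p - 1 - i = n + 2 := by omega
      have e1 : p - 1 - (i + 1) = n + 1 := by omega
      have e2 : p - 1 - (i + 2) = n := by omega
      rw [e0, e1, e2]
      have hi : (i : ZMod p) = -(n : ZMod p) - 3 := by
        have := congrArg (fun x : ℕ => (x : ZMod p)) hn
        push_cast at this
        rw [hp0] at this
        linear_combination -this
      rw [hi]
      linear_combination hrec n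
    · -- `i + 2 = p`
      rw [if_pos (by omega), if_pos (by omega), if_neg (by omega)]
      have e0 : p - 1 - i = 1 := by omega
      have e1 : p - 1 - (i + 1) = 0 := by omega
      rw [e0, e1, fr_one, fr_zero]
      have hi : (i : ZMod p) = -2 := by
        have := congrArg (fun x : ℕ => (x : ZMod p)) h.symm
        push_cast at this
        rw [hp0] at this
        linear_combination -this
      rw [hi]
      push_cast
      ring
    · by_cases h1 : i < p
      · -- `i + 1 = p`
        rw [if_pos h1, if_neg (by omega), if_neg (by omega)]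
        have hi : (i : ZMod p) = -1 := by
          have h3 : i + 1 = p := by omega
          have := congrArg (fun x : ℕ => (x : ZMod p)) h3.symm
          push_cast at this
          rw [hp0] at this
          linear_combination -this
        rw [hi]
        ring
      · rw [if_neg h1, if_neg (by omega), if_neg (by omega)]
        ring

/-- The expansion at `8`. -/
private noncomputable def WP : (ZMod p)[X] := (YP p).comp (X + C 8)

private lemma ode_WP :
    derivative ((X ^ 2 + 17 * X + 72) * (X * derivative (WP p))) + (X + 6) * (WP p) = 0 := by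
  have h := congrArg (fun q => q.comp (X + C 8)) (ode_YP p)
  have hd : derivative (WP p) = (derivative (YP p)).comp (X + C 8) := by
    unfold WP
    rw [derivative_comp]
    simp
  have hW : (YP p).comp (X + C 8) = WP p := rfl
  have hcomp : ∀ q : (ZMod p)[X], (derivative q).comp (X + C 8) = derivative (q.comp (X + C 8)) := by
    intro q
    rw [derivative_comp]
    simp
  simp only [add_comp, zero_comp, mul_comp, hcomp, sub_comp, X_comp, pow_comp, hW] at h
  have e7 : (7 : (ZMod p)[X]).comp (X + C 8) = 7 := by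
    rw [← C_ofNat, C_comp]
  have e8 : (8 : (ZMod p)[X]).comp (X + C 8) = 8 := by
    rw [← C_ofNat, C_comp]
  have e2 : (2 : (ZMod p)[X]).comp (X + C 8) = 2 := by
    rw [← C_ofNat, C_comp]
  have c8 : (C 8 : (ZMod p)[X]) = 8 := C_ofNat 8
  rw [e7, e8, e2, c8] at h
  have g1 : (X ^ 2 + 17 * X + 72) * (X * derivative (WP p))
      = ((X + 8) ^ 2 - 7 * (X + 8) - 8) * ((X + 8) * derivative (WP p)) := by
    ring
  have g2 : (X + 6) * (WP p) = (X + 8 - 2) * WP p := by ring
  rw [g1, g2]
  exact h

private lemma rec_W (n : ℕ) :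
    ((n : ZMod p) + 1) ^ 2 * (WP p).coeff n
      + (17 * ((n : ZMod p) + 1) * ((n : ZMod p) + 2) + 6) * (WP p).coeff (n + 1)
      + 72 * ((n : ZMod p) + 2) ^ 2 * (WP p).coeff (n + 2) = 0 := by
  have h := congrArg (fun q => q.coeff (n + 1)) (ode_WP p)
  have hx : ∀ k : ℕ, (X * derivative (WP p)).coeff k = (k : ZMod p) * (WP p).coeff k := by
    intro k
    cases k with
    | zero => simp
    | succ k =>
      rw [coeff_X_mul, coeff_derivative]
      push_cast
      ring
  have e1 : (X ^ 2 + 17 * X + 72) * (X * derivative (WP p))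
      = X * (X * (X * derivative (WP p))) + X * (17 * (X * derivative (WP p)))
        + 72 * (X * derivative (WP p)) := by
    ring
  have e2 : (X + 6) * (WP p) = X * WP p + 6 * WP p := by ring
  have e : ∀ (k : ℕ) (F : (ZMod p)[X]) (m : ℕ) [k.AtLeastTwo],
      ((OfNat.ofNat k : (ZMod p)[X]) * F).coeff m = (OfNat.ofNat k : ZMod p) * F.coeff m := by
    intro k F m _
    rw [← C_ofNat]
    exact coeff_C_mul F
  simp only [coeff_zero] at h
  rw [coeff_add, coeff_derivative, e1, e2, coeff_add, coeff_add, coeff_add, coeff_X_mul (n := n + 1),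
    coeff_X_mul (n := n), coeff_X_mul (n := n + 1), coeff_X_mul (n := n), e, e, e, hx, hx, hx] at h
  push_cast at h
  linear_combination h

private lemma rec_W_zero : 72 * (WP p).coeff 1 + 6 * (WP p).coeff 0 = 0 := by
  have h := congrArg (fun q => q.coeff 0) (ode_WP p)
  have e1 : (X ^ 2 + 17 * X + 72) * (X * derivative (WP p))
      = X * ((X ^ 2 + 17 * X + 72) * derivative (WP p)) := by
    ring
  have e2 : (derivative (WP p)).eval 0 = (WP p).coeff 1 := by
    rw [← coeff_zero_eq_eval_zero, coeff_derivative]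
    simp
  simp only [coeff_zero] at h
  rw [coeff_add, coeff_derivative, e1, coeff_X_mul] at h
  simp only [coeff_zero_eq_eval_zero, eval_mul, eval_add, eval_pow, eval_X, eval_ofNat, e2] at h
  rw [← coeff_zero_eq_eval_zero] at h
  push_cast at h
  linear_combination h

private lemma coeff_WP (n : ℕ) :
    (WP p).coeff n = ∑ k ∈ range p, (fr k : ZMod p) * (8 ^ (p - 1 - k - n) * ((p - 1 - k).choose n : ZMod p)) := by
  unfold WP YP
  rw [Polynomial.sum_comp, finsetSum_coeff]
  refine Finset.sum_congr rfl fun k _ => ?_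
  rw [mul_comp, C_comp, pow_comp, X_comp, coeff_C_mul, coeff_X_add_C_pow]

private lemma W_top : (WP p).coeff (p - 1) = 1 := by
  have h2 := (Fact.out : p.Prime).two_le
  rw [coeff_WP, Finset.sum_eq_single 0]
  · simp [fr_zero]
  · intro k _ hk
    rw [Nat.choose_eq_zero_of_lt (by omega)]
    simp
  · intro h
    simp only [Finset.mem_range, not_lt] at h
    omega

/-- `C(p-1, a) = (-1)^a` modulo `p`. -/
lemma choose_pred_prime (a : ℕ) (ha : a < p) : ((p - 1).choose a : ZMod p) = (-1) ^ a := by
  have h2 := (Fact.out : p.Prime).two_le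
  induction a with
  | zero => simp
  | succ a ih =>
    have h := ih (by omega)
    have h1 : p ∣ ((p - 1) + 1).choose (a + 1) := by
      have e : p - 1 + 1 = p := by omega
      rw [e]
      exact (Fact.out : p.Prime).dvd_choose_self (by omega) ha
    rw [Nat.choose_succ_succ, ← ZMod.natCast_eq_zero_iff] at h1
    push_cast at h1
    rw [h] at h1
    rw [pow_succ]
    linear_combination h1

private lemma mid_choose (m : ℕ) (hm : p = 2 * m + 1) (k : ℕ) (hk : k ≤ 2 * m) :
    (4 : ZMod p) ^ k * ((2 * m - k).choose m : ZMod p) = (-1) ^ m * ((2 * k).choose k : ZMod p) := by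
  have hp0 : ((p : ℕ) : ZMod p) = 0 := ZMod.natCast_self p
  have hm0 : 2 * (m : ZMod p) = -1 := by
    have := congrArg (fun x : ℕ => (x : ZMod p)) hm
    push_cast at this
    rw [hp0] at this
    linear_combination -this
  induction k with
  | zero =>
    have h := choose_pred_prime p m (by omega)
    have e : p - 1 = 2 * m - 0 := by omega
    rw [e] at h
    rw [h]
    simp
  | succ k ih =>
    have i0 := ih (by omega)
    have hb := Nat.succ_mul_centralBinom_succ k
    simp only [Nat.centralBinom] at hb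
    have hb' := congrArg (fun x : ℕ => (x : ZMod p)) hb
    push_cast at hb'
    obtain ⟨n, hn⟩ : ∃ n, 2 * m - k = n + 1 := ⟨2 * m - k - 1, by omega⟩
    have hn2 : 2 * m - (k + 1) = n := by omega
    have hl := congrArg (fun x : ℤ => (x : ZMod p)) (low_rel n m)
    push_cast at hl
    rw [hn] at i0
    rw [hn2]
    have hnm : (n : ZMod p) = 2 * m - k - 1 := by
      have h3 : 2 * m = n + 1 + k := by omega
      have := congrArg (fun x : ℕ => (x : ZMod p)) h3
      push_cast at this
      linear_combination -this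
    have hk0 : ((k : ZMod p) + 1) ≠ 0 := by
      have := cast_ne_zero_of_lt (p := p) (n := k + 1) (by omega) (by omega)
      push_cast at this
      exact this
    apply mul_left_cancel₀ hk0
    have hn3 : (n : ZMod p) + 1 = -1 - k := by
      rw [hnm]
      linear_combination hm0
    have hn4 : (2 : ZMod p) * ((n : ZMod p) + 1 - m) = -1 - 2 * k := by
      rw [hnm]
      linear_combination hm0
    rw [hn3] at hl
    generalize ((n + 1).choose m : ZMod p) = c1 at i0 hl ⊢
    generalize ((n).choose m : ZMod p) = c0 at i0 hl ⊢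
    generalize ((2 * (k + 1)).choose (k + 1) : ZMod p) = d1 at hb' ⊢
    generalize ((2 * k).choose k : ZMod p) = d0 at hb' i0 ⊢
    have hl2 : (-1 - (k : ZMod p)) * c0 * 2 = (-1 - 2 * k) * c1 := by
      rw [hl, ← hn4, hn3]
      ring
    rw [pow_succ]
    linear_combination (-2 * 4 ^ k) * hl2 + (4 * (k : ZMod p) + 2) * i0 - (-1) ^ m * hb'

private lemma W_mid (m : ℕ) (hm : p = 2 * m + 1) (t : ZMod p) (ht : 32 * t = 1) :
    (WP p).coeff m = (-1) ^ m * 8 ^ m * ∑ n ∈ range p, (an n : ZMod p) * t ^ n := by
  rw [coeff_WP, Finset.mul_sum]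
  refine Finset.sum_congr rfl fun k hk => ?_
  simp only [Finset.mem_range] at hk
  have h := mid_choose p m hm k (by omega)
  have e1 : p - 1 - k = 2 * m - k := by omega
  rw [e1]
  have h32 : (32 : ZMod p) ≠ 0 := by
    intro hcon
    rw [hcon, zero_mul] at ht
    exact zero_ne_one ht
  have h8 : (8 : ZMod p) ^ k * (8 ^ (2 * m - k - m) * ((2 * m - k).choose m : ZMod p))
      = 8 ^ m * ((2 * m - k).choose m : ZMod p) := by
    rcases le_or_gt k m with hkm | hkm
    · have : (8 : ZMod p) ^ m = 8 ^ k * 8 ^ (2 * m - k - m) := by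
        rw [← pow_add]
        congr 1
        omega
      rw [this]
      ring
    · rw [Nat.choose_eq_zero_of_lt (by omega)]
      simp
  have h32k : (32 : ZMod p) ^ k ≠ 0 := pow_ne_zero k h32
  have ht2 : (32 : ZMod p) ^ k * t ^ k = 1 := by
    rw [← mul_pow, ht, one_pow]
  apply mul_left_cancel₀ h32k
  unfold an
  push_cast
  have e32 : (32 : ZMod p) ^ k = 4 ^ k * 8 ^ k := by
    rw [← mul_pow]
    norm_num
  have r1 : (32 : ZMod p) ^ k * ((-1) ^ m * 8 ^ m * (((2 * k).choose k : ZMod p) * (fr k : ZMod p) * t ^ k))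
      = (-1) ^ m * 8 ^ m * ((2 * k).choose k : ZMod p) * (fr k : ZMod p) := by
    linear_combination ((-1) ^ m * 8 ^ m * ((2 * k).choose k : ZMod p) * (fr k : ZMod p)) * ht2
  rw [r1, e32]
  linear_combination ((fr k : ZMod p) * 4 ^ k) * h8 + ((fr k : ZMod p) * 8 ^ m) * h

private lemma W_mid_succ (m : ℕ) (hm : p = 2 * m + 1) (t : ZMod p) (ht : 32 * t = 1) :
    8 * (WP p).coeff (m + 1) = -((-1) ^ m * 8 ^ m *
      (2 * (∑ n ∈ range p, (n : ZMod p) * ((an n : ZMod p) * t ^ n))
        + ∑ n ∈ range p, (an n : ZMod p) * t ^ n)) := by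
  have hp0 : ((p : ℕ) : ZMod p) = 0 := ZMod.natCast_self p
  have hm0 : 2 * (m : ZMod p) = -1 := by
    have := congrArg (fun x : ℕ => (x : ZMod p)) hm
    push_cast at this
    rw [hp0] at this
    linear_combination -this
  rw [coeff_WP, Finset.mul_sum, Finset.mul_sum, ← Finset.sum_add_distrib, Finset.mul_sum,
    ← Finset.sum_neg_distrib]
  refine Finset.sum_congr rfl fun k hk => ?_
  simp only [Finset.mem_range] at hk
  have h := mid_choose p m hm k (by omega)
  have e1 : p - 1 - k = 2 * m - k := by omega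
  rw [e1]
  have h32 : (32 : ZMod p) ≠ 0 := by
    intro hcon
    rw [hcon, zero_mul] at ht
    exact zero_ne_one ht
  have h8 : (8 : ZMod p) ^ k * (8 * (8 ^ (2 * m - k - (m + 1)) * ((2 * m - k).choose (m + 1) : ZMod p)))
      = 8 ^ m * ((2 * m - k).choose (m + 1) : ZMod p) := by
    rcases le_or_gt (k + 1) m with hkm | hkm
    · have : (8 : ZMod p) ^ m = 8 ^ k * (8 * 8 ^ (2 * m - k - (m + 1))) := by
        rw [← pow_succ', ← pow_add]
        congr 1
        omega
      rw [this]
      ring
    · rw [Nat.choose_eq_zero_of_lt (by omega)]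
      simp
  have hc : ((2 * m - k).choose (m + 1) : ZMod p)
      = -(2 * (k : ZMod p) + 1) * ((2 * m - k).choose m : ZMod p) := by
    have h3 := Nat.choose_succ_right_eq (2 * m - k) m
    rcases le_or_gt k m with hkm | hkm
    · have h4 := congrArg (fun x : ℕ => (x : ZMod p)) h3
      have h5 : ((2 * m - k - m : ℕ) : ZMod p) = m - k := by
        have : 2 * m - k - m = m - k := by omega
        rw [this, Nat.cast_sub hkm]
      rw [Nat.cast_mul, Nat.cast_mul, h5] at h4
      push_cast at h4
      linear_combination 2 * h4 + (((2 * m - k).choose m : ZMod p)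
        - ((2 * m - k).choose (m + 1) : ZMod p)) * hm0
    · rw [Nat.choose_eq_zero_of_lt (show 2 * m - k < m + 1 by omega),
        Nat.choose_eq_zero_of_lt (show 2 * m - k < m by omega)]
      simp
  have h32k : (32 : ZMod p) ^ k ≠ 0 := pow_ne_zero k h32
  have ht2 : (32 : ZMod p) ^ k * t ^ k = 1 := by
    rw [← mul_pow, ht, one_pow]
  apply mul_left_cancel₀ h32k
  unfold an
  push_cast
  have e32 : (32 : ZMod p) ^ k = 4 ^ k * 8 ^ k := by
    rw [← mul_pow]
    norm_num
  have r1 : (32 : ZMod p) ^ k * -((-1) ^ m * 8 ^ m * (2 * ((k : ZMod p) * (((2 * k).choose k : ZMod p)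
        * (fr k : ZMod p) * t ^ k)) + ((2 * k).choose k : ZMod p) * (fr k : ZMod p) * t ^ k))
      = -((-1) ^ m * 8 ^ m * (2 * (k : ZMod p) + 1) * ((2 * k).choose k : ZMod p) * (fr k : ZMod p)) := by
    linear_combination (-((-1) ^ m * 8 ^ m * (2 * (k : ZMod p) + 1)
      * ((2 * k).choose k : ZMod p) * (fr k : ZMod p))) * ht2
  rw [r1, e32]
  rw [hc] at h8 ⊢
  linear_combination ((fr k : ZMod p) * 4 ^ k) * h8 - ((fr k : ZMod p) * 8 ^ m * (2 * (k : ZMod p) + 1)) * h

/-- Step 2: if the value at the tame point is not the quadratic symbol, then `G(1/32) = 0` and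
`(theta G)(1/32) ≠ 0` modulo `p`. -/
theorem step_two (m : ℕ) (hm : p = 2 * m + 1) (h3 : p ≠ 3) (t : ZMod p) (ht : 32 * t = 1)
    (hne : (∑ k ∈ range p, (fr k : ZMod p) * 8 ^ (p - 1 - k)) ≠ 72 ^ m) :
    (∑ n ∈ range p, (an n : ZMod p) * t ^ n) = 0 ∧
      (∑ n ∈ range p, (n : ZMod p) * ((an n : ZMod p) * t ^ n)) ≠ 0 := by
  have hp := (Fact.out : p.Prime)
  have h2 := hp.two_le
  have h72 : (72 : ZMod p) ≠ 0 := by
    intro hcon
    have h : ((72 : ℕ) : ZMod p) = 0 := by exact_mod_cast hcon
    rw [ZMod.natCast_eq_zero_iff] at h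
    have e : 72 = 2 ^ 3 * 3 ^ 2 := by norm_num
    rw [e] at h
    rcases (Nat.Prime.dvd_mul hp).mp h with h | h
    · have := (Nat.prime_dvd_prime_iff_eq hp Nat.prime_two).mp (hp.dvd_of_dvd_pow h)
      omega
    · have := (Nat.prime_dvd_prime_iff_eq hp Nat.prime_three).mp (hp.dvd_of_dvd_pow h)
      omega
  have h8 : (8 : ZMod p) ≠ 0 := by
    intro hcon
    apply h72
    have : (72 : ZMod p) = 9 * 8 := by norm_num
    rw [this, hcon, mul_zero]
  have hz0 : (WP p).coeff 0 = ∑ k ∈ range p, (fr k : ZMod p) * 8 ^ (p - 1 - k) := by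
    rw [coeff_WP]
    refine Finset.sum_congr rfl fun k _ => ?_
    simp
  have hsym := sym_rec (fun n => (WP p).coeff n) (rec_W_zero p) (rec_W p) (W_top p) m (by omega)
  have e1 : p - 1 - m = m := by omega
  rw [e1, hz0] at hsym
  have hzm : (WP p).coeff m = 0 := by
    have : ((∑ k ∈ range p, (fr k : ZMod p) * 8 ^ (p - 1 - k)) - 72 ^ m) * (WP p).coeff m = 0 := by
      linear_combination hsym
    rcases mul_eq_zero.mp this with h | h
    · exact absurd (sub_eq_zero.mp h) hne
    · exact h
  have hg := W_mid p m hm t ht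
  have hg1 := W_mid_succ p m hm t ht
  have hunit : ((-1 : ZMod p)) ^ m * 8 ^ m ≠ 0 :=
    mul_ne_zero (pow_ne_zero _ (neg_ne_zero.mpr one_ne_zero)) (pow_ne_zero _ h8)
  have hg0 : (∑ n ∈ range p, (an n : ZMod p) * t ^ n) = 0 := by
    rw [hzm] at hg
    rcases mul_eq_zero.mp hg.symm with h | h
    · exact absurd h hunit
    · exact h
  refine ⟨hg0, ?_⟩
  intro hcon
  rw [hcon, hg0] at hg1
  have hz1 : (WP p).coeff (m + 1) = 0 := by
    have : 8 * (WP p).coeff (m + 1) = 0 := by
      rw [hg1]
      ring
    exact (mul_eq_zero.mp this).resolve_left h8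
  have hlast := zero_forward (fun n => (WP p).coeff n) h72 (rec_W p) m hzm hz1 m (by omega)
  have e2 : m + m = p - 1 := by omega
  rw [e2, W_top] at hlast
  exact one_ne_zero hlast

end Poly

end MPad286f
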