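import Mathlib
import Pool.Agent.Lib.MP_ad286f_nt.CStepTwo

/-!
Step 3 of part (c): the value of the truncated Franel generating function at `1/8` modulo `p`.
-/

namespace MPad286f

open Finset

variable (p : ℕ) [Fact p.Prime]

private lemma cast_ne_zero_of_lt' {n : ℕ} (h0 : 0 < n) (h : n < p) : (n : ZMod p) ≠ 0 := by
  intro hcon
  rw [ZMod.natCast_eq_zero_iff] at hcon
  exact absurd (Nat.le_of_dvd h0 hcon) (by omega)

/-- `(1-x)^d ∑_{i<p} C(i,d) x^i = x^d` for `d < p`, `x ≠ 1`. -/
private lemma sum_choose (x : ZMod p) (hx : x ≠ 1) (d : ℕ) (hd : d < p) :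
    (1 - x) ^ d * ∑ i ∈ range p, (i.choose d : ZMod p) * x ^ i = x ^ d := by
  induction d with
  | zero =>
    have h := geom_sum_mul x p
    rw [ZMod.pow_card] at h
    have hx1 : x - 1 ≠ 0 := sub_ne_zero.mpr hx
    have h2 : ∑ i ∈ range p, x ^ i = 1 := by
      apply mul_right_cancel₀ hx1
      rw [h, one_mul]
    simp [h2]
  | succ d ih =>
    have i0 := ih (by omega)
    -- shift
    have s1 := Finset.sum_range_succ (fun i : ℕ => (i.choose (d + 1) : ZMod p) * x ^ i) p
    have s2 := Finset.sum_range_succ' (fun i : ℕ => (i.choose (d + 1) : ZMod p) * x ^ i) p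
    have hc : (p.choose (d + 1) : ZMod p) = 0 := by
      rw [ZMod.natCast_eq_zero_iff]
      exact (Fact.out : p.Prime).dvd_choose_self (by omega) hd
    rw [hc] at s1
    have s3 : ∑ k ∈ range p, (((k + 1).choose (d + 1) : ℕ) : ZMod p) * x ^ (k + 1)
        = x * ∑ i ∈ range p, (i.choose d : ZMod p) * x ^ i
          + x * ∑ i ∈ range p, (i.choose (d + 1) : ZMod p) * x ^ i := by
      rw [Finset.mul_sum, Finset.mul_sum, ← Finset.sum_add_distrib]
      refine Finset.sum_congr rfl fun k _ => ?_
      rw [Nat.choose_succ_succ]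
      push_cast
      ring
    rw [s3] at s2
    simp only [Nat.choose_zero_succ, Nat.cast_zero, zero_mul, add_zero] at s1 s2
    rw [s1] at s2
    generalize (∑ i ∈ range p, (i.choose d : ZMod p) * x ^ i) = S0 at i0 s2
    generalize (∑ i ∈ range p, (i.choose (d + 1) : ZMod p) * x ^ i) = S1 at s2 ⊢
    have s4 : (1 - x) * S1 = x * S0 := by linear_combination s2
    calc (1 - x) ^ (d + 1) * S1 = (1 - x) ^ d * ((1 - x) * S1) := by ring
      _ = x * ((1 - x) ^ d * S0) := by rw [s4]; ring
      _ = x ^ (d + 1) := by rw [i0]; ring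

/-- Shift of the summation range. -/
private lemma sum_shift (x : ZMod p) (d : ℕ) (hd : d < p) (j : ℕ) (hj : j ≤ d) :
    ∑ k ∈ range p, ((k + j).choose d : ZMod p) * x ^ (k + j)
      = ∑ i ∈ range p, (i.choose d : ZMod p) * x ^ i := by
  induction j with
  | zero => rfl
  | succ j ih =>
    have i0 := ih (by omega)
    have s1 := Finset.sum_range_succ (fun i : ℕ => ((i + j).choose d : ZMod p) * x ^ (i + j)) p
    have s2 := Finset.sum_range_succ' (fun i : ℕ => ((i + j).choose d : ZMod p) * x ^ (i + j)) p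
    have hc : ((p + j).choose d : ZMod p) = 0 := by
      rw [ZMod.natCast_eq_zero_iff]
      exact (Fact.out : p.Prime).dvd_choose hd (by omega) (by omega)
    have hc2 : ((0 + j).choose d : ZMod p) = 0 := by
      rw [Nat.choose_eq_zero_of_lt (by omega)]
      simp
    rw [hc, zero_mul, add_zero] at s1
    rw [hc2, zero_mul, add_zero, s1, i0] at s2
    rw [s2]
    refine Finset.sum_congr rfl fun k _ => ?_
    rw [show k + 1 + j = k + (j + 1) by ring]

private lemma tc_succ (j : ℕ) : (j + 1) ^ 2 * tc (j + 1) = 3 * (3 * j + 1) * (3 * j + 2) * tc j := by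
  have h0 := tc_fact j
  have h1 := tc_fact (j + 1)
  have e : 3 * (j + 1) = 3 * j + 1 + 1 + 1 := by ring
  rw [e, Nat.factorial_succ, Nat.factorial_succ, Nat.factorial_succ, Nat.factorial_succ, ← h0] at h1
  have hf : 0 < (j.factorial) ^ 3 := pow_pos (Nat.factorial_pos j) 3
  have hj : 0 < (j + 1) * (j.factorial) ^ 3 := Nat.mul_pos (by omega) hf
  apply Nat.eq_of_mul_eq_mul_left hj
  nlinarith [h1]

private lemma tc_zero_mod (j : ℕ) (hj : j < p) (h : p ≤ 3 * j) : (tc j : ZMod p) = 0 := by
  have hp := (Fact.out : p.Prime)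
  rw [ZMod.natCast_eq_zero_iff]
  have h1 : p ∣ tc j * j.factorial ^ 3 := by
    rw [tc_fact]
    exact (hp.dvd_factorial).mpr h
  rcases (hp.dvd_mul).mp h1 with h2 | h2
  · exact h2
  · have := (hp.dvd_factorial).mp (hp.dvd_of_dvd_pow h2)
    omega

/-- The truncated hypergeometric sum at the singular point. -/
private lemma hyp_sum (h3 : p ≠ 3) (w : ZMod p) (hw : 27 * w = 1) :
    ∑ j ∈ range (p / 3 + 1), (tc j : ZMod p) * w ^ j = (-1) ^ (p / 3) := by
  have hp := (Fact.out : p.Prime)
  have h2 := hp.two_le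
  have hp0 : ((p : ℕ) : ZMod p) = 0 := ZMod.natCast_self p
  have h3z : (3 : ZMod p) ≠ 0 := by
    intro hcon
    have h : ((3 : ℕ) : ZMod p) = 0 := by exact_mod_cast hcon
    rw [ZMod.natCast_eq_zero_iff] at h
    exact h3 ((Nat.prime_dvd_prime_iff_eq hp Nat.prime_three).mp h)
  have hmod : p % 3 = 1 ∨ p % 3 = 2 := by
    have : p % 3 ≠ 0 := by
      intro hcon
      have := (Nat.prime_dvd_prime_iff_eq Nat.prime_three hp).mp (Nat.dvd_of_mod_eq_zero hcon)
      exact h3 this.symm
    omega
  set a := p / 3 with ha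
  -- the companion index
  obtain ⟨b, hab, hprod⟩ : ∃ b : ℕ, a + b = p - 1 ∧ ∀ j : ZMod p,
      (3 * (a : ZMod p) - 3 * j) * (3 * (b : ZMod p) - 3 * j) = (3 * j + 1) * (3 * j + 2) := by
    rcases hmod with h | h
    · refine ⟨2 * a, by omega, fun j => ?_⟩
      have e : p = 3 * a + 1 := by omega
      have := congrArg (fun x : ℕ => (x : ZMod p)) e
      push_cast at this
      rw [hp0] at this
      have ea : 3 * (a : ZMod p) = -1 := by linear_combination -this
      push_cast
      rw [show 3 * (2 * (a : ZMod p)) = 2 * (3 * a) by ring, ea]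
      ring
    · refine ⟨2 * a + 1, by omega, fun j => ?_⟩
      have e : p = 3 * a + 2 := by omega
      have := congrArg (fun x : ℕ => (x : ZMod p)) e
      push_cast at this
      rw [hp0] at this
      have ea : 3 * (a : ZMod p) = -2 := by linear_combination -this
      push_cast
      rw [show 3 * (2 * (a : ZMod p) + 1) = 2 * (3 * a) + 3 by ring, ea]
      ring
  have hap : a < p := by omega
  have hterm : ∀ j : ℕ, j ≤ a → (tc j : ZMod p) * w ^ j = (a.choose j : ZMod p) * (b.choose j : ZMod p) := by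
    intro j
    induction j with
    | zero => intro _; simp [tc]
    | succ j ih =>
      intro hj
      have i0 := ih (by omega)
      have hj1 : ((j : ZMod p) + 1) ≠ 0 := by
        have := cast_ne_zero_of_lt' p (n := j + 1) (by omega) (by omega)
        push_cast at this
        exact this
      have ht := congrArg (fun x : ℕ => (x : ZMod p)) (tc_succ j)
      push_cast at ht
      have hca : (a.choose (j + 1) : ZMod p) * ((j : ZMod p) + 1) = (a.choose j : ZMod p) * (a - j) := by
        have h := Nat.choose_succ_right_eq a j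
        have h4 := congrArg (fun x : ℕ => (x : ZMod p)) h
        rw [Nat.cast_mul, Nat.cast_mul, Nat.cast_sub (by omega)] at h4
        push_cast at h4
        exact h4
      have hcb : (b.choose (j + 1) : ZMod p) * ((j : ZMod p) + 1) = (b.choose j : ZMod p) * (b - j) := by
        have h := Nat.choose_succ_right_eq b j
        have h4 := congrArg (fun x : ℕ => (x : ZMod p)) h
        rw [Nat.cast_mul, Nat.cast_mul, Nat.cast_sub (by omega)] at h4
        push_cast at h4
        exact h4
      have hne : 9 * ((j : ZMod p) + 1) ^ 2 ≠ 0 := by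
        have : (9 : ZMod p) = 3 * 3 := by norm_num
        rw [this]
        exact mul_ne_zero (mul_ne_zero h3z h3z) (pow_ne_zero 2 hj1)
      apply mul_left_cancel₀ hne
      have hP := hprod (j : ZMod p)
      have rhs : 9 * ((j : ZMod p) + 1) ^ 2 * ((a.choose (j + 1) : ZMod p) * (b.choose (j + 1) : ZMod p))
          = (3 * (j : ZMod p) + 1) * (3 * (j : ZMod p) + 2)
            * ((a.choose j : ZMod p) * (b.choose j : ZMod p)) := by
        calc 9 * ((j : ZMod p) + 1) ^ 2 * ((a.choose (j + 1) : ZMod p) * (b.choose (j + 1) : ZMod p))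
            = 9 * ((a.choose (j + 1) : ZMod p) * ((j : ZMod p) + 1))
              * ((b.choose (j + 1) : ZMod p) * ((j : ZMod p) + 1)) := by ring
          _ = 9 * ((a.choose j : ZMod p) * (a - j)) * ((b.choose j : ZMod p) * (b - j)) := by
              rw [hca, hcb]
          _ = ((3 * (a : ZMod p) - 3 * j) * (3 * (b : ZMod p) - 3 * j))
            * ((a.choose j : ZMod p) * (b.choose j : ZMod p)) := by ring
          _ = _ := by rw [hP]
      rw [rhs, ← i0]
      have hw2 : 9 * w * 3 = 1 := by linear_combination hw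
      calc 9 * ((j : ZMod p) + 1) ^ 2 * ((tc (j + 1) : ZMod p) * w ^ (j + 1))
          = 9 * w * w ^ j * (((j : ZMod p) + 1) ^ 2 * (tc (j + 1) : ZMod p)) := by ring
        _ = 9 * w * w ^ j * (3 * (3 * (j : ZMod p) + 1) * (3 * (j : ZMod p) + 2) * (tc j : ZMod p)) := by
            rw [ht]
        _ = (9 * w * 3) * ((3 * (j : ZMod p) + 1) * (3 * (j : ZMod p) + 2) * ((tc j : ZMod p) * w ^ j)) := by
            ring
        _ = _ := by rw [hw2, one_mul]
  have hv := Nat.add_choose_eq a b a
  rw [hab] at hv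
  have hc := choose_pred_prime p a hap
  rw [← hc, hv, Finset.Nat.sum_antidiagonal_eq_sum_range_succ_mk]
  push_cast
  rw [← Finset.sum_range_reflect]
  refine Finset.sum_congr rfl fun j hj => ?_
  simp only [Finset.mem_range] at hj
  have e1 : a + 1 - 1 - j = a - j := by omega
  rw [e1, hterm (a - j) (by omega)]
  rw [Nat.choose_symm (by omega)]

/-- Step 3: `∑_{k<p} f_k 8^(p-1-k) = (-1)^[p/3]` modulo `p`. -/
theorem step_three (hp2 : p ≠ 2) (h3 : p ≠ 3) :
    ∑ k ∈ range p, (fr k : ZMod p) * 8 ^ (p - 1 - k) = (-1) ^ (p / 3) := by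
  have hp := (Fact.out : p.Prime)
  have h2 := hp.two_le
  have h2z : (2 : ZMod p) ≠ 0 := by
    intro hcon
    have h : ((2 : ℕ) : ZMod p) = 0 := by exact_mod_cast hcon
    rw [ZMod.natCast_eq_zero_iff] at h
    exact hp2 ((Nat.prime_dvd_prime_iff_eq hp Nat.prime_two).mp h)
  have h3z : (3 : ZMod p) ≠ 0 := by
    intro hcon
    have h : ((3 : ℕ) : ZMod p) = 0 := by exact_mod_cast hcon
    rw [ZMod.natCast_eq_zero_iff] at h
    exact h3 ((Nat.prime_dvd_prime_iff_eq hp Nat.prime_three).mp h)
  have h4z : (4 : ZMod p) ≠ 0 := by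
    have : (4 : ZMod p) = 2 * 2 := by norm_num
    rw [this]
    exact mul_ne_zero h2z h2z
  have h8z : (8 : ZMod p) ≠ 0 := by
    have : (8 : ZMod p) = 2 * 4 := by norm_num
    rw [this]
    exact mul_ne_zero h2z h4z
  have h27z : (27 : ZMod p) ≠ 0 := by
    have : (27 : ZMod p) = 3 * 3 * 3 := by norm_num
    rw [this]
    exact mul_ne_zero (mul_ne_zero h3z h3z) h3z
  obtain ⟨x, hx⟩ : ∃ x : ZMod p, 4 * x = 1 := ⟨4⁻¹, mul_inv_cancel₀ h4z⟩
  obtain ⟨w, hw⟩ : ∃ w : ZMod p, 27 * w = 1 := ⟨27⁻¹, mul_inv_cancel₀ h27z⟩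
  have hx0 : x ≠ 0 := by
    rintro rfl
    simp at hx
  have hx1 : x ≠ 1 := by
    rintro rfl
    apply h3z
    linear_combination hx
  have hmod : p % 3 = 1 ∨ p % 3 = 2 := by
    have : p % 3 ≠ 0 := by
      intro hcon
      have := (Nat.prime_dvd_prime_iff_eq Nat.prime_three hp).mp (Nat.dvd_of_mod_eq_zero hcon)
      exact h3 this.symm
    omega
  -- rewrite each term
  have hterm : ∀ k ∈ range p, (fr k : ZMod p) * 8 ^ (p - 1 - k)
      = ∑ j ∈ range p, ((k + j).choose (3 * j) : ZMod p) * (tc j : ZMod p) * x ^ j * x ^ k := by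
    intro k hk
    simp only [Finset.mem_range] at hk
    have hm := congrArg (fun x : ℕ => (x : ZMod p)) (macmahon k)
    push_cast at hm
    have h8k : (8 : ZMod p) ^ k ≠ 0 := pow_ne_zero k h8z
    have hfer : (8 : ZMod p) ^ k * 8 ^ (p - 1 - k) = 1 := by
      rw [← pow_add, show k + (p - 1 - k) = p - 1 by omega]
      exact ZMod.pow_card_sub_one_eq_one h8z
    have hext : ∑ j ∈ range p, ((k + j).choose (3 * j) : ZMod p) * (tc j : ZMod p) * x ^ j * x ^ k
        = ∑ j ∈ range (k + 1), ((k + j).choose (3 * j) : ZMod p) * (tc j : ZMod p) * x ^ j * x ^ k := by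
      symm
      apply Finset.sum_subset
      · intro y hy
        simp only [Finset.mem_range] at hy ⊢
        omega
      · intro y _ hy
        simp only [Finset.mem_range, not_lt] at hy
        rw [Nat.choose_eq_zero_of_lt (by omega)]
        simp
    rw [hext]
    have h4k : (4 : ZMod p) ^ k ≠ 0 := pow_ne_zero k h4z
    apply mul_left_cancel₀ h8k
    have e8 : (8 : ZMod p) ^ k * ((fr k : ZMod p) * 8 ^ (p - 1 - k)) = (fr k : ZMod p) := by
      linear_combination (fr k : ZMod p) * hfer
    rw [e8]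
    apply mul_left_cancel₀ h4k
    rw [hm, Finset.mul_sum, Finset.mul_sum]
    refine Finset.sum_congr rfl fun j hj => ?_
    simp only [Finset.mem_range] at hj
    have e4 : (4 : ZMod p) ^ k * x ^ j = 4 ^ (k - j) := by
      have : (4 : ZMod p) ^ k = 4 ^ (k - j) * 4 ^ j := by
        rw [← pow_add]
        congr 1
        omega
      rw [this, mul_assoc, ← mul_pow, hx, one_pow, mul_one]
    have e82 : (8 : ZMod p) ^ k * x ^ k = 2 ^ k := by
      rw [← mul_pow]
      congr 1
      linear_combination 2 * hx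
    rw [← e4, ← e82]
    ring
  rw [Finset.sum_congr rfl hterm, Finset.sum_comm]
  -- inner sums
  have hinner : ∀ j ∈ range p, ∑ k ∈ range p, ((k + j).choose (3 * j) : ZMod p) * (tc j : ZMod p) * x ^ j * x ^ k
      = if j < p / 3 + 1 then (tc j : ZMod p) * w ^ j else 0 := by
    intro j hj
    simp only [Finset.mem_range] at hj
    split_ifs with hjp
    · have h3j : 3 * j < p := by omega
      have hs := sum_shift p x (3 * j) h3j j (by omega)
      have hc := sum_choose p x hx1 (3 * j) h3j
      rw [← hs] at hc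
      have e0 : ∑ k ∈ range p, ((k + j).choose (3 * j) : ZMod p) * (tc j : ZMod p) * x ^ j * x ^ k
          = (tc j : ZMod p) * ∑ k ∈ range p, ((k + j).choose (3 * j) : ZMod p) * x ^ (k + j) := by
        rw [Finset.mul_sum]
        refine Finset.sum_congr rfl fun k _ => ?_
        rw [pow_add]
        ring
      rw [e0]
      congr 1
      generalize (∑ k ∈ range p, ((k + j).choose (3 * j) : ZMod p) * x ^ (k + j)) = S at hc
      -- `(1-x) = 3 x`
      have h1x : 1 - x = 3 * x := by linear_combination -hx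
      rw [h1x, mul_pow] at hc
      have hxx : x ^ (3 * j) ≠ 0 := pow_ne_zero _ hx0
      have h27 : (3 : ZMod p) ^ (3 * j) = 27 ^ j := by
        rw [pow_mul]
        norm_num
      rw [h27] at hc
      have h27j : (27 : ZMod p) ^ j ≠ 0 := pow_ne_zero _ h27z
      apply mul_left_cancel₀ h27j
      apply mul_left_cancel₀ hxx
      rw [← mul_pow, hw, one_pow]
      linear_combination hc
    · have hz := tc_zero_mod p j hj (by omega)
      apply Finset.sum_eq_zero
      intro k _
      rw [hz]
      ring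
  rw [Finset.sum_congr rfl hinner, ← Finset.sum_filter]
  have hf : (range p).filter (fun j => j < p / 3 + 1) = range (p / 3 + 1) := by
    ext j
    simp only [Finset.mem_filter, Finset.mem_range]
    omega
  rw [hf]
  exact hyp_sum p h3 w hw

end MPad286f
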