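import Mathlib
import Pool.Agent.Lib.MP_ad286f_nt.CStepThree

/-!
Part (c): if `(-6/p) = -1` then `∑_{n<p} C(2n,n) f_n 32^{-n} = 0` modulo `p^2`.
-/

namespace MPad286f

open Finset

private lemma two_pow_half (p m : ℕ) [Fact p.Prime] (hm : p = 2 * m + 1) :
    (2 : ZMod p) ^ m = if p % 8 = 1 ∨ p % 8 = 7 then 1 else -1 := by
  have hp2 : p ≠ 2 := by omega
  have h1 := legendreSym.eq_pow p 2
  have h2 := legendreSym.at_two (p := p) hp2
  have h3 := ZMod.χ₈_nat_eq_if_mod_eight p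
  have e : p / 2 = m := by omega
  have e2 : ¬ (p % 2 = 0) := by omega
  rw [h2, h3, if_neg e2, e] at h1
  push_cast at h1
  rw [← h1]

private lemma one_ne_neg_one' (p : ℕ) [Fact p.Prime] (hp2 : p ≠ 2) : (1 : ZMod p) ≠ -1 := by
  intro hcon
  have h : ((2 : ℕ) : ZMod p) = 0 := by
    push_cast
    linear_combination hcon
  rw [ZMod.natCast_eq_zero_iff] at h
  exact hp2 ((Nat.prime_dvd_prime_iff_eq (Fact.out : p.Prime) Nat.prime_two).mp h)

private lemma sign_ne (p m : ℕ) [Fact p.Prime] (hm : p = 2 * m + 1)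
    (h : p % 24 = 13 ∨ p % 24 = 17 ∨ p % 24 = 19 ∨ p % 24 = 23) :
    ((-1 : ZMod p)) ^ (p / 3) ≠ 72 ^ m := by
  have hp := (Fact.out : p.Prime)
  have hp2 : p ≠ 2 := by omega
  have h11 := one_ne_neg_one' p hp2
  have h6 : (6 : ZMod p) ≠ 0 := by
    intro hcon
    have h : ((6 : ℕ) : ZMod p) = 0 := by exact_mod_cast hcon
    rw [ZMod.natCast_eq_zero_iff] at h
    have := Nat.le_of_dvd (by norm_num) h
    interval_cases p <;> omega
  have h72 : (72 : ZMod p) ^ m = 2 ^ m := by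
    have e : (72 : ZMod p) = 2 * 6 ^ 2 := by norm_num
    rw [e, mul_pow, ← pow_mul, show 2 * m = p - 1 by omega, ZMod.pow_card_sub_one_eq_one h6, mul_one]
  rw [h72, two_pow_half p m hm]
  rcases h with h | h | h | h
  · rw [if_neg (by omega)]
    have : Even (p / 3) := by
      rw [Nat.even_iff]
      omega
    rw [this.neg_one_pow]
    exact h11
  · rw [if_pos (by omega)]
    have : Odd (p / 3) := by
      rw [Nat.odd_iff]
      omega
    rw [this.neg_one_pow]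
    exact h11.symm
  · rw [if_neg (by omega)]
    have : Even (p / 3) := by
      rw [Nat.even_iff]
      omega
    rw [this.neg_one_pow]
    exact h11
  · rw [if_pos (by omega)]
    have : Odd (p / 3) := by
      rw [Nat.odd_iff]
      omega
    rw [this.neg_one_pow]
    exact h11.symm

private lemma unit_of_cast (p : ℕ) [Fact p.Prime] (x : ZMod (p ^ 2))
    (h : ZMod.castHom (dvd_pow_self p two_ne_zero) (ZMod p) x ≠ 0) : IsUnit x := by
  have hp := (Fact.out : p.Prime)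
  have : NeZero (p ^ 2) := ⟨pow_ne_zero 2 hp.ne_zero⟩
  have hx : ((x.val : ℕ) : ZMod (p ^ 2)) = x := ZMod.natCast_zmod_val x
  rw [← hx, map_natCast] at h
  rw [← hx, ZMod.isUnit_iff_coprime]
  apply Nat.Coprime.pow_right
  rw [Nat.coprime_comm, hp.coprime_iff_not_dvd]
  intro hcon
  exact h ((ZMod.natCast_eq_zero_iff _ _).mpr hcon)

/-- Part (c) of the problem. -/
theorem c_part (p : ℕ) (hp : p.Prime)
    (h : p % 24 = 13 ∨ p % 24 = 17 ∨ p % 24 = 19 ∨ p % 24 = 23) :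
    (∑ n ∈ range p, ((Nat.choose (2 * n) n * fr n : ℕ) : ZMod (p ^ 2))
      * ((32 : ZMod (p ^ 2)) ^ n)⁻¹) = 0 := by
  have : Fact p.Prime := ⟨hp⟩
  obtain ⟨m, hm⟩ : ∃ m, p = 2 * m + 1 := ⟨(p - 1) / 2, by omega⟩
  have hp2 : p ≠ 2 := by omega
  have hp3 : p ≠ 3 := by omega
  have hcop : Nat.Coprime 32 (p ^ 2) := by
    apply Nat.Coprime.pow_right
    have : Nat.Coprime (2 ^ 5) p := by
      apply Nat.Coprime.pow_left
      rw [Nat.coprime_primes Nat.prime_two hp]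
      exact hp2.symm
    simpa using this
  have ht0 := ZMod.coe_mul_inv_eq_one 32 hcop
  obtain ⟨t, ht⟩ : ∃ t : ZMod (p ^ 2), 32 * t = 1 := ⟨_, by exact_mod_cast ht0⟩
  have hsum : (∑ n ∈ range p, ((Nat.choose (2 * n) n * fr n : ℕ) : ZMod (p ^ 2))
      * ((32 : ZMod (p ^ 2)) ^ n)⁻¹) = ∑ n ∈ range p, (an n : ZMod (p ^ 2)) * t ^ n := by
    refine Finset.sum_congr rfl fun n _ => ?_
    have hu : IsUnit ((32 : ZMod (p ^ 2)) ^ n) := (IsUnit.of_mul_eq_one t ht).pow n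
    have h1 := ZMod.mul_inv_of_unit _ hu
    have h2 : (32 : ZMod (p ^ 2)) ^ n * t ^ n = 1 := by rw [← mul_pow, ht, one_pow]
    have h3 : ((32 : ZMod (p ^ 2)) ^ n)⁻¹ = t ^ n := by
      calc ((32 : ZMod (p ^ 2)) ^ n)⁻¹
          = ((32 : ZMod (p ^ 2)) ^ n)⁻¹ * ((32 : ZMod (p ^ 2)) ^ n * t ^ n) := by rw [h2, mul_one]
        _ = ((32 : ZMod (p ^ 2)) ^ n * ((32 : ZMod (p ^ 2)) ^ n)⁻¹) * t ^ n := by ring
        _ = t ^ n := by rw [h1, one_mul]
    rw [h3]
    unfold an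
    push_cast
    ring
  rw [hsum]
  set φ := ZMod.castHom (dvd_pow_self p two_ne_zero) (ZMod p) with hφ
  have ht' : 32 * φ t = 1 := by
    have := congrArg φ ht
    rw [map_mul, map_one, map_ofNat] at this
    exact this
  have h3 := step_three p hp2 hp3
  have hne : (∑ k ∈ range p, (fr k : ZMod p) * 8 ^ (p - 1 - k)) ≠ 72 ^ m := by
    rw [h3]
    exact sign_ne p m hm h
  obtain ⟨g0, g1⟩ := step_two p m hm hp3 (φ t) ht' hne
  have hs := step_one p hp hp2 t ht
  have f0 : φ (∑ n ∈ range p, (an n : ZMod (p ^ 2)) * t ^ n) = 0 := by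
    rw [map_sum, ← g0]
    refine Finset.sum_congr rfl fun n _ => ?_
    rw [map_mul, map_pow, map_intCast]
  have f1 : φ (∑ n ∈ range p, (n : ZMod (p ^ 2)) * ((an n : ZMod (p ^ 2)) * t ^ n)) ≠ 0 := by
    have : φ (∑ n ∈ range p, (n : ZMod (p ^ 2)) * ((an n : ZMod (p ^ 2)) * t ^ n))
        = ∑ n ∈ range p, (n : ZMod p) * ((an n : ZMod p) * (φ t) ^ n) := by
      rw [map_sum]
      refine Finset.sum_congr rfl fun n _ => ?_
      rw [map_mul, map_mul, map_pow, map_intCast, map_natCast]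
    rw [this]
    exact g1
  generalize (∑ n ∈ range p, (an n : ZMod (p ^ 2)) * t ^ n) = G0 at hs f0 ⊢
  generalize (∑ n ∈ range p, (n : ZMod (p ^ 2)) * ((an n : ZMod (p ^ 2)) * t ^ n)) = G1 at hs f1
  have hu : IsUnit (36 * G1 + 11 * G0) := by
    apply unit_of_cast
    rw [← hφ, map_add, map_mul, map_mul, f0, mul_zero, add_zero]
    apply mul_ne_zero _ f1
    have : φ 36 = ((36 : ℕ) : ZMod p) := by
      rw [← map_natCast φ]
      norm_num
    rw [this]
    intro hcon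
    rw [ZMod.natCast_eq_zero_iff] at hcon
    have e : 36 = 2 ^ 2 * 3 ^ 2 := by norm_num
    rw [e] at hcon
    rcases (Nat.Prime.dvd_mul hp).mp hcon with h | h
    · exact hp2 ((Nat.prime_dvd_prime_iff_eq hp Nat.prime_two).mp (hp.dvd_of_dvd_pow h))
    · exact hp3 ((Nat.prime_dvd_prime_iff_eq hp Nat.prime_three).mp (hp.dvd_of_dvd_pow h))
  exact (hu.mul_left_eq_zero).mp hs

end MPad286f
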