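import Mathlib

/-!
# Definitions for the congruence of Z_p(32) modulo p^2 (level 6, weight two)

The functions below are functions of a complex variable, only the upper half plane matters.
-/

namespace Pool.Agent.Lib.Z32

open Complex

/-- `q = exp(2 pi i tau)`. -/
noncomputable def qm (τ : ℂ) : ℂ := Complex.exp (2 * Real.pi * I * τ)

/-- `f` has the `q`-expansion `A` in the upper half plane. -/
def QE (f : ℂ → ℂ) (A : PowerSeries ℂ) : Prop :=
  ∀ τ : ℂ, 0 < τ.im → HasSum (fun n : ℕ => PowerSeries.coeff n A * qm τ ^ n) (f τ)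

/-- An integral power series as a complex one. -/
noncomputable def toC (A : PowerSeries ℤ) : PowerSeries ℂ := PowerSeries.map (Int.castRingHom ℂ) A

/-- `f` has the integral `q`-expansion `A`. -/
def QEZ (f : ℂ → ℂ) (A : PowerSeries ℤ) : Prop := QE f (toC A)

/-- `theta = X d/dX` on power series. -/
noncomputable def th {R : Type*} [CommRing R] (A : PowerSeries R) : PowerSeries R :=
  PowerSeries.mk (fun n => (n : R) * PowerSeries.coeff n A)

/-- `A(q) -> A(q^l)`. -/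
noncomputable def ex {R : Type*} [CommRing R] (l : ℕ) (A : PowerSeries R) : PowerSeries R :=
  PowerSeries.mk (fun n => if l ∣ n then PowerSeries.coeff (n / l) A else 0)

/-- The sum of divisors. -/
def sg (n : ℕ) : ℕ := ∑ d ∈ n.divisors, d

/-- The quasimodular Eisenstein series of weight two. -/
noncomputable def E2c (τ : ℂ) : ℂ := ∑' n : ℕ, (if n = 0 then 1 else -24 * (sg n : ℂ)) * qm τ ^ n

/-- The weight two form `(3 E2(3 tau) - E2(tau))/2 = 1 + 12 s` of level 3. -/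
noncomputable def E3c (τ : ℂ) : ℂ := (3 * E2c (3 * τ) - E2c τ) / 2

/-- `F = sum C(2n,n) f_n z^n = 1 + 4s + 8t`, the weight two form of level 6, `t = s(q^2)`. -/
noncomputable def FF (τ : ℂ) : ℂ := (E3c τ + 2 * E3c (2 * τ)) / 3

/-- The cusp form of weight 4 and level 6 (it is `(eta(tau) eta(2tau) eta(3tau) eta(6tau))^2`),
`D = (s - t)(1 + 16t - 4s)`. The Hauptmodul is `z = D/F^2`. -/
noncomputable def DD (τ : ℂ) : ℂ :=
  (E3c τ - E3c (2 * τ)) * (4 * E3c (2 * τ) - E3c τ) / 36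

/-- `s = sum (sigma(n) - 3 sigma(n/3)) q^n`. -/
noncomputable def AS : PowerSeries ℤ :=
  PowerSeries.mk (fun n => (sg n : ℤ) - 3 * (if 3 ∣ n then (sg (n / 3) : ℤ) else 0))

/-- `t = s(q^2)`. -/
noncomputable def AT : PowerSeries ℤ := ex 2 AS

/-- The `q`-expansions of `F` and `D`. -/
noncomputable def AF : PowerSeries ℤ := 1 + 4 * AS + 8 * AT
noncomputable def AD : PowerSeries ℤ := (AS - AT) * (1 + 16 * AT - 4 * AS)

/-- `D = X V`. -/
noncomputable def AV : PowerSeries ℤ := PowerSeries.mk (fun n => PowerSeries.coeff (n + 1) AD)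

/-- The two involutions. -/
noncomputable def W6 (τ : ℂ) : ℂ := -1 / (6 * τ)
noncomputable def W3 (τ : ℂ) : ℂ := (3 * τ - 2) / (6 * τ - 3)

/-- The automorphy factors (squared weight one). -/
def J6 (τ : ℂ) : ℂ := -6 * τ ^ 2
def J3 (τ : ℂ) : ℂ := -3 * (2 * τ - 1) ^ 2

/-- `f` is a form of weight `2m` for the full group generated by `T`, `W6`, `W3`. -/
structure Aut6 (m : ℕ) (f : ℂ → ℂ) : Prop where
  qe : ∃ A : PowerSeries ℂ, QE f A
  w6 : ∀ τ : ℂ, 0 < τ.im → f (W6 τ) = J6 τ ^ m * f τ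
  w3 : ∀ τ : ℂ, 0 < τ.im → f (W3 τ) = J3 τ ^ m * f τ

/-- The homogeneous evaluation `sum_j b_j D^j F^(m-2j)`, `j <= m/2`. -/
noncomputable def hom (m : ℕ) (b : ℕ → ℤ) (τ : ℂ) : ℂ :=
  ∑ j ∈ Finset.range (m / 2 + 1), (b j : ℂ) * DD τ ^ j * FF τ ^ (m - 2 * j)

/-- The Hecke family of `F` at the prime `l`. -/
noncomputable def famJ (l : ℕ) (f : ℂ → ℂ) (τ : ℂ) : Multiset ℂ :=
  (Multiset.range l).map (fun j : ℕ => f ((τ + j) / l))

noncomputable def fam (l : ℕ) (τ : ℂ) : Multiset ℂ :=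
  ((l : ℂ) ^ 2 * FF (l * τ)) ::ₘ famJ l FF τ

/-- The Franel numbers and the coefficients of the sum. -/
def fr (n : ℕ) : ℕ := ∑ k ∈ Finset.range (n + 1), (n.choose k) ^ 3
def aa (n : ℕ) : ℕ := (2 * n).choose n * fr n

end Pool.Agent.Lib.Z32
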