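import Mathlib
import Pool.Agent.Lib.MP_ad286f_nt.Defs
import Pool.Agent.Lib.MP_ad286f_nt.CPart

/-!
Part (c), the Franel recurrence and the recurrence of `aa`, in terms of `Defs.lean`.
-/

namespace Pool.Agent.Lib.Z32

open Finset

/-- Part (c) of the problem: no modular forms are needed. -/
theorem c_part (p : ℕ) (hp : p.Prime)
    (h : p % 24 = 13 ∨ p % 24 = 17 ∨ p % 24 = 19 ∨ p % 24 = 23) :
    (∑ n ∈ range p, (aa n : ZMod (p ^ 2)) * ((32 : ZMod (p ^ 2)) ^ n)⁻¹) = 0 :=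
  MPad286f.c_part p hp h

/-- The Franel recurrence. -/
theorem fr_rec (n : ℕ) :
    ((n : ℤ) + 2) ^ 2 * (fr (n + 2) : ℤ)
      = (7 * ((n : ℤ) + 1) ^ 2 + 7 * ((n : ℤ) + 1) + 2) * (fr (n + 1) : ℤ)
        + 8 * ((n : ℤ) + 1) ^ 2 * (fr n : ℤ) :=
  MPad286f.fr_rec n

/-- The three term recurrence of `aa n = C(2n,n) f_n`. -/
theorem aa_rec (n : ℕ) :
    ((n : ℤ) + 2) ^ 3 * (aa (n + 2) : ℤ)
      = 2 * (2 * ((n : ℤ) + 1) + 1) * (7 * ((n : ℤ) + 1) ^ 2 + 7 * ((n : ℤ) + 1) + 2) * (aa (n + 1) : ℤ)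
        + 32 * ((n : ℤ) + 1) * (4 * ((n : ℤ) + 1) ^ 2 - 1) * (aa n : ℤ) := by
  have h := MPad286f.an_rec n
  have e : ∀ k : ℕ, MPad286f.an k = (aa k : ℤ) := fun k => rfl
  rw [e, e, e] at h
  linear_combination h

end Pool.Agent.Lib.Z32
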