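import Pool.Agent.Lib.MP_ad286f_nt.Ode

/-!
# Module CongA (about 250 lines): the truncated sum is `P (2 - d)` modulo `p^2`

`u` = inverse of `AF` in `Z[[q]]` (constant coefficient 1: `AF_0`, `PowerSeries.invOfUnit AF 1`), `z = AD u^2`, `AD^j AF^(m-2j) = AF^m z^j`,
`homF m b = AF^m sum_{j<=m/2} b_j z^j`. Write `P(z) = sum_{j<=p/2} P_j z^j`, `d(z) = sum_{j<=(p+1)/2} d_j z^j`.
(1) modulo `p`: `AF^(p+1) d(z) = ex p AF * N = AF^p * AF` (`N = AF` mod `p`; `ex p A = A^p` mod `p`: over `ZMod p`, `A^p = A(q^p)`: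
    `PowerSeries.expand`/`frobenius` in Mathlib, or coefficientwise; `p`-divisibility of `ex p A - A^p`). Hence `d(z) = 1` mod `p`, and
    `homF_dvd (p+1) d' p` for `d' = d - [j = 0]` (`homF (p+1) d' = homF (p+1) d - AF^(p+1)`): `p | d 0 - 1`, `p | d j` for `0 < j <= (p+1)/2`
    (and `d j = 0` beyond).
(2) modulo `p^2`: `N = AF^p P(z)` (h1), `ex p AF * N = AF^(p+1) d(z)` (h2), so `ex p AF * P(z) = AF d(z)`; `d(z)(2 - d(z)) = 1 - (d(z)-1)^2 = 1`, so
    `ex p AF * P(z) (2 - d(z)) = AF`: with `h` = inverse of `ex p AF` (`= ex p u`): `P(z)(2 - d(z)) = AF h`.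
(3) `c_j = sum_{i+k=j} P_i ((2 if k = 0) - d_k)`: `sum_{j<=p} c_j z^j = P(z)(2 - d(z))` (`p/2 + (p+1)/2 <= p`, the coefficients beyond vanish), times `AF^(2p)`:
    the hypothesis `H` of `ode_mod`; `th^3 h = p^3 ex p (..)` (`th_ex`), `c_0 = P_0 (2 - d_0)`, `P_0 = N_0 = d_0` mod `p^2` (constant coefficients of
    h1, h2), so `c_0 = 1 - (d_0 - 1)^2 = 1` mod `p^2`. `ode_mod` gives the claim for `j <= p`; `c_j = 0` for `j > p`.
-/

namespace Pool.Agent.Lib.Z32

/-- The coefficients of `P (2 - d)`. -/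
def cc (P d : ℕ → ℤ) (j : ℕ) : ℤ :=
  ∑ i ∈ Finset.range (j + 1), P i * ((if j - i = 0 then 2 else 0) - d (j - i))

private noncomputable def qFi : PowerSeries ℤ := PowerSeries.invOfUnit AF 1

private theorem q_hF : AF * qFi = 1 := PowerSeries.mul_invOfUnit AF 1 (by
  rw [← PowerSeries.coeff_zero_eq_constantCoeff_apply, AF_0]; rfl)

private theorem q_ccF : PowerSeries.constantCoeff AF = 1 := by
  rw [← PowerSeries.coeff_zero_eq_constantCoeff_apply, AF_0]

private theorem q_dvdC {N : ℤ} {A : PowerSeries ℤ} :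
    (N : PowerSeries ℤ) ∣ A ↔ ∀ i, N ∣ PowerSeries.coeff i A := by
  constructor
  · rintro ⟨B, rfl⟩ i
    rw [show (N : PowerSeries ℤ) = PowerSeries.C N by simp, PowerSeries.coeff_C_mul]
    exact dvd_mul_right _ _
  · intro h
    refine ⟨PowerSeries.mk (fun i => PowerSeries.coeff i A / N), ?_⟩
    ext i
    rw [show (N : PowerSeries ℤ) = PowerSeries.C N by simp, PowerSeries.coeff_C_mul,
      PowerSeries.coeff_mk]
    exact (Int.mul_ediv_cancel' (h i)).symm

private noncomputable def qz : PowerSeries ℤ := AD * qFi ^ 2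

private theorem q_ccz : PowerSeries.constantCoeff qz = 0 := by
  rw [qz, AD_eq]
  simp

/-- the evaluation at `z` -/
private noncomputable def qS (M : ℕ) (b : ℕ → ℤ) : PowerSeries ℤ :=
  ∑ j ∈ Finset.range M, PowerSeries.C (b j) * qz ^ j

private theorem q_cS (M : ℕ) (b : ℕ → ℤ) :
    PowerSeries.constantCoeff (qS (M + 1) b) = b 0 := by
  unfold qS
  rw [Finset.sum_range_succ', map_add, map_sum, Finset.sum_eq_zero]
  · simp
  · intro x _
    rw [map_mul, map_pow, q_ccz, zero_pow (by omega), mul_zero]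

private theorem q_term (j e : ℕ) (c : ℤ) :
    PowerSeries.C c * AD ^ j * AF ^ e = AF ^ (e + 2 * j) * (PowerSeries.C c * qz ^ j) := by
  have h1 : AF ^ (2 * j) * qFi ^ (2 * j) = 1 := by rw [← mul_pow, q_hF, one_pow]
  have h2 : qz ^ j = AD ^ j * qFi ^ (2 * j) := by rw [qz, mul_pow, ← pow_mul]
  rw [h2, pow_add]
  linear_combination (-(PowerSeries.C c * AD ^ j * AF ^ e)) * h1

private theorem q_hom (m : ℕ) (b : ℕ → ℤ) : homF m b = AF ^ m * qS (m / 2 + 1) b := by
  unfold homF qS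
  rw [Finset.mul_sum]
  apply Finset.sum_congr rfl
  intro j hj
  have hj' : 2 * j ≤ m := by have := Finset.mem_range.mp hj; omega
  rw [q_term]
  congr 2
  omega

private theorem q_frob {p : ℕ} [Fact p.Prime] (A : PowerSeries ℤ) :
    ((p : ℤ) : PowerSeries ℤ) ∣ ex p A - A ^ p := by
  have hp : p.Prime := Fact.out
  have h := MvPowerSeries.map_frobenius_expand (R := ZMod p) (σ := Unit) p hp.ne_zero
    (f := PowerSeries.map (Int.castRingHom (ZMod p)) A)
  rw [ZMod.frobenius_zmod, MvPowerSeries.map_id] at h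
  have h' : PowerSeries.expand p hp.ne_zero (PowerSeries.map (Int.castRingHom (ZMod p)) A) =
      (PowerSeries.map (Int.castRingHom (ZMod p)) A) ^ p := h
  have h2 : PowerSeries.map (Int.castRingHom (ZMod p)) (ex p A - A ^ p) = 0 := by
    rw [map_sub, map_pow, ← h', sub_eq_zero]
    ext n
    rw [PowerSeries.coeff_map, ex, PowerSeries.coeff_mk, PowerSeries.coeff_expand]
    split_ifs with hn
    · rw [PowerSeries.coeff_map]
    · simp
  rw [q_dvdC]
  intro n
  have h3 := congrArg (PowerSeries.coeff n) h2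
  rw [PowerSeries.coeff_map, map_zero, eq_intCast] at h3
  exact (ZMod.intCast_zmod_eq_zero_iff_dvd _ _).mp h3

private theorem q_sub (M : ℕ) (d : ℕ → ℤ) :
    qS (M + 1) (fun j => if j = 0 then d 0 - 1 else d j) = qS (M + 1) d - 1 := by
  unfold qS
  rw [Finset.sum_range_succ', Finset.sum_range_succ' (fun j => PowerSeries.C (d j) * qz ^ j)]
  simp
  ring

private theorem q_poly {p : ℕ} (P e : ℕ → ℤ) (hP : ∀ j, p / 2 < j → P j = 0)
    (he : ∀ j, (p + 1) / 2 < j → e j = 0) :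
    qS (p + 1) (fun j => ∑ i ∈ Finset.range (j + 1), P i * e (j - i)) =
      qS (p / 2 + 1) P * qS ((p + 1) / 2 + 1) e := by
  set f : ℕ → (ℕ → ℤ) → Polynomial ℤ := fun M b =>
    ∑ j ∈ Finset.range M, Polynomial.C (b j) * Polynomial.X ^ j with hf
  have hev : ∀ M b, Polynomial.aeval qz (f M b) = qS M b := by
    intro M b
    simp only [hf, qS, map_sum, map_mul, map_pow, Polynomial.aeval_X, Polynomial.aeval_C]
    apply Finset.sum_congr rfl
    intro j _
    simp
  have hco : ∀ M b, (∀ j, M < j + 1 → b j = 0) → ∀ n, (f M b).coeff n = b n := by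
    intro M b hb n
    simp only [hf, Polynomial.finsetSum_coeff, Polynomial.coeff_C_mul_X_pow]
    rw [Finset.sum_ite_eq]
    split_ifs with hn
    · rfl
    · rw [Finset.mem_range] at hn
      exact (hb n (by omega)).symm
  have hcP := hco (p / 2 + 1) P (fun j hj => hP j (by omega))
  have hce := hco ((p + 1) / 2 + 1) e (fun j hj => he j (by omega))
  have hdP : (f (p / 2 + 1) P).natDegree ≤ p / 2 := by
    rw [Polynomial.natDegree_le_iff_coeff_eq_zero]
    intro N hN
    rw [hcP]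
    exact hP N hN
  have hde : (f ((p + 1) / 2 + 1) e).natDegree ≤ (p + 1) / 2 := by
    rw [Polynomial.natDegree_le_iff_coeff_eq_zero]
    intro N hN
    rw [hce]
    exact he N hN
  have hdeg : (f (p / 2 + 1) P * f ((p + 1) / 2 + 1) e).natDegree < p + 1 := by
    have := Polynomial.natDegree_mul_le (p := f (p / 2 + 1) P) (q := f ((p + 1) / 2 + 1) e)
    omega
  have h1 := Polynomial.aeval_eq_sum_range' hdeg qz
  rw [map_mul, hev, hev] at h1
  rw [h1, qS]
  apply Finset.sum_congr rfl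
  intro j _
  rw [Polynomial.coeff_mul, Finset.Nat.sum_antidiagonal_eq_sum_range_succ
    (fun a b => (f (p / 2 + 1) P).coeff a * (f ((p + 1) / 2 + 1) e).coeff b)]
  simp only [hcP, hce]
  rw [PowerSeries.smul_eq_C_mul]

private theorem q_th3 (p : ℕ) (A : PowerSeries ℤ) :
    ((p : ℤ) ^ 2 : ℤ) ∣ (p : ℤ) ^ 3 ∧ th (th (th (ex p A))) =
      PowerSeries.C ((p : ℤ) ^ 3) * ex p (th (th (th A))) := by
  refine ⟨pow_dvd_pow _ (by norm_num), ?_⟩
  have hC : ∀ (c : ℤ) (B : PowerSeries ℤ), th (PowerSeries.C c * B) = PowerSeries.C c * th B := by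
    intro c B
    rw [th_mul, th_C, zero_mul, zero_add]
  rw [th_ex, hC, th_ex, hC, hC, th_ex]
  simp only [map_pow]
  ring

theorem cong_d {p : ℕ} [Fact p.Prime] {d : ℕ → ℤ} {N : PowerSeries ℤ}
    (hN : ∀ n, (p : ℤ) ∣ PowerSeries.coeff n (N - AF))
    (h2 : homF (p + 1) d = ex p AF * N) (hd : ∀ j, (p + 1) / 2 < j → d j = 0) :
    (p : ℤ) ∣ d 0 - 1 ∧ ∀ j, 0 < j → (p : ℤ) ∣ d j := by
  have hFr := q_frob (p := p) AF
  have hN' : ((p : ℤ) : PowerSeries ℤ) ∣ N - AF := q_dvdC.mpr hN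
  have key : ((p : ℤ) : PowerSeries ℤ) ∣
      homF (p + 1) (fun j => if j = 0 then d 0 - 1 else d j) := by
    rw [q_hom, q_sub, mul_sub, ← q_hom, h2]
    have e : ex p AF * N - AF ^ (p + 1) * 1 = ex p AF * (N - AF) + AF * (ex p AF - AF ^ p) := by
      ring
    rw [e]
    exact dvd_add (Dvd.dvd.mul_left hN' _) (Dvd.dvd.mul_left hFr _)
  have h3 := homF_dvd (p + 1) _ p (q_dvdC.mp key)
  refine ⟨by simpa using h3 0 (by omega), fun j hj => ?_⟩
  by_cases hj2 : j ≤ (p + 1) / 2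
  · have := h3 j hj2
    simp only [if_neg hj.ne'] at this
    exact this
  · rw [hd j (by omega)]
    exact dvd_zero _

theorem cong_seq {p : ℕ} [Fact p.Prime] (hp : 3 < p) {P d : ℕ → ℤ} {N : PowerSeries ℤ}
    (hN : ∀ n, (p : ℤ) ∣ PowerSeries.coeff n (N - AF))
    (h1 : ∀ n, (p : ℤ) ^ 2 ∣ PowerSeries.coeff n (homF p P - N))
    (h2 : homF (p + 1) d = ex p AF * N)
    (hP : ∀ j, p / 2 < j → P j = 0) (hd : ∀ j, (p + 1) / 2 < j → d j = 0) :
    (∀ j, j < p → (p : ℤ) ^ 2 ∣ cc P d j - aa j) ∧ (p : ℤ) ^ 2 ∣ cc P d p ∧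
      ∀ j, p < j → cc P d j = 0 := by
  have hpp : p.Prime := Fact.out
  obtain ⟨hd0, hdj⟩ := cong_d hN h2 hd
  set Q : PowerSeries ℤ := (((p : ℤ) ^ 2 : ℤ) : PowerSeries ℤ) with hQ
  have h1' : Q ∣ homF p P - N := q_dvdC.mpr h1
  set E := ex p AF with hE
  set Ei := ex p qFi with hEi
  have hEE : E * Ei = 1 := by
    rw [hE, hEi, ← ex_mul p hpp.pos, q_hF]
    ext n
    simp only [ex, PowerSeries.coeff_mk, PowerSeries.coeff_one]
    by_cases hn : n = 0
    · subst hn; simp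
    · rw [if_neg hn]
      split_ifs with hdv hn2
      · exfalso
        have := Nat.le_of_dvd (Nat.pos_of_ne_zero hn) hdv
        have h3 := (Nat.div_eq_zero_iff.mp hn2)
        rcases h3 with h3 | h3
        · omega
        · omega
      · rfl
      · rfl
  set δ : ℕ → ℤ := fun k => (if k = 0 then 2 else 0) - d k with hδ
  have hδ0 : ∀ j, (p + 1) / 2 < j → δ j = 0 := by
    intro j hj
    simp only [hδ]
    rw [if_neg (by omega), hd j hj, sub_zero]
  have hcc : ∀ j, cc P d j = ∑ i ∈ Finset.range (j + 1), P i * δ (j - i) := fun j => rfl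
  set Pz := qS (p / 2 + 1) P with hPz
  set dz := qS ((p + 1) / 2 + 1) d with hdz
  have hδz : qS ((p + 1) / 2 + 1) δ = 2 - dz := by
    rw [hdz, qS, qS, Finset.sum_range_succ', Finset.sum_range_succ' (fun j => PowerSeries.C (d j) * qz ^ j)]
    simp only [hδ]
    simp only [Nat.succ_ne_zero, if_false, if_true, zero_sub, map_neg, neg_mul,
      Finset.sum_neg_distrib, pow_zero, mul_one, map_sub]
    have : (PowerSeries.C (2 : ℤ) : PowerSeries ℤ) = 2 := by simp
    rw [this]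
    ring
  have hprod : qS (p + 1) (cc P d) = Pz * (2 - dz) := by
    rw [← hδz]
    exact q_poly P δ hP hδ0
  -- `dz` is `1` modulo `p`
  have hdz1 : ((p : ℤ) : PowerSeries ℤ) ∣ dz - 1 := by
    rw [hdz, ← q_sub]
    unfold qS
    apply Finset.dvd_sum
    intro j _
    apply Dvd.dvd.mul_right
    have h4 : (p : ℤ) ∣ (if j = 0 then d 0 - 1 else d j) := by
      split_ifs with hj
      · exact hd0
      · exact hdj j (Nat.pos_of_ne_zero hj)
    obtain ⟨t, ht⟩ := h4
    refine ⟨PowerSeries.C t, ?_⟩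
    show PowerSeries.C (if j = 0 then d 0 - 1 else d j) = _
    rw [ht, map_mul]
    simp
  have hdz2 : Q ∣ (dz - 1) ^ 2 := by
    obtain ⟨t, ht⟩ := hdz1
    exact ⟨t ^ 2, by rw [ht, hQ]; push_cast; ring⟩
  have hPF : homF p P = AF ^ p * Pz := q_hom p P
  have hdF : homF (p + 1) d = AF ^ (p + 1) * dz := q_hom (p + 1) d
  have hpow : AF ^ p * qFi ^ p = 1 := by rw [← mul_pow, q_hF, one_pow]
  have h3 : Q ∣ E * Pz - AF * dz := by
    have e : E * Pz - AF * dz = qFi ^ p * (E * (homF p P - N)) := by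
      rw [hPF]
      rw [hdF] at h2
      linear_combination (-(E * Pz) + AF * dz) * hpow - qFi ^ p * h2
    rw [e]
    exact Dvd.dvd.mul_left (Dvd.dvd.mul_left h1' _) _
  have h4 : Q ∣ Pz * (2 - dz) - AF * Ei := by
    have e : Pz * (2 - dz) - AF * Ei =
        Ei * (2 - dz) * (E * Pz - AF * dz) - Ei * AF * (dz - 1) ^ 2 := by
      linear_combination (-(Pz * (2 - dz))) * hEE
    rw [e]
    exact dvd_sub (Dvd.dvd.mul_left h3 _) (Dvd.dvd.mul_left hdz2 _)
  rw [← hprod] at h4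
  have hccEi : PowerSeries.constantCoeff Ei = 1 := by
    rw [← PowerSeries.coeff_zero_eq_constantCoeff_apply, hEi, ex, PowerSeries.coeff_mk,
      if_pos (dvd_zero p), Nat.zero_div, PowerSeries.coeff_zero_eq_constantCoeff_apply]
    have h := congrArg (PowerSeries.constantCoeff) q_hF
    rw [map_mul, q_ccF, map_one, one_mul] at h
    exact h
  have h0 : (p : ℤ) ^ 2 ∣ cc P d 0 - 1 := by
    have h5 := q_dvdC.mp h4 0
    rw [PowerSeries.coeff_zero_eq_constantCoeff_apply, map_sub, q_cS, map_mul, q_ccF, hccEi,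
      one_mul] at h5
    exact h5
  have hH : ∀ i, (p : ℤ) ^ 2 ∣ PowerSeries.coeff i
      (∑ j ∈ Finset.range (p + 1), PowerSeries.C (cc P d j) * AD ^ j * AF ^ (2 * (p - j))
        - AF ^ (2 * p + 1) * Ei) := by
    apply q_dvdC.mp
    have e : ∑ j ∈ Finset.range (p + 1), PowerSeries.C (cc P d j) * AD ^ j * AF ^ (2 * (p - j))
        = AF ^ (2 * p) * qS (p + 1) (cc P d) := by
      rw [qS, Finset.mul_sum]
      apply Finset.sum_congr rfl
      intro j hj
      have hj' : j ≤ p := by have := Finset.mem_range.mp hj; omega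
      rw [q_term]
      congr 2
      omega
    rw [e]
    have e2 : AF ^ (2 * p) * qS (p + 1) (cc P d) - AF ^ (2 * p + 1) * Ei =
        AF ^ (2 * p) * (qS (p + 1) (cc P d) - AF * Ei) := by ring
    rw [e2]
    exact Dvd.dvd.mul_left h4 _
  have hθ : ∀ i, (p : ℤ) ^ 2 ∣ PowerSeries.coeff i (th (th (th Ei))) := by
    intro i
    rw [hEi, (q_th3 p qFi).2, PowerSeries.coeff_C_mul]
    exact Dvd.dvd.mul_right (q_th3 p qFi).1 _
  have hode := ode_mod hpp hp (cc P d) h0 Ei hH hθ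
  refine ⟨hode.1, hode.2, fun j hj => ?_⟩
  rw [hcc]
  apply Finset.sum_eq_zero
  intro i _
  by_cases hi : p / 2 < i
  · rw [hP i hi, zero_mul]
  · rw [hδ0 (j - i) (by omega), mul_zero]

end Pool.Agent.Lib.Z32
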