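import Pool.Agent.Lib.MP_ad286f_nt.Defs

/-!
# Module ZLoc (about 120 lines): the ring of `p`-integral rational numbers inside the complex numbers
-/

namespace Pool.Agent.Lib.Z32

/-- The rational numbers with denominator prime to `p`, as complex numbers. -/
def ZL (p : ℕ) [hp : Fact p.Prime] : Subring ℂ where
  carrier := {x | ∃ a b : ℤ, ¬ (p : ℤ) ∣ b ∧ x * b = a}
  mul_mem' := by
    rintro x y ⟨a, b, hb, h⟩ ⟨a', b', hb', h'⟩
    refine ⟨a * a', b * b', fun hd => ?_, ?_⟩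
    · exact ((Nat.prime_iff_prime_int.mp hp.out).dvd_or_dvd hd).elim hb hb'
    · push_cast
      rw [← h, ← h']
      ring
  one_mem' := ⟨1, 1, fun hd => by
    have h1 := Int.le_of_dvd one_pos hd
    have h2 := hp.out.one_lt
    omega, by simp⟩
  add_mem' := by
    rintro x y ⟨a, b, hb, h⟩ ⟨a', b', hb', h'⟩
    refine ⟨a * b' + a' * b, b * b', fun hd => ?_, ?_⟩
    · exact ((Nat.prime_iff_prime_int.mp hp.out).dvd_or_dvd hd).elim hb hb'
    · push_cast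
      rw [← h, ← h']
      ring
  zero_mem' := ⟨0, 1, fun hd => by
    have h1 := Int.le_of_dvd one_pos hd
    have h2 := hp.out.one_lt
    omega, by simp⟩
  neg_mem' := by
    rintro x ⟨a, b, hb, h⟩
    refine ⟨-a, b, hb, ?_⟩
    push_cast
    rw [← h]
    ring

variable {p : ℕ} [Fact p.Prime]

theorem ZL_int (a : ℤ) : (a : ℂ) ∈ ZL p := intCast_mem (ZL p) a

theorem ZL_nat (a : ℕ) : (a : ℂ) ∈ ZL p := natCast_mem (ZL p) a

private theorem zl_two {n : ℕ} (hp : 3 < p) : ¬ (p : ℤ) ∣ 2 ^ n := by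
  intro h
  have hpp : p.Prime := Fact.out
  have h1 : (p : ℤ) ∣ 2 := (Nat.prime_iff_prime_int.mp hpp).dvd_of_dvd_pow h
  have h2 := Int.le_of_dvd (by norm_num) h1
  omega

omit [Fact p.Prime] in
private theorem zl_ne {b : ℤ} (hb : ¬ (p : ℤ) ∣ b) : (b : ℂ) ≠ 0 := by
  intro h
  have : b = 0 := by exact_mod_cast h
  exact hb (this ▸ dvd_zero _)

/-- `1/32` is `p`-integral for odd `p`. -/
theorem ZL_inv (hp : 3 < p) : (1 / 32 : ℂ) ∈ ZL p ∧ (1 / 2 : ℂ) ∈ ZL p := by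
  refine ⟨⟨1, 32, ?_, by norm_num⟩, ⟨1, 2, ?_, by norm_num⟩⟩
  · have := zl_two (n := 5) hp
    norm_num at this
    exact this
  · have := zl_two (n := 1) hp
    norm_num at this
    exact this

/-- `p` is prime in `ZL p`. -/
theorem ZL_sq {x y : ℂ} (hx : x ∈ ZL p) (hy : y ∈ ZL p) (h : x ^ 2 = p * y) :
    ∃ z ∈ ZL p, x = p * z := by
  obtain ⟨a, b, hb, h1⟩ := hx
  obtain ⟨a', b', hb', h2⟩ := hy
  have hpr := Nat.prime_iff_prime_int.mp (Fact.out : p.Prime)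
  have h3 : a ^ 2 * b' = p * (a' * b ^ 2) := by
    have : ((a ^ 2 * b' : ℤ) : ℂ) = ((p * (a' * b ^ 2) : ℤ) : ℂ) := by
      push_cast
      rw [← h1, ← h2, mul_pow, h]
      ring
    exact_mod_cast this
  have h4 : (p : ℤ) ∣ a := by
    have h5 : (p : ℤ) ∣ a ^ 2 * b' := ⟨_, h3⟩
    exact hpr.dvd_of_dvd_pow ((hpr.dvd_or_dvd h5).resolve_right hb')
  obtain ⟨c, hc⟩ := h4
  have hb0 := zl_ne hb
  refine ⟨c / b, ⟨c, b, hb, by field_simp⟩, ?_⟩
  rw [hc] at h1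
  push_cast at h1
  field_simp
  linear_combination h1

/-- `1 + p r` is a unit. -/
theorem ZL_unit {x r : ℂ} (hr : r ∈ ZL p) (h : x = 1 + p * r) : ∃ y ∈ ZL p, x * y = 1 := by
  obtain ⟨a, b, hb, h1⟩ := hr
  have hb0 := zl_ne hb
  have hba : ¬ (p : ℤ) ∣ b + p * a := by
    intro hd
    exact hb ((dvd_add_left (dvd_mul_right _ _)).mp hd)
  have h0 := zl_ne hba
  push_cast at h0
  have hx : x * b = b + p * a := by
    rw [h, ← h1]; ring
  refine ⟨b / (b + p * a), ⟨b, b + p * a, hba, by push_cast; field_simp⟩, ?_⟩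
  rw [← mul_div_assoc, hx, div_self h0]

/-- Back to the rational numbers. -/
theorem ZL_cast {q : ℚ} {r : ℂ} (hr : r ∈ ZL p) (h : (q : ℂ) = (p : ℂ) ^ 2 * r) :
    ∃ u v : ℤ, ¬ (p : ℤ) ∣ v ∧ q = (p : ℚ) ^ 2 * (u / v) := by
  obtain ⟨a, b, hb, h1⟩ := hr
  have hb0 := zl_ne hb
  refine ⟨a, b, hb, ?_⟩
  have h2 : (q : ℂ) = (((p : ℚ) ^ 2 * (a / b) : ℚ) : ℂ) := by
    push_cast
    rw [h, ← h1]
    field_simp
  exact_mod_cast h2

end Pool.Agent.Lib.Z32
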