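import Pool.Agent.Lib.MP_ad286f_nt.CongA
import Pool.Agent.Lib.MP_ad286f_nt.ZLoc

/-!
# Module CongB (about 150 lines): evaluation at `1/32`

`x = 1/32` in `ZL p`. `sum_{j<=p} cc_j x^j = (sum_{j<=p/2} P_j x^j)(2 - sum_{j<=(p+1)/2} d_j x^j)` (product of finite sums; everything beyond
vanishes, `cc_j = 0` for `j > p`; e.g. as polynomials over `Z` with `Polynomial.eval₂`), and `sum_{j<=p} cc_j x^j - sum_{n<p} a_n x^n = p^2 (..)`.
Second part: `sum_j d_j x^j = 1 + p r`.
-/

namespace Pool.Agent.Lib.Z32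

open Polynomial in
theorem key_eval {p : ℕ} [Fact p.Prime] (hp : 3 < p) {P d : ℕ → ℤ}
    (h0 : (p : ℤ) ∣ d 0 - 1) (h1 : ∀ j, 0 < j → (p : ℤ) ∣ d j)
    (hc : ∀ j, j < p → (p : ℤ) ^ 2 ∣ cc P d j - aa j) (hcp : (p : ℤ) ^ 2 ∣ cc P d p)
    (hc0 : ∀ j, p < j → cc P d j = 0)
    (hP : ∀ j, p / 2 < j → P j = 0) (hd : ∀ j, (p + 1) / 2 < j → d j = 0) :
    (∃ r ∈ ZL p, (∑ n ∈ Finset.range p, (aa n : ℂ) * (1 / 32) ^ n) =
      (∑ j ∈ Finset.range (p / 2 + 1), (P j : ℂ) * (1 / 32) ^ j) *
        (2 - ∑ j ∈ Finset.range ((p + 1) / 2 + 1), (d j : ℂ) * (1 / 32) ^ j) + (p : ℂ) ^ 2 * r) ∧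
    (∃ r ∈ ZL p, (∑ j ∈ Finset.range ((p + 1) / 2 + 1), (d j : ℂ) * (1 / 32) ^ j) = 1 + p * r) := by
  have hx : (1 / 32 : ℂ) ∈ ZL p := (ZL_inv hp).1
  constructor
  · -- the product
    have hs : ∀ j, ∃ s : ℤ, j < p → cc P d j = aa j + (p : ℤ) ^ 2 * s := by
      intro j
      by_cases hj : j < p
      · obtain ⟨s, hs⟩ := hc j hj
        exact ⟨s, fun _ => by linarith⟩
      · exact ⟨0, fun h => absurd h hj⟩
    choose s hs using hs
    obtain ⟨sp, hsp⟩ := hcp
    refine ⟨-((∑ j ∈ Finset.range p, (s j : ℂ) * (1 / 32) ^ j) + (sp : ℂ) * (1 / 32) ^ p), ?_, ?_⟩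
    · apply neg_mem
      apply add_mem
      · apply sum_mem
        intro j _
        exact mul_mem (ZL_int _) (pow_mem hx j)
      · exact mul_mem (ZL_int _) (pow_mem hx p)
    · set PA : ℤ[X] := ∑ j ∈ Finset.range (p / 2 + 1), monomial j (P j) with hPA
      set DA : ℤ[X] := C 2 - ∑ j ∈ Finset.range ((p + 1) / 2 + 1), monomial j (d j) with hDA
      have cPA : ∀ i, PA.coeff i = P i := by
        intro i
        rw [hPA, finsetSum_coeff]
        simp only [coeff_monomial]
        rw [Finset.sum_ite_eq']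
        split_ifs with h
        · rfl
        · simp only [Finset.mem_range, not_lt] at h
          rw [hP i (by omega)]
      have cDA : ∀ i, DA.coeff i = (if i = 0 then 2 else 0) - d i := by
        intro i
        rw [hDA, coeff_sub, coeff_C, finsetSum_coeff]
        simp only [coeff_monomial]
        rw [Finset.sum_ite_eq']
        congr 1
        split_ifs with h
        · rfl
        · simp only [Finset.mem_range, not_lt] at h
          rw [hd i (by omega)]
      have cprod : ∀ j, (PA * DA).coeff j = cc P d j := by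
        intro j
        rw [coeff_mul, Finset.Nat.sum_antidiagonal_eq_sum_range_succ_mk]
        unfold cc
        refine Finset.sum_congr rfl fun i _ => ?_
        simp only
        rw [cPA, cDA]
      have hdeg : (PA * DA).natDegree < p + 1 := by
        rw [Nat.lt_succ_iff, natDegree_le_iff_coeff_eq_zero]
        intro N hN
        rw [cprod]
        exact hc0 N hN
      have hev := eval₂_eq_sum_range' (Int.castRingHom ℂ) hdeg (1 / 32 : ℂ)
      rw [eval₂_mul] at hev
      have eP : eval₂ (Int.castRingHom ℂ) (1 / 32 : ℂ) PA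
          = ∑ j ∈ Finset.range (p / 2 + 1), (P j : ℂ) * (1 / 32) ^ j := by
        rw [hPA, eval₂_finsetSum]
        refine Finset.sum_congr rfl fun j _ => ?_
        rw [eval₂_monomial, eq_intCast]
      have eD : eval₂ (Int.castRingHom ℂ) (1 / 32 : ℂ) DA
          = 2 - ∑ j ∈ Finset.range ((p + 1) / 2 + 1), (d j : ℂ) * (1 / 32) ^ j := by
        rw [hDA, eval₂_sub, eval₂_C, eval₂_finsetSum]
        simp only [eval₂_monomial, eq_intCast]
        norm_num
      rw [eP, eD] at hev
      rw [hev, Finset.sum_range_succ, cprod p, hsp]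
      have e2 : ∑ x ∈ Finset.range p, (Int.castRingHom ℂ) ((PA * DA).coeff x) * (1 / 32 : ℂ) ^ x
          = (∑ n ∈ Finset.range p, (aa n : ℂ) * (1 / 32) ^ n)
            + (p : ℂ) ^ 2 * ∑ j ∈ Finset.range p, (s j : ℂ) * (1 / 32) ^ j := by
        rw [Finset.mul_sum, ← Finset.sum_add_distrib]
        refine Finset.sum_congr rfl fun j hj => ?_
        simp only [Finset.mem_range] at hj
        rw [cprod, hs j hj, eq_intCast]
        push_cast
        ring
      rw [e2, eq_intCast]
      push_cast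
      ring
  · have he : ∀ j, ∃ e : ℤ, d j = (if j = 0 then 1 else 0) + (p : ℤ) * e := by
      intro j
      by_cases hj : j = 0
      · subst hj
        obtain ⟨e, he⟩ := h0
        exact ⟨e, by rw [if_pos rfl]; linarith⟩
      · obtain ⟨e, he⟩ := h1 j (Nat.pos_of_ne_zero hj)
        exact ⟨e, by rw [if_neg hj]; linarith⟩
    choose e he using he
    refine ⟨∑ j ∈ Finset.range ((p + 1) / 2 + 1), (e j : ℂ) * (1 / 32) ^ j, ?_, ?_⟩
    · apply sum_mem
      intro j _
      exact mul_mem (ZL_int _) (pow_mem hx j)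
    · have e1 : ∀ j ∈ Finset.range ((p + 1) / 2 + 1), (d j : ℂ) * (1 / 32) ^ j
          = (if j = 0 then 1 else 0) + (p : ℂ) * ((e j : ℂ) * (1 / 32) ^ j) := by
        intro j _
        rw [he j]
        by_cases hj : j = 0
        · subst hj
          push_cast
          simp
        · rw [if_neg hj, if_neg hj]
          push_cast
          ring
      rw [Finset.sum_congr rfl e1, Finset.sum_add_distrib, ← Finset.mul_sum, Finset.sum_ite_eq']
      rw [if_pos (by simp)]

end Pool.Agent.Lib.Z32
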