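import Pool.Agent.Lib.MP_ad286f_nt.QAlg

/-!
# Module E2Tr (about 150 lines): the Eisenstein series of weight two

Mathlib has `EisensteinSeries.hasSum_qExpansion_E2` and `EisensteinSeries.E2_slash_action`
(`E2 | gamma = E2 - (1/(2 zeta(2))) D2 gamma`, `D2 gamma z = 2 pi i c/(c z + d)`), `riemannZeta_two`.
So for `z` in the upper half plane `E2(gamma z) = (cz+d)^2 E2(z) + (6/(pi i)) c (cz+d)`.
-/

namespace Pool.Agent.Lib.Z32

open Complex

theorem E2c_hasSum (z : UpperHalfPlane) :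
    HasSum (fun n : ℕ => (if n = 0 then 1 else -24 * (sg n : ℂ)) * qm (z : ℂ) ^ n)
      (EisensteinSeries.E2 z) := by
  have h := EisensteinSeries.hasSum_qExpansion_E2 (z := z)
  convert h using 2 with n
  rw [smul_eq_mul, ArithmeticFunction.sigma_one_apply]
  rfl

theorem E2c_eq (z : UpperHalfPlane) : E2c (z : ℂ) = EisensteinSeries.E2 z :=
  (E2c_hasSum z).tsum_eq

theorem E2c_qe : QE E2c (PowerSeries.mk (fun n => if n = 0 then 1 else -24 * (sg n : ℂ))) := by
  intro τ hτ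
  have h := E2c_hasSum ⟨τ, hτ⟩
  have h2 := E2c_eq ⟨τ, hτ⟩
  simp only [PowerSeries.coeff_mk]
  change E2c τ = _ at h2
  rw [h2]
  exact h

theorem E2c_tr {a b c d : ℤ} (h : a * d - b * c = 1) {τ : ℂ} (hτ : 0 < τ.im) :
    E2c ((a * τ + b) / (c * τ + d)) =
      (c * τ + d) ^ 2 * E2c τ + 6 / (Real.pi * I) * c * (c * τ + d) := by
  set z : UpperHalfPlane := ⟨τ, hτ⟩ with hz
  set γ : Matrix.SpecialLinearGroup (Fin 2) ℤ := ⟨!![a, b; c, d], by
    rw [Matrix.det_fin_two_of]; exact h⟩ with hγ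
  have h1 := congrFun (EisensteinSeries.E2_slash_action γ) z
  simp only [ModularForm.SL_slash_def, Pi.sub_apply, Pi.smul_apply, EisensteinSeries.D2,
    riemannZeta_two, smul_eq_mul] at h1
  have hc : ((γ • z : UpperHalfPlane) : ℂ) = (a * τ + b) / (c * τ + d) := by
    rw [UpperHalfPlane.coe_specialLinearGroup_apply]
    simp [hγ, hz]
  have hd : UpperHalfPlane.denom γ z = c * τ + d := by
    rw [ModularGroup.denom_apply]
    simp [hγ, hz]
  have hne : (c : ℂ) * τ + d ≠ 0 := by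
    rw [← hd]
    exact UpperHalfPlane.denom_ne_zero _ z
  have hg : ((γ : Matrix.SpecialLinearGroup (Fin 2) ℤ) 1 0 : ℤ) = c := by
    rw [hγ]; rfl
  rw [hd, hg] at h1
  rw [← hc, E2c_eq, show E2c τ = EisensteinSeries.E2 z from E2c_eq z]
  have hpi : (Real.pi : ℂ) ≠ 0 := by exact_mod_cast Real.pi_ne_zero
  have h2 : EisensteinSeries.E2 (γ • z) = (c * τ + d) ^ 2 *
      (EisensteinSeries.E2 (γ • z) * ((c : ℂ) * τ + d) ^ (-2 : ℤ)) := by
    rw [zpow_neg, zpow_ofNat]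
    field_simp
  rw [h2, h1, mul_sub]
  have h3 : 6 / (Real.pi * I) * c * ((c : ℂ) * τ + d)
      = -((c * τ + d) ^ 2 * (1 / (2 * ((Real.pi : ℂ) ^ 2 / 6))
        * (2 * Real.pi * I * c / (c * τ + d)))) := by
    field_simp
    rw [I_sq]
    ring
  rw [h3]
  ring

end Pool.Agent.Lib.Z32
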