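import Pool.Agent.Lib.MP_ad286f_nt.HForm
import Pool.Agent.Lib.MP_ad286f_nt.CongB
import Pool.Agent.Lib.MP_ad286f_nt.AlgAB
import Pool.Agent.Lib.MP_ad286f_nt.CMPt

/-!
# Module Final (about 220 lines): assembly of (a) and (b)

`s := (fam p tau0).map (fun x => x / F0)`, `F0 = FF tau0 <> 0`, cardinality `p + 1`. `fam_struct` gives `B, d`; `hom_eval` (with `FF_tau0`):
`esymm k s = esymm k (fam)/F0^k = sum_{j<=k/2} B_(k,j)/32^j` in `ZL p` (`ZL_inv`; `Multiset.pow_smul_esymm` or `Multiset.map_map`).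
`esymm (p+1) s = p^2 de`, `de = sum_{j<=(p+1)/2} d_j/32^j`; `esymm p s = sum_{j<=p/2} P_j/32^j =: pi`, `P = B p`.
`cong_d`, `cong_seq` with `N = eN p AF p` (`eN_top`), `key_eval`: `Z = pi (2 - de) + p^2 r`, `de = 1 + p r'`.
`main_ab`: `al * F0, be * F0` in `fam`, so `al, be` in `s`; `alg_ab`: `pi = t de + p^2 r''`. So `Z = t de (2 - de) + p^2 (..) = t (1 - p^2 r'^2) + p^2 (..)`.
`final_a`: `al = (x - 6y tau0)^2`, `be = (x + 6y tau0)^2` (`root_a` for `y` and `-y`), `al + be = 2(x^2 + 36 y^2 tau0^2) = 2x^2 - 12y^2 = 4x^2 - 2p`,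
product `(x^2 + 6y^2)^2 = p^2`, different since `x y tau0 <> 0` (`xy_ne`). `final_b`: `(2x -+ 6y tau0)^2/2`: sum `4x^2 - 6y^2 = 8x^2 - 2p`, product
`(4x^2+6y^2)^2/4 = p^2`. Back to `Q`: `ZL_cast`.
-/

namespace Pool.Agent.Lib.Z32

open Complex

private theorem es_map' (c : ℂ) (s : Multiset ℂ) (k : ℕ) :
    (s.map (fun x => c * x)).esymm k = c ^ k * s.esymm k := by
  have := Multiset.pow_smul_esymm c k s
  simp only [smul_eq_mul] at this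
  exact this.symm

private theorem sum_ZL {p : ℕ} [Fact p.Prime] (hp : 3 < p) (m : ℕ) (b : ℕ → ℤ) :
    (∑ j ∈ Finset.range m, (b j : ℂ) * (1 / 32) ^ j) ∈ ZL p :=
  Subring.sum_mem _ (fun j _ => Subring.mul_mem _ (ZL_int _) (Subring.pow_mem _ (ZL_inv hp).1 j))

theorem main_ab {p : ℕ} [Fact p.Prime] (hp : 3 < p) {al be : ℂ} {t : ℤ}
    (ha : al * FF tau0 ∈ fam p tau0) (hb : be * FF tau0 ∈ fam p tau0) (hne : al ≠ be)
    (h1 : al + be = t) (h2 : al * be = (p : ℂ) ^ 2) :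
    ∃ r ∈ ZL p, (∑ n ∈ Finset.range p, (aa n : ℂ) * (1 / 32) ^ n) - t = (p : ℂ) ^ 2 * r := by
  have hpp : p.Prime := Fact.out
  obtain ⟨B, d, hB1, hB2, hB3, hB4, hB5, hd0, hBd⟩ := fam_struct (p := p) hp
  obtain ⟨hF, hF0⟩ := FF_tau0
  set F0 := FF tau0 with hF0def
  set s : Multiset ℂ := (fam p tau0).map (fun x => F0⁻¹ * x) with hs
  have hcard : Multiset.card s = p + 1 := by
    simp [hs, fam, famJ]
  have hes : ∀ k, s.esymm k = ∑ j ∈ Finset.range (k / 2 + 1), (B k j : ℂ) * (1 / 32) ^ j := by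
    intro k
    rw [hs, es_map', hB1 k tau0 tau0_im, hom_eval k (B k) hF, ← mul_assoc, ← mul_pow,
      inv_mul_cancel₀ hF0, one_pow, one_mul]
  have hmem : ∀ k, s.esymm k ∈ ZL p := fun k => by
    rw [hes k]
    exact sum_ZL hp _ _
  have has : al ∈ s := by
    rw [hs, Multiset.mem_map]
    exact ⟨_, ha, by field_simp⟩
  have hbs : be ∈ s := by
    rw [hs, Multiset.mem_map]
    exact ⟨_, hb, by field_simp⟩
  set de : ℂ := ∑ j ∈ Finset.range ((p + 1) / 2 + 1), (d j : ℂ) * (1 / 32) ^ j with hde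
  have hes1 : s.esymm (p + 1) = (p : ℂ) ^ 2 * de := by
    rw [hes, hde, Finset.mul_sum]
    apply Finset.sum_congr rfl
    intro j _
    rw [hB5 j]
    push_cast
    ring
  obtain ⟨r, hr, hpi⟩ := alg_ab hp hcard hmem has hbs hne (ZL_int t) h1 h2 hes1
  have hN : ∀ n, (p : ℤ) ∣ PowerSeries.coeff n (eN p AF p - AF) :=
    fun n => eN_top hpp (by omega) AF n
  obtain ⟨c0, c1⟩ := cong_d hN hBd hd0
  obtain ⟨hc, hcp, hc0⟩ := cong_seq hp hN hB4 hBd (hB2 p) hd0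
  obtain ⟨⟨r1, hr1, e1⟩, ⟨r2, hr2, e2⟩⟩ := key_eval hp c0 c1 hc hcp hc0 (hB2 p) hd0
  rw [← hde] at e1 e2
  rw [← hes p, hpi] at e1
  refine ⟨-(t : ℂ) * r2 ^ 2 + r * (2 - de) + r1, ?_, ?_⟩
  · have hde' : de ∈ ZL p := sum_ZL hp _ _
    have h2' : (2 : ℂ) ∈ ZL p := by exact_mod_cast ZL_nat (p := p) 2
    exact Subring.add_mem _ (Subring.add_mem _ (Subring.mul_mem _ (Subring.neg_mem _ (ZL_int t))
      (Subring.pow_mem _ hr2 2)) (Subring.mul_mem _ hr (Subring.sub_mem _ h2' hde'))) hr1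
  · rw [e1, e2]
    ring

/-- `x = y` modulo `p^2` in the ring of rational numbers with denominator prime to `p`. -/
def ModP2 (p : ℕ) (x y : ℚ) : Prop := ∃ u v : ℤ, ¬ (p : ℤ) ∣ v ∧ x - y = (p : ℚ) ^ 2 * (u / v)

theorem final_a {p : ℕ} (hp : p.Prime) (h3 : 3 < p) {x y : ℤ} (h : (p : ℤ) = x ^ 2 + 6 * y ^ 2) :
    ModP2 p (∑ n ∈ Finset.range p, (aa n : ℚ) / 32 ^ n) (4 * x ^ 2 - 2 * p) := by
  have : Fact p.Prime := ⟨hp⟩
  have ht := tau0_sq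
  have hpc : (p : ℂ) = (x : ℂ) ^ 2 + 6 * (y : ℂ) ^ 2 := by exact_mod_cast congrArg (Int.cast : ℤ → ℂ) h
  have h' : (p : ℤ) = x ^ 2 + 6 * (-y) ^ 2 := by rw [h]; ring
  have ra := root_a h3 h
  have rb := root_a h3 h'
  obtain ⟨hx, hy⟩ := (xy_ne hp h3).1 h
  have hx' : (x : ℂ) ≠ 0 := by exact_mod_cast hx
  have hy' : (y : ℂ) ≠ 0 := by exact_mod_cast hy
  have ht0 : tau0 ≠ 0 := by
    intro h0
    have := tau0_im
    rw [h0] at this
    simp at this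
  have hne : ((x : ℂ) - 6 * y * tau0) ^ 2 ≠ ((x : ℂ) - 6 * ((-y : ℤ) : ℂ) * tau0) ^ 2 := by
    intro he
    push_cast at he
    have h1 : (x : ℂ) * y * tau0 = 0 := by linear_combination (-1 / 24) * he
    exact mul_ne_zero (mul_ne_zero hx' hy') ht0 h1
  obtain ⟨r, hr, e⟩ := main_ab (t := 4 * x ^ 2 - 2 * p) h3 ra rb hne (by
    push_cast
    linear_combination 72 * (y : ℂ) ^ 2 * ht + 2 * hpc) (by
    push_cast
    rw [hpc]
    linear_combination (-72 * (x : ℂ) ^ 2 * y ^ 2 + 1296 * (y : ℂ) ^ 4 * (tau0 ^ 2 - 1 / 6)) * ht)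
  unfold ModP2
  have e2 : (((∑ n ∈ Finset.range p, (aa n : ℚ) / 32 ^ n) - (4 * x ^ 2 - 2 * p) : ℚ) : ℂ)
      = (p : ℂ) ^ 2 * r := by
    rw [← e]
    push_cast
    congr 1
    apply Finset.sum_congr rfl
    intro n _
    rw [one_div, inv_pow, div_eq_mul_inv]
  exact ZL_cast hr e2

theorem final_b {p : ℕ} (hp : p.Prime) (h3 : 3 < p) {x y : ℤ}
    (h : (p : ℤ) = 2 * x ^ 2 + 3 * y ^ 2) :
    ModP2 p (∑ n ∈ Finset.range p, (aa n : ℚ) / 32 ^ n) (8 * x ^ 2 - 2 * p) := by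
  have : Fact p.Prime := ⟨hp⟩
  have ht := tau0_sq
  have hpc : (p : ℂ) = 2 * (x : ℂ) ^ 2 + 3 * (y : ℂ) ^ 2 := by
    exact_mod_cast congrArg (Int.cast : ℤ → ℂ) h
  have h' : (p : ℤ) = 2 * x ^ 2 + 3 * (-y) ^ 2 := by rw [h]; ring
  have ra := root_b h3 h
  have rb := root_b h3 h'
  obtain ⟨hx, hy⟩ := (xy_ne hp h3).2 h
  have hx' : (x : ℂ) ≠ 0 := by exact_mod_cast hx
  have hy' : (y : ℂ) ≠ 0 := by exact_mod_cast hy
  have ht0 : tau0 ≠ 0 := by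
    intro h0
    have := tau0_im
    rw [h0] at this
    simp at this
  have hne : (2 * (x : ℂ) - 6 * y * tau0) ^ 2 / 2
      ≠ (2 * (x : ℂ) - 6 * ((-y : ℤ) : ℂ) * tau0) ^ 2 / 2 := by
    intro he
    push_cast at he
    have h1 : (x : ℂ) * y * tau0 = 0 := by linear_combination (-1 / 24) * he
    exact mul_ne_zero (mul_ne_zero hx' hy') ht0 h1
  obtain ⟨r, hr, e⟩ := main_ab (t := 8 * x ^ 2 - 2 * p) h3 ra rb hne (by
    push_cast
    linear_combination 36 * (y : ℂ) ^ 2 * ht + 2 * hpc) (by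
    push_cast
    rw [hpc]
    linear_combination (-72 * (x : ℂ) ^ 2 * y ^ 2 + 324 * (y : ℂ) ^ 4 * (tau0 ^ 2 - 1 / 6)) * ht)
  unfold ModP2
  have e2 : (((∑ n ∈ Finset.range p, (aa n : ℚ) / 32 ^ n) - (8 * x ^ 2 - 2 * p) : ℚ) : ℂ)
      = (p : ℂ) ^ 2 * r := by
    rw [← e]
    push_cast
    congr 1
    apply Finset.sum_congr rfl
    intro n _
    rw [one_div, inv_pow, div_eq_mul_inv]
  exact ZL_cast hr e2

end Pool.Agent.Lib.Z32
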