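import Pool.Agent.Lib.MP_ad286f_nt.Final
import Pool.Agent.Lib.MP_ad286f_nt.CPart

/-!
# Module FinalC (about 80 lines): part (c) in the form of `ModP2`

From `MPad286f.c_part` (helper39, CPart.lean; `MPad286f.fr` is `fr` by `rfl`, see CPartZ.lean, which must not be imported together with
Franel.lean), an identity in `ZMod (p^2)`: multiply by `32^(p-1)`: the integer `u = sum_n a_n 32^(p-1-n)` is divisible by `p^2`, and
`sum_n a_n/32^n = u/32^(p-1)`.
-/

namespace Pool.Agent.Lib.Z32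

theorem final_c {p : ℕ} (hp : p.Prime) (h3 : 3 < p)
    (h : p % 24 = 13 ∨ p % 24 = 17 ∨ p % 24 = 19 ∨ p % 24 = 23) :
    ModP2 p (∑ n ∈ Finset.range p, (aa n : ℚ) / 32 ^ n) 0 := by
  have hc := MPad286f.c_part p hp h
  have hc' : ∑ n ∈ Finset.range p, (aa n : ZMod (p ^ 2)) * ((32 : ZMod (p ^ 2)) ^ n)⁻¹ = 0 := hc
  have hcop : Nat.Coprime 32 (p ^ 2) := by
    apply Nat.Coprime.pow_right
    have : Nat.Coprime (2 ^ 5) p := by
      apply Nat.Coprime.pow_left
      rw [Nat.coprime_primes Nat.prime_two hp]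
      omega
    simpa using this
  have hu32 : IsUnit (32 : ZMod (p ^ 2)) := by
    have := (ZMod.isUnit_iff_coprime 32 (p ^ 2)).mpr hcop
    exact_mod_cast this
  have hU : ((∑ n ∈ Finset.range p, aa n * 32 ^ (p - 1 - n) : ℕ) : ZMod (p ^ 2)) = 0 := by
    have : ((∑ n ∈ Finset.range p, aa n * 32 ^ (p - 1 - n) : ℕ) : ZMod (p ^ 2))
        = 32 ^ (p - 1) * ∑ n ∈ Finset.range p, (aa n : ZMod (p ^ 2)) * ((32 : ZMod (p ^ 2)) ^ n)⁻¹ := by
      push_cast
      rw [Finset.mul_sum]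
      refine Finset.sum_congr rfl fun n hn => ?_
      simp only [Finset.mem_range] at hn
      have e : (32 : ZMod (p ^ 2)) ^ (p - 1) = 32 ^ (p - 1 - n) * 32 ^ n := by
        rw [← pow_add]
        congr 1
        omega
      have h1 := ZMod.mul_inv_of_unit _ (hu32.pow n)
      rw [e]
      calc (aa n : ZMod (p ^ 2)) * 32 ^ (p - 1 - n)
          = (aa n : ZMod (p ^ 2)) * 32 ^ (p - 1 - n) * (32 ^ n * ((32 : ZMod (p ^ 2)) ^ n)⁻¹) := by
            rw [h1, mul_one]
        _ = _ := by ring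
    rw [this, hc', mul_zero]
  rw [ZMod.natCast_eq_zero_iff] at hU
  obtain ⟨w, hw⟩ := hU
  refine ⟨w, 32 ^ (p - 1), ?_, ?_⟩
  · intro hd
    have hd2 : p ∣ 32 ^ (p - 1) := by exact_mod_cast hd
    have := hp.dvd_of_dvd_pow hd2
    have e : 32 = 2 ^ 5 := by norm_num
    rw [e] at this
    have h2 := (Nat.prime_dvd_prime_iff_eq hp Nat.prime_two).mp (hp.dvd_of_dvd_pow this)
    omega
  · rw [sub_zero]
    have hw' : ((∑ n ∈ Finset.range p, aa n * 32 ^ (p - 1 - n) : ℕ) : ℚ) = ((p ^ 2 * w : ℕ) : ℚ) := by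
      rw [hw]
    push_cast at hw' ⊢
    have h32 : (32 : ℚ) ^ (p - 1) ≠ 0 := by positivity
    rw [← mul_div_assoc, ← hw', Finset.sum_div]
    refine Finset.sum_congr rfl fun n hn => ?_
    simp only [Finset.mem_range] at hn
    have e : (32 : ℚ) ^ (p - 1) = 32 ^ (p - 1 - n) * 32 ^ n := by
      rw [← pow_add]
      congr 1
      omega
    rw [e]
    field_simp

end Pool.Agent.Lib.Z32
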