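import Pool.Agent.Lib.MP_ad286f_nt.Defs

/-!
# Module Franel: the recurrence of the Franel numbers and of `aa n = C(2n,n) f_n`
-/

namespace Pool.Agent.Lib.Z32

/-- The certificate. -/
private def Q (m k : ℤ) : ℤ :=
  4 * k ^ 3 - (18 * m + 12) * k ^ 2 + (27 * m ^ 2 + 39 * m + 12) * k
    - (14 * m ^ 3 + 32 * m ^ 2 + 22 * m + 4)

private def g (n : ℕ) : ℕ → ℤ
  | 0 => 0
  | (k + 1) => Q (n + 1) (k + 1) * ((n + 1).choose k : ℤ) ^ 3

private theorem step (n k : ℕ) (hk : k ≤ n + 2) :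
    ((n : ℤ) + 1) * (((n : ℤ) + 2) ^ 2 * ((n + 2).choose k : ℤ) ^ 3
      - (7 * (n : ℤ) ^ 2 + 21 * n + 16) * ((n + 1).choose k : ℤ) ^ 3)
      - 8 * (((n : ℤ) + 1) * (n.choose k : ℤ)) ^ 3 = g n (k + 1) - g n k := by
  cases k with
  | zero =>
    simp only [Nat.choose_zero_right, g, Q]
    push_cast
    ring
  | succ j =>
    have hj : j ≤ n + 1 := by omega
    have e1 : ((j : ℤ) + 1) * ((n + 1).choose (j + 1) : ℤ)
        = ((n : ℤ) + 1 - j) * ((n + 1).choose j : ℤ) := by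
      have := Nat.choose_succ_right_eq (n + 1) j
      have h2 : (((n + 1).choose (j + 1) * (j + 1) : ℕ) : ℤ)
          = (((n + 1).choose j * (n + 1 - j) : ℕ) : ℤ) := by rw [this]
      push_cast [Nat.cast_sub hj] at h2
      linarith
    have e2 : ((n : ℤ) + 1) * (n.choose (j + 1) : ℤ)
        = ((n : ℤ) - j) * ((n + 1).choose (j + 1) : ℤ) := by
      rcases Nat.lt_or_ge n j with h | h
      · rw [Nat.choose_eq_zero_of_lt (by omega : n < j + 1),
          Nat.choose_eq_zero_of_lt (by omega : n + 1 < j + 1)]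
        simp
      · have := Nat.choose_mul_succ_eq n (j + 1)
        have h2 : ((n.choose (j + 1) * (n + 1) : ℕ) : ℤ)
            = (((n + 1).choose (j + 1) * (n + 1 - (j + 1)) : ℕ) : ℤ) := by rw [this]
        have h3 : n + 1 - (j + 1) = n - j := by omega
        rw [h3] at h2
        push_cast [Nat.cast_sub h] at h2
        linarith
    have e3 : ((n + 2).choose (j + 1) : ℤ) = ((n + 1).choose j : ℤ) + ((n + 1).choose (j + 1) : ℤ) := by
      rw [Nat.choose_succ_succ]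
      push_cast
      ring
    rw [e3, e2]
    simp only [g, Q]
    have hne : ((j : ℤ) + 1) ^ 3 ≠ 0 := by positivity
    apply mul_left_cancel₀ hne
    set x := ((n + 1).choose (j + 1) : ℤ)
    set y := ((n + 1).choose j : ℤ)
    have e4 : ((j : ℤ) + 1) ^ 3 * x ^ 3 = ((n : ℤ) + 1 - j) ^ 3 * y ^ 3 := by
      rw [← mul_pow, e1, mul_pow]
    have e5 : ((j : ℤ) + 1) ^ 3 * (y + x) ^ 3 = ((n : ℤ) + 2) ^ 3 * y ^ 3 := by
      rw [← mul_pow, mul_add, e1, ← mul_pow]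
      ring
    push_cast
    linear_combination (((n : ℤ) + 1) * ((n : ℤ) + 2) ^ 2) * e5
      - (((n : ℤ) + 1) * (7 * (n : ℤ) ^ 2 + 21 * n + 16) + 8 * ((n : ℤ) - j) ^ 3
        + (4 * ((j : ℤ) + 2) ^ 3 - (18 * ((n : ℤ) + 1) + 12) * ((j : ℤ) + 2) ^ 2
          + (27 * ((n : ℤ) + 1) ^ 2 + 39 * ((n : ℤ) + 1) + 12) * ((j : ℤ) + 2)
          - (14 * ((n : ℤ) + 1) ^ 3 + 32 * ((n : ℤ) + 1) ^ 2 + 22 * ((n : ℤ) + 1) + 4))) * e4

theorem fr_rec (n : ℕ) : ((n : ℤ) + 2) ^ 2 * fr (n + 2) =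
    (7 * (n : ℤ) ^ 2 + 21 * n + 16) * fr (n + 1) + 8 * ((n : ℤ) + 1) ^ 2 * fr n := by
  have hs : ∑ k ∈ Finset.range (n + 3), (((n : ℤ) + 1) * (((n : ℤ) + 2) ^ 2 *
      ((n + 2).choose k : ℤ) ^ 3
      - (7 * (n : ℤ) ^ 2 + 21 * n + 16) * ((n + 1).choose k : ℤ) ^ 3)
      - 8 * (((n : ℤ) + 1) * (n.choose k : ℤ)) ^ 3) = 0 := by
    rw [Finset.sum_congr rfl (fun k hk => step n k (by have := Finset.mem_range.mp hk; omega)),
      Finset.sum_range_sub]
    simp [g]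
  have f2 : (fr (n + 2) : ℤ) = ∑ k ∈ Finset.range (n + 3), ((n + 2).choose k : ℤ) ^ 3 := by
    simp [fr]
  have f1 : (fr (n + 1) : ℤ) = ∑ k ∈ Finset.range (n + 3), ((n + 1).choose k : ℤ) ^ 3 := by
    rw [Finset.sum_range_succ _ (n + 2)]
    simp [fr]
  have f0 : (fr n : ℤ) = ∑ k ∈ Finset.range (n + 3), (n.choose k : ℤ) ^ 3 := by
    rw [Finset.sum_range_succ _ (n + 2), Finset.sum_range_succ _ (n + 1)]
    simp [fr, Nat.choose_eq_zero_of_lt (by omega : n < n + 2)]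
  have hne : (n : ℤ) + 1 ≠ 0 := by positivity
  apply mul_left_cancel₀ hne
  have hs2 : ((n : ℤ) + 1) * (((n : ℤ) + 2) ^ 2 * fr (n + 2)
      - (7 * (n : ℤ) ^ 2 + 21 * n + 16) * fr (n + 1)) - 8 * ((n : ℤ) + 1) ^ 3 * fr n = 0 := by
    rw [f2, f1, f0, ← hs, Finset.mul_sum, Finset.mul_sum, ← Finset.sum_sub_distrib, Finset.mul_sum,
      Finset.mul_sum, ← Finset.sum_sub_distrib]
    apply Finset.sum_congr rfl
    intro k _
    ring
  linear_combination hs2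

theorem aa_zero : aa 0 = 1 := by simp [aa, fr]

theorem aa_one : aa 1 = 4 := by
  simp [aa, fr, Finset.sum_range_succ]

theorem aa_rec (n : ℕ) : ((n : ℤ) + 2) ^ 3 * aa (n + 2) =
    2 * (2 * (n : ℤ) + 3) * (7 * (n : ℤ) ^ 2 + 21 * n + 16) * aa (n + 1)
      + 32 * ((n : ℤ) + 1) * (2 * n + 1) * (2 * n + 3) * aa n := by
  have h1 := Nat.succ_mul_centralBinom_succ (n + 1)
  have h2 := Nat.succ_mul_centralBinom_succ n
  have h3 := fr_rec n
  have k1 : ((n : ℤ) + 2) * (Nat.centralBinom (n + 2) : ℤ)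
      = 2 * (2 * n + 3) * (Nat.centralBinom (n + 1) : ℤ) := by
    have := congrArg (fun t : ℕ => (t : ℤ)) h1
    push_cast at this
    linear_combination this
  have k2 : ((n : ℤ) + 1) * (Nat.centralBinom (n + 1) : ℤ)
      = 2 * (2 * n + 1) * (Nat.centralBinom n : ℤ) := by
    have := congrArg (fun t : ℕ => (t : ℤ)) h2
    push_cast at this
    linear_combination this
  simp only [aa, ← Nat.centralBinom_eq_two_mul_choose]
  push_cast
  linear_combination ((n : ℤ) + 2) ^ 2 * (fr (n + 2) : ℤ) * k1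
    + 2 * (2 * (n : ℤ) + 3) * (Nat.centralBinom (n + 1) : ℤ) * h3
    + 2 * (2 * (n : ℤ) + 3) * 8 * ((n : ℤ) + 1) * (fr n : ℤ) * k2

theorem aa_dvd {p : ℕ} (hp : p.Prime) (h3 : 3 < p) : (p : ℤ) ∣ aa (p - 1) := by
  have h : p ∣ (2 * (p - 1)).choose (p - 1) := by
    have := Nat.Prime.dvd_choose_add (p := p) (a := p - 1) (b := p - 1) hp (by omega) (by omega)
      (by omega)
    rwa [← two_mul] at this
  have : p ∣ aa (p - 1) := Dvd.dvd.mul_right h _
  exact_mod_cast this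

end Pool.Agent.Lib.Z32
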