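import Pool.Agent.Lib.MP_ad286f_nt.HIx

/-!
# Module HAct (about 230 lines): the action of the Atkin-Lehner matrices on the Hecke family

`mob A B C D` is the right action of `(A, B; C, D)` on row vectors `(1, j)` (index `some j`) and `(0, 1)` (index
`none`): `(1, j) N = (A + j C, B + j D)`, `(0, 1) N = (C, D)`.

`mob_inj`: if `mob M1 = mob M2 = M'` then `v_{M1} N` and `v_{M2} N` are multiples of the same vector `v_{M'}`, `N` invertible
(determinant not 0), so `v_{M1}`, `v_{M2}` are proportional, `M1 = M2`. By cases (four cases, `field_simp`,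
`linear_combination`).

`FM_AL`. `N = (e a, b; 6 c, e d)`.
* `M = none`: `FM none (N t) = l^2 F(X t)`, `X = (e (l a), l b; 6 c, e d)`, `e (l a) d - e' (l b) c = l`; `Ix_eval` with the index
  `mob .. none`: `Ix` holds: the first row is 0 mod `l`; if `6 c = 0` it is `none`, else `some (e d/(6 c))`.
* `M = some j`, `k = j.val`: `(N t + k)/l = X t`, `X = (e (a + e' c k), b + e d k; 6 (l c), e (l d))`, determinant condition
  `e (a + e' c k) l d - e' (b + e d k) l c = l`, factor `6 l c t + e l d = l (6 c t + e d)`; `Ix_eval` (divide by `l^2`), the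
  second row is 0 mod `l`.

`fam_AL`: `fam_eq`, `Finset.univ` is preserved by the bijection `mob` (`Finite.injective_iff_bijective`,
`Multiset.map_univ_comp_equiv` or `Finset.map_univ_equiv`).
-/

namespace Pool.Agent.Lib.Z32

open Complex

open Classical in
/-- The right action on the projective line. -/
noncomputable def mob {K : Type} [Field K] (A B C D : K) : Option K → Option K
  | none => if C = 0 then none else some (D / C)
  | some j => if A + j * C = 0 then none else some ((B + j * D) / (A + j * C))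

theorem mob_inj {K : Type} [Field K] {A B C D : K} (h : A * D - B * C ≠ 0) :
    Function.Injective (mob A B C D) := by
  intro M1 M2 hM
  cases M1 with
  | none =>
    cases M2 with
    | none => rfl
    | some j =>
      exfalso
      simp only [mob] at hM
      by_cases hC : C = 0
      · rw [if_pos hC] at hM
        by_cases h1 : A + j * C = 0
        · rw [hC, mul_zero, add_zero] at h1
          exact h (by rw [h1, hC]; ring)
        · rw [if_neg h1] at hM
          cases hM
      · rw [if_neg hC] at hM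
        by_cases h1 : A + j * C = 0
        · rw [if_pos h1] at hM
          cases hM
        · rw [if_neg h1, Option.some_inj, div_eq_div_iff hC h1] at hM
          exact h (by linear_combination hM)
  | some i =>
    cases M2 with
    | none =>
      exfalso
      simp only [mob] at hM
      by_cases hC : C = 0
      · rw [if_pos hC] at hM
        by_cases h1 : A + i * C = 0
        · rw [hC, mul_zero, add_zero] at h1
          exact h (by rw [h1, hC]; ring)
        · rw [if_neg h1] at hM
          cases hM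
      · rw [if_neg hC] at hM
        by_cases h1 : A + i * C = 0
        · rw [if_pos h1] at hM
          cases hM
        · rw [if_neg h1, Option.some_inj, div_eq_div_iff h1 hC] at hM
          exact h (by linear_combination -hM)
    | some j =>
      simp only [mob] at hM
      by_cases h1 : A + i * C = 0
      · rw [if_pos h1] at hM
        by_cases h2 : A + j * C = 0
        · have h3 : (i - j) * C = 0 := by linear_combination h1 - h2
          rcases mul_eq_zero.mp h3 with h4 | h4
          · rw [sub_eq_zero.mp h4]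
          · exfalso
            rw [h4, mul_zero, add_zero] at h1
            exact h (by rw [h1, h4]; ring)
        · rw [if_neg h2] at hM
          cases hM
      · rw [if_neg h1] at hM
        by_cases h2 : A + j * C = 0
        · rw [if_pos h2] at hM
          cases hM
        · rw [if_neg h2, Option.some_inj, div_eq_div_iff h1 h2] at hM
          have h3 : (i - j) * (A * D - B * C) = 0 := by linear_combination hM
          rw [sub_eq_zero.mp ((mul_eq_zero.mp h3).resolve_right h)]

theorem FM_AL {l : ℕ} [Fact l.Prime] (hl : 3 < l) {e e' : ℕ} (he : e * e' = 6) {a b c d : ℤ}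
    (h : (e : ℤ) * a * d - e' * b * c = 1) (M : Option (ZMod l)) {τ : ℂ} (hτ : 0 < τ.im) :
    e * FM l M ((e * a * τ + b) / (6 * c * τ + e * d)) =
      eps e * (6 * c * τ + e * d) ^ 2 * FM l (mob (((e * a : ℤ) : ZMod l)) (b : ZMod l)
        ((6 * c : ℤ) : ZMod l) ((e * d : ℤ) : ZMod l) M) τ := by
  have hlp : l.Prime := Fact.out
  have hl0 : (l : ℂ) ≠ 0 := by exact_mod_cast hlp.ne_zero
  have hne : NeZero l := ⟨hlp.ne_zero⟩
  have he6C : (e : ℂ) * e' = 6 := by exact_mod_cast he
  have he6Z : (e : ZMod l) * e' = 6 := by exact_mod_cast congrArg (Nat.cast : ℕ → ZMod l) he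
  have hj := (AL_im he one_pos (by simpa using h) hτ (a := a) (b := b) (c := c) (d := d)).1
  cases M with
  | none =>
    have hdet : (e : ℤ) * (l * a) * d - e' * (l * b) * c = l := by linear_combination (l : ℤ) * h
    have hIx : Ix l (mob (((e * a : ℤ) : ZMod l)) (b : ZMod l) ((6 * c : ℤ) : ZMod l)
        ((e * d : ℤ) : ZMod l) none) (e * (l * a)) (l * b) (6 * c) (e * d) := by
      simp only [mob]
      by_cases hC : ((6 * c : ℤ) : ZMod l) = 0
      · rw [if_pos hC]
        refine ⟨?_, hC⟩
        push_cast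
        rw [ZMod.natCast_self]
        ring
      · rw [if_neg hC]
        refine ⟨?_, ?_⟩
        · push_cast
          rw [ZMod.natCast_self]
          ring
        · field_simp
    have h1 := Ix_eval hl he hdet hIx hτ
    have h2 : (l : ℂ) * ((e * a * τ + b) / (6 * c * τ + e * d)) =
        (e * ((l * a : ℤ) : ℂ) * τ + ((l * b : ℤ) : ℂ)) / (6 * c * τ + e * d) := by
      push_cast
      rw [mul_div_assoc']
      congr 1
      ring
    rw [← h1, ← h2]
    simp only [FM]
    ring
  | some j =>
    have hk : ((j.val : ℤ) : ZMod l) = j := by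
      push_cast
      exact ZMod.natCast_zmod_val j
    have hdet : (e : ℤ) * (a + e' * c * j.val) * (l * d) - e' * (b + e * d * j.val) * (l * c) = l := by
      linear_combination (l : ℤ) * h
    have hA : ((e * (a + e' * c * (j.val : ℤ)) : ℤ) : ZMod l) =
        ((e * a : ℤ) : ZMod l) + j * ((6 * c : ℤ) : ZMod l) := by
      have h1 : ((e * (a + e' * c * (j.val : ℤ)) : ℤ) : ZMod l) =
          (e : ZMod l) * (a + e' * c * ((j.val : ℤ) : ZMod l)) := by push_cast; ring
      rw [h1, hk]
      push_cast
      linear_combination (c * j) * he6Z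
    have hB : ((b + e * d * (j.val : ℤ) : ℤ) : ZMod l) =
        (b : ZMod l) + j * ((e * d : ℤ) : ZMod l) := by
      have h1 : ((b + e * d * (j.val : ℤ) : ℤ) : ZMod l) =
          (b : ZMod l) + e * d * ((j.val : ℤ) : ZMod l) := by push_cast; ring
      rw [h1, hk]
      push_cast
      ring
    have hC0 : ((6 * (l * c) : ℤ) : ZMod l) = 0 := by
      push_cast
      rw [ZMod.natCast_self]
      ring
    have hD0 : ((e * (l * d) : ℤ) : ZMod l) = 0 := by
      push_cast
      rw [ZMod.natCast_self]
      ring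
    have hIx : Ix l (mob (((e * a : ℤ) : ZMod l)) (b : ZMod l) ((6 * c : ℤ) : ZMod l)
        ((e * d : ℤ) : ZMod l) (some j)) (e * (a + e' * c * j.val)) (b + e * d * j.val)
        (6 * (l * c)) (e * (l * d)) := by
      simp only [mob]
      by_cases h1 : ((e * a : ℤ) : ZMod l) + j * ((6 * c : ℤ) : ZMod l) = 0
      · rw [if_pos h1]
        exact ⟨by rw [hA, h1], hC0⟩
      · rw [if_neg h1]
        refine ⟨?_, ?_⟩
        · rw [hA, hB, mul_div_cancel₀ _ h1]
        · rw [hC0, hD0, zero_mul]
    have h1 := Ix_eval hl he hdet hIx hτ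
    have h2 : ((e * a * τ + b) / (6 * c * τ + e * d) + (j.val : ℂ)) / (l : ℂ) =
        (e * ((a + e' * c * j.val : ℤ) : ℂ) * τ + ((b + e * d * j.val : ℤ) : ℂ)) /
          (6 * ((l * c : ℤ) : ℂ) * τ + e * ((l * d : ℤ) : ℂ)) := by
      have h3 : (6 * ((l * c : ℤ) : ℂ) * τ + e * ((l * d : ℤ) : ℂ)) = (6 * c * τ + e * d) * l := by
        push_cast
        ring
      rw [h3, div_add' _ _ _ hj, div_div]
      congr 1
      push_cast
      linear_combination (-(c * (j.val : ℂ) * τ)) * he6C
    have hl2 : (l : ℂ) ^ 2 ≠ 0 := pow_ne_zero 2 hl0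
    apply mul_left_cancel₀ hl2
    have h4 : FM l (some j) ((e * a * τ + b) / (6 * c * τ + e * d)) =
        FF (((e * a * τ + b) / (6 * c * τ + e * d) + (j.val : ℂ)) / (l : ℂ)) := rfl
    rw [h4, h2]
    push_cast at h1 ⊢
    linear_combination h1

theorem fam_AL {l : ℕ} [Fact l.Prime] (hl : 3 < l) {e e' : ℕ} (he : e * e' = 6) {a b c d : ℤ}
    (h : (e : ℤ) * a * d - e' * b * c = 1) {τ : ℂ} (hτ : 0 < τ.im) :
    fam l ((e * a * τ + b) / (6 * c * τ + e * d)) =
      (fam l τ).map (fun x => eps e / e * (6 * c * τ + e * d) ^ 2 * x) := by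
  have hlp : l.Prime := Fact.out
  have hne : NeZero l := ⟨hlp.ne_zero⟩
  have he0 : (e : ℂ) ≠ 0 := by
    intro h0
    have h1 : e = 0 := by exact_mod_cast h0
    simp [h1] at he
  have heZ : (e : ZMod l) ≠ 0 := by
    intro h0
    rw [ZMod.natCast_eq_zero_iff] at h0
    have h1 : l ∣ 6 := h0.trans ⟨e', he.symm⟩
    have h2 : l ≤ 6 := Nat.le_of_dvd (by norm_num) h1
    interval_cases l
    · omega
    · omega
    · exact absurd hlp (by norm_num)
  have he6Z : (e : ZMod l) * e' = 6 := by exact_mod_cast congrArg (Nat.cast : ℕ → ZMod l) he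
  have hZ : (e : ZMod l) * a * d - e' * b * c = 1 := by
    exact_mod_cast congrArg (Int.cast : ℤ → ZMod l) h
  have hdet : ((e * a : ℤ) : ZMod l) * ((e * d : ℤ) : ZMod l) -
      (b : ZMod l) * ((6 * c : ℤ) : ZMod l) ≠ 0 := by
    have h1 : ((e * a : ℤ) : ZMod l) * ((e * d : ℤ) : ZMod l) -
      (b : ZMod l) * ((6 * c : ℤ) : ZMod l) = e := by
      push_cast
      linear_combination (e : ZMod l) * hZ + (b * c : ZMod l) * he6Z
    rw [h1]
    exact heZ
  have hbij : Function.Bijective (mob ((e * a : ℤ) : ZMod l) (b : ZMod l) ((6 * c : ℤ) : ZMod l)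
      ((e * d : ℤ) : ZMod l)) :=
    (Finite.injective_iff_bijective).mp (mob_inj hdet)
  rw [fam_eq, fam_eq, Multiset.map_map]
  have h1 : (Finset.univ : Finset (Option (ZMod l))).val =
      (Finset.univ : Finset (Option (ZMod l))).val.map (mob ((e * a : ℤ) : ZMod l) (b : ZMod l)
        ((6 * c : ℤ) : ZMod l) ((e * d : ℤ) : ZMod l)) :=
    (Multiset.map_univ_val_equiv (Equiv.ofBijective _ hbij)).symm
  conv_rhs => rw [h1, Multiset.map_map]
  refine Multiset.map_congr rfl fun M _ => ?_
  have h2 := FM_AL hl he h M hτ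
  simp only [Function.comp_apply]
  apply mul_left_cancel₀ he0
  rw [h2]
  field_simp

theorem fam_W6 {l : ℕ} [Fact l.Prime] (hl : 3 < l) {τ : ℂ} (hτ : 0 < τ.im) :
    fam l (W6 τ) = (fam l τ).map (fun x => J6 τ * x) := by
  have h1 := fam_AL hl (e := 6) (e' := 1) (by norm_num) (a := 0) (b := -1) (c := 1) (d := 0)
    (by norm_num) hτ
  have h2 : (((6 : ℕ) : ℂ) * ((0 : ℤ) : ℂ) * τ + ((-1 : ℤ) : ℂ)) /
      (6 * ((1 : ℤ) : ℂ) * τ + ((6 : ℕ) : ℂ) * ((0 : ℤ) : ℂ)) = W6 τ := by
    unfold W6
    push_cast
    ring_nf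
  rw [h2] at h1
  rw [h1]
  refine Multiset.map_congr rfl fun x _ => ?_
  have h3 : eps 6 = -1 := by simp [eps]
  rw [h3]
  unfold J6
  push_cast
  ring

theorem fam_W3 {l : ℕ} [Fact l.Prime] (hl : 3 < l) {τ : ℂ} (hτ : 0 < τ.im) :
    fam l (W3 τ) = (fam l τ).map (fun x => J3 τ * x) := by
  have h1 := fam_AL hl (e := 3) (e' := 2) (by norm_num) (a := 1) (b := -2) (c := 1) (d := -1)
    (by norm_num) hτ
  have h2 : (((3 : ℕ) : ℂ) * ((1 : ℤ) : ℂ) * τ + ((-2 : ℤ) : ℂ)) /
      (6 * ((1 : ℤ) : ℂ) * τ + ((3 : ℕ) : ℂ) * ((-1 : ℤ) : ℂ)) = W3 τ := by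
    unfold W3
    push_cast
    ring_nf
  rw [h2] at h1
  rw [h1]
  refine Multiset.map_congr rfl fun x _ => ?_
  have h3 : eps 3 = -1 := by simp [eps]
  rw [h3]
  unfold J3
  push_cast
  ring

end Pool.Agent.Lib.Z32
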