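import Pool.Agent.Lib.MP_ad286f_nt.Defs

/-!
# Module NormA (about 250 lines): the norm of a power series, formally

`R = Z[[q]]`, `S = Z[[t]]` with `t^l = q` is free over `R` with basis `1, t, .., t^(l-1)`; `mA A` is the
matrix of multiplication by `A(t)`: the column `j` is `t^j A(t) = sum_i t^i (mA)_(ij)(q)`, i.e.
`coeff m (mA i j) = a_(i + l m - j)` (0 if `i + l m < j`).
(1) `mA (A * B) = mA A * mA B`, `mA 1 = 1`, additive: comparison of coefficients (or: `mA A` is
determined by `phi (sum_i t^i c_i(q))`). It is used only for the powers `A^l`.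
(2) modulo `l` (prime): `A^l = A(t^l)` in `F_l[[t]]`, so `(mA A)^l = mA (A^l) = A(q) * 1`; in a commutative
ring of characteristic `l`: `charpoly(M)(X)^l = det (X - M)^l = det (X^l - M^l) = (X^l - A(q))^l`
(`sub_pow_char` in the commutative subring generated by `M`; `X - M` as a matrix over `F_l[[q]][X]`), and
`F_l[[q]][X]` is a domain of characteristic `l`, so `charpoly M = X^l - A(q)`.
Conclusion: the coefficient of `X^(l-k)` is `0` mod `l` for `0 < k < l`, the constant coefficient is `-A(q)`.
-/

namespace Pool.Agent.Lib.Z32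

/-- The matrix of multiplication by `A(t)` on `R[[t]]` over `R[[q]]`, `q = t^l`. -/
noncomputable def mA {R : Type*} [CommRing R] (l : ℕ) (A : PowerSeries R) :
    Matrix (Fin l) (Fin l) (PowerSeries R) :=
  fun i j => PowerSeries.mk (fun m => if (j : ℕ) ≤ i + l * m then
    PowerSeries.coeff (i + l * m - j) A else 0)

/-- The elementary symmetric functions of the conjugates. -/
noncomputable def eN (l : ℕ) (A : PowerSeries ℤ) (k : ℕ) : PowerSeries ℤ :=
  (-1) ^ k * ((mA l A).charpoly).coeff (l - k)

section psi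

variable {R : Type*} [CommRing R]

private noncomputable def psi (l i : ℕ) (f : PowerSeries R) : PowerSeries R :=
  PowerSeries.mk (fun m => PowerSeries.coeff (i + l * m) f)

private theorem psi_mul_expand {l : ℕ} (hl : l ≠ 0) {i : ℕ} (hi : i < l) (f c : PowerSeries R) :
    psi l i (f * PowerSeries.expand l hl c) = psi l i f * c := by
  ext m
  unfold psi
  rw [PowerSeries.coeff_mk, PowerSeries.coeff_mul, PowerSeries.coeff_mul]
  symm
  refine Finset.sum_of_injOn (fun x : ℕ × ℕ => (i + l * x.1, l * x.2)) ?_ ?_ ?_ ?_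
  · rintro ⟨a, b⟩ _ ⟨a', b'⟩ _ h
    simp only [Prod.mk.injEq] at h
    have h1 : l * a = l * a' := by omega
    have h2 := h.2
    have hl' : 0 < l := Nat.pos_of_ne_zero hl
    rw [Nat.eq_of_mul_eq_mul_left hl' h1, Nat.eq_of_mul_eq_mul_left hl' h2]
  · rintro ⟨a, b⟩ h
    simp only [Finset.mem_coe, Finset.HasAntidiagonal.mem_antidiagonal] at h ⊢
    rw [← h]
    ring
  · rintro ⟨u, v⟩ h hn
    simp only [Finset.HasAntidiagonal.mem_antidiagonal] at h
    by_cases hd : l ∣ v
    · exfalso
      apply hn
      obtain ⟨b, rfl⟩ := hd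
      have hb : b ≤ m := by
        by_contra hcon
        have : l * (m + 1) ≤ l * b := Nat.mul_le_mul_left l (by omega)
        rw [Nat.mul_add, Nat.mul_one] at this
        omega
      refine ⟨(m - b, b), ?_, ?_⟩
      · simp only [Finset.mem_coe, Finset.HasAntidiagonal.mem_antidiagonal]
        omega
      · simp only [Prod.mk.injEq, and_true]
        have : l * m = l * (m - b) + l * b := by
          rw [← Nat.mul_add]
          congr 1
          omega
        omega
    · show PowerSeries.coeff u f * PowerSeries.coeff v (PowerSeries.expand l hl c) = 0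
      rw [PowerSeries.coeff_expand_of_not_dvd l hl c hd, mul_zero]
  · rintro ⟨a, b⟩ _
    show PowerSeries.coeff a _ * PowerSeries.coeff b c
      = PowerSeries.coeff (i + l * a) f * PowerSeries.coeff (l * b) (PowerSeries.expand l hl c)
    rw [PowerSeries.coeff_mk, PowerSeries.coeff_expand_mul]

private theorem psi_sum {ι : Type*} (s : Finset ι) (l i : ℕ) (f : ι → PowerSeries R) :
    psi l i (∑ x ∈ s, f x) = ∑ x ∈ s, psi l i (f x) := by
  ext m
  unfold psi
  rw [PowerSeries.coeff_mk, map_sum, map_sum]
  refine Finset.sum_congr rfl fun x _ => ?_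
  rw [PowerSeries.coeff_mk]

private theorem psi_decomp {l : ℕ} (hl : l ≠ 0) (f : PowerSeries R) :
    ∑ k : Fin l, PowerSeries.X ^ (k : ℕ) * PowerSeries.expand l hl (psi l k f) = f := by
  ext n
  rw [map_sum]
  have hl' : 0 < l := Nat.pos_of_ne_zero hl
  rw [Finset.sum_eq_single (⟨n % l, Nat.mod_lt n hl'⟩ : Fin l)]
  · rw [PowerSeries.coeff_X_pow_mul', if_pos (Nat.mod_le n l)]
    have e : n - n % l = l * (n / l) := by
      have := Nat.mod_add_div n l
      omega
    simp only
    rw [e, PowerSeries.coeff_expand_mul]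
    unfold psi
    rw [PowerSeries.coeff_mk, Nat.mod_add_div]
  · intro k _ hk
    rw [PowerSeries.coeff_X_pow_mul']
    split_ifs with hkn
    · apply PowerSeries.coeff_expand_of_not_dvd
      intro hd
      apply hk
      apply Fin.ext
      show (k : ℕ) = n % l
      obtain ⟨b, hb⟩ := hd
      have hn : n = k + l * b := by omega
      rw [hn, Nat.add_mul_mod_self_left, Nat.mod_eq_of_lt k.isLt]
    · rfl
  · intro h
    exact absurd (Finset.mem_univ _) h

private theorem mA_eq (l : ℕ) (A : PowerSeries R) (i j : Fin l) :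
    mA l A i j = psi l i (A * PowerSeries.X ^ (j : ℕ)) := by
  ext m
  unfold mA psi
  rw [PowerSeries.coeff_mk, PowerSeries.coeff_mk, PowerSeries.coeff_mul_X_pow']

private theorem mA_mul {l : ℕ} (hl : l ≠ 0) (A B : PowerSeries R) :
    mA l (A * B) = mA l A * mA l B := by
  ext1 i j
  rw [Matrix.mul_apply, mA_eq]
  have h : ∀ k : Fin l, mA l A i k * mA l B k j
      = psi l i (A * (PowerSeries.X ^ (k : ℕ) * PowerSeries.expand l hl (psi l k (B * PowerSeries.X ^ (j : ℕ))))) := by
    intro k
    rw [mA_eq, mA_eq, ← mul_assoc, psi_mul_expand hl i.isLt]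
  rw [Finset.sum_congr rfl (fun k _ => h k), ← psi_sum, ← Finset.mul_sum, psi_decomp hl, mul_assoc]

private theorem psi_X_pow {l : ℕ} (i j : Fin l) :
    psi l i ((PowerSeries.X : PowerSeries R) ^ (j : ℕ)) = if i = j then 1 else 0 := by
  ext m
  unfold psi
  rw [PowerSeries.coeff_mk, PowerSeries.coeff_X_pow]
  by_cases hij : i = j
  · subst hij
    rw [if_pos rfl, PowerSeries.coeff_one]
    have hi := i.isLt
    by_cases hm : m = 0
    · subst hm
      simp
    · rw [if_neg hm, if_neg]
      intro hcon
      have : l * m = 0 := by omega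
      rcases Nat.mul_eq_zero.mp this with h | h
      · omega
      · exact hm h
  · rw [if_neg hij, map_zero, if_neg]
    intro hcon
    have hj := j.isLt
    have hm : m = 0 := by
      by_contra hm
      have : l * 1 ≤ l * m := Nat.mul_le_mul_left l (by omega)
      omega
    subst hm
    apply hij
    apply Fin.ext
    omega

private theorem mA_one {l : ℕ} : mA l (1 : PowerSeries R) = 1 := by
  ext1 i j
  rw [mA_eq, one_mul, psi_X_pow, Matrix.one_apply]

private theorem mA_pow {l : ℕ} (hl : l ≠ 0) (A : PowerSeries R) (n : ℕ) :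
    mA l (A ^ n) = mA l A ^ n := by
  induction n with
  | zero => rw [pow_zero, pow_zero, mA_one]
  | succ n ih => rw [pow_succ, pow_succ, mA_mul hl, ih]

private theorem mA_expand {l : ℕ} (hl : l ≠ 0) (A : PowerSeries R) :
    mA l (PowerSeries.expand l hl A) = Matrix.scalar (Fin l) A := by
  ext1 i j
  rw [mA_eq, mul_comm, psi_mul_expand hl i.isLt, psi_X_pow, Matrix.scalar_apply, Matrix.diagonal_apply]
  split_ifs <;> simp

private theorem mA_map {S : Type*} [CommRing S] (φ : R →+* S) (l : ℕ) (A : PowerSeries R) :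
    (mA l A).map (PowerSeries.map φ) = mA l (PowerSeries.map φ A) := by
  ext1 i j
  rw [Matrix.map_apply]
  ext m
  unfold mA
  rw [PowerSeries.coeff_map, PowerSeries.coeff_mk, PowerSeries.coeff_mk, PowerSeries.coeff_map]
  split_ifs
  · rfl
  · exact map_zero φ

end psi

private theorem charpoly_of_pow {K : Type*} [CommRing K] [IsDomain K] {l : ℕ} [Fact l.Prime]
    [CharP K l] (M : Matrix (Fin l) (Fin l) K) (a : K) (h : M ^ l = Matrix.scalar (Fin l) a) :
    M.charpoly = Polynomial.X ^ l - Polynomial.C a := by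
  have : Nonempty (Fin l) := ⟨⟨0, (Fact.out : l.Prime).pos⟩⟩
  apply frobenius_inj (Polynomial K) l
  rw [frobenius_def, frobenius_def]
  unfold Matrix.charpoly
  rw [← Matrix.det_pow]
  unfold Matrix.charmatrix
  have hc : Commute (Matrix.scalar (Fin l) (Polynomial.X : Polynomial K))
      ((Polynomial.C : K →+* Polynomial K).mapMatrix M) := by
    apply Matrix.scalar_commute
    intro r
    exact Commute.all _ _
  rw [sub_pow_char_of_commute _ hc, ← map_pow, ← map_pow, h]
  have e : (Polynomial.C : K →+* Polynomial K).mapMatrix (Matrix.scalar (Fin l) a)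
      = Matrix.scalar (Fin l) (Polynomial.C a) := by
    ext1 i j
    rw [RingHom.mapMatrix_apply, Matrix.map_apply, Matrix.scalar_apply, Matrix.scalar_apply,
      Matrix.diagonal_apply, Matrix.diagonal_apply]
    split_ifs
    · rfl
    · exact map_zero _
  rw [e, ← map_sub, Matrix.scalar_apply, Matrix.det_diagonal]
  simp

private theorem charpoly_mod {l : ℕ} (hl : l.Prime) (A : PowerSeries ℤ) :
    ((mA l A).charpoly).map (PowerSeries.map (Int.castRingHom (ZMod l)))
      = Polynomial.X ^ l - Polynomial.C (PowerSeries.map (Int.castRingHom (ZMod l)) A) := by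
  have : Fact l.Prime := ⟨hl⟩
  rw [← Matrix.charpoly_map, mA_map]
  have : CharP (PowerSeries (ZMod l)) l :=
    charP_of_injective_ringHom (f := (PowerSeries.C : ZMod l →+* PowerSeries (ZMod l)))
      PowerSeries.C_injective l
  apply charpoly_of_pow
  rw [← mA_pow hl.ne_zero, ← mA_expand hl.ne_zero]
  congr 1
  have h := MvPowerSeries.map_frobenius_expand (R := ZMod l) (σ := Unit) l hl.ne_zero
    (f := PowerSeries.map (Int.castRingHom (ZMod l)) A)
  rw [← h, ZMod.frobenius_zmod, MvPowerSeries.map_id]
  rfl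

private theorem dvd_of_map {l : ℕ} (B : PowerSeries ℤ)
    (h : PowerSeries.map (Int.castRingHom (ZMod l)) B = 0) (n : ℕ) :
    (l : ℤ) ∣ PowerSeries.coeff n B := by
  have := congrArg (PowerSeries.coeff n) h
  rw [PowerSeries.coeff_map, map_zero, eq_intCast] at this
  exact (ZMod.intCast_zmod_eq_zero_iff_dvd _ _).mp this

theorem eN_mid {l : ℕ} (hl : l.Prime) (A : PowerSeries ℤ) {k : ℕ} (h0 : 0 < k) (h1 : k < l) (n : ℕ) :
    (l : ℤ) ∣ PowerSeries.coeff n (eN l A k) := by
  apply dvd_of_map
  unfold eN
  rw [map_mul, ← Polynomial.coeff_map, charpoly_mod hl, Polynomial.coeff_sub, Polynomial.coeff_X_pow,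
    Polynomial.coeff_C, if_neg (by omega), if_neg (by omega), sub_zero, mul_zero]

theorem eN_top {l : ℕ} (hl : l.Prime) (h2 : l ≠ 2) (A : PowerSeries ℤ) (n : ℕ) :
    (l : ℤ) ∣ PowerSeries.coeff n (eN l A l - A) := by
  apply dvd_of_map
  unfold eN
  have hodd : Odd l := hl.odd_of_ne_two h2
  rw [map_sub, map_mul, ← Polynomial.coeff_map, charpoly_mod hl, Nat.sub_self, hodd.neg_one_pow,
    Polynomial.coeff_sub, Polynomial.coeff_X_pow, Polynomial.coeff_C, if_neg hl.ne_zero.symm,
    if_pos rfl, map_neg, map_one]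
  ring

end Pool.Agent.Lib.Z32
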