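import Pool.Agent.Lib.MP_ad286f_nt.QAlg
import Pool.Agent.Lib.MP_ad286f_nt.NormA

/-!
# Module NormB (about 250 lines): the analytic evaluation of the norm

Fix `tau`, `q = qm tau`, `s_j = qm ((tau + j)/l)`, `j < l`: these are `l` different numbers with
`s_j^l = q`. Let `M` be the complex matrix `M i j = sum_m coeff m (mA i j) q^m` (all these series converge
absolutely; the entries of `mA l A` are `q`-expansions of functions: subseries of `A` at `s`, `|s|<1`).
The row vector `(1, s, .., s^(l-1))` satisfies `row * M = A(s) row`, `A(s_j) = f((tau+j)/l)`; the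
Vandermonde matrix of `s_0..s_(l-1)` is invertible, so `charpoly M = prod_j (X - f((tau+j)/l))`
(`Matrix.charpoly` is invariant under conjugation: `V M = diag V`).
The coefficients of the characteristic polynomial are polynomials in the entries, so `QE.add`, `QE.mul`
give that `coeff k charpoly` has the `q`-expansion `coeff k (charpoly (mA l A))`. [Clean way: the set of
power series in `C[[X]]` which are `q`-expansions is a subring `QS` and evaluation at `tau` is a ring
homomorphism `QS -> C`; apply `Matrix.charpoly_map` (or `Polynomial.map`) to the matrix over `QS`.]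
`Multiset.esymm` versus the coefficients: `Multiset.prod_X_sub_C_coeff` (Vieta).
-/

namespace Pool.Agent.Lib.Z32

open Complex

/-- The coefficients of the matrix entries. -/
private theorem normb_coeff {R : Type*} [CommRing R] (l : ℕ) (A : PowerSeries R) (i j : Fin l) (m : ℕ) :
    PowerSeries.coeff m (mA l A i j)
      = PowerSeries.coeff ((i : ℕ) + l * m) (A * PowerSeries.X ^ (j : ℕ)) := by
  unfold mA
  rw [PowerSeries.coeff_mk, PowerSeries.coeff_mul_X_pow']

private theorem normb_map {R S : Type*} [CommRing R] [CommRing S] (φ : R →+* S) (l : ℕ)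
    (A : PowerSeries R) : (mA l A).map (PowerSeries.map φ) = mA l (PowerSeries.map φ A) := by
  ext1 i j
  rw [Matrix.map_apply]
  ext m
  unfold mA
  rw [PowerSeries.coeff_map, PowerSeries.coeff_mk, PowerSeries.coeff_mk, PowerSeries.coeff_map]
  split_ifs
  · rfl
  · exact map_zero φ

private theorem normb_qm_div {l : ℕ} (hl : l ≠ 0) (τ : ℂ) (j : ℕ) : qm ((τ + j) / l) ^ l = qm τ := by
  rw [← qm_mul]
  have hl' : (l : ℂ) ≠ 0 := by exact_mod_cast hl
  rw [mul_div_cancel₀ _ hl']
  unfold qm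
  rw [mul_add, Complex.exp_add]
  have : Complex.exp (2 * (Real.pi : ℂ) * I * (j : ℂ)) = 1 := by
    rw [Complex.exp_eq_one_iff]
    exact ⟨j, by push_cast; ring⟩
  rw [this, mul_one]

private theorem normb_im {l : ℕ} (hl : l ≠ 0) {τ : ℂ} (hτ : 0 < τ.im) (j : ℕ) :
    0 < ((τ + j) / l).im := by
  have hl' : (0 : ℝ) < l := by exact_mod_cast Nat.pos_of_ne_zero hl
  have : ((τ + j) / l).im = τ.im / l := by
    rw [Complex.div_natCast_im]
    simp
  rw [this]
  positivity

/-- Sections of a `q`-expansion: summability. -/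
private theorem normb_section {l : ℕ} (hl : l ≠ 0) {g : ℂ → ℂ} {B : PowerSeries ℂ} (hB : QE g B)
    {σ : ℂ} (hσ : 0 < σ.im) (i : ℕ) :
    Summable (fun m : ℕ => PowerSeries.coeff (i + l * m) B * (qm σ ^ l) ^ m) := by
  have h := (hB σ hσ).summable
  have hinj : Function.Injective (fun m : ℕ => i + l * m) := by
    intro a b hab
    simp only at hab
    have : l * a = l * b := by omega
    exact Nat.eq_of_mul_eq_mul_left (Nat.pos_of_ne_zero hl) this
  have h2 := h.comp_injective hinj
  have h3 := h2.mul_left ((qm σ ^ i)⁻¹)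
  refine h3.congr ?_
  intro m
  have hne : qm σ ^ i ≠ 0 := pow_ne_zero _ (qm_ne σ)
  simp only [Function.comp]
  rw [pow_add, pow_mul]
  field_simp

/-- Recombination of the sections. -/
private theorem normb_recomb {l : ℕ} (hl : l ≠ 0) {g : ℂ → ℂ} {B : PowerSeries ℂ} (hB : QE g B)
    {σ : ℂ} (hσ : 0 < σ.im) :
    ∑ i : Fin l, qm σ ^ (i : ℕ) * (∑' m : ℕ, PowerSeries.coeff ((i : ℕ) + l * m) B * (qm σ ^ l) ^ m)
      = g σ := by
  have hpart : ∀ i : Fin l, HasSum (fun n : ℕ => if n % l = i then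
      PowerSeries.coeff n B * qm σ ^ n else 0)
      (qm σ ^ (i : ℕ) * (∑' m : ℕ, PowerSeries.coeff ((i : ℕ) + l * m) B * (qm σ ^ l) ^ m)) := by
    intro i
    have h1 := (normb_section hl hB hσ (i : ℕ)).hasSum.mul_left (qm σ ^ (i : ℕ))
    have hinj : Function.Injective (fun m : ℕ => (i : ℕ) + l * m) := by
      intro a b hab
      simp only at hab
      have : l * a = l * b := by omega
      exact Nat.eq_of_mul_eq_mul_left (Nat.pos_of_ne_zero hl) this
    rw [← hinj.hasSum_iff]
    · refine h1.congr_fun ?_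
      intro m
      simp only [Function.comp]
      rw [Nat.add_mul_mod_self_left, Nat.mod_eq_of_lt i.isLt, if_pos rfl, pow_add, pow_mul]
      ring
    · intro n hn
      rw [if_neg]
      intro hcon
      apply hn
      refine ⟨n / l, ?_⟩
      simp only
      rw [← hcon, Nat.mod_add_div]
  have hsum := hasSum_sum (s := Finset.univ) (fun i _ => hpart i)
  have h2 := hB σ hσ
  refine hsum.unique (h2.congr_fun ?_)
  intro n
  have hlt : n % l < l := Nat.mod_lt n (Nat.pos_of_ne_zero hl)
  rw [Finset.sum_eq_single (⟨n % l, hlt⟩ : Fin l)]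
  · rw [if_pos rfl]
  · intro b _ hb
    rw [if_neg]
    intro hcon
    exact hb (Fin.ext hcon.symm)
  · intro h
    exact absurd (Finset.mem_univ _) h

/-- The ring of convergent power series. -/
private def normb_QS : Subring (PowerSeries ℂ) where
  carrier := {A | ∃ f, QE f A}
  mul_mem' := fun ⟨f, hf⟩ ⟨g, hg⟩ => ⟨_, hf.mul hg⟩
  one_mem' := ⟨fun _ => 1, by simpa using QE.const 1⟩
  add_mem' := fun ⟨f, hf⟩ ⟨g, hg⟩ => ⟨_, hf.add hg⟩
  zero_mem' := ⟨fun _ => 0, by simpa using QE.const 0⟩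
  neg_mem' := fun ⟨f, hf⟩ => ⟨_, hf.neg⟩

private theorem normb_tsum {f : ℂ → ℂ} {A : PowerSeries ℂ} (h : QE f A) {τ : ℂ} (hτ : 0 < τ.im) :
    ∑' n : ℕ, PowerSeries.coeff n A * qm τ ^ n = f τ := (h τ hτ).tsum_eq

/-- Evaluation at `τ`. -/
private noncomputable def normb_ev (τ : ℂ) (hτ : 0 < τ.im) : normb_QS →+* ℂ where
  toFun A := ∑' n : ℕ, PowerSeries.coeff n A.1 * qm τ ^ n
  map_one' := by
    have h : QE (fun _ => 1) (1 : PowerSeries ℂ) := by simpa using QE.const 1
    exact normb_tsum h hτ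
  map_zero' := by
    have h : QE (fun _ => 0) (0 : PowerSeries ℂ) := by simpa using QE.const 0
    exact normb_tsum h hτ
  map_mul' := by
    rintro ⟨A, f, hf⟩ ⟨B, g, hg⟩
    show ∑' n : ℕ, PowerSeries.coeff n (A * B) * qm τ ^ n = _
    rw [normb_tsum (hf.mul hg) hτ]
    show f τ * g τ = (∑' n : ℕ, PowerSeries.coeff n A * qm τ ^ n)
      * (∑' n : ℕ, PowerSeries.coeff n B * qm τ ^ n)
    rw [normb_tsum hf hτ, normb_tsum hg hτ]
  map_add' := by
    rintro ⟨A, f, hf⟩ ⟨B, g, hg⟩
    show ∑' n : ℕ, PowerSeries.coeff n (A + B) * qm τ ^ n = _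
    rw [normb_tsum (hf.add hg) hτ]
    show f τ + g τ = (∑' n : ℕ, PowerSeries.coeff n A * qm τ ^ n)
      + (∑' n : ℕ, PowerSeries.coeff n B * qm τ ^ n)
    rw [normb_tsum hf hτ, normb_tsum hg hτ]

private theorem normb_QE_of_mem {A : PowerSeries ℂ} (h : A ∈ normb_QS) {τ : ℂ} (hτ : 0 < τ.im) :
    HasSum (fun n : ℕ => PowerSeries.coeff n A * qm τ ^ n) (normb_ev τ hτ ⟨A, h⟩) := by
  obtain ⟨f, hf⟩ := id h
  have := hf τ hτ
  have h2 : normb_ev τ hτ ⟨A, h⟩ = f τ := normb_tsum hf hτ
  rw [h2]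
  exact this

private theorem normb_entry {l : ℕ} (hl : l ≠ 0) {g : ℂ → ℂ} {B : PowerSeries ℂ} (hB : QE g B)
    (i j : Fin l) : mA l B i j ∈ normb_QS := by
  refine ⟨fun τ => ∑' m : ℕ, PowerSeries.coeff m (mA l B i j) * qm τ ^ m, ?_⟩
  intro τ hτ
  have hl' : (l : ℂ) ≠ 0 := by exact_mod_cast hl
  have h := normb_section hl (hB.mul (QE.X.pow (j : ℕ))) (normb_im hl hτ 0) (i : ℕ)
  rw [normb_qm_div hl τ 0] at h
  have h2 : Summable (fun m : ℕ => PowerSeries.coeff m (mA l B i j) * qm τ ^ m) := by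
    refine h.congr ?_
    intro m
    rw [normb_coeff]
  exact h2.hasSum

private theorem normb_distinct {l : ℕ} (hl : l ≠ 0) (τ : ℂ) :
    Function.Injective (fun j : Fin l => qm ((τ + (j : ℕ)) / l)) := by
  intro a b hab
  simp only [qm] at hab
  rw [Complex.exp_eq_exp_iff_exists_int] at hab
  obtain ⟨n, hn⟩ := hab
  have hl' : (l : ℂ) ≠ 0 := by exact_mod_cast hl
  have hp : (2 * (Real.pi : ℂ) * I) ≠ 0 := by simp [Real.pi_ne_zero]
  have h1 : 2 * (Real.pi : ℂ) * I * ((τ + (a : ℕ)) / l) = 2 * (Real.pi : ℂ) * I * ((τ + (b : ℕ)) / l + n) := by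
    rw [hn]
    ring
  have h2 := mul_left_cancel₀ hp h1
  have h3 : ((a : ℕ) : ℂ) = (b : ℕ) + n * l := by
    field_simp at h2
    linear_combination h2
  have h4 : ((a : ℕ) : ℤ) = (b : ℕ) + n * l := by exact_mod_cast h3
  have ha := a.isLt
  have hb := b.isLt
  have h5 : n = 0 := by
    by_contra hn0
    rcases lt_or_gt_of_ne hn0 with h | h
    · have : n * (l : ℤ) ≤ -1 * l := by
        apply mul_le_mul_of_nonneg_right _ (by positivity)
        omega
      omega
    · have : 1 * (l : ℤ) ≤ n * l := by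
        apply mul_le_mul_of_nonneg_right _ (by positivity)
        omega
      omega
  subst h5
  apply Fin.ext
  have : ((a : ℕ) : ℤ) = (b : ℕ) := by linarith
  exact_mod_cast this

/-- The characteristic polynomial of the evaluated matrix. -/
private theorem normb_charpoly {l : ℕ} (hl : l ≠ 0) {f : ℂ → ℂ} {A : PowerSeries ℂ} (hA : QE f A)
    {τ : ℂ} (hτ : 0 < τ.im) (M : Matrix (Fin l) (Fin l) ℂ)
    (hM : ∀ i j, M i j = ∑' m : ℕ, PowerSeries.coeff m (mA l A i j) * qm τ ^ m) :
    M.charpoly = ∏ j : Fin l, (Polynomial.X - Polynomial.C (f ((τ + (j : ℕ)) / l))) := by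
  set v : Fin l → ℂ := fun j => qm ((τ + (j : ℕ)) / l) with hv
  have hdet : IsUnit (Matrix.vandermonde v).det := by
    rw [isUnit_iff_ne_zero, Matrix.det_vandermonde_ne_zero_iff]
    exact normb_distinct hl τ
  have hVM : Matrix.vandermonde v * M
      = Matrix.diagonal (fun j : Fin l => f ((τ + (j : ℕ)) / l)) * Matrix.vandermonde v := by
    ext1 a j
    rw [Matrix.mul_apply, Matrix.diagonal_mul, Matrix.vandermonde_apply]
    have h := normb_recomb hl (hA.mul (QE.X.pow (j : ℕ))) (normb_im hl hτ (a : ℕ))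
    rw [normb_qm_div hl τ (a : ℕ)] at h
    rw [← h]
    refine Finset.sum_congr rfl fun i _ => ?_
    rw [Matrix.vandermonde_apply, hM]
    congr 1
    refine tsum_congr fun m => ?_
    rw [normb_coeff]
  obtain ⟨V, hV⟩ := (Matrix.isUnit_iff_isUnit_det _).mpr hdet
  have hD : Matrix.diagonal (fun j : Fin l => f ((τ + (j : ℕ)) / l)) = V.val * M * V⁻¹.val := by
    rw [hV, hVM, ← hV, mul_assoc, Units.mul_inv, mul_one]
  rw [← Matrix.charpoly_units_conj V M, ← Matrix.coe_units_inv, ← hD, Matrix.charpoly_diagonal]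

theorem norm_qe {l : ℕ} (hl : l.Prime) {f : ℂ → ℂ} {A : PowerSeries ℤ} (hA : QEZ f A) {k : ℕ}
    (hk : k ≤ l) : QEZ (fun τ => (famJ l f τ).esymm k) (eN l A k) := by
  intro τ hτ
  have hl0 := hl.ne_zero
  have hA' : QE f (toC A) := hA
  let M' : Matrix (Fin l) (Fin l) normb_QS := fun i j => ⟨mA l (toC A) i j, normb_entry hl0 hA' i j⟩
  have hM1 : M'.map normb_QS.subtype = mA l (toC A) := by
    ext1 i j
    rfl
  have hcp : (mA l (toC A)).charpoly = M'.charpoly.map normb_QS.subtype := by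
    rw [← hM1, Matrix.charpoly_map]
  have hE : toC (eN l A k) = (((-1) ^ k * M'.charpoly.coeff (l - k) : normb_QS) : PowerSeries ℂ) := by
    unfold eN
    have h1 : toC ((-1) ^ k * ((mA l A).charpoly).coeff (l - k))
        = (-1) ^ k * ((mA l (toC A)).charpoly).coeff (l - k) := by
      unfold toC
      rw [map_mul, ← Polynomial.coeff_map, ← Matrix.charpoly_map, normb_map, map_pow, map_neg, map_one]
    rw [h1, hcp, Polynomial.coeff_map]
    push_cast
    rfl
  have hmem : toC (eN l A k) ∈ normb_QS := by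
    rw [hE]
    exact SetLike.coe_mem _
  have hs := normb_QE_of_mem hmem hτ
  have hval : normb_ev τ hτ ⟨toC (eN l A k), hmem⟩ = (famJ l f τ).esymm k := by
    have e1 : (⟨toC (eN l A k), hmem⟩ : normb_QS) = (-1) ^ k * M'.charpoly.coeff (l - k) :=
      Subtype.ext hE
    rw [e1, map_mul, ← Polynomial.coeff_map, ← Matrix.charpoly_map, map_pow, map_neg, map_one]
    have hM2 := normb_charpoly hl0 hA' hτ ((normb_ev τ hτ).mapMatrix M') (fun i j => rfl)
    have hM3 : M'.map (normb_ev τ hτ) = (normb_ev τ hτ).mapMatrix M' := rfl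
    rw [hM3, hM2]
    have hprod : ∏ j : Fin l, (Polynomial.X - Polynomial.C (f ((τ + (j : ℕ)) / l)))
        = ((famJ l f τ).map (fun t => Polynomial.X - Polynomial.C t)).prod := by
      unfold famJ
      rw [Multiset.map_map]
      exact Fin.prod_univ_eq_prod_range
        (fun j : ℕ => Polynomial.X - Polynomial.C (f ((τ + (j : ℕ)) / l))) l
    rw [hprod]
    have hcard : Multiset.card (famJ l f τ) = l := by
      unfold famJ
      rw [Multiset.card_map, Multiset.card_range]
    rw [Multiset.prod_X_sub_C_coeff _ (by rw [hcard]; omega), hcard,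
      show l - (l - k) = k by omega, ← mul_assoc, ← pow_add, ← two_mul, pow_mul]
    simp
  rw [hval] at hs
  exact hs

end Pool.Agent.Lib.Z32
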