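import Pool.Agent.Lib.MP_ad286f_nt.DNe

/-!
# Module Struct (about 250 lines): the structure theorem

PROOF of `struct` by strong induction on `m`. Let `a = coeff 0 A`, `g = f - a F^m` (again `Aut6 m`,
integral, constant coefficient 0).
* `m = 0`: `rigid0` gives `g = 0`.
* `m = 1`: `g^2/D` is invariant (`J^2/J^2`), `q`-expansion divisible by `X` (`QE.divXk`, `k = 1`:
  `g^2 = X (X G^2)`), so `rigid0` gives `g^2/D = 0`, `g = 0`.
* `m >= 2`: `g/D` is `Aut6 (m-2)`, integral by `QEZ.divX` (`D = X V`, `V_0 = 1`, `g = X G'`); induction.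
Divisibility: if `n` divides all coefficients of `A` then `n | a`, `n` divides the coefficients of
`A - a AF^m = X U`, and of `C = U V^(-1)` (`C V = U`, `V_0 = 1`: induct on the coefficient).
`homF` is the formal version of `hom`.
-/

namespace Pool.Agent.Lib.Z32

open Complex

/-- The formal homogeneous evaluation. -/
noncomputable def homF (m : ℕ) (b : ℕ → ℤ) : PowerSeries ℤ :=
  ∑ j ∈ Finset.range (m / 2 + 1), PowerSeries.C (b j) * AD ^ j * AF ^ (m - 2 * j)

private theorem J6_ne {τ : ℂ} (h : 0 < τ.im) : J6 τ ≠ 0 := by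
  have h0 : τ ≠ 0 := by rintro rfl; simp at h
  simp [J6, h0]

private theorem J3_ne {τ : ℂ} (h : 0 < τ.im) : J3 τ ≠ 0 := by
  have h0 : 2 * τ - 1 ≠ 0 := by
    intro h'
    have := congrArg Complex.im h'
    simp at this
    exact h.ne' this
  simp [J3, h0]

theorem hom_qe (m : ℕ) (b : ℕ → ℤ) : QEZ (hom m b) (homF m b) := by
  have h : toC (homF m b) = ∑ j ∈ Finset.range (m / 2 + 1),
      PowerSeries.C (b j : ℂ) * (toC AD) ^ j * (toC AF) ^ (m - 2 * j) := by
    simp [homF, toC]
  unfold QEZ
  rw [h]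
  exact QE.sum _ (fun j _ => ((QE.const _).mul (DD_qe.pow j)).mul (FF_qe.pow (m - 2 * j)))

private theorem homW {m : ℕ} (b : ℕ → ℤ) {τ τ' J : ℂ} (hF : FF τ' = J * FF τ)
    (hD : DD τ' = J ^ 2 * DD τ) : hom m b τ' = J ^ m * hom m b τ := by
  unfold hom
  rw [Finset.mul_sum]
  apply Finset.sum_congr rfl
  intro j hj
  have hj' : 2 * j ≤ m := by have := Finset.mem_range.mp hj; omega
  rw [hF, hD]
  have : J ^ m = (J ^ 2) ^ j * J ^ (m - 2 * j) := by
    rw [← pow_mul, ← pow_add]; congr 1; omega
  rw [this]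
  ring

theorem hom_aut (m : ℕ) (b : ℕ → ℤ) : Aut6 m (hom m b) where
  qe := ⟨_, hom_qe m b⟩
  w6 _ h := homW b (FF_W6 h) (DD_W6 h)
  w3 _ h := homW b (FF_W3 h) (DD_W3 h)

private theorem scc_F : PowerSeries.constantCoeff AF = 1 := by
  rw [← PowerSeries.coeff_zero_eq_constantCoeff_apply, AF_0]

private theorem scc_V : PowerSeries.constantCoeff AV = 1 := by
  rw [← PowerSeries.coeff_zero_eq_constantCoeff_apply, AV_0]

private theorem cc0 (A : PowerSeries ℤ) (m : ℕ) :
    PowerSeries.coeff 0 (A - PowerSeries.C (PowerSeries.coeff 0 A) * AF ^ m) = 0 := by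
  rw [PowerSeries.coeff_zero_eq_constantCoeff_apply, map_sub, map_mul, map_pow, scc_F]
  simp

private theorem subAut {m : ℕ} {f : ℂ → ℂ} {A : PowerSeries ℤ} (hf : Aut6 m f) (hA : QEZ f A) :
    Aut6 m (fun τ => f τ - ((PowerSeries.coeff 0 A : ℤ) : ℂ) * FF τ ^ m) ∧
    QEZ (fun τ => f τ - ((PowerSeries.coeff 0 A : ℤ) : ℂ) * FF τ ^ m)
      (A - PowerSeries.C (PowerSeries.coeff 0 A) * AF ^ m) := by
  have h2 : QEZ (fun τ => f τ - ((PowerSeries.coeff 0 A : ℤ) : ℂ) * FF τ ^ m)
      (A - PowerSeries.C (PowerSeries.coeff 0 A) * AF ^ m) := by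
    have h : toC (A - PowerSeries.C (PowerSeries.coeff 0 A) * AF ^ m) =
        toC A - PowerSeries.C ((PowerSeries.coeff 0 A : ℤ) : ℂ) * (toC AF) ^ m := by
      simp [toC]
    unfold QEZ
    rw [h]
    exact QE.sub hA ((QE.const _).mul (FF_qe.pow m))
  refine ⟨⟨⟨_, h2⟩, fun τ h => ?_, fun τ h => ?_⟩, h2⟩
  · rw [hf.w6 τ h, FF_W6 h, mul_pow]; ring
  · rw [hf.w3 τ h, FF_W3 h, mul_pow]; ring

private theorem eqX (B : PowerSeries ℤ) (h0 : PowerSeries.coeff 0 B = 0) :
    B = PowerSeries.X * PowerSeries.mk (fun n => PowerSeries.coeff (n + 1) B) := by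
  ext n
  cases n with
  | zero =>
    rw [h0]
    simp
  | succ n => rw [PowerSeries.coeff_succ_X_mul, PowerSeries.coeff_mk]

private theorem small {m : ℕ} (hm : m ≤ 1) {g : ℂ → ℂ} {B : PowerSeries ℤ} (hg : Aut6 m g)
    (hB : QEZ g B) (h0 : PowerSeries.coeff 0 B = 0) : ∀ τ : ℂ, 0 < τ.im → g τ = 0 := by
  have hm' : m = 0 ∨ m = 1 := by omega
  rcases hm' with rfl | rfl
  · refine rigid0 hB ?_ (fun τ h => by rw [hg.w6 τ h, pow_zero, one_mul])
      (fun τ h => by rw [hg.w3 τ h, pow_zero, one_mul])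
    simp [toC, PowerSeries.coeff_map, h0]
  · set B' := PowerSeries.mk (fun n => PowerSeries.coeff (n + 1) B) with hB'
    have hBX := eqX B h0
    rw [← hB'] at hBX
    have h1 : QE (fun τ => g τ ^ 2) (PowerSeries.X ^ 1 * (PowerSeries.X * (toC B') ^ 2)) := by
      have h2 : PowerSeries.X ^ 1 * (PowerSeries.X * (toC B') ^ 2) = (toC B) ^ 2 := by
        conv_rhs => rw [hBX]
        simp only [toC, map_mul, PowerSeries.map_X]
        ring
      rw [h2]
      exact QE.pow hB 2
    have h2 : QE DD (PowerSeries.X ^ 1 * toC AV) := by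
      have h3 : PowerSeries.X ^ 1 * toC AV = toC AD := by
        rw [AD_eq]
        simp [toC, PowerSeries.map_X]
      rw [h3]
      exact DD_qe
    have hV : PowerSeries.coeff 0 (toC AV) ≠ 0 := by
      simp [toC, PowerSeries.coeff_map, scc_V]
    obtain ⟨C, hC, hCV⟩ := QE.divXk h1 h2 hV (fun τ h => DD_ne h)
    have hC0 : PowerSeries.coeff 0 C = 0 := by
      have := congrArg (PowerSeries.coeff 0) hCV
      rw [PowerSeries.coeff_zero_eq_constantCoeff_apply, PowerSeries.coeff_zero_eq_constantCoeff_apply,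
        map_mul, map_mul, PowerSeries.constantCoeff_X, zero_mul] at this
      rw [PowerSeries.coeff_zero_eq_constantCoeff_apply] at hV ⊢
      exact (mul_eq_zero.mp this).resolve_right hV
    have h3 := rigid0 hC hC0 (fun τ h => by
      rw [hg.w6 τ h, DD_W6 h, pow_one, mul_pow]
      exact mul_div_mul_left _ _ (pow_ne_zero 2 (J6_ne h))) (fun τ h => by
      rw [hg.w3 τ h, DD_W3 h, pow_one, mul_pow]
      exact mul_div_mul_left _ _ (pow_ne_zero 2 (J3_ne h)))
    intro τ h
    have h4 := h3 τ h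
    rw [div_eq_zero_iff] at h4
    exact pow_eq_zero_iff (two_ne_zero) |>.mp (h4.resolve_right (DD_ne h))

/-- The structure theorem. -/
theorem struct (m : ℕ) {f : ℂ → ℂ} {A : PowerSeries ℤ} (hf : Aut6 m f) (hA : QEZ f A) :
    ∃ b : ℕ → ℤ, (∀ τ : ℂ, 0 < τ.im → f τ = hom m b τ) ∧ A = homF m b ∧
      (∀ j, m / 2 < j → b j = 0) ∧
      (∀ n : ℤ, (∀ i, n ∣ PowerSeries.coeff i A) → ∀ j, n ∣ b j) := by
  induction m using Nat.strong_induction_on generalizing f A with
  | _ m ih =>
    obtain ⟨hg, hB⟩ := subAut hf hA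
    have h0 := cc0 A m
    set a : ℤ := PowerSeries.coeff 0 A with ha
    set B := A - PowerSeries.C a * AF ^ m with hBdef
    by_cases hm : m ≤ 1
    · have hz := small hm hg hB h0
      have hm2 : m / 2 = 0 := by omega
      have e1 : ∀ τ : ℂ, 0 < τ.im → f τ = hom m (fun j => if j = 0 then a else 0) τ := by
        intro τ h
        have := hz τ h
        simp only [hom, hm2]
        simp
        linear_combination this
      refine ⟨fun j => if j = 0 then a else 0, e1, ?_, ?_, ?_⟩
      · apply toC_inj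
        exact QE.uniq hA ((hom_qe m _).congr e1)
      · intro j hj
        have hj0 : j ≠ 0 := by omega
        simp [hj0]
      · intro n hn j
        by_cases h : j = 0
        · simp only [h, if_true]
          exact hn 0
        · simp [h]
    · set B' := PowerSeries.mk (fun n => PowerSeries.coeff (n + 1) B) with hB'
      have hBX := eqX B h0
      rw [← hB'] at hBX
      rw [hBX] at hB
      have hDX : QEZ DD (PowerSeries.X * AV) := by rw [← AD_eq]; exact DD_qe
      obtain ⟨C, hC, hCV⟩ := QEZ.divX hB hDX AV_0 (fun τ h => DD_ne h)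
      have hC6 : Aut6 (m - 2) (fun τ => (f τ - (a : ℂ) * FF τ ^ m) / DD τ) := by
        refine ⟨⟨_, hC⟩, fun τ h => ?_, fun τ h => ?_⟩
        · have h1 := hg.w6 τ h
          rw [h1, DD_W6 h]
          have h2 : J6 τ ^ m = J6 τ ^ 2 * J6 τ ^ (m - 2) := by
            rw [← pow_add]; congr 1; omega
          rw [h2, mul_assoc, mul_div_mul_left _ _ (pow_ne_zero 2 (J6_ne h)), mul_div_assoc]
        · have h1 := hg.w3 τ h
          rw [h1, DD_W3 h]
          have h2 : J3 τ ^ m = J3 τ ^ 2 * J3 τ ^ (m - 2) := by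
            rw [← pow_add]; congr 1; omega
          rw [h2, mul_assoc, mul_div_mul_left _ _ (pow_ne_zero 2 (J3_ne h)), mul_div_assoc]
      obtain ⟨b', hb1, hb2, hb3, hb4⟩ := ih (m - 2) (by omega) hC6 hC
      set b : ℕ → ℤ := fun j => if j = 0 then a else b' (j - 1) with hb
      have e1 : ∀ τ : ℂ, 0 < τ.im → f τ = hom m b τ := by
        intro τ h
        have h1 := hb1 τ h
        have h2 : f τ = a * FF τ ^ m + DD τ * hom (m - 2) b' τ := by
          rw [← h1]
          have := DD_ne h
          field_simp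
          ring
        rw [h2]
        unfold hom
        have hm2 : m / 2 + 1 = ((m - 2) / 2 + 1) + 1 := by omega
        rw [hm2, Finset.sum_range_succ' _ ((m - 2) / 2 + 1), Finset.mul_sum, add_comm]
        congr 1
        · apply Finset.sum_congr rfl
          intro j _
          simp only [hb]
          rw [if_neg (by omega), Nat.add_sub_cancel, show m - 2 * (j + 1) = m - 2 - 2 * j by omega]
          ring
        · simp [hb]
      refine ⟨b, e1, ?_, ?_, ?_⟩
      · apply toC_inj
        exact QE.uniq hA ((hom_qe m _).congr e1)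
      · intro j hj
        simp only [hb]
        rw [if_neg (by omega)]
        exact hb3 _ (by omega)
      · intro n hn j
        simp only [hb]
        split_ifs with h
        · exact hn 0
        · refine hb4 n ?_ _
          -- the coefficients of `C`
          have hBn : ∀ i, n ∣ PowerSeries.coeff i B' := by
            intro i
            rw [hB', PowerSeries.coeff_mk, hBdef, map_sub, PowerSeries.coeff_C_mul]
            exact dvd_sub (hn _) (Dvd.dvd.mul_right (hn 0) _)
          have hV : AV * PowerSeries.invOfUnit AV 1 = 1 := PowerSeries.mul_invOfUnit AV 1 (by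
            rw [scc_V]; rfl)
          have hCe : C = B' * PowerSeries.invOfUnit AV 1 := by
            rw [← hCV, mul_assoc, hV, mul_one]
          intro i
          rw [hCe, PowerSeries.coeff_mul]
          exact Finset.dvd_sum (fun x _ => Dvd.dvd.mul_right (hBn _) _)

/-- The coefficients are determined. -/
theorem homF_dvd (m : ℕ) (b : ℕ → ℤ) (n : ℤ) (h : ∀ i, n ∣ PowerSeries.coeff i (homF m b)) :
    ∀ j, j ≤ m / 2 → n ∣ b j := by
  intro j
  induction j using Nat.strong_induction_on with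
  | _ j ih =>
    intro hj
    have h1 := h j
    rw [homF, map_sum] at h1
    have key : ∀ i ∈ Finset.range (m / 2 + 1),
        PowerSeries.coeff j (PowerSeries.C (b i) * AD ^ i * AF ^ (m - 2 * i))
        = b i * (if i ≤ j then PowerSeries.coeff (j - i) (AV ^ i * AF ^ (m - 2 * i)) else 0) := by
      intro i _
      rw [mul_assoc, PowerSeries.coeff_C_mul, AD_eq, mul_pow, mul_assoc,
        PowerSeries.coeff_X_pow_mul']
    rw [Finset.sum_congr rfl key,
      ← Finset.add_sum_erase _ _ (Finset.mem_range.mpr (Nat.lt_succ_of_le hj))] at h1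
    have h2 : n ∣ ∑ x ∈ (Finset.range (m / 2 + 1)).erase j,
        b x * (if x ≤ j then PowerSeries.coeff (j - x) (AV ^ x * AF ^ (m - 2 * x)) else 0) := by
      apply Finset.dvd_sum
      intro x hx
      rw [Finset.mem_erase, Finset.mem_range] at hx
      by_cases hxj : x ≤ j
      · exact Dvd.dvd.mul_right (ih x (lt_of_le_of_ne hxj hx.1) (by omega)) _
      · simp [hxj]
    rw [if_pos le_rfl, Nat.sub_self, PowerSeries.coeff_zero_eq_constantCoeff_apply, map_mul,
      map_pow, map_pow, scc_V, scc_F, one_pow, one_pow, mul_one, mul_one] at h1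
    exact (dvd_add_left h2).mp h1

/-- At a point with `F = e`, `D = e^2/32`. -/
theorem hom_eval (m : ℕ) (b : ℕ → ℤ) {τ : ℂ} (h : FF τ ^ 2 = 32 * DD τ) :
    hom m b τ = FF τ ^ m * ∑ j ∈ Finset.range (m / 2 + 1), (b j : ℂ) * (1 / 32) ^ j := by
  unfold hom
  rw [Finset.mul_sum]
  apply Finset.sum_congr rfl
  intro j hj
  have hj' : 2 * j ≤ m := by have := Finset.mem_range.mp hj; omega
  have hD : DD τ = FF τ ^ 2 * (1 / 32) := by rw [h]; ring
  have hm : FF τ ^ m = (FF τ ^ 2) ^ j * FF τ ^ (m - 2 * j) := by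
    rw [← pow_mul, ← pow_add]; congr 1; omega
  rw [hm, hD, mul_pow]
  ring

end Pool.Agent.Lib.Z32
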