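import Pool.Agent.Lib.MP_ad286f_nt.HAct
import Pool.Agent.Lib.MP_ad286f_nt.Struct
import Pool.Agent.Lib.MP_ad286f_nt.NormB

/-!
# Module HForm (about 250 lines): the elementary symmetric functions of the Hecke family

PROOF. `fam p t = p^2 F(pt) ::ₘ famJ p FF t`, `esymm (k+1) (x ::ₘ s) = esymm (k+1) s + x esymm k s`
(`Multiset.powersetCard_cons`). `norm_qe` for `k <= p`, `esymm (p+1) (famJ ..) = 0` (cardinality `p`). So the `q`-expansion of
`esymm k (fam p t)` is `eN k + p^2 (ex p AF) eN (k-1)` for `1 <= k <= p` and `p^2 (ex p AF) eN p` for `k = p+1`.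
`Aut6 k`: `fam_W6`, `fam_W3` and `esymm k (s.map (c * .)) = c^k esymm k s` (Mathlib `Multiset.pow_smul_esymm`). `struct` gives
`B k` for `k <= p + 1`. For `k = p + 1` apply `struct` to `F(pt) esymm p (famJ)` (it is `Aut6 (p+1)`, being
`esymm (p+1) (fam)/p^2`) to get `d`, and put `B (p+1) = p^2 d`. For `k > p + 1` both sides are 0 (`B k = 0`).
For `k = p - 1`: the `q`-expansion is divisible by `p` (`eN_mid`, `p - 1 >= 1`, and the term `p^2 ..`), so `p | B (p-1) j`. For `k = p`: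
`homF p (B p) = eN p + p^2 (ex p AF) eN (p-1)`.
-/

namespace Pool.Agent.Lib.Z32

open Complex

private theorem es_cons (x : ℂ) (s : Multiset ℂ) (k : ℕ) :
    (x ::ₘ s).esymm (k + 1) = s.esymm (k + 1) + x * s.esymm k := by
  simp only [Multiset.esymm, Multiset.powersetCard_cons, Multiset.map_add, Multiset.sum_add,
    Multiset.map_map, Function.comp_def, Multiset.prod_cons, Multiset.sum_map_mul_left]

private theorem es_big {s : Multiset ℂ} {k : ℕ} (h : Multiset.card s < k) : s.esymm k = 0 := by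
  simp [Multiset.esymm, Multiset.powersetCard_eq_empty k h]

private theorem es_map (c : ℂ) (s : Multiset ℂ) (k : ℕ) :
    (s.map (fun x => c * x)).esymm k = c ^ k * s.esymm k := by
  have := Multiset.pow_smul_esymm c k s
  simp only [smul_eq_mul] at this
  exact this.symm

private theorem card_famJ (p : ℕ) (τ : ℂ) : Multiset.card (famJ p FF τ) = p := by
  simp [famJ]

private theorem card_fam (p : ℕ) (τ : ℂ) : Multiset.card (fam p τ) = p + 1 := by
  simp [fam, card_famJ]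

/-- The expansions. -/
private noncomputable def EX (p k : ℕ) : PowerSeries ℤ :=
  if k = 0 then 1 else if k ≤ p then
    eN p AF k + PowerSeries.C ((p : ℤ) ^ 2) * ex p AF * eN p AF (k - 1)
  else PowerSeries.C ((p : ℤ) ^ 2) * (ex p AF * eN p AF p)

private theorem qe_FFp {p : ℕ} (hp : 0 < p) :
    QE (fun τ => (p : ℂ) ^ 2 * FF (p * τ)) (PowerSeries.C ((p : ℂ) ^ 2) * toC (ex p AF)) := by
  rw [toC_ex]
  exact (QE.const _).mul (QE.exd FF_qe hp)

private theorem ex_qe {p : ℕ} (hp : p.Prime) {k : ℕ} (hk : k ≤ p + 1) :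
    QEZ (fun τ => (fam p τ).esymm k) (EX p k) := by
  unfold QEZ EX
  rcases Nat.eq_zero_or_pos k with rfl | hk0
  · rw [if_pos rfl]
    have h1 : toC 1 = PowerSeries.C (1 : ℂ) := by simp [toC]
    rw [h1]
    refine (QE.const 1).congr (fun τ _ => ?_)
    simp [Multiset.esymm]
  · obtain ⟨m, rfl⟩ : ∃ m, k = m + 1 := ⟨k - 1, by omega⟩
    rw [if_neg (by omega)]
    by_cases hm : m + 1 ≤ p
    · rw [if_pos hm]
      have h1 : toC (eN p AF (m + 1) + PowerSeries.C ((p : ℤ) ^ 2) * ex p AF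
          * eN p AF (m + 1 - 1)) = toC (eN p AF (m + 1))
          + (PowerSeries.C ((p : ℂ) ^ 2) * toC (ex p AF)) * toC (eN p AF m) := by
        simp [toC]
      rw [h1]
      refine (QE.add (norm_qe hp FF_qe hm) ((qe_FFp hp.pos).mul
        (norm_qe hp FF_qe (by omega : m ≤ p)))).congr (fun τ _ => ?_)
      rw [fam, es_cons]
    · rw [if_neg hm]
      have hmp : m = p := by omega
      subst hmp
      have h1 : toC (PowerSeries.C ((m : ℤ) ^ 2) * (ex m AF * eN m AF m)) =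
          (PowerSeries.C ((m : ℂ) ^ 2) * toC (ex m AF)) * toC (eN m AF m) := by
        simp [toC, mul_assoc]
      rw [h1]
      refine ((qe_FFp hp.pos).mul (norm_qe hp FF_qe le_rfl)).congr (fun τ _ => ?_)
      rw [fam, es_cons, es_big (by rw [card_famJ]; omega), zero_add]

private theorem fam_aut {p : ℕ} [Fact p.Prime] (h3 : 3 < p) {k : ℕ} (hk : k ≤ p + 1) :
    Aut6 k (fun τ => (fam p τ).esymm k) where
  qe := ⟨_, ex_qe Fact.out hk⟩
  w6 τ h := by rw [fam_W6 h3 h, es_map]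
  w3 τ h := by rw [fam_W3 h3 h, es_map]

private theorem homF_smul (m : ℕ) (n : ℤ) (d : ℕ → ℤ) :
    homF m (fun j => n * d j) = PowerSeries.C n * homF m d := by
  unfold homF
  rw [Finset.mul_sum]
  apply Finset.sum_congr rfl
  intro j _
  rw [map_mul]
  ring

theorem fam_struct {p : ℕ} [Fact p.Prime] (hp : 3 < p) : ∃ (B : ℕ → ℕ → ℤ) (d : ℕ → ℤ),
    (∀ k, ∀ τ : ℂ, 0 < τ.im → (fam p τ).esymm k = hom k (B k) τ) ∧
    (∀ k j, k / 2 < j → B k j = 0) ∧
    (∀ j, (p : ℤ) ∣ B (p - 1) j) ∧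
    (∀ n, (p : ℤ) ^ 2 ∣ PowerSeries.coeff n (homF p (B p) - eN p AF p)) ∧
    (∀ j, B (p + 1) j = (p : ℤ) ^ 2 * d j) ∧
    (∀ j, (p + 1) / 2 < j → d j = 0) ∧
    homF (p + 1) d = ex p AF * eN p AF p := by
  have hpp : p.Prime := Fact.out
  have key : ∀ k : ℕ, ∃ b : ℕ → ℤ, (∀ τ : ℂ, 0 < τ.im → (fam p τ).esymm k = hom k b τ) ∧
      (∀ j, k / 2 < j → b j = 0) ∧
      (k ≤ p + 1 → EX p k = homF k b ∧
        ∀ n : ℤ, (∀ i, n ∣ PowerSeries.coeff i (EX p k)) → ∀ j, n ∣ b j) := by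
    intro k
    by_cases hk : k ≤ p + 1
    · obtain ⟨b, h1, h2, h3, h4⟩ := struct k (fam_aut hp hk) (ex_qe hpp hk)
      exact ⟨b, h1, h3, fun _ => ⟨h2, h4⟩⟩
    · refine ⟨fun _ => 0, fun τ _ => ?_, fun _ _ => rfl, fun h => absurd h hk⟩
      rw [es_big (by rw [card_fam]; omega)]
      simp [hom]
  choose B hB1 hB2 hB3 using key
  have hp1 := hB3 (p + 1) le_rfl
  have hEX1 : EX p (p + 1) = PowerSeries.C ((p : ℤ) ^ 2) * (ex p AF * eN p AF p) := by
    unfold EX
    rw [if_neg (by omega), if_neg (by omega)]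
  have hdiv : ∀ j, (p : ℤ) ^ 2 ∣ B (p + 1) j := by
    apply hp1.2
    intro i
    rw [hEX1, PowerSeries.coeff_C_mul]
    exact dvd_mul_right _ _
  have hd : ∀ j, B (p + 1) j = (p : ℤ) ^ 2 * (B (p + 1) j / (p : ℤ) ^ 2) := fun j =>
    (Int.mul_ediv_cancel' (hdiv j)).symm
  refine ⟨B, fun j => B (p + 1) j / (p : ℤ) ^ 2, hB1, hB2, ?_, ?_, hd, ?_, ?_⟩
  · apply (hB3 (p - 1) (by omega)).2
    intro i
    unfold EX
    rw [if_neg (by omega), if_pos (by omega), map_add]
    refine dvd_add (eN_mid hpp AF (by omega) (by omega) i) ?_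
    rw [mul_assoc, PowerSeries.coeff_C_mul, pow_two, mul_assoc]
    exact dvd_mul_right _ _
  · intro n
    have h1 := (hB3 p (by omega)).1
    rw [← h1]
    unfold EX
    rw [if_neg (by omega), if_pos le_rfl, add_sub_cancel_left, mul_assoc, PowerSeries.coeff_C_mul]
    exact dvd_mul_right _ _
  · intro j hj
    simp only
    rw [hB2 (p + 1) j hj]
    simp
  · have h1 := hp1.1
    rw [hEX1] at h1
    have h2 : B (p + 1) = fun j => (p : ℤ) ^ 2 * (B (p + 1) j / (p : ℤ) ^ 2) := by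
      funext j
      exact hd j
    rw [h2, homF_smul] at h1
    have h3 : PowerSeries.C ((p : ℤ) ^ 2) ≠ 0 := by
      intro h
      have := congrArg PowerSeries.constantCoeff h
      simp at this
      omega
    exact (mul_left_cancel₀ h3 h1).symm

end Pool.Agent.Lib.Z32
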