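import Pool.Agent.Lib.MP_ad286f_nt.AL

/-!
# Module HIx (about 230 lines): the Hecke family indexed by the projective line over `F_l`

`Ix l M a b c d`: modulo `l` the matrix `(a, b; c, d)` (of determinant divisible by `l`) is
`(column) (1, j)` for `M = some j`, `(column) (0, 1)` for `M = none`.

`fam_eq`: `Option (ZMod l)`: `Finset.univ = insertNone univ`, `Fintype` of `Option`; `ZMod l` versus `range l` by
`ZMod.val`.

`exists_Ix`: if `a = c = 0` mod `l`: `none`. If `a <> 0`: `j = b/a` (`a d = b c` gives `d = c j`). If `a = 0`, `c <> 0`: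
`j = d/c`, `b c = a d = 0` gives `b = 0`.

`Ix_eval`. `X = (e a, b; 6 c, e d)`, `det X = e l`.
* `M = none`: `l | e a`, `l | 6 c`; `l > 3` prime, `e | 6`, so `a = l a1`, `c = l c1`, `e a1 d - e' b c1 = 1` (divide by `l`).
  `X t = (e a1 (l t) + b)/(6 c1 (l t) + e d)`: `FF_AL` at `l t`; multiply by `l^2`.
* `M = some j`, `k = j.val`: `b = e a k + l b1`; `l | e d - 6 c k = e (d - e' c k)`, so `d = e' c k + l d1`;
  `e a d - e' b c = l (e a d1 - e' b1 c)`, so `e a d1 - e' b1 c = 1`. With `w = (t + k)/l`: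
  `X t = (e a w + b1)/(6 c w + e d1)` (numerator `e a (t + k) + l b1 = e a t + b`, denominator `6 c (t + k) + l e d1
  = 6 c t + e d`, both divided by `l`), `FF_AL` at `w`: `e F(X t) = eps ((6 c t + e d)/l)^2 F(w)`.
-/

namespace Pool.Agent.Lib.Z32

open Complex

/-- The members of the Hecke family. -/
noncomputable def FM (l : ℕ) : Option (ZMod l) → ℂ → ℂ
  | none, τ => (l : ℂ) ^ 2 * FF (l * τ)
  | some j, τ => FF ((τ + (j.val : ℂ)) / l)

/-- The index of an integral matrix. -/
def Ix (l : ℕ) : Option (ZMod l) → ℤ → ℤ → ℤ → ℤ → Prop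
  | none, a, _, c, _ => (a : ZMod l) = 0 ∧ (c : ZMod l) = 0
  | some j, a, b, c, d => (b : ZMod l) = (a : ZMod l) * j ∧ (d : ZMod l) = (c : ZMod l) * j

theorem fam_eq {l : ℕ} [Fact l.Prime] (τ : ℂ) :
    fam l τ = (Finset.univ : Finset (Option (ZMod l))).val.map (fun M => FM l M τ) := by
  have hl : l.Prime := Fact.out
  have hne : NeZero l := ⟨hl.ne_zero⟩
  have h1 : (Finset.univ : Finset (Option (ZMod l))) =
      Finset.insertNone (Finset.univ : Finset (ZMod l)) := by
    ext x
    simp
  have h2 : (Finset.univ : Finset (ZMod l)).val.map (fun j => FM l (some j) τ) = famJ l FF τ := by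
    unfold famJ
    have h3 : (Multiset.range l) = (Finset.univ : Finset (ZMod l)).val.map (fun j => j.val) := by
      have h4 : (Finset.univ : Finset (ZMod l)).image (fun j => j.val) = Finset.range l := by
        ext n
        simp only [Finset.mem_image, Finset.mem_univ, true_and, Finset.mem_range]
        constructor
        · rintro ⟨j, rfl⟩
          exact ZMod.val_lt j
        · intro hn
          exact ⟨(n : ZMod l), ZMod.val_natCast_of_lt hn⟩
      have h5 : ((Finset.univ : Finset (ZMod l)).image (fun j => j.val)).val =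
          (Finset.univ : Finset (ZMod l)).val.map (fun j => j.val) :=
        Finset.image_val_of_injOn (fun x _ y _ hxy => ZMod.val_injective l hxy)
      rw [← h5, h4]
      rfl
    rw [h3, Multiset.map_map]
    rfl
  have h6 : (Finset.insertNone (Finset.univ : Finset (ZMod l))).val =
      none ::ₘ (Finset.univ : Finset (ZMod l)).val.map some := rfl
  rw [h1, h6, Multiset.map_cons, Multiset.map_map]
  unfold fam
  rw [← h2]
  rfl

theorem exists_Ix {l : ℕ} [Fact l.Prime] {a b c d : ℤ} (h : (l : ℤ) ∣ a * d - b * c) :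
    ∃ M, Ix l M a b c d := by
  have h0 : (a : ZMod l) * d - b * c = 0 := by
    have h1 := (ZMod.intCast_zmod_eq_zero_iff_dvd (a * d - b * c) l).mpr h
    push_cast at h1
    exact h1
  by_cases ha : (a : ZMod l) = 0
  · by_cases hc : (c : ZMod l) = 0
    · exact ⟨none, ha, hc⟩
    · refine ⟨some ((d : ZMod l) / c), ?_, ?_⟩
      · rw [ha, zero_mul, zero_sub, neg_eq_zero] at h0
        rw [ha, zero_mul]
        exact (mul_eq_zero.mp h0).resolve_right hc
      · field_simp
  · refine ⟨some ((b : ZMod l) / a), ?_, ?_⟩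
    · field_simp
    · field_simp
      linear_combination h0

theorem Ix_eval {l : ℕ} [Fact l.Prime] (hl : 3 < l) {e e' : ℕ} (he : e * e' = 6) {a b c d : ℤ}
    (h : (e : ℤ) * a * d - e' * b * c = l) {M : Option (ZMod l)}
    (hM : Ix l M (e * a) b (6 * c) (e * d)) {τ : ℂ} (hτ : 0 < τ.im) :
    (e : ℂ) * (l : ℂ) ^ 2 * FF ((e * a * τ + b) / (6 * c * τ + e * d)) =
      eps e * (6 * c * τ + e * d) ^ 2 * FM l M τ := by
  have hlp : l.Prime := Fact.out
  have hli : Prime (l : ℤ) := Nat.prime_iff_prime_int.mp hlp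
  have hl0 : (l : ℂ) ≠ 0 := by exact_mod_cast hlp.ne_zero
  have hlz : (l : ℤ) ≠ 0 := by exact_mod_cast hlp.ne_zero
  have he6 : (e : ℤ) * e' = 6 := by exact_mod_cast he
  have he6C : (e : ℂ) * e' = 6 := by exact_mod_cast he
  have hez : (e : ℤ) ≠ 0 := by
    intro h0
    rw [h0, zero_mul] at he6
    norm_num at he6
  have h6 : ¬ (l : ℤ) ∣ 6 := by
    intro hd
    have h1 : l ∣ 6 := by exact_mod_cast hd
    have h2 : l ≤ 6 := Nat.le_of_dvd (by norm_num) h1
    interval_cases l
    · omega
    · omega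
    · exact absurd hlp (by norm_num)
  have hle : ¬ (l : ℤ) ∣ e := fun hd => h6 (he6 ▸ Dvd.dvd.mul_right hd _)
  cases M with
  | none =>
    obtain ⟨h1, h2⟩ := hM
    rw [ZMod.intCast_zmod_eq_zero_iff_dvd] at h1 h2
    obtain ⟨a1, rfl⟩ := (hli.dvd_or_dvd h1).resolve_left hle
    obtain ⟨c1, rfl⟩ := (hli.dvd_or_dvd h2).resolve_left h6
    have h3 : (e : ℤ) * a1 * d - e' * b * c1 = 1 := by
      apply mul_left_cancel₀ hlz
      linear_combination h
    have hw : 0 < ((l : ℂ) * τ).im := by
      have h4 : ((l : ℂ) * τ) = ((l : ℝ) : ℂ) * τ := by push_cast; ring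
      rw [h4, Complex.im_ofReal_mul]
      have h5 : (0 : ℝ) < l := by exact_mod_cast hlp.pos
      exact mul_pos h5 hτ
    have h5 := FF_AL he h3 hw
    have h6 : ((e : ℂ) * a1 * (l * τ) + b) / (6 * c1 * (l * τ) + e * d) =
        (e * ((l * a1 : ℤ) : ℂ) * τ + b) / (6 * ((l * c1 : ℤ) : ℂ) * τ + e * d) := by
      push_cast
      congr 1 <;> ring
    rw [h6] at h5
    simp only [FM]
    push_cast at h5 ⊢
    linear_combination (l : ℂ) ^ 2 * h5
  | some j =>
    obtain ⟨h1, h2⟩ := hM
    have hne : NeZero l := ⟨hlp.ne_zero⟩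
    have hj : ((j.val : ℤ) : ZMod l) = j := by
      push_cast
      exact ZMod.natCast_zmod_val j
    rw [← hj] at h1 h2
    obtain ⟨b1, hb1⟩ : (l : ℤ) ∣ b - e * a * j.val := by
      rw [← ZMod.intCast_zmod_eq_zero_iff_dvd]
      push_cast
      push_cast at h1
      rw [h1]
      ring
    obtain ⟨m, hm⟩ : (l : ℤ) ∣ e * (d - e' * c * j.val) := by
      rw [← ZMod.intCast_zmod_eq_zero_iff_dvd]
      push_cast
      push_cast at h2
      have h3 : ((e : ZMod l)) * e' = 6 := by exact_mod_cast congrArg (Nat.cast : ℕ → ZMod l) he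
      rw [mul_sub, h2]
      linear_combination (-(c * (j.val : ZMod l))) * h3
    obtain ⟨d1, hd1⟩ := (hli.dvd_or_dvd (Dvd.intro m hm.symm)).resolve_left hle
    have hb : b = e * a * j.val + l * b1 := by linear_combination hb1
    have hd : d = e' * c * j.val + l * d1 := by linear_combination hd1
    have h3 : (e : ℤ) * a * d1 - e' * b1 * c = 1 := by
      apply mul_left_cancel₀ hlz
      rw [hb, hd] at h
      linear_combination h
    have hw : 0 < ((τ + (j.val : ℂ)) / l).im := by
      have h4 : ((τ + (j.val : ℂ)) / l) = ((1 / l : ℝ) : ℂ) * (τ + (j.val : ℂ)) := by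
        push_cast
        ring
      rw [h4, Complex.im_ofReal_mul]
      have h5 : (0 : ℝ) < l := by exact_mod_cast hlp.pos
      have h6 : (τ + (j.val : ℂ)).im = τ.im := by
        rw [Complex.add_im, Complex.natCast_im, add_zero]
      rw [h6]
      positivity
    have h5 := FF_AL he h3 hw
    have hbC : (b : ℂ) = e * a * j.val + l * b1 := by exact_mod_cast congrArg (Int.cast : ℤ → ℂ) hb
    have hdC : (d : ℂ) = e' * c * j.val + l * d1 := by exact_mod_cast congrArg (Int.cast : ℤ → ℂ) hd
    have hden : (6 * c * τ + e * d : ℂ) = l * (6 * c * ((τ + (j.val : ℂ)) / l) + e * d1) := by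
      rw [hdC]
      field_simp
      linear_combination (c * (j.val : ℂ)) * he6C
    have hnum : (e * a * τ + b : ℂ) = l * (e * a * ((τ + (j.val : ℂ)) / l) + b1) := by
      rw [hbC]
      field_simp
      ring
    rw [hden, hnum, mul_div_mul_left _ _ hl0]
    simp only [FM]
    linear_combination (l : ℂ) ^ 2 * h5

end Pool.Agent.Lib.Z32
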