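import Pool.Agent.Lib.MP_ad286f_nt.Struct

/-!
# Module Ids (about 300 lines): the two differential identities

`theta f = (2 pi i)^(-1) f'` has the `q`-expansion `th A` (`QE.thd`). With `W = W6` or `W3` and the
factor `J`: `W' = -1/J` (`W6' = 1/(6t^2)`, `W3' = 3/(6t-3)^2`), so for `f` in `Aut6 m` differentiating
`f(W t) = J^m f(t)` gives `(theta f)(W t) = -J^(m+1) theta f - m J^m (theta J) f`.
(1) `U := F theta D - 2 D theta F`: `U(W t) = -J^4 U(t)` (the `theta J` terms cancel), so `U^2` is in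
`Aut6 8`, integral; `struct` with `m = 8` and the coefficients of `q^0..q^4`:
`F = 1+4q+20q^2+.., D = q-2q^2-3q^3+..`, `U = q - 8q^2 - 69q^3 + ..`, `U^2 = q^2 - 16q^3 - 74q^4 + ..`
`= D^2(F^4 - 28F^2D - 128D^2) + O(q^5)` (`F^4 = 1+16q+176q^2`, `F^2 D = q+6q^2`, `D^2 = q^2-4q^3-2q^4`).
Equivalently: `homF_dvd`-type uniqueness: the difference is `homF 8 b` with the coefficients 0..4 equal to 0,
hence `b = 0` (triangular).
(2) `R := 2F theta^2 F - 3(theta F)^2`: the second derivative of `f(Wt) = J f(t)`; all anomalies cancel,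
`R(W t) = J^4 R(t)`: in `Aut6 4`; coefficients of `q^0, q^1, q^2`: `0, 8, 144`, same for `8DF^2+96D^2`
(`= 8(q+6q^2)+96q^2`). [For (2) it may be easier to use `F = -(..)`: with `h = theta F`: from
`h(Wt) = -J^2 h - J (theta J) F` differentiate again; `theta J = J'/(2 pi i)`, `J'^2 - 2 J J'' = ..`: for
`J6 = -6t^2`: `J'=-12t, J''=-12`, `J'^2 = 144t^2 = 2 J J''`; for `J3`: `J' = -12(2t-1), J'' = -24`,
`J'^2 = 144(2t-1)^2 = 2JJ''`. This is what makes the bracket modular.]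
-/

namespace Pool.Agent.Lib.Z32

open Complex

private theorem upper_open {τ : ℂ} (hτ : 0 < τ.im) : ∀ᶠ z in nhds τ, 0 < z.im :=
  (continuous_im.isOpen_preimage _ isOpen_Ioi).mem_nhds hτ

/-- The data of an involution. -/
private structure Inv (W J J' J'' : ℂ → ℂ) : Prop where
  im : ∀ τ : ℂ, 0 < τ.im → 0 < (W τ).im
  dW : ∀ τ : ℂ, 0 < τ.im → HasDerivAt W (-(J τ)⁻¹) τ
  dJ : ∀ τ : ℂ, 0 < τ.im → HasDerivAt J (J' τ) τ
  dJ' : ∀ τ : ℂ, 0 < τ.im → HasDerivAt J' (J'' τ) τ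
  ne : ∀ τ : ℂ, 0 < τ.im → J τ ≠ 0
  rel : ∀ τ : ℂ, J' τ ^ 2 = 2 * J τ * J'' τ

private theorem inv6 : Inv W6 J6 (fun τ => -12 * τ) (fun _ => -12) where
  im τ h := W6_im h
  dW τ h := by
    have h0 : τ ≠ 0 := by rintro rfl; simp at h
    have h1 : HasDerivAt (fun z : ℂ => 6 * z) 6 τ := by
      simpa using (hasDerivAt_id τ).const_mul (6 : ℂ)
    have h2 := (h1.inv (mul_ne_zero (by norm_num) h0)).const_mul (-1 : ℂ)
    refine (h2.congr_deriv ?_).congr_of_eventuallyEq ?_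
    · simp only [J6]
      field_simp
    · exact Filter.Eventually.of_forall fun z => by simp only [W6]; rw [div_eq_mul_inv]; rfl
  dJ τ _ := by
    have := ((hasDerivAt_id τ).pow 2).const_mul (-6 : ℂ)
    refine (this.congr_deriv ?_).congr_of_eventuallyEq ?_
    · simp; ring
    · exact Filter.Eventually.of_forall fun z => by simp [J6]
  dJ' τ _ := by
    simpa using (hasDerivAt_id τ).const_mul (-12 : ℂ)
  ne τ h := by
    have h0 : τ ≠ 0 := by rintro rfl; simp at h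
    simp [J6, h0]
  rel τ := by simp only [J6]; ring

private theorem inv3 : Inv W3 J3 (fun τ => -12 * (2 * τ - 1)) (fun _ => -24) where
  im τ h := W3_im h
  dW τ h := by
    have h0 : 2 * τ - 1 ≠ 0 := by
      intro h'
      have := congrArg Complex.im h'
      simp at this
      exact h.ne' this
    have h00 : 6 * τ - 3 ≠ 0 := by
      intro h'
      apply h0
      linear_combination h' / 3
    have h1 : HasDerivAt (fun z : ℂ => 3 * z - 2) 3 τ := by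
      simpa using ((hasDerivAt_id τ).const_mul (3 : ℂ)).sub_const 2
    have h2 : HasDerivAt (fun z : ℂ => 6 * z - 3) 6 τ := by
      simpa using ((hasDerivAt_id τ).const_mul (6 : ℂ)).sub_const 3
    refine (h1.div h2 h00).congr_deriv ?_
    simp only [J3]
    rw [show (6 : ℂ) * τ - 3 = 3 * (2 * τ - 1) by ring]
    field_simp
    ring
  dJ τ _ := by
    have h1 : HasDerivAt (fun z : ℂ => 2 * z - 1) 2 τ := by
      simpa using ((hasDerivAt_id τ).const_mul (2 : ℂ)).sub_const 1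
    have := (h1.pow 2).const_mul (-3 : ℂ)
    refine (this.congr_deriv ?_)
    simp; ring
  dJ' τ _ := by
    have h1 : HasDerivAt (fun z : ℂ => 2 * z - 1) 2 τ := by
      simpa using ((hasDerivAt_id τ).const_mul (2 : ℂ)).sub_const 1
    refine (h1.const_mul (-12 : ℂ)).congr_deriv ?_
    norm_num
  ne τ h := by
    have h0 : 2 * τ - 1 ≠ 0 := by
      intro h'
      have := congrArg Complex.im h'
      simp at this
      exact h.ne' this
    simp [J3, h0]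
  rel τ := by simp only [J3]; ring

section
variable {W J J' J'' : ℂ → ℂ} (hI : Inv W J J' J'')
include hI

/-- First derivative. -/
private theorem der1 {f : ℂ → ℂ} (hf : ∀ τ : ℂ, 0 < τ.im → DifferentiableAt ℂ f τ) (m : ℕ)
    (h : ∀ τ : ℂ, 0 < τ.im → f (W τ) = J τ ^ m * f τ) {τ : ℂ} (hτ : 0 < τ.im) :
    deriv f (W τ) = -(J τ ^ (m + 1) * deriv f τ) - m * J τ ^ m * J' τ * f τ := by
  have h1 : HasDerivAt (f ∘ W) (deriv f (W τ) * -(J τ)⁻¹) τ :=
    (hf _ (hI.im τ hτ)).hasDerivAt.comp τ (hI.dW τ hτ)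
  have h2 := ((hI.dJ τ hτ).pow m).mul (hf τ hτ).hasDerivAt
  have h3 := h1.congr_of_eventuallyEq (f₁ := fun z => J z ^ m * f z)
    ((upper_open hτ).mono fun z hz => (h z hz).symm)
  have h4 := h2.unique h3
  have hJ := hI.ne τ hτ
  have h5 : J τ * (m * J τ ^ (m - 1)) = m * J τ ^ m := by
    cases m with
    | zero => simp
    | succ n => simp only [Nat.add_sub_cancel]; ring
  have h6 : deriv f (W τ) = -(J τ * (deriv f (W τ) * -(J τ)⁻¹)) := by
    field_simp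
  rw [h6, ← h4]
  simp only [Pi.pow_apply]
  linear_combination - J' τ * f τ * h5

/-- Second derivative for weight one. -/
private theorem der2 {f : ℂ → ℂ} (hf : ∀ τ : ℂ, 0 < τ.im → DifferentiableAt ℂ f τ)
    (hf' : ∀ τ : ℂ, 0 < τ.im → DifferentiableAt ℂ (deriv f) τ)
    (h : ∀ τ : ℂ, 0 < τ.im → f (W τ) = J τ * f τ) {τ : ℂ} (hτ : 0 < τ.im) :
    deriv (deriv f) (W τ) = J τ ^ 3 * deriv (deriv f) τ + 3 * J τ ^ 2 * J' τ * deriv f τ
      + J τ * (J' τ ^ 2 + J τ * J'' τ) * f τ := by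
  have h0 : ∀ τ : ℂ, 0 < τ.im → deriv f (W τ) = -(J τ ^ 2 * deriv f τ) - J τ * J' τ * f τ := by
    intro τ hτ
    have := der1 hI hf 1 (fun τ hτ => by rw [pow_one]; exact h τ hτ) hτ
    rw [this]
    push_cast
    ring
  have h1 : HasDerivAt (deriv f ∘ W) (deriv (deriv f) (W τ) * -(J τ)⁻¹) τ :=
    (hf' _ (hI.im τ hτ)).hasDerivAt.comp τ (hI.dW τ hτ)
  have h2 := ((((hI.dJ τ hτ).pow 2).mul (hf' τ hτ).hasDerivAt).neg).sub
    (((hI.dJ τ hτ).mul (hI.dJ' τ hτ)).mul (hf τ hτ).hasDerivAt)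
  have h3 := h1.congr_of_eventuallyEq
    (f₁ := fun z => -(J z ^ 2 * deriv f z) - J z * J' z * f z)
    ((upper_open hτ).mono fun z hz => (h0 z hz).symm)
  have h4 := h2.unique h3
  have hJ := hI.ne τ hτ
  have h6 : deriv (deriv f) (W τ) = -(J τ * (deriv (deriv f) (W τ) * -(J τ)⁻¹)) := by
    field_simp
  rw [h6, ← h4]
  simp only [Pi.pow_apply, Pi.mul_apply]
  push_cast
  ring

end

private noncomputable def cc : ℂ := (2 * Real.pi * I)⁻¹

private noncomputable def UU (τ : ℂ) : ℂ :=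
  FF τ * (cc * deriv DD τ) - 2 * DD τ * (cc * deriv FF τ)

private noncomputable def RR (τ : ℂ) : ℂ :=
  2 * FF τ * (cc * deriv (fun z => cc * deriv FF z) τ) - 3 * (cc * deriv FF τ) ^ 2

private theorem FFd (τ : ℂ) (h : 0 < τ.im) : DifferentiableAt ℂ FF τ := QE.diff FF_qe h
private theorem DDd (τ : ℂ) (h : 0 < τ.im) : DifferentiableAt ℂ DD τ := QE.diff DD_qe h

private theorem cc_ne : cc ≠ 0 := inv_ne_zero Complex.two_pi_I_ne_zero

private theorem FFdd (τ : ℂ) (h : 0 < τ.im) : DifferentiableAt ℂ (deriv FF) τ := by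
  have h1 := QE.diff (QE.thd FF_qe) h
  have h2 := h1.const_mul (cc⁻¹)
  refine h2.congr_of_eventuallyEq (Filter.Eventually.of_forall fun z => ?_)
  change deriv FF z = cc⁻¹ * (cc * deriv FF z)
  rw [inv_mul_cancel_left₀ cc_ne]

private theorem UU_tr {W J J' J'' : ℂ → ℂ} (hI : Inv W J J' J'')
    (hF : ∀ τ : ℂ, 0 < τ.im → FF (W τ) = J τ * FF τ)
    (hD : ∀ τ : ℂ, 0 < τ.im → DD (W τ) = J τ ^ 2 * DD τ) {τ : ℂ} (hτ : 0 < τ.im) :
    UU (W τ) = -J τ ^ 4 * UU τ := by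
  have h1 := der1 hI FFd 1 (fun τ hτ => by rw [pow_one]; exact hF τ hτ) hτ
  have h2 := der1 hI DDd 2 hD hτ
  simp only [UU]
  rw [h1, h2, hF τ hτ, hD τ hτ]
  push_cast
  ring

private theorem RR_tr {W J J' J'' : ℂ → ℂ} (hI : Inv W J J' J'')
    (hF : ∀ τ : ℂ, 0 < τ.im → FF (W τ) = J τ * FF τ) {τ : ℂ} (hτ : 0 < τ.im) :
    RR (W τ) = J τ ^ 4 * RR τ := by
  have h1 := der1 hI FFd 1 (fun τ hτ => by rw [pow_one]; exact hF τ hτ) hτ
  have h2 := der2 hI FFd FFdd hF hτ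
  simp only [RR, deriv_const_mul_field]
  rw [h1, h2, hF τ hτ]
  push_cast
  linear_combination (-cc ^ 2 * J τ ^ 2 * FF τ ^ 2) * hI.rel τ

private theorem UU_qe : QEZ UU (AF * th AD - 2 * AD * th AF) := by
  have hF := FF_qe
  have hD := DD_qe
  unfold QEZ at hF hD ⊢
  have h := (hF.mul hD.thd).sub (((QE.const 2).mul hD).mul hF.thd)
  have e : toC (AF * th AD - 2 * AD * th AF) =
      toC AF * th (toC AD) - PowerSeries.C 2 * toC AD * th (toC AF) := by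
    rw [← toC_th, ← toC_th]
    simp [toC, map_ofNat]
  rw [e]
  exact h

private theorem RR_qe : QEZ RR (2 * AF * th (th AF) - 3 * (th AF) ^ 2) := by
  have hF := FF_qe
  unfold QEZ at hF ⊢
  have h := (((QE.const 2).mul hF).mul hF.thd.thd).sub ((QE.const 3).mul (hF.thd.pow 2))
  have e : toC (2 * AF * th (th AF) - 3 * (th AF) ^ 2) =
      PowerSeries.C 2 * toC AF * th (th (toC AF)) - PowerSeries.C 3 * th (toC AF) ^ 2 := by
    rw [← toC_th, ← toC_th]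
    simp [toC, map_ofNat]
  rw [e]
  exact h

private theorem UU2_aut : Aut6 8 (fun τ => UU τ ^ 2) where
  qe := ⟨_, QE.pow UU_qe 2⟩
  w6 τ h := by
    rw [UU_tr inv6 (fun _ h => FF_W6 h) (fun _ h => DD_W6 h) h]
    ring
  w3 τ h := by
    rw [UU_tr inv3 (fun _ h => FF_W3 h) (fun _ h => DD_W3 h) h]
    ring

private theorem RR_aut : Aut6 4 RR where
  qe := ⟨_, RR_qe⟩
  w6 _ h := RR_tr inv6 (fun _ h => FF_W6 h) h
  w3 _ h := RR_tr inv3 (fun _ h => FF_W3 h) h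

/-- The coefficients below. -/
private theorem coeff_term (j i k : ℕ) :
    PowerSeries.coeff j (AD ^ i * AF ^ k) = if i ≤ j then
      PowerSeries.coeff (j - i) (AV ^ i * AF ^ k) else 0 := by
  rw [AD_eq, mul_pow, mul_assoc, PowerSeries.coeff_X_pow_mul']

private theorem coeff_term_self (j k : ℕ) : PowerSeries.coeff j (AD ^ j * AF ^ k) = 1 := by
  rw [coeff_term, if_pos le_rfl, Nat.sub_self]
  have h1 := AF_0
  have h2 := AV_0
  rw [PowerSeries.coeff_zero_eq_constantCoeff_apply] at h1 h2 ⊢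
  rw [map_mul, map_pow, map_pow, h1, h2, one_pow, one_pow, one_mul]

private theorem homF_zero (m : ℕ) (b : ℕ → ℤ)
    (h : ∀ i, i ≤ m / 2 → PowerSeries.coeff i (homF m b) = 0) : homF m b = 0 := by
  have hb : ∀ j, j ≤ m / 2 → b j = 0 := by
    intro j
    induction j using Nat.strong_induction_on with
    | _ j ih =>
      intro hj
      have h1 := h j hj
      rw [homF, map_sum, Finset.sum_eq_single j] at h1
      · rw [mul_assoc, PowerSeries.coeff_C_mul, coeff_term_self, mul_one] at h1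
        exact h1
      · intro i hi hij
        rcases lt_or_gt_of_ne hij with hlt | hgt
        · rw [ih i hlt (hlt.le.trans hj)]
          simp
        · rw [mul_assoc, PowerSeries.coeff_C_mul, coeff_term, if_neg (by omega), mul_zero]
      · intro hj'
        exact absurd (Finset.mem_range.2 (by omega)) hj'
  rw [homF]
  refine Finset.sum_eq_zero fun j hj => ?_
  rw [hb j (by have := Finset.mem_range.1 hj; omega)]
  simp

private theorem homF_sub (m : ℕ) (b c : ℕ → ℤ) :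
    homF m b - homF m c = homF m (fun j => b j - c j) := by
  simp only [homF]
  rw [← Finset.sum_sub_distrib]
  refine Finset.sum_congr rfl fun j _ => ?_
  rw [map_sub]
  ring

/-- Uniqueness from the first coefficients. -/
private theorem eq_homF {m : ℕ} {f : ℂ → ℂ} {A : PowerSeries ℤ} (hf : Aut6 m f) (hA : QEZ f A)
    (c : ℕ → ℤ) (h : ∀ i, i ≤ m / 2 → PowerSeries.coeff i A = PowerSeries.coeff i (homF m c)) :
    A = homF m c := by
  obtain ⟨b, -, hb, -⟩ := struct m hf hA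
  rw [← sub_eq_zero, hb, homF_sub]
  refine homF_zero _ _ fun i hi => ?_
  rw [← homF_sub, map_sub, ← hb, h i hi, sub_self]

private theorem homF8 : homF 8 (fun j => if j = 2 then 1 else if j = 3 then -28 else
    if j = 4 then -128 else 0) = AD ^ 2 * (AF ^ 4 - 28 * AF ^ 2 * AD - 128 * AD ^ 2) := by
  simp [homF, Finset.sum_range_succ]
  ring

private theorem homF4 : homF 4 (fun j => if j = 1 then 8 else if j = 2 then 96 else 0) =
    8 * AD * AF ^ 2 + 96 * AD ^ 2 := by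
  simp [homF, Finset.sum_range_succ]

private theorem trunc3 (P : PowerSeries ℤ) {c0 c1 c2 : ℤ} (h0 : PowerSeries.coeff 0 P = c0)
    (h1 : PowerSeries.coeff 1 P = c1) (h2 : PowerSeries.coeff 2 P = c2) :
    ∃ p : PowerSeries ℤ, P = PowerSeries.C c0 + PowerSeries.C c1 * PowerSeries.X +
      PowerSeries.C c2 * PowerSeries.X ^ 2 + PowerSeries.X ^ 3 * p := by
  have h : (PowerSeries.X : PowerSeries ℤ) ^ 3 ∣ P - (PowerSeries.C c0 +
      PowerSeries.C c1 * PowerSeries.X + PowerSeries.C c2 * PowerSeries.X ^ 2) := by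
    rw [PowerSeries.X_pow_dvd_iff]
    intro m hm
    interval_cases m
    · simp only [map_sub, map_add, PowerSeries.coeff_C_mul, PowerSeries.coeff_X_pow,
        PowerSeries.coeff_X, PowerSeries.coeff_C, h0]
      norm_num
    · simp only [map_sub, map_add, PowerSeries.coeff_C_mul, PowerSeries.coeff_X_pow,
        PowerSeries.coeff_X, PowerSeries.coeff_C, h1]
      norm_num
    · simp only [map_sub, map_add, PowerSeries.coeff_C_mul, PowerSeries.coeff_X_pow,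
        PowerSeries.coeff_X, PowerSeries.coeff_C, h2]
      norm_num
  obtain ⟨p, hp⟩ := h
  exact ⟨p, by rw [← hp]; ring⟩

private theorem trunc4 (P : PowerSeries ℤ) {c1 c2 c3 : ℤ} (h0 : PowerSeries.coeff 0 P = 0)
    (h1 : PowerSeries.coeff 1 P = c1) (h2 : PowerSeries.coeff 2 P = c2)
    (h3 : PowerSeries.coeff 3 P = c3) :
    ∃ p : PowerSeries ℤ, P = PowerSeries.C c1 * PowerSeries.X +
      PowerSeries.C c2 * PowerSeries.X ^ 2 + PowerSeries.C c3 * PowerSeries.X ^ 3 +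
      PowerSeries.X ^ 4 * p := by
  have h : (PowerSeries.X : PowerSeries ℤ) ^ 4 ∣ P - (PowerSeries.C c1 * PowerSeries.X +
      PowerSeries.C c2 * PowerSeries.X ^ 2 + PowerSeries.C c3 * PowerSeries.X ^ 3) := by
    rw [PowerSeries.X_pow_dvd_iff]
    intro m hm
    interval_cases m
    · simp only [map_sub, map_add, PowerSeries.coeff_C_mul, PowerSeries.coeff_X_pow,
        PowerSeries.coeff_X, h0]
      norm_num
    · simp only [map_sub, map_add, PowerSeries.coeff_C_mul, PowerSeries.coeff_X_pow,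
        PowerSeries.coeff_X, h1]
      norm_num
    · simp only [map_sub, map_add, PowerSeries.coeff_C_mul, PowerSeries.coeff_X_pow,
        PowerSeries.coeff_X, h2]
      norm_num
    · simp only [map_sub, map_add, PowerSeries.coeff_C_mul, PowerSeries.coeff_X_pow,
        PowerSeries.coeff_X, h3]
      norm_num
  obtain ⟨p, hp⟩ := h
  exact ⟨p, by rw [← hp]; ring⟩

private theorem coeff_th (n : ℕ) (P : PowerSeries ℤ) :
    PowerSeries.coeff n (th P) = n * PowerSeries.coeff n P := by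
  simp [th]

private theorem exF : ∃ p, AF = 1 + 4 * PowerSeries.X + 20 * PowerSeries.X ^ 2 +
    PowerSeries.X ^ 3 * p := by
  obtain ⟨p, hp⟩ := trunc3 AF AF_0 AF_1 AF_2
  exact ⟨p, by rw [hp]; simp [map_ofNat]⟩

private theorem exF1 : ∃ p, th AF = 4 * PowerSeries.X + 40 * PowerSeries.X ^ 2 +
    PowerSeries.X ^ 3 * p := by
  obtain ⟨p, hp⟩ := trunc3 (th AF) (c0 := 0) (c1 := 4) (c2 := 40) (by simp [coeff_th])
    (by rw [coeff_th, AF_1]; norm_num) (by rw [coeff_th, AF_2]; norm_num)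
  exact ⟨p, by rw [hp]; simp [map_ofNat]⟩

private theorem exF2 : ∃ p, th (th AF) = 4 * PowerSeries.X + 80 * PowerSeries.X ^ 2 +
    PowerSeries.X ^ 3 * p := by
  obtain ⟨p, hp⟩ := trunc3 (th (th AF)) (c0 := 0) (c1 := 4) (c2 := 80) (by simp [coeff_th])
    (by rw [coeff_th, coeff_th, AF_1]; norm_num) (by rw [coeff_th, coeff_th, AF_2]; norm_num)
  exact ⟨p, by rw [hp]; simp [map_ofNat]⟩

private theorem coeff_AD (n : ℕ) : PowerSeries.coeff (n + 1) AD = PowerSeries.coeff n AV := by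
  simp [AV]

private theorem AD_0 : PowerSeries.coeff 0 AD = 0 := by
  rw [AD_eq]; simp

private theorem exD : ∃ p, AD = PowerSeries.X - 2 * PowerSeries.X ^ 2 - 3 * PowerSeries.X ^ 3 +
    PowerSeries.X ^ 4 * p := by
  obtain ⟨p, hp⟩ := trunc4 AD (c1 := 1) (c2 := -2) (c3 := -3) AD_0
    (by rw [coeff_AD 0, AV_0]) (by rw [coeff_AD 1, AV_1]) (by rw [coeff_AD 2, AV_2])
  exact ⟨p, by rw [hp]; simp; ring⟩

private theorem exD1 : ∃ p, th AD = PowerSeries.X - 4 * PowerSeries.X ^ 2 -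
    9 * PowerSeries.X ^ 3 + PowerSeries.X ^ 4 * p := by
  obtain ⟨p, hp⟩ := trunc4 (th AD) (c1 := 1) (c2 := -4) (c3 := -9)
    (by simp [coeff_th]) (by rw [coeff_th, coeff_AD 0, AV_0]; norm_num)
    (by rw [coeff_th, coeff_AD 1, AV_1]; norm_num) (by rw [coeff_th, coeff_AD 2, AV_2]; norm_num)
  exact ⟨p, by rw [hp]; simp; ring⟩

private theorem algU {R : Type*} [CommRing R] (Z a a1 v v1 : R) :
    ((1 + 4 * Z + 20 * Z ^ 2 + Z ^ 3 * a) * (Z - 4 * Z ^ 2 - 9 * Z ^ 3 + Z ^ 4 * v1) -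
      2 * (Z - 2 * Z ^ 2 - 3 * Z ^ 3 + Z ^ 4 * v) * (4 * Z + 40 * Z ^ 2 + Z ^ 3 * a1)) ^ 2 -
    (Z - 2 * Z ^ 2 - 3 * Z ^ 3 + Z ^ 4 * v) ^ 2 * ((1 + 4 * Z + 20 * Z ^ 2 + Z ^ 3 * a) ^ 4 -
      28 * (1 + 4 * Z + 20 * Z ^ 2 + Z ^ 3 * a) ^ 2 * (Z - 2 * Z ^ 2 - 3 * Z ^ 3 + Z ^ 4 * v) -
      128 * (Z - 2 * Z ^ 2 - 3 * Z ^ 3 + Z ^ 4 * v) ^ 2) = Z ^ 5 * (
      ((32) + (2)*v1 + (-2)*v + (-4)*a1 + (-2)*a) + Z * ((376) + (-8)*v1 + (40)*v +
      (40)*a1) + Z^2 * ((-8340) + (-162)*v1 + (534)*v + (224)*a1 + (-436)*a) + Z^3 *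
      ((-2816) + (-736)*v1 + (1)*v1^2 + (-472)*v + (-1)*v^2 + (-920)*a1 + (-4)*a1*v1 +
      (-4)*a1*v + (4)*a1^2 + (376)*a + (4)*a*v1 + (-8)*a*v + (-4)*a*a1 + (-5)*a^2) + Z^4 *
      ((238220) + (-2096)*v1 + (8)*v1^2 + (-1296)*v + (-16)*v*v1 + (68)*v^2 + (-524)*a1 +
      (-8)*a1*v1 + (64)*a1*v + (-16)*a1^2 + (-3346)*a + (-16)*a*v1 + (72)*a*v + (24)*a*a1
      + (-4)*a^2) + Z^5 * ((342480) + (3200)*v1 + (56)*v1^2 + (-33612)*v + (-224)*v*v1 +
      (1160)*v^2 + (1296)*a1 + (-36)*a1*v1 + (532)*a1*v + (-8)*a1^2 + (21520)*a +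
      (-148)*a*v1 + (-744)*a*v + (16)*a*a1 + (-302)*a^2) + Z^6 * ((-525088) + (2400)*v1 +
      (160)*v1^2 + (-117536)*v + (-960)*v*v1 + (100)*v^2 + (720)*a1 + (208)*a1*v1 +
      (-1008)*a1*v + (-4)*a1*v*v1 + (48)*a1^2 + (8)*a1^2*v + (57320)*a + (-96)*a*v1 +
      (2)*a*v1^2 + (-1216)*a*v + (-4)*a*v^2 + (-120)*a*a1 + (-4)*a*a1*v1 + (-4)*a*a1*v +
      (564)*a^2 + (2)*a^2*v1 + (-12)*a^2*v + (-4)*a^3) + Z^7 * ((-2564992) + (400)*v1^2 +
      (280288)*v + (-3200)*v*v1 + (384)*v^2 + (28)*v^3 + (240)*a1*v1 + (-1200)*a1*v +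
      (-16)*a1*v*v1 + (32)*a1*v^2 + (36)*a1^2 + (-16)*a1^2*v + (19448)*a + (-240)*a*v1 +
      (8)*a*v1^2 + (-17312)*a*v + (-16)*a*v*v1 + (120)*a*v^2 + (-108)*a*a1 + (8)*a*a1*v1 +
      (16)*a*a1*v + (2347)*a^2 + (-8)*a^2*v1 + (12)*a^2*v) + Z^8 * ((-3374400) +
      (1124736)*v + (-22496)*v^2 + (736)*v^3 + (-80)*a1*v*v1 + (320)*a1*v^2 + (-24)*a1^2*v
      + (-310688)*a + (40)*a*v1^2 + (12072)*a*v + (-160)*a*v*v1 + (-96)*a*v^2 +
      (12)*a*a1*v1 + (36)*a*a1*v + (6804)*a^2 + (-18)*a^2*v1 + (-780)*a^2*v + (-8)*a^3) +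
      Z^9 * ((-1440000) + (1710400)*v + (-171008)*v^2 + (544)*v^3 + (4)*a1^2*v^2 +
      (-587040)*a + (111008)*a*v + (-664)*a*v^2 + (-4)*a*a1*v*v1 + (-11256)*a^2 +
      (1)*a^2*v1^2 + (-456)*a^2*v + (-6)*a^2*v^2 + (304)*a^3 + (-8)*a^3*v + (-1)*a^4) +
      Z^10 * ((960000)*v + (-228800)*v^2 + (2944)*v^3 + (-288000)*a + (273440)*a*v +
      (-17376)*a*v^2 + (56)*a*v^3 + (-38196)*a^2 + (2064)*a^2*v + (36)*a^2*v^2 + (-68)*a^3
      + (-16)*a^3*v + (4)*a^4) + Z^11 * ((-160000)*v^2 + (11200)*v^3 + (128)*v^4 +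
      (192000)*a*v + (-29280)*a*v^2 + (224)*a*v^3 + (-21600)*a^2 + (16116)*a^2*v +
      (-504)*a^2*v^2 + (-1104)*a^3 + (-72)*a^3*v + (2)*a^4) + Z^12 * ((-32000)*a*v^2 +
      (1120)*a*v^3 + (14400)*a^2*v + (-1212)*a^2*v^2 + (-720)*a^3 + (416)*a^3*v +
      (-4)*a^3*v^2 + (-12)*a^4 + (-2)*a^4*v) + Z^13 * ((-2400)*a^2*v^2 + (28)*a^2*v^3 +
      (480)*a^3*v + (-16)*a^3*v^2 + (-9)*a^4 + (4)*a^4*v) + Z^14 * ((-80)*a^3*v^2 +
      (6)*a^4*v) + Z^15 * ((-1)*a^4*v^2)) := by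
  ring

private theorem algR {R : Type*} [CommRing R] (Z a a1 a2 v : R) :
    (2 * (1 + 4 * Z + 20 * Z ^ 2 + Z ^ 3 * a) * (4 * Z + 80 * Z ^ 2 + Z ^ 3 * a2) -
      3 * (4 * Z + 40 * Z ^ 2 + Z ^ 3 * a1) ^ 2) -
    (8 * (Z - 2 * Z ^ 2 - 3 * Z ^ 3 + Z ^ 4 * v) * (1 + 4 * Z + 20 * Z ^ 2 + Z ^ 3 * a) ^ 2 +
      96 * (Z - 2 * Z ^ 2 - 3 * Z ^ 3 + Z ^ 4 * v) ^ 2) = Z ^ 3 * (
      ((-72) + (2)*a2) + Z * ((-1600) + (-8)*v + (8)*a2 + (-24)*a1 + (-8)*a) + Z^2 *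
      ((-448) + (-256)*v + (40)*a2 + (-240)*a1 + (128)*a) + Z^3 * ((9376) + (-64)*v +
      (-3)*a1^2 + (-144)*a + (2)*a*a2) + Z^4 * ((9600) + (-704)*v + (832)*a + (-16)*a*v +
      (-8)*a^2) + Z^5 * ((-3200)*v + (-96)*v^2 + (960)*a + (-64)*a*v + (16)*a^2) + Z^6 *
      ((-320)*a*v + (24)*a^2) + Z^7 * ((-8)*a^2*v)) := by
  ring

private theorem coeff_eq_of_sub {A B w : PowerSeries ℤ} {n : ℕ}
    (h : A - B = PowerSeries.X ^ n * w) {i : ℕ} (hi : i < n) :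
    PowerSeries.coeff i A = PowerSeries.coeff i B := by
  rw [← sub_eq_zero, ← map_sub, h, PowerSeries.coeff_X_pow_mul', if_neg (by omega)]

theorem id_U : (AF * th AD - 2 * AD * th AF) ^ 2 =
    AD ^ 2 * (AF ^ 4 - 28 * AF ^ 2 * AD - 128 * AD ^ 2) := by
  have hq : QEZ (fun τ => UU τ ^ 2) ((AF * th AD - 2 * AD * th AF) ^ 2) := by
    have := QE.pow UU_qe 2
    unfold QEZ
    rw [toC, map_pow]
    exact this
  rw [← homF8]
  refine eq_homF UU2_aut hq _ fun i hi => ?_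
  rw [homF8]
  obtain ⟨a, ha⟩ := exF
  obtain ⟨a1, ha1⟩ := exF1
  obtain ⟨v, hv⟩ := exD
  obtain ⟨v1, hv1⟩ := exD1
  have h := algU PowerSeries.X a a1 v v1
  rw [← ha, ← ha1, ← hv, ← hv1] at h
  exact coeff_eq_of_sub h (by omega)

theorem id_R : 2 * AF * th (th AF) - 3 * (th AF) ^ 2 = 8 * AD * AF ^ 2 + 96 * AD ^ 2 := by
  rw [← homF4]
  refine eq_homF RR_aut RR_qe _ fun i hi => ?_
  rw [homF4]
  obtain ⟨a, ha⟩ := exF
  obtain ⟨a1, ha1⟩ := exF1
  obtain ⟨a2, ha2⟩ := exF2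
  obtain ⟨v, hv⟩ := exD
  have h := algR PowerSeries.X a a1 a2 v
  rw [← ha, ← ha1, ← hv, ← ha2] at h
  exact coeff_eq_of_sub h (by omega)

end Pool.Agent.Lib.Z32
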