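import Pool.Agent.Lib.MP_ad286f_nt.Ids
import Pool.Agent.Lib.MP_ad286f_nt.Franel

/-!
# Module Ode: the differential equation modulo p^2 (formal)

With `z = D/F^2`, `kappa = theta z/z`, `kappa^2 = F^2 (1 - 28 z - 128 z^2)`:
`theta^3 (z^n/F) = F kappa (n^3 z^n - A_n z^(n+1) - B_n z^(n+2))`.
-/

namespace Pool.Agent.Lib.Z32

noncomputable section

private def Fi : PowerSeries ℤ := PowerSeries.invOfUnit AF 1
private def Vi : PowerSeries ℤ := PowerSeries.invOfUnit AV 1

private theorem hF : AF * Fi = 1 := PowerSeries.mul_invOfUnit AF 1 (by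
  rw [← PowerSeries.coeff_zero_eq_constantCoeff_apply, AF_0]; rfl)

private theorem hV : AV * Vi = 1 := PowerSeries.mul_invOfUnit AV 1 (by
  rw [← PowerSeries.coeff_zero_eq_constantCoeff_apply, AV_0]; rfl)

private def zz : PowerSeries ℤ := AD * Fi ^ 2
private def kap : PowerSeries ℤ := 1 + th AV * Vi - 2 * th AF * Fi

private theorem th_X : th (PowerSeries.X : PowerSeries ℤ) = PowerSeries.X := by
  ext n
  simp only [th, PowerSeries.coeff_mk, PowerSeries.coeff_X]
  split_ifs with h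
  · subst h; simp
  · simp

private theorem thAD : th AD = PowerSeries.X * (AV + th AV) := by
  rw [AD_eq, th_mul, th_X]; ring

private theorem L3 : AF * th AD - 2 * AD * th AF = AD * AF * kap := by
  rw [thAD, AD_eq, kap]
  linear_combination (-(PowerSeries.X) * AF * th AV) * hV + 2 * PowerSeries.X * AV * th AF * hF

private theorem AD_ne : AD ≠ 0 := by
  rw [AD_eq]
  intro h
  have h1 := congrArg (PowerSeries.coeff 1) h
  rw [show (1 : ℕ) = 0 + 1 from rfl, PowerSeries.coeff_succ_X_mul, AV_0] at h1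
  simp at h1

private theorem hz : AD = zz * AF ^ 2 := by
  rw [zz]; linear_combination (-(AD * (AF * Fi + 1))) * hF

private theorem L4 : kap ^ 2 = AF ^ 2 * (1 - 28 * zz - 128 * zz ^ 2) := by
  have h := id_U
  rw [L3] at h
  have h2 : AD ^ 2 * (AF ^ 2 * kap ^ 2) = AD ^ 2 * (AF ^ 4 - 28 * AF ^ 2 * AD - 128 * AD ^ 2) := by
    rw [← h]; ring
  have h3 := mul_left_cancel₀ (pow_ne_zero 2 AD_ne) h2
  rw [hz] at h3
  linear_combination Fi ^ 2 * h3 - (kap ^ 2 - AF ^ 2 * (1 - 28 * zz - 128 * zz ^ 2))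
    * (AF * Fi + 1) * hF

private theorem L5 : th zz = kap * zz := by
  have h1 : th AD = 2 * AF * th AF * zz + AF ^ 2 * th zz := by
    conv_lhs => rw [hz]
    rw [th_mul, pow_two, th_mul]; ring
  have h2 := L3
  rw [h1, hz] at h2
  linear_combination Fi ^ 3 * h2 - (th zz - kap * zz) * (AF ^ 2 * Fi ^ 2 + AF * Fi + 1) * hF

private theorem L8 : th Fi = -(th AF * Fi ^ 2) := by
  have h := congrArg th hF
  rw [th_mul, show (1 : PowerSeries ℤ) = PowerSeries.C (1 : ℤ) by simp, th_C] at h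
  linear_combination Fi * h - th Fi * hF

private theorem L7 : 2 * th (th AF) = 3 * (th AF) ^ 2 * Fi + AF ^ 3 * (8 * zz + 96 * zz ^ 2) := by
  have h := id_R
  rw [hz] at h
  linear_combination Fi * h - (2 * th (th AF) - AF ^ 3 * (8 * zz + 96 * zz ^ 2)) * hF

private theorem th_nat (n : ℕ) : th (n : PowerSeries ℤ) = 0 := by
  rw [show (n : PowerSeries ℤ) = PowerSeries.C (n : ℤ) by simp, th_C]

private theorem th_neg (A : PowerSeries ℤ) : th (-A) = -th A := by
  ext n; simp [th]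

private theorem th_sub (A B : PowerSeries ℤ) : th (A - B) = th A - th B := by
  rw [sub_eq_add_neg, th_add, th_neg, ← sub_eq_add_neg]

private theorem th_zpow (n : ℕ) : th (zz ^ n) = n * kap * zz ^ n := by
  induction n with
  | zero => rw [pow_zero, show (1 : PowerSeries ℤ) = ((1 : ℕ) : PowerSeries ℤ) by simp, th_nat]; simp
  | succ n ih => rw [pow_succ, th_mul, ih, L5]; push_cast; ring

private theorem th_natmul (n : ℕ) (A : PowerSeries ℤ) :
    th ((n : PowerSeries ℤ) * A) = (n : PowerSeries ℤ) * th A := by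
  rw [th_mul, th_nat]; ring

private theorem cc_th (A : PowerSeries ℤ) : PowerSeries.constantCoeff (th A) = 0 := by
  rw [← PowerSeries.coeff_zero_eq_constantCoeff_apply]; simp [th]

private theorem cc_kap : PowerSeries.constantCoeff kap = 1 := by
  simp only [kap, map_sub, map_add, map_mul, cc_th]
  simp

private theorem kap_ne : kap ≠ 0 := by
  intro h
  have := cc_kap
  rw [h] at this
  simp at this

private theorem two_ne : (2 : PowerSeries ℤ) ≠ 0 := by
  intro h
  have h1 := congrArg (PowerSeries.constantCoeff) h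
  rw [map_ofNat, map_zero] at h1
  norm_num at h1

private theorem L6 : th kap = kap * th AF * Fi - AF ^ 2 * (14 * zz + 128 * zz ^ 2) := by
  have h := congrArg th L4
  have e1 : th (kap ^ 2) = 2 * kap * th kap := by rw [pow_two, th_mul]; ring
  have e2 : th (AF ^ 2 * (1 - 28 * zz - 128 * zz ^ 2)) =
      2 * AF * th AF * (1 - 28 * zz - 128 * zz ^ 2)
        + AF ^ 2 * (-(28 * (kap * zz)) - 256 * kap * zz ^ 2) := by
    have e3 : (1 - 28 * zz - 128 * zz ^ 2 : PowerSeries ℤ)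
        = ((1 : ℕ) : PowerSeries ℤ) - ((28 : ℕ) : PowerSeries ℤ) * zz
          - ((128 : ℕ) : PowerSeries ℤ) * zz ^ 2 := by
      push_cast; ring
    rw [th_mul, pow_two, th_mul, e3, th_sub, th_sub, th_nat, th_natmul, th_natmul, th_zpow, L5]
    push_cast
    ring
  rw [e1, e2] at h
  have h2 : 2 * kap * th kap = 2 * kap * (kap * th AF * Fi - AF ^ 2 * (14 * zz + 128 * zz ^ 2)) := by
    linear_combination h - 2 * th AF * Fi * L4
      - 2 * AF * th AF * (1 - 28 * zz - 128 * zz ^ 2) * hF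
  have h20 : (2 * kap : PowerSeries ℤ) ≠ 0 := mul_ne_zero two_ne kap_ne
  exact mul_left_cancel₀ h20 h2

private theorem D1 (n : ℕ) : th (zz ^ n * Fi) =
    (n : PowerSeries ℤ) * kap * zz ^ n * Fi - zz ^ n * th AF * Fi ^ 2 := by
  rw [th_mul, th_zpow, L8]; ring

private theorem D2 (n : ℕ) : ((2 : ℕ) : PowerSeries ℤ) * th (th (zz ^ n * Fi)) =
    zz ^ n * (AF * (((2 * n ^ 2 : ℕ) : PowerSeries ℤ) - ((56 * n ^ 2 + 28 * n + 8 : ℕ) : PowerSeries ℤ) * zz
      - ((256 * n ^ 2 + 256 * n + 96 : ℕ) : PowerSeries ℤ) * zz ^ 2)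
      - ((2 * n : ℕ) : PowerSeries ℤ) * (kap * th AF * Fi ^ 2) + (th AF) ^ 2 * Fi ^ 3) := by
  have e1 : th ((n : PowerSeries ℤ) * kap * zz ^ n * Fi) =
      (n : PowerSeries ℤ) * (th kap * zz ^ n * Fi
        + kap * ((n : PowerSeries ℤ) * kap * zz ^ n) * Fi
        + kap * zz ^ n * (-(th AF * Fi ^ 2))) := by
    rw [th_mul, th_mul, th_natmul, th_zpow, L8]; ring
  have e2 : th (zz ^ n * th AF * Fi ^ 2) = (n : PowerSeries ℤ) * kap * zz ^ n * th AF * Fi ^ 2
      + zz ^ n * th (th AF) * Fi ^ 2 + zz ^ n * th AF * (2 * Fi * (-(th AF * Fi ^ 2))) := by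
    rw [th_mul, th_mul, th_zpow, pow_two Fi, th_mul, L8]; ring
  rw [D1, th_sub, e1, e2]
  push_cast
  linear_combination 2 * (n : PowerSeries ℤ) * zz ^ n * Fi * L6
    + 2 * (n : PowerSeries ℤ) ^ 2 * zz ^ n * Fi * L4 - zz ^ n * Fi ^ 2 * L7
    + (-(2 * (n : PowerSeries ℤ) * zz ^ n * (14 * zz + 128 * zz ^ 2) * AF)
      + 2 * (n : PowerSeries ℤ) ^ 2 * zz ^ n * (1 - 28 * zz - 128 * zz ^ 2) * AF
      - zz ^ n * (8 * zz + 96 * zz ^ 2) * AF * (AF * Fi + 1)) * hF

private theorem D3 (n : ℕ) : th (th (th (zz ^ n * Fi))) =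
    AF * kap * (((n ^ 3 : ℕ) : PowerSeries ℤ) * zz ^ n
      - ((2 * (2 * n + 1) * (7 * n ^ 2 + 7 * n + 2) : ℕ) : PowerSeries ℤ) * zz ^ (n + 1)
      - ((32 * (n + 1) * (2 * n + 1) * (2 * n + 3) : ℕ) : PowerSeries ℤ) * zz ^ (n + 2)) := by
  have h := congrArg th (D2 n)
  rw [th_natmul] at h
  have e0 : th (AF * (((2 * n ^ 2 : ℕ) : PowerSeries ℤ) - ((56 * n ^ 2 + 28 * n + 8 : ℕ) : PowerSeries ℤ) * zz
      - ((256 * n ^ 2 + 256 * n + 96 : ℕ) : PowerSeries ℤ) * zz ^ 2)) =
      th AF * (((2 * n ^ 2 : ℕ) : PowerSeries ℤ) - ((56 * n ^ 2 + 28 * n + 8 : ℕ) : PowerSeries ℤ) * zz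
      - ((256 * n ^ 2 + 256 * n + 96 : ℕ) : PowerSeries ℤ) * zz ^ 2)
      + AF * (-((56 * n ^ 2 + 28 * n + 8 : ℕ) : PowerSeries ℤ) * (kap * zz)
        - 2 * ((256 * n ^ 2 + 256 * n + 96 : ℕ) : PowerSeries ℤ) * kap * zz ^ 2) := by
    rw [th_mul, th_sub, th_sub, th_nat, th_natmul, th_natmul, th_zpow, L5]
    push_cast
    ring
  have e1 : th (((2 * n : ℕ) : PowerSeries ℤ) * (kap * th AF * Fi ^ 2)) =
      ((2 * n : ℕ) : PowerSeries ℤ) * (th kap * th AF * Fi ^ 2 + kap * th (th AF) * Fi ^ 2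
        + kap * th AF * (2 * Fi * (-(th AF * Fi ^ 2)))) := by
    rw [th_natmul, th_mul, th_mul, pow_two Fi, th_mul, L8]; ring
  have e2 : th ((th AF) ^ 2 * Fi ^ 3) = 2 * th AF * th (th AF) * Fi ^ 3
      + (th AF) ^ 2 * (3 * Fi ^ 2 * (-(th AF * Fi ^ 2))) := by
    rw [th_mul, pow_two (th AF), th_mul, pow_succ Fi 2, th_mul, pow_two Fi, th_mul, L8]; ring
  have e3 : ∀ A B C : PowerSeries ℤ, th (zz ^ n * (A - B + C)) =
      n * kap * zz ^ n * (A - B + C) + zz ^ n * (th A - th B + th C) := by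
    intro A B C
    rw [th_mul, th_zpow, th_add, th_sub]
  rw [e3, e0, e1, e2] at h
  have h2 : (2 : PowerSeries ℤ) * th (th (th (zz ^ n * Fi))) = 2 * (
    AF * kap * (((n ^ 3 : ℕ) : PowerSeries ℤ) * zz ^ n
      - ((2 * (2 * n + 1) * (7 * n ^ 2 + 7 * n + 2) : ℕ) : PowerSeries ℤ) * zz ^ (n + 1)
      - ((32 * (n + 1) * (2 * n + 1) * (2 * n + 3) : ℕ) : PowerSeries ℤ) * zz ^ (n + 2))) := by
    push_cast at h ⊢
    linear_combination h - 2 * (n : PowerSeries ℤ) * th AF * Fi ^ 2 * zz ^ n * L6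
      + (-((n : PowerSeries ℤ) * kap * Fi ^ 2 * zz ^ n) + th AF * Fi ^ 3 * zz ^ n) * L7
      - 2 * (n : PowerSeries ℤ) ^ 2 * zz ^ n * th AF * Fi ^ 2 * L4
      + (2 * (n : PowerSeries ℤ) * th AF * zz ^ n * (14 * zz + 128 * zz ^ 2) * (AF * Fi + 1)
        - (n : PowerSeries ℤ) * kap * zz ^ n * AF * (8 * zz + 96 * zz ^ 2) * (AF * Fi + 1)
        + th AF * zz ^ n * (8 * zz + 96 * zz ^ 2) * (AF ^ 2 * Fi ^ 2 + AF * Fi + 1)
        - 2 * (n : PowerSeries ℤ) ^ 2 * zz ^ n * th AF * (1 - 28 * zz - 128 * zz ^ 2)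
          * (AF * Fi + 1)) * hF
  exact mul_left_cancel₀ two_ne h2

/-! ### Modulo `N`: divisibility of all coefficients is divisibility by the constant. -/

private theorem dvdC {N : ℤ} {A : PowerSeries ℤ} :
    (N : PowerSeries ℤ) ∣ A ↔ ∀ i, N ∣ PowerSeries.coeff i A := by
  constructor
  · rintro ⟨B, rfl⟩ i
    rw [show (N : PowerSeries ℤ) = PowerSeries.C N by simp, PowerSeries.coeff_C_mul]
    exact dvd_mul_right _ _
  · intro h
    refine ⟨PowerSeries.mk (fun i => PowerSeries.coeff i A / N), ?_⟩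
    ext i
    rw [show (N : PowerSeries ℤ) = PowerSeries.C N by simp, PowerSeries.coeff_C_mul,
      PowerSeries.coeff_mk]
    exact (Int.mul_ediv_cancel' (h i)).symm

private theorem th_int (N : ℤ) : th (N : PowerSeries ℤ) = 0 := by
  rw [show (N : PowerSeries ℤ) = PowerSeries.C N by simp, th_C]

private theorem th_intmul (N : ℤ) (A : PowerSeries ℤ) :
    th ((N : PowerSeries ℤ) * A) = (N : PowerSeries ℤ) * th A := by
  rw [th_mul, th_int]; ring

private theorem th_dvd {N : ℤ} {A : PowerSeries ℤ} (h : (N : PowerSeries ℤ) ∣ A) :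
    (N : PowerSeries ℤ) ∣ th A := by
  obtain ⟨B, rfl⟩ := h
  rw [th_intmul]
  exact dvd_mul_right _ _

private theorem th_sum {ι : Type*} (s : Finset ι) (A : ι → PowerSeries ℤ) :
    th (∑ i ∈ s, A i) = ∑ i ∈ s, th (A i) := by
  ext n
  simp [th, Finset.mul_sum]

/-- `z = X w`, `w` has constant coefficient 1. -/
private def ww : PowerSeries ℤ := AV * Fi ^ 2

private theorem zz_eq : zz = PowerSeries.X * ww := by
  rw [zz, ww, AD_eq]; ring

private theorem cc_F : PowerSeries.constantCoeff AF = 1 := by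
  rw [← PowerSeries.coeff_zero_eq_constantCoeff_apply, AF_0]

private theorem cc_Fi : PowerSeries.constantCoeff Fi = 1 := by
  have h := congrArg (PowerSeries.constantCoeff) hF
  rw [map_mul, cc_F, map_one, one_mul] at h
  exact h

private theorem cc_ww : PowerSeries.constantCoeff ww = 1 := by
  rw [ww, map_mul, map_pow, cc_Fi, ← PowerSeries.coeff_zero_eq_constantCoeff_apply, AV_0]
  simp

/-- Triangularity. -/
private theorem tri {N : ℤ} (M : ℕ) (e : ℕ → ℤ)
    (h : (N : PowerSeries ℤ) ∣ ∑ j ∈ Finset.range M, (e j : PowerSeries ℤ) * zz ^ j) :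
    ∀ j, j < M → N ∣ e j := by
  intro j
  induction j using Nat.strong_induction_on with
  | _ j ih =>
    intro hj
    have h1 := dvdC.mp h j
    rw [map_sum] at h1
    have key : ∀ i ∈ Finset.range M, PowerSeries.coeff j ((e i : PowerSeries ℤ) * zz ^ i)
        = e i * (if i ≤ j then PowerSeries.coeff (j - i) (ww ^ i) else 0) := by
      intro i _
      rw [show (e i : PowerSeries ℤ) = PowerSeries.C (e i) by simp, PowerSeries.coeff_C_mul,
        zz_eq, mul_pow, PowerSeries.coeff_X_pow_mul']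
    rw [Finset.sum_congr rfl key, ← Finset.add_sum_erase _ _ (Finset.mem_range.mpr hj)] at h1
    have h2 : N ∣ ∑ x ∈ (Finset.range M).erase j,
        e x * (if x ≤ j then PowerSeries.coeff (j - x) (ww ^ x) else 0) := by
      apply Finset.dvd_sum
      intro x hx
      rw [Finset.mem_erase, Finset.mem_range] at hx
      by_cases hxj : x ≤ j
      · exact Dvd.dvd.mul_right (ih x (lt_of_le_of_ne hxj hx.1) hx.2) _
      · simp [hxj]
    rw [if_pos le_rfl, Nat.sub_self, PowerSeries.coeff_zero_eq_constantCoeff_apply, map_pow, cc_ww,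
      one_pow, mul_one] at h1
    exact (dvd_add_left h2).mp h1

private def opA (j : ℕ) : ℤ := 2 * (2 * j + 1) * (7 * (j : ℤ) ^ 2 + 7 * j + 2)
private def opB (j : ℕ) : ℤ := 32 * ((j : ℤ) + 1) * (2 * j + 1) * (2 * j + 3)

private def ee (c : ℕ → ℤ) : ℕ → ℤ
  | 0 => 0
  | 1 => c 1 - opA 0 * c 0
  | (j + 2) => ((j : ℤ) + 2) ^ 3 * c (j + 2) - opA (j + 1) * c (j + 1) - opB j * c j

private theorem shift (p : ℕ) (c : ℕ → ℤ) (hc : ∀ j, p < j → c j = 0) :
    ∑ j ∈ Finset.range (p + 1), (c j : PowerSeries ℤ) * (((j : ℤ) ^ 3 : ℤ) * zz ^ j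
      - (opA j : PowerSeries ℤ) * zz ^ (j + 1) - (opB j : PowerSeries ℤ) * zz ^ (j + 2)) =
    ∑ j ∈ Finset.range (p + 3), (ee c j : PowerSeries ℤ) * zz ^ j := by
  have h1 : ∑ j ∈ Finset.range (p + 1), ((j : ℤ) ^ 3 * c j : ℤ) * zz ^ j
      = ∑ j ∈ Finset.range (p + 3), (((j : ℤ) ^ 3 * c j : ℤ) : PowerSeries ℤ) * zz ^ j := by
    rw [Finset.sum_range_succ _ (p + 2), Finset.sum_range_succ _ (p + 1), hc (p + 1) (by omega),
      hc (p + 2) (by omega)]
    simp
  have h2 : ∑ j ∈ Finset.range (p + 1), (opA j * c j : ℤ) * zz ^ (j + 1)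
      = ∑ j ∈ Finset.range (p + 2), ((opA j * c j : ℤ) : PowerSeries ℤ) * zz ^ (j + 1) := by
    rw [Finset.sum_range_succ _ (p + 1), hc (p + 1) (by omega)]
    simp
  have h3 : ∑ j ∈ Finset.range (p + 1), (c j : PowerSeries ℤ) * (((j : ℤ) ^ 3 : ℤ) * zz ^ j
      - (opA j : PowerSeries ℤ) * zz ^ (j + 1) - (opB j : PowerSeries ℤ) * zz ^ (j + 2))
      = ∑ j ∈ Finset.range (p + 1), ((j : ℤ) ^ 3 * c j : ℤ) * zz ^ j
        - ∑ j ∈ Finset.range (p + 1), (opA j * c j : ℤ) * zz ^ (j + 1)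
        - ∑ j ∈ Finset.range (p + 1), (opB j * c j : ℤ) * zz ^ (j + 2) := by
    rw [← Finset.sum_sub_distrib, ← Finset.sum_sub_distrib]
    apply Finset.sum_congr rfl
    intro j _
    push_cast
    ring
  rw [h3, h1, h2, Finset.sum_range_succ' _ (p + 2), Finset.sum_range_succ' _ (p + 1),
    Finset.sum_range_succ' _ (p + 1), Finset.sum_range_succ' _ (p + 2),
    Finset.sum_range_succ' _ (p + 1)]
  simp only [ee]
  push_cast
  have h4 : ∑ k ∈ Finset.range (p + 1), ((((k : PowerSeries ℤ) + 2) ^ 3 * (c (k + 2) : PowerSeries ℤ)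
      - (opA (k + 1) : PowerSeries ℤ) * (c (k + 1) : PowerSeries ℤ)
      - (opB k : PowerSeries ℤ) * (c k : PowerSeries ℤ)) * zz ^ (k + 2))
      = ∑ k ∈ Finset.range (p + 1), ((k : PowerSeries ℤ) + 2) ^ 3 * (c (k + 2) : PowerSeries ℤ)
          * zz ^ (k + 2)
        - ∑ k ∈ Finset.range (p + 1), (opA (k + 1) : PowerSeries ℤ) * (c (k + 1) : PowerSeries ℤ)
          * zz ^ (k + 2)
        - ∑ k ∈ Finset.range (p + 1), (opB k : PowerSeries ℤ) * (c k : PowerSeries ℤ)
          * zz ^ (k + 2) := by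
    rw [← Finset.sum_sub_distrib, ← Finset.sum_sub_distrib]
    apply Finset.sum_congr rfl
    intro j _
    ring
  have h6 : ∀ x : ℕ, ((x : PowerSeries ℤ) + 1 + 1) = x + 2 := by intro x; ring
  have h7 : ∀ x : ℕ, x + 1 + 1 = x + 2 := fun _ => rfl
  simp only [h6, h7]
  rw [h4]
  ring

/-- A polynomial `f` in `z` of degree at most `p` with `f(0) = 1` and `f(z(q)) = F h`,
`theta^3 h = 0` modulo `p^2`, is the truncation of the generating function of `aa`. -/
theorem ode_mod {p : ℕ} (hp : p.Prime) (h3 : 3 < p) (c : ℕ → ℤ) (h0 : (p : ℤ) ^ 2 ∣ c 0 - 1)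
    (h : PowerSeries ℤ)
    (H : ∀ i, (p : ℤ) ^ 2 ∣ PowerSeries.coeff i
      (∑ j ∈ Finset.range (p + 1), PowerSeries.C (c j) * AD ^ j * AF ^ (2 * (p - j))
        - AF ^ (2 * p + 1) * h))
    (hθ : ∀ i, (p : ℤ) ^ 2 ∣ PowerSeries.coeff i (th (th (th h)))) :
    (∀ j, j < p → (p : ℤ) ^ 2 ∣ c j - (aa j : ℤ)) ∧ (p : ℤ) ^ 2 ∣ c p := by
  set N : ℤ := (p : ℤ) ^ 2 with hN
  have H' := dvdC.mpr H
  have hθ' := dvdC.mpr hθ
  -- truncated coefficients
  set c' : ℕ → ℤ := fun j => if j ≤ p then c j else 0 with hc'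
  have hc'0 : ∀ j, p < j → c' j = 0 := fun j hj => by simp [hc', not_le.mpr hj]
  have hc'1 : ∀ j, j ≤ p → c' j = c j := fun j hj => by simp [hc', hj]
  set u : PowerSeries ℤ := ∑ j ∈ Finset.range (p + 1), (c' j : PowerSeries ℤ) * (zz ^ j * Fi)
    with hu
  -- `u = h` modulo `N`
  have hFi : ∀ k : ℕ, AF ^ k * Fi ^ k = 1 := fun k => by rw [← mul_pow, hF, one_pow]
  have h1 : (N : PowerSeries ℤ) ∣ u - h := by
    have h2 : u - h = Fi ^ (2 * p + 1) * (∑ j ∈ Finset.range (p + 1),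
        PowerSeries.C (c j) * AD ^ j * AF ^ (2 * (p - j)) - AF ^ (2 * p + 1) * h) := by
      rw [mul_sub, ← mul_assoc, mul_comm (Fi ^ (2 * p + 1)) (AF ^ (2 * p + 1)), hFi, one_mul, hu,
        Finset.mul_sum]
      congr 1
      apply Finset.sum_congr rfl
      intro j hj
      have hj' : j ≤ p := by have := Finset.mem_range.mp hj; omega
      rw [hc'1 j hj', show PowerSeries.C (c j) = (c j : PowerSeries ℤ) by simp, zz]
      have e1 : 2 * p + 1 = 2 * (p - j) + 2 * j + 1 := by omega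
      have e2 : (AD * Fi ^ 2) ^ j = AD ^ j * Fi ^ (2 * j) := by rw [mul_pow, ← pow_mul]
      have e3 : Fi ^ (2 * p + 1) = Fi ^ (2 * (p - j)) * Fi ^ (2 * j) * Fi := by
        rw [e1, pow_succ, pow_add]
      rw [e2, e3]
      have := hFi (2 * (p - j))
      linear_combination (-(c j : PowerSeries ℤ) * AD ^ j * Fi ^ (2 * j) * Fi) * this
    rw [h2]
    exact Dvd.dvd.mul_left H' _
  have h4 : (N : PowerSeries ℤ) ∣ th (th (th u)) := by
    have h5 : (N : PowerSeries ℤ) ∣ th (th (th (u - h))) := th_dvd (th_dvd (th_dvd h1))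
    rw [th_sub, th_sub, th_sub] at h5
    exact (dvd_sub_left hθ').mp h5
  have h6 : th (th (th u)) = AF * kap * ∑ j ∈ Finset.range (p + 3),
      (ee c' j : PowerSeries ℤ) * zz ^ j := by
    rw [← shift p c' hc'0, Finset.mul_sum, hu, th_sum, th_sum, th_sum]
    apply Finset.sum_congr rfl
    intro j _
    rw [th_intmul, th_intmul, th_intmul, D3]
    simp only [opA, opB]
    push_cast
    ring
  have h7 : (N : PowerSeries ℤ) ∣ ∑ j ∈ Finset.range (p + 3),
      (ee c' j : PowerSeries ℤ) * zz ^ j := by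
    rw [h6] at h4
    have hun : IsUnit (AF * kap) := by
      rw [PowerSeries.isUnit_iff_constantCoeff, map_mul, cc_F, cc_kap, one_mul]
      exact isUnit_one
    exact (hun.dvd_mul_left).mp h4
  have h8 := tri (p + 3) (ee c') h7
  -- coprimality
  have hcop : ∀ j : ℕ, 0 < j → j < p → IsCoprime N ((j : ℤ) ^ 3) := by
    intro j hj0 hj
    rw [hN]
    apply IsCoprime.pow
    rw [Int.isCoprime_iff_gcd_eq_one]
    exact_mod_cast (Nat.Prime.coprime_iff_not_dvd hp).mpr (Nat.not_dvd_of_pos_of_lt hj0 hj)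
  have main : ∀ j, j < p → N ∣ c' j - (aa j : ℤ) := by
    intro j
    induction j using Nat.strong_induction_on with
    | _ j ih =>
      intro hj
      match j, ih, hj with
      | 0, _, _ =>
        rw [hc'1 0 (by omega), aa_zero]
        exact_mod_cast h0
      | 1, ih, hj =>
        have e0 := ih 0 (by omega) (by omega)
        have e1 := h8 1 (by omega)
        rw [aa_zero] at e0
        rw [aa_one]
        simp only [ee, opA] at e1
        have := dvd_add e1 (Dvd.dvd.mul_left e0 4)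
        refine this.trans (dvd_of_eq ?_)
        push_cast
        ring
      | (k + 2), ih, hj =>
        have e0 := ih k (by omega) (by omega)
        have e1 := ih (k + 1) (by omega) (by omega)
        have e2 := h8 (k + 2) (by omega)
        have e3 := aa_rec k
        simp only [ee] at e2
        have e4 : N ∣ ((k : ℤ) + 2) ^ 3 * (c' (k + 2) - (aa (k + 2) : ℤ)) := by
          have := dvd_add e2 (dvd_add (Dvd.dvd.mul_left e1 (opA (k + 1)))
            (Dvd.dvd.mul_left e0 (opB k)))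
          refine this.trans (dvd_of_eq ?_)
          simp only [opA, opB]
          push_cast
          linear_combination e3
        have e5 := hcop (k + 2) (by omega) hj
        push_cast at e5
        exact e5.dvd_of_dvd_mul_left e4
  refine ⟨fun j hj => ?_, ?_⟩
  · have := main j hj
    rwa [hc'1 j hj.le] at this
  · have e0 := main (p - 1) (by omega)
    have e1 := h8 (p - 1 + 2) (by omega)
    simp only [ee] at e1
    rw [hc'0 (p - 1 + 2) (by omega), hc'1 (p - 1 + 1) (by omega), hc'1 (p - 1) (by omega)] at e1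
    rw [hc'1 (p - 1) (by omega)] at e0
    have hp1 : p - 1 + 1 = p := by omega
    have hp2 : ((p - 1 : ℕ) : ℤ) = (p : ℤ) - 1 := by
      rw [Nat.cast_sub (by omega)]; simp
    rw [hp1] at e1
    have e2 : (p : ℤ) ∣ c (p - 1) := by
      have e3 : (p : ℤ) ∣ c (p - 1) - (aa (p - 1) : ℤ) :=
        (dvd_pow_self (p : ℤ) two_ne_zero).trans e0
      exact (dvd_sub_left (aa_dvd hp h3)).mp e3
    have e4 : N ∣ opB (p - 1) * c (p - 1) := by
      obtain ⟨d, hd⟩ := e2
      rw [hd, opB, hp2, hN]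
      exact ⟨32 * (2 * ((p : ℤ) - 1) + 1) * (2 * ((p : ℤ) - 1) + 3) * d, by ring⟩
    have e5 : N ∣ opA p * c p := by
      have := dvd_add e1 e4
      have e6 := dvd_neg.mpr this
      refine e6.trans (dvd_of_eq ?_)
      ring
    have e7 : IsCoprime N (opA p) := by
      rw [hN]
      apply IsCoprime.pow_left
      have h4 : IsCoprime (p : ℤ) 4 := by
        rw [Int.isCoprime_iff_gcd_eq_one]
        have : Nat.Coprime p 4 := by
          rw [Nat.Prime.coprime_iff_not_dvd hp]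
          intro h
          have := Nat.le_of_dvd (by norm_num) h
          have h5 : p = 4 := by omega
          rw [h5] at hp
          norm_num at hp
        exact_mod_cast this
      have e8 : opA p = 4 + p * (8 + 14 * ((p : ℤ) + 1) * (2 * p + 1)) := by
        rw [opA]; ring
      rw [e8]
      exact (IsCoprime.add_mul_left_right_iff).mpr h4
    exact e7.dvd_of_dvd_mul_left e5

end

end Pool.Agent.Lib.Z32
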