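import Pool.Agent.Lib.MP_ad286f_nt.Defs

/-!
# Module QAlg (about 250 lines): the algebra of q-expansions

Everything is elementary: for `0 < im tau` we have `|q| < 1`, a family `a_n q^n` which has a sum is
absolutely summable (`summable_norm_iff` in the complex numbers), products by the Cauchy product
(`tsum_mul_tsum_eq_tsum_sum_antidiagonal_of_summable_norm`, `PowerSeries.coeff_mul`).
`QE.uniq`: `sum c_n w^n = 0` for all `0 < |w| < 1` (surjectivity of `qm`) gives `c = 0`
(`HasFPowerSeriesAt.eq_zero` or: let `w -> 0` and divide by `w`, induction).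
`QE.diff`/`QE.th`: the function `phi w = sum a_n w^n` is analytic on the unit disc
(`FormalMultilinearSeries.ofScalars` or `hasFPowerSeriesOnBall`), `f = phi o qm` on the upper half
plane, `deriv phi w = sum n a_n w^(n-1)`, `deriv qm = 2 pi i qm`.
-/

namespace Pool.Agent.Lib.Z32

open Complex

private theorem qalg_norm (τ : ℂ) : ‖qm τ‖ = Real.exp (-2 * Real.pi * τ.im) := by
  unfold qm
  rw [Complex.norm_exp]
  congr 1
  simp [Complex.mul_re, Complex.mul_im]

theorem qm_norm {τ : ℂ} (h : 0 < τ.im) : ‖qm τ‖ < 1 := by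
  rw [qalg_norm, Real.exp_lt_one_iff]
  have := Real.pi_pos
  nlinarith [mul_pos this h]

theorem qm_norm_eq (τ : ℂ) : ‖qm τ‖ = Real.exp (-2 * Real.pi * τ.im) := by
  exact qalg_norm τ

theorem qm_ne (τ : ℂ) : qm τ ≠ 0 := by
  exact Complex.exp_ne_zero _

theorem qm_add_one (τ : ℂ) : qm (τ + 1) = qm τ := by
  unfold qm
  rw [show 2 * (Real.pi : ℂ) * I * (τ + 1) = 2 * Real.pi * I * τ + 2 * Real.pi * I by ring]
  exact Complex.exp_periodic _

theorem qm_mul (l : ℕ) (τ : ℂ) : qm (l * τ) = qm τ ^ l := by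
  unfold qm
  rw [← Complex.exp_nat_mul]
  congr 1
  ring

theorem qm_surj {w : ℂ} (h0 : w ≠ 0) (h1 : ‖w‖ < 1) : ∃ τ : ℂ, 0 < τ.im ∧ qm τ = w := by
  have hp : (2 * (Real.pi : ℂ) * I) ≠ 0 := by
    simp [Real.pi_ne_zero]
  have hq : qm (Complex.log w / (2 * Real.pi * I)) = w := by
    unfold qm
    rw [mul_div_cancel₀ _ hp, Complex.exp_log h0]
  refine ⟨Complex.log w / (2 * Real.pi * I), ?_, hq⟩
  have h2 := qalg_norm (Complex.log w / (2 * Real.pi * I))
  rw [hq] at h2
  rw [h2, Real.exp_lt_one_iff] at h1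
  have := Real.pi_pos
  by_contra hc
  push Not at hc
  nlinarith [mul_nonneg this.le (neg_nonneg.2 hc)]

theorem QE.congr {f g : ℂ → ℂ} {A : PowerSeries ℂ} (h : QE f A)
    (hfg : ∀ τ : ℂ, 0 < τ.im → g τ = f τ) : QE g A := by
  intro τ hτ
  rw [hfg τ hτ]
  exact h τ hτ

theorem QE.const (c : ℂ) : QE (fun _ => c) (PowerSeries.C c) := by
  intro τ _
  have h := hasSum_single (f := fun n : ℕ => PowerSeries.coeff n (PowerSeries.C c) * qm τ ^ n) 0
    (fun n hn => by
      rw [PowerSeries.coeff_C, if_neg hn, zero_mul])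
  simpa using h

theorem QE.add {f g : ℂ → ℂ} {A B : PowerSeries ℂ} (hf : QE f A) (hg : QE g B) :
    QE (fun τ => f τ + g τ) (A + B) := by
  intro τ hτ
  have h := (hf τ hτ).add (hg τ hτ)
  refine h.congr_fun ?_
  intro n
  simp only [map_add]
  ring

theorem QE.neg {f : ℂ → ℂ} {A : PowerSeries ℂ} (hf : QE f A) : QE (fun τ => -f τ) (-A) := by
  intro τ hτ
  refine (hf τ hτ).neg.congr_fun ?_
  intro n
  simp only [map_neg]
  ring

theorem QE.sub {f g : ℂ → ℂ} {A B : PowerSeries ℂ} (hf : QE f A) (hg : QE g B) :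
    QE (fun τ => f τ - g τ) (A - B) := by
  intro τ hτ
  refine ((hf τ hτ).sub (hg τ hτ)).congr_fun ?_
  intro n
  simp only [map_sub]
  ring

theorem QE.mul {f g : ℂ → ℂ} {A B : PowerSeries ℂ} (hf : QE f A) (hg : QE g B) :
    QE (fun τ => f τ * g τ) (A * B) := by
  intro τ hτ
  have h1 := hf τ hτ
  have h2 := hg τ hτ
  have s1 := h1.summable.norm
  have s2 := h2.summable.norm
  have h3 := tsum_mul_tsum_eq_tsum_sum_antidiagonal_of_summable_norm s1 s2
  have h4 := (summable_norm_sum_mul_antidiagonal_of_summable_norm s1 s2).of_norm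
  rw [h1.tsum_eq, h2.tsum_eq] at h3
  have h5 := h4.hasSum
  rw [← h3] at h5
  refine h5.congr_fun ?_
  intro n
  rw [PowerSeries.coeff_mul, Finset.sum_mul]
  refine Finset.sum_congr rfl fun x hx => ?_
  rw [← Finset.HasAntidiagonal.mem_antidiagonal.1 hx, pow_add]
  ring

theorem QE.pow {f : ℂ → ℂ} {A : PowerSeries ℂ} (hf : QE f A) (n : ℕ) :
    QE (fun τ => f τ ^ n) (A ^ n) := by
  induction n with
  | zero =>
    have h := QE.const 1
    rw [map_one] at h
    simpa using h
  | succ n ih =>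
    rw [pow_succ]
    refine (ih.mul hf).congr fun τ _ => ?_
    rw [pow_succ]

theorem QE.sum {ι : Type*} (s : Finset ι) {f : ι → ℂ → ℂ} {A : ι → PowerSeries ℂ}
    (h : ∀ i ∈ s, QE (f i) (A i)) : QE (fun τ => ∑ i ∈ s, f i τ) (∑ i ∈ s, A i) := by
  classical
  induction s using Finset.induction_on with
  | empty =>
    have h := QE.const 0
    rw [map_zero] at h
    simpa using h
  | insert a s ha ih =>
    rw [Finset.sum_insert ha]
    refine ((h a (Finset.mem_insert_self a s)).add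
      (ih fun i hi => h i (Finset.mem_insert_of_mem hi))).congr fun τ _ => ?_
    rw [Finset.sum_insert ha]

/-- The function `tau -> qm tau`. -/
theorem QE.X : QE qm PowerSeries.X := by
  intro τ _
  have h := hasSum_single (f := fun n : ℕ => PowerSeries.coeff n (PowerSeries.X : PowerSeries ℂ) * qm τ ^ n) 1
    (fun n hn => by
      rw [PowerSeries.coeff_X, if_neg hn, zero_mul])
  simpa using h

/-- A convergent power series which vanishes outside the origin is zero. -/
private theorem qalg_zero (c : ℕ → ℂ)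
    (h : ∀ w : ℂ, w ≠ 0 → ‖w‖ < 1 → HasSum (fun n => c n * w ^ n) 0) : ∀ n, c n = 0 := by
  intro n
  induction n using Nat.strong_induction_on with
  | _ n ih =>
    have hs : Summable (fun m : ℕ => ‖c (m + (n + 1))‖ * (1 / 2 : ℝ) ^ m) := by
      have h1 := (h (1 / 2) (by norm_num) (by norm_num)).summable.norm
      have h2 := (summable_nat_add_iff (n + 1)).2 h1
      have h3 := h2.mul_left ((2 : ℝ) ^ (n + 1))
      refine h3.congr fun m => ?_
      have h4 : ‖(1 / 2 : ℂ)‖ = 1 / 2 := by norm_num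
      rw [norm_mul, norm_pow, h4, pow_add (1 / 2 : ℝ) m (n + 1)]
      have h5 : (2 : ℝ) ^ (n + 1) * (1 / 2 : ℝ) ^ (n + 1) = 1 := by
        rw [← mul_pow]
        norm_num
      calc (2 : ℝ) ^ (n + 1) * (‖c (m + (n + 1))‖ * ((1 / 2 : ℝ) ^ m * (1 / 2 : ℝ) ^ (n + 1)))
          = ‖c (m + (n + 1))‖ * (1 / 2 : ℝ) ^ m * ((2 : ℝ) ^ (n + 1) * (1 / 2 : ℝ) ^ (n + 1)) := by ring
        _ = ‖c (m + (n + 1))‖ * (1 / 2 : ℝ) ^ m := by rw [h5, mul_one]
    set M := ∑' m : ℕ, ‖c (m + (n + 1))‖ * (1 / 2 : ℝ) ^ m with hM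
    have key : ∀ t : ℝ, 0 < t → t ≤ 1 / 2 → ‖c n‖ ≤ t * M := by
      intro t ht ht2
      have hw0 : (t : ℂ) ≠ 0 := by exact_mod_cast ht.ne'
      have hw1 : ‖(t : ℂ)‖ = t := by
        rw [Complex.norm_real, Real.norm_of_nonneg ht.le]
      have h1 := h (t : ℂ) hw0 (by rw [hw1]; linarith)
      have h2 := (hasSum_nat_add_iff' (n + 1)).2 h1
      have h3 : ∑ i ∈ Finset.range (n + 1), c i * (t : ℂ) ^ i = c n * (t : ℂ) ^ n := by
        rw [Finset.sum_range_succ, Finset.sum_eq_zero, zero_add]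
        intro i hi
        rw [ih i (Finset.mem_range.1 hi), zero_mul]
      rw [h3, zero_sub] at h2
      have h4 : HasSum (fun m : ℕ => ‖c (m + (n + 1))‖ * (1 / 2 : ℝ) ^ m * t ^ (n + 1)) (M * t ^ (n + 1)) :=
        hs.hasSum.mul_right _
      have h5 : ‖-(c n * (t : ℂ) ^ n)‖ ≤ M * t ^ (n + 1) := by
        rw [← h2.tsum_eq]
        refine tsum_of_norm_bounded h4 fun m => ?_
        rw [norm_mul, norm_pow, hw1, pow_add, ← mul_assoc]
        refine mul_le_mul_of_nonneg_right ?_ (by positivity)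
        refine mul_le_mul_of_nonneg_left ?_ (norm_nonneg _)
        exact pow_le_pow_left₀ ht.le ht2 m
      rw [norm_neg, norm_mul, norm_pow, hw1, pow_succ] at h5
      have h6 : 0 < t ^ n := pow_pos ht n
      have h7 : ‖c n‖ * t ^ n ≤ (t * M) * t ^ n := by
        calc ‖c n‖ * t ^ n ≤ M * (t ^ n * t) := h5
          _ = (t * M) * t ^ n := by ring
      exact le_of_mul_le_mul_right h7 h6
    have hM0 : 0 ≤ M := tsum_nonneg fun m => by positivity
    by_contra hne
    have hpos : 0 < ‖c n‖ := norm_pos_iff.2 hne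
    have h8 := key (min (1 / 2) (‖c n‖ / (2 * (M + 1)))) (by positivity) (min_le_left _ _)
    have h9 : min (1 / 2) (‖c n‖ / (2 * (M + 1))) * M ≤ ‖c n‖ / (2 * (M + 1)) * M :=
      mul_le_mul_of_nonneg_right (min_le_right _ _) hM0
    have h10 : ‖c n‖ / (2 * (M + 1)) * M ≤ ‖c n‖ / 2 := by
      rw [div_mul_eq_mul_div, div_le_div_iff₀ (by positivity) (by norm_num)]
      nlinarith
    linarith

private theorem qalg_bound {f : ℂ → ℂ} {A : PowerSeries ℂ} (h : QE f A) {c : ℝ} (hc : 0 < c) :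
    Summable (fun n : ℕ => ‖PowerSeries.coeff n A‖ * Real.exp (-2 * Real.pi * c) ^ n) := by
  have h1 := (h (c * I) (by simpa using hc)).summable.norm
  refine h1.congr fun n => ?_
  rw [norm_mul, norm_pow, qalg_norm]
  simp

private theorem qalg_le {c : ℝ} {w : ℂ} (hw : c < w.im) : ‖qm w‖ ≤ Real.exp (-2 * Real.pi * c) := by
  rw [qalg_norm, Real.exp_le_exp]
  have := Real.pi_pos
  nlinarith [mul_pos this (sub_pos.2 hw)]

private theorem qalg_dqm (τ : ℂ) : HasDerivAt qm (2 * Real.pi * I * qm τ) τ := by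
  have h1 : HasDerivAt (fun z : ℂ => 2 * (Real.pi : ℂ) * I * z) (2 * Real.pi * I) τ := by
    simpa using (hasDerivAt_id τ).const_mul (2 * (Real.pi : ℂ) * I)
  have h2 := h1.cexp
  refine h2.congr_deriv ?_
  unfold qm
  ring

private theorem qalg_term (a : ℂ) (n : ℕ) (τ : ℂ) :
    HasDerivAt (fun z => a * qm z ^ n) (2 * Real.pi * I * (n * a * qm τ ^ n)) τ := by
  have h := ((qalg_dqm τ).pow n).const_mul a
  refine h.congr_deriv ?_
  rcases n with _ | n
  · simp
  · rw [Nat.add_sub_cancel, pow_succ]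
    ring

private theorem qalg_der {f : ℂ → ℂ} {A : PowerSeries ℂ} (h : QE f A) {τ : ℂ} (hτ : 0 < τ.im) :
    DifferentiableAt ℂ f τ ∧
      HasSum (fun n : ℕ => 2 * Real.pi * I * (n * PowerSeries.coeff n A * qm τ ^ n)) (deriv f τ) := by
  set c : ℝ := τ.im / 2 with hc
  have hc0 : 0 < c := by positivity
  have hU : IsOpen {w : ℂ | c < w.im} := isOpen_lt continuous_const Complex.continuous_im
  have hτU : τ ∈ {w : ℂ | c < w.im} := by
    show c < τ.im
    rw [hc]
    linarith
  have hu := qalg_bound h hc0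
  have hF : ∀ n : ℕ, DifferentiableOn ℂ (fun w => PowerSeries.coeff n A * qm w ^ n) {w : ℂ | c < w.im} :=
    fun n w _ => (qalg_term _ n w).differentiableAt.differentiableWithinAt
  have hle : ∀ (n : ℕ) (w : ℂ), w ∈ {w : ℂ | c < w.im} →
      ‖PowerSeries.coeff n A * qm w ^ n‖ ≤ ‖PowerSeries.coeff n A‖ * Real.exp (-2 * Real.pi * c) ^ n := by
    intro n w hw
    rw [norm_mul, norm_pow]
    exact mul_le_mul_of_nonneg_left (pow_le_pow_left₀ (norm_nonneg _) (qalg_le hw) n) (norm_nonneg _)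
  have hev : f =ᶠ[nhds τ] fun w => ∑' n : ℕ, PowerSeries.coeff n A * qm w ^ n := by
    filter_upwards [hU.mem_nhds hτU] with w hw
    exact (h w (lt_trans hc0 hw)).tsum_eq.symm
  constructor
  · have h1 := differentiableOn_tsum_of_summable_norm hu hF hU hle
    exact (h1.differentiableAt (hU.mem_nhds hτU)).congr_of_eventuallyEq hev
  · have h1 := hasSum_deriv_of_summable_norm hu hF hU hle hτU
    rw [hev.deriv_eq]
    refine h1.congr_fun fun n => ?_
    rw [(qalg_term _ n τ).deriv]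

theorem QE.uniq {f : ℂ → ℂ} {A B : PowerSeries ℂ} (hA : QE f A) (hB : QE f B) : A = B := by
  have h : ∀ w : ℂ, w ≠ 0 → ‖w‖ < 1 → HasSum (fun n => PowerSeries.coeff n (A - B) * w ^ n) 0 := by
    intro w h0 h1
    obtain ⟨τ, hτ, rfl⟩ := qm_surj h0 h1
    have h2 := (hA.sub hB) τ hτ
    simpa using h2
  have h1 := qalg_zero _ h
  ext n
  have h2 := h1 n
  rw [map_sub] at h2
  exact sub_eq_zero.1 h2

theorem QE.per {f : ℂ → ℂ} {A : PowerSeries ℂ} (h : QE f A) {τ : ℂ} (hτ : 0 < τ.im) :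
    f (τ + 1) = f τ := by
  have h1 := h (τ + 1) (by simpa using hτ)
  rw [qm_add_one] at h1
  exact h1.unique (h τ hτ)

theorem QE.diff {f : ℂ → ℂ} {A : PowerSeries ℂ} (h : QE f A) {τ : ℂ} (hτ : 0 < τ.im) :
    DifferentiableAt ℂ f τ := by
  exact (qalg_der h hτ).1

theorem QE.thd {f : ℂ → ℂ} {A : PowerSeries ℂ} (h : QE f A) :
    QE (fun τ => (2 * Real.pi * I)⁻¹ * deriv f τ) (th A) := by
  intro τ hτ
  have h1 := (qalg_der h hτ).2.mul_left ((2 * (Real.pi : ℂ) * I)⁻¹)
  refine h1.congr_fun fun n => ?_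
  have hp : (2 * (Real.pi : ℂ) * I) ≠ 0 := by
    simp [Real.pi_ne_zero]
  rw [inv_mul_cancel_left₀ hp]
  unfold th
  rw [PowerSeries.coeff_mk]

theorem QE.exd {f : ℂ → ℂ} {A : PowerSeries ℂ} (h : QE f A) {l : ℕ} (hl : 0 < l) :
    QE (fun τ => f (l * τ)) (ex l A) := by
  intro τ hτ
  have hl' : (0 : ℝ) < l := by exact_mod_cast hl
  have h1 := h (l * τ) (by
    have h2 : ((l : ℂ) * τ).im = l * τ.im := by simp
    rw [h2]
    exact mul_pos hl' hτ)
  have hinj : Function.Injective (fun n : ℕ => l * n) := fun a b hab => Nat.eq_of_mul_eq_mul_left hl hab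
  have h3 := (hinj.hasSum_iff (f := fun n : ℕ => PowerSeries.coeff n (ex l A) * qm τ ^ n)
    (a := f (l * τ)) (fun n hn => ?_)).1 ?_
  · exact h3
  · unfold ex
    rw [PowerSeries.coeff_mk, if_neg, zero_mul]
    rintro ⟨k, hk⟩
    exact hn ⟨k, hk.symm⟩
  · refine h1.congr_fun fun n => ?_
    show PowerSeries.coeff (l * n) (ex l A) * qm τ ^ (l * n) = _
    unfold ex
    rw [PowerSeries.coeff_mk, if_pos (dvd_mul_right l n), Nat.mul_div_cancel_left n hl, qm_mul, pow_mul]

theorem toC_inj {A B : PowerSeries ℤ} (h : toC A = toC B) : A = B := by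
  ext n
  have h1 := congrArg (PowerSeries.coeff n) h
  unfold toC at h1
  rw [PowerSeries.coeff_map, PowerSeries.coeff_map] at h1
  simpa using h1

theorem toC_ex (l : ℕ) (A : PowerSeries ℤ) : toC (ex l A) = ex l (toC A) := by
  ext n
  unfold toC ex
  rw [PowerSeries.coeff_map, PowerSeries.coeff_mk, PowerSeries.coeff_mk]
  split_ifs
  · rw [PowerSeries.coeff_map]
  · exact map_zero _

theorem toC_th (A : PowerSeries ℤ) : toC (th A) = th (toC A) := by
  ext n
  unfold toC th
  rw [PowerSeries.coeff_map, PowerSeries.coeff_mk, PowerSeries.coeff_mk, map_mul, PowerSeries.coeff_map,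
    map_natCast]

/-- Leibniz rule. -/
theorem th_mul {R : Type*} [CommRing R] (A B : PowerSeries R) : th (A * B) = th A * B + A * th B := by
  ext n
  unfold th
  rw [map_add, PowerSeries.coeff_mk, PowerSeries.coeff_mul, PowerSeries.coeff_mul, PowerSeries.coeff_mul,
    ← Finset.sum_add_distrib, Finset.mul_sum]
  refine Finset.sum_congr rfl fun x hx => ?_
  rw [PowerSeries.coeff_mk, PowerSeries.coeff_mk, ← Finset.HasAntidiagonal.mem_antidiagonal.1 hx, Nat.cast_add]
  ring

theorem th_add {R : Type*} [CommRing R] (A B : PowerSeries R) : th (A + B) = th A + th B := by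
  ext n
  unfold th
  rw [map_add, PowerSeries.coeff_mk, PowerSeries.coeff_mk, PowerSeries.coeff_mk, map_add, mul_add]

theorem th_C {R : Type*} [CommRing R] (c : R) : th (PowerSeries.C c) = 0 := by
  ext n
  unfold th
  rw [PowerSeries.coeff_mk, PowerSeries.coeff_C, map_zero]
  split_ifs with h
  · rw [h, Nat.cast_zero, zero_mul]
  · rw [mul_zero]

theorem th_ex {R : Type*} [CommRing R] (l : ℕ) (A : PowerSeries R) :
    th (ex l A) = PowerSeries.C (l : R) * ex l (th A) := by
  ext n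
  unfold th ex
  rw [PowerSeries.coeff_mk, PowerSeries.coeff_C_mul, PowerSeries.coeff_mk, PowerSeries.coeff_mk]
  split_ifs with h
  · rw [PowerSeries.coeff_mk, ← mul_assoc, ← Nat.cast_mul, Nat.mul_div_cancel' h]
  · rw [mul_zero, mul_zero]

theorem ex_mul {R : Type*} [CommRing R] (l : ℕ) (hl : 0 < l) (A B : PowerSeries R) :
    ex l (A * B) = ex l A * ex l B := by
  ext n
  unfold ex
  rw [PowerSeries.coeff_mk, PowerSeries.coeff_mul]
  by_cases hn : l ∣ n
  · rw [if_pos hn, PowerSeries.coeff_mul]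
    obtain ⟨m, rfl⟩ := hn
    rw [Nat.mul_div_cancel_left m hl]
    refine Finset.sum_bij_ne_zero (fun x _ _ => (l * x.1, l * x.2)) ?_ ?_ ?_ ?_
    · intro x hx _
      rw [Finset.HasAntidiagonal.mem_antidiagonal] at hx ⊢
      rw [← hx, mul_add]
    · intro x _ _ y _ _ hxy
      rw [Prod.mk.injEq] at hxy
      exact Prod.ext (Nat.eq_of_mul_eq_mul_left hl hxy.1) (Nat.eq_of_mul_eq_mul_left hl hxy.2)
    · intro y hy hy0
      rw [PowerSeries.coeff_mk, PowerSeries.coeff_mk] at hy0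
      have h1 : l ∣ y.1 := by
        by_contra hc
        rw [if_neg hc, zero_mul] at hy0
        exact hy0 rfl
      have h2 : l ∣ y.2 := by
        by_contra hc
        rw [if_neg hc, mul_zero] at hy0
        exact hy0 rfl
      rw [if_pos h1, if_pos h2] at hy0
      refine ⟨(y.1 / l, y.2 / l), ?_, hy0, ?_⟩
      · rw [Finset.HasAntidiagonal.mem_antidiagonal] at hy ⊢
        apply Nat.eq_of_mul_eq_mul_left hl
        rw [mul_add, Nat.mul_div_cancel' h1, Nat.mul_div_cancel' h2, hy]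
      · exact Prod.ext (Nat.mul_div_cancel' h1) (Nat.mul_div_cancel' h2)
    · intro x _ _
      rw [PowerSeries.coeff_mk, PowerSeries.coeff_mk, if_pos (dvd_mul_right l x.1),
        if_pos (dvd_mul_right l x.2), Nat.mul_div_cancel_left _ hl, Nat.mul_div_cancel_left _ hl]
  · rw [if_neg hn, PowerSeries.coeff_mul]
    symm
    refine Finset.sum_eq_zero fun x hx => ?_
    rw [Finset.HasAntidiagonal.mem_antidiagonal] at hx
    rw [PowerSeries.coeff_mk, PowerSeries.coeff_mk]
    by_cases h1 : l ∣ x.1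
    · have h2 : ¬ l ∣ x.2 := fun h2 => hn (hx ▸ dvd_add h1 h2)
      rw [if_neg h2, mul_zero]
    · rw [if_neg h1, zero_mul]

end Pool.Agent.Lib.Z32
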