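import Pool.Agent.Lib.MP_ad286f_nt.QAlg

/-!
# Module QDiv (about 180 lines): quotients of q-expansions

PROOF. Put `phi w = sum (A_n) w^n`, `psi w = sum B_n w^n` (analytic on the unit disc, `f = phi o qm`,
`g = psi o qm`), `psi w = w psi1 w` (`w^k` in `QE.divXk`) with `psi1 0 = V_0 <> 0`, `phi w = w phi1 w`. `psi1` has no zero on
the unit disc (`qm_surj`, `g <> 0`), so `chi = phi1/psi1` is differentiable on the open unit disc, hence
`chi w = sum C_n w^n` for all `|w| < 1` (`DifferentiableOn.hasFPowerSeriesOnBall` for every radius < 1,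
and uniqueness; or Mathlib's `Complex.hasSum_taylorSeries_on_ball`). `f/g = chi o qm` on the upper half
plane, and `C * V = U` by `QE.uniq`.
Integral version: `V` is a unit of `Z[[X]]` (constant coefficient 1), `C = U V^(-1)`.
-/

namespace Pool.Agent.Lib.Z32

open Complex

private theorem cut {f : ℂ → ℂ} {k : ℕ} {U : PowerSeries ℂ} (hf : QE f (PowerSeries.X ^ k * U)) :
    QE (fun τ => f τ / qm τ ^ k) U := by
  intro τ hτ
  have h1 := hf τ hτ
  have hq : qm τ ^ k ≠ 0 := pow_ne_zero k (qm_ne τ)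
  have h2 : Function.Injective (fun n : ℕ => n + k) := add_left_injective k
  have h3 : HasSum ((fun n : ℕ => PowerSeries.coeff n (PowerSeries.X ^ k * U) * qm τ ^ n) ∘
      (fun n : ℕ => n + k)) (f τ) := by
    rw [h2.hasSum_iff]
    · exact h1
    · intro n hn
      have hn' : n < k := by
        by_contra hc
        exact hn ⟨n - k, by show n - k + k = n; omega⟩
      rw [PowerSeries.coeff_X_pow_mul', if_neg (by omega), zero_mul]
  have h4 := h3.div_const (qm τ ^ k)
  refine h4.congr_fun ?_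
  intro n
  simp only [Function.comp]
  rw [PowerSeries.coeff_X_pow_mul, pow_add]
  field_simp

private theorem disc {f : ℂ → ℂ} {U : PowerSeries ℂ} (hf : QE f U) :
    DifferentiableOn ℂ (fun w : ℂ => ∑' n : ℕ, PowerSeries.coeff n U * w ^ n) (Metric.ball 0 1) := by
  intro z hz
  have hz1 : ‖z‖ < 1 := by simpa using hz
  obtain ⟨r, hr1, hr2⟩ := exists_between hz1
  have hr0 : 0 < r := lt_of_le_of_lt (norm_nonneg z) hr1
  have hne : (r : ℂ) ≠ 0 := by exact_mod_cast hr0.ne'
  have hn : ‖(r : ℂ)‖ = r := by rw [Complex.norm_real, Real.norm_of_nonneg hr0.le]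
  obtain ⟨τ, hτ, hq⟩ := qm_surj hne (by rw [hn]; exact hr2)
  have hsum : Summable (fun n : ℕ => ‖PowerSeries.coeff n U‖ * r ^ n) := by
    refine (hf τ hτ).summable.norm.congr fun n => ?_
    rw [norm_mul, norm_pow, hq, hn]
  have h1 := differentiableOn_tsum_of_summable_norm hsum
    (F := fun n (w : ℂ) => PowerSeries.coeff n U * w ^ n)
    (fun n => ((differentiable_id.pow n).const_mul _).differentiableOn) Metric.isOpen_ball
    (U := Metric.ball (0 : ℂ) r) (fun n w hw => by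
      rw [norm_mul, norm_pow]
      have : ‖w‖ ≤ r := (mem_ball_zero_iff.mp hw).le
      exact mul_le_mul_of_nonneg_left (pow_le_pow_left₀ (norm_nonneg _) this n) (norm_nonneg _))
  exact (h1.differentiableAt (Metric.isOpen_ball.mem_nhds
    (mem_ball_zero_iff.mpr hr1))).differentiableWithinAt

theorem QE.divXk {f g : ℂ → ℂ} {k : ℕ} {U V : PowerSeries ℂ} (hf : QE f (PowerSeries.X ^ k * U))
    (hg : QE g (PowerSeries.X ^ k * V)) (hV : PowerSeries.coeff 0 V ≠ 0)
    (hne : ∀ τ : ℂ, 0 < τ.im → g τ ≠ 0) :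
    ∃ C : PowerSeries ℂ, QE (fun τ => f τ / g τ) C ∧ C * V = U := by
  have hf1 := cut hf
  have hg1 := cut hg
  set φ : ℂ → ℂ := fun w => ∑' n : ℕ, PowerSeries.coeff n U * w ^ n with hφ
  set ψ : ℂ → ℂ := fun w => ∑' n : ℕ, PowerSeries.coeff n V * w ^ n with hψ
  have hφτ : ∀ τ : ℂ, 0 < τ.im → φ (qm τ) = f τ / qm τ ^ k := fun τ h => (hf1 τ h).tsum_eq
  have hψτ : ∀ τ : ℂ, 0 < τ.im → ψ (qm τ) = g τ / qm τ ^ k := fun τ h => (hg1 τ h).tsum_eq
  have hψ0 : ∀ w ∈ Metric.ball (0 : ℂ) 1, ψ w ≠ 0 := by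
    intro w hw
    have hw1 : ‖w‖ < 1 := by simpa using hw
    by_cases h0 : w = 0
    · rw [h0, hψ]
      simp only
      rw [tsum_eq_single 0 (fun n hn => by rw [zero_pow hn, mul_zero])]
      simpa using hV
    · obtain ⟨τ, hτ, rfl⟩ := qm_surj h0 hw1
      rw [hψτ τ hτ]
      exact div_ne_zero (hne τ hτ) (pow_ne_zero k (qm_ne τ))
  have hd : DifferentiableOn ℂ (fun w => φ w / ψ w) (Metric.ball 0 1) :=
    (disc hf1).div (disc hg1) hψ0
  set C : PowerSeries ℂ := PowerSeries.mk (fun n =>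
    (Nat.factorial n : ℂ)⁻¹ * iteratedDeriv n (fun w => φ w / ψ w) 0) with hC
  have hQC : QE (fun τ => f τ / g τ) C := by
    intro τ hτ
    have h1 := Complex.hasSum_taylorSeries_on_ball hd
      (z := qm τ) (by simpa using qm_norm hτ)
    have h2 : φ (qm τ) / ψ (qm τ) = f τ / g τ := by
      rw [hφτ τ hτ, hψτ τ hτ]
      exact div_div_div_cancel_right₀ (pow_ne_zero k (qm_ne τ)) _ _
    rw [h2] at h1
    refine h1.congr_fun ?_
    intro n
    rw [hC, PowerSeries.coeff_mk, sub_zero, smul_eq_mul, smul_eq_mul]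
    ring
  refine ⟨C, hQC, ?_⟩
  have h1 : QE (fun τ => f τ / qm τ ^ k) (C * V) := (hQC.mul hg1).congr (fun τ hτ => by
    have := hne τ hτ
    field_simp)
  exact h1.uniq hf1

theorem QE.divX {f g : ℂ → ℂ} {U V : PowerSeries ℂ} (hf : QE f (PowerSeries.X * U))
    (hg : QE g (PowerSeries.X * V)) (hV : PowerSeries.coeff 0 V ≠ 0)
    (hne : ∀ τ : ℂ, 0 < τ.im → g τ ≠ 0) :
    ∃ C : PowerSeries ℂ, QE (fun τ => f τ / g τ) C ∧ C * V = U :=
  QE.divXk (k := 1) (by rw [pow_one]; exact hf) (by rw [pow_one]; exact hg) hV hne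

theorem QEZ.divX {f g : ℂ → ℂ} {U V : PowerSeries ℤ} (hf : QEZ f (PowerSeries.X * U))
    (hg : QEZ g (PowerSeries.X * V)) (hV : PowerSeries.coeff 0 V = 1)
    (hne : ∀ τ : ℂ, 0 < τ.im → g τ ≠ 0) :
    ∃ C : PowerSeries ℤ, QEZ (fun τ => f τ / g τ) C ∧ C * V = U := by
  have hVi : V * PowerSeries.invOfUnit V 1 = 1 := PowerSeries.mul_invOfUnit V 1 (by
    rw [← PowerSeries.coeff_zero_eq_constantCoeff_apply, hV]; rfl)
  have h1 : ∀ A : PowerSeries ℤ, toC (PowerSeries.X * A) = PowerSeries.X * toC A := by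
    intro A
    simp [toC, PowerSeries.map_X]
  unfold QEZ at hf hg
  rw [h1] at hf hg
  obtain ⟨C, hC, hCV⟩ := QE.divX hf hg (by
    rw [toC, PowerSeries.coeff_map, hV]; simp) hne
  refine ⟨U * PowerSeries.invOfUnit V 1, ?_, ?_⟩
  · have h2 : C = toC (U * PowerSeries.invOfUnit V 1) := by
      have h3 : toC V * toC (PowerSeries.invOfUnit V 1) = 1 := by
        have := congrArg toC hVi
        simpa [toC] using this
      have h4 : toC (U * PowerSeries.invOfUnit V 1) = toC U * toC (PowerSeries.invOfUnit V 1) := by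
        simp [toC]
      rw [h4, ← hCV, mul_assoc, h3, mul_one]
    unfold QEZ
    rw [← h2]
    exact hC
  · rw [mul_assoc, mul_comm _ V, hVi, mul_one]

end Pool.Agent.Lib.Z32
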