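import Mathlib

/-!
# Module Rep (about 230 lines): the representations of `p` by `x^2 + 6y^2` and `2x^2 + 3y^2`

PROOF. For `p = 1, 5, 7, 11` mod 24 the number `-6` is a square mod `p` (`(-2/p)` from `ZMod.exists_sq_eq_neg_two_iff`, `(3/p)` from quadratic
reciprocity). Let `r^2 = -6` mod `p`. Thue (pigeonhole on `a - r b`, `0 <= a, b <= floor sqrt p`; or Mathlib's version, or the lattice/geometry of
numbers): integers `(u, v) <> 0`, `u = r v` mod `p`, `u^2, v^2 < p`. So `u^2 + 6 v^2 = m p`, `1 <= m <= 6`.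
* `m = 1`: `p = u^2 + 6v^2`. `m = 2`: `u = 2u'`, `p = 2u'^2 + 3v^2`. `m = 3`: `u = 3u'`, `p = 2v^2 + 3u'^2`. `m = 4`: `u = 2u'`, then `v = 2v'`,
  `p = u'^2 + 6v'^2`. `m = 6`: `u = 6u'`, `p = v^2 + 6u'^2`. `m = 5`: `u^2 + v^2 = 0` mod 5, so `u = 2v` or `u = -2v` mod 5; changing the sign of `v`:
  `u = 2v` mod 5; `25 p = 5(u^2+6v^2) = 2(u+3v)^2 + 3(u-2v)^2`, both squares divisible by 25: `p = 2x^2 + 3y^2`.
* The residue class mod 24 decides (`p > 3` prime): `x^2 + 6y^2`: `x` odd and prime to 3, `x^2 = 1` mod 24, `6y^2 = 0, 6` mod 24: `p = 1, 7`.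
  `2x^2 + 3y^2`: `y` odd, `3y^2 = 3` mod 24, `3` does not divide `x`, `2x^2 = 2, 8` mod 24: `p = 5, 11` mod 24. (`decide` on residues mod 24.)
-/

namespace Pool.Agent.Lib.Z32

/-- Thue's lemma. -/
private theorem rep_thue {p : ℕ} (hp : p.Prime) (r : ZMod p) :
    ∃ u v : ℤ, (u ≠ 0 ∨ v ≠ 0) ∧ u ^ 2 < p ∧ v ^ 2 < p ∧ (u : ZMod p) = r * (v : ZMod p) := by
  have : Fact p.Prime := ⟨hp⟩
  set s := Nat.sqrt p with hs
  have h1 : s * s ≤ p := Nat.sqrt_le p
  have h2 : p < (s + 1) * (s + 1) := Nat.lt_succ_sqrt p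
  have h3 : s * s < p := by
    rcases Nat.lt_or_ge (s * s) p with h | h
    · exact h
    · exfalso
      have he : s * s = p := le_antisymm h1 h
      have := hp.eq_one_or_self_of_dvd s ⟨s, he.symm⟩
      rcases this with h4 | h4
      · rw [h4] at he
        exact hp.one_lt.ne' he.symm
      · rw [h4] at he
        have hp1 := hp.one_lt
        nlinarith
  let f : Fin (s + 1) × Fin (s + 1) → ZMod p := fun x => ((x.1 : ℕ) : ZMod p) - r * ((x.2 : ℕ) : ZMod p)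
  have hcard : Fintype.card (ZMod p) < Fintype.card (Fin (s + 1) × Fin (s + 1)) := by
    rw [ZMod.card, Fintype.card_prod, Fintype.card_fin]
    exact h2
  obtain ⟨x, y, hxy, hf⟩ := Fintype.exists_ne_map_eq_of_card_lt f hcard
  refine ⟨(x.1 : ℕ) - (y.1 : ℕ), (x.2 : ℕ) - (y.2 : ℕ), ?_, ?_, ?_, ?_⟩
  · by_contra hcon
    push Not at hcon
    apply hxy
    have e1 : (x.1 : ℕ) = y.1 := by omega
    have e2 : (x.2 : ℕ) = y.2 := by omega
    exact Prod.ext (Fin.ext e1) (Fin.ext e2)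
  · have hx := x.1.isLt
    have hy := y.1.isLt
    have hb : ((x.1 : ℕ) - (y.1 : ℕ) : ℤ) ^ 2 ≤ (s : ℤ) ^ 2 := by
      apply sq_le_sq'
      · omega
      · omega
    have h3' : ((s * s : ℕ) : ℤ) < p := by exact_mod_cast h3
    push_cast at h3'
    nlinarith
  · have hx := x.2.isLt
    have hy := y.2.isLt
    have hb : ((x.2 : ℕ) - (y.2 : ℕ) : ℤ) ^ 2 ≤ (s : ℤ) ^ 2 := by
      apply sq_le_sq'
      · omega
      · omega
    have h3' : ((s * s : ℕ) : ℤ) < p := by exact_mod_cast h3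
    push_cast at h3'
    nlinarith
  · have hf' : ((x.1 : ℕ) : ZMod p) - r * ((x.2 : ℕ) : ZMod p)
      = ((y.1 : ℕ) : ZMod p) - r * ((y.2 : ℕ) : ZMod p) := hf
    push_cast
    linear_combination hf'

private theorem rep_form {p : ℕ} (hp : p.Prime) (r : ZMod p) (hr : r ^ 2 = -6) :
    (∃ x y : ℤ, (p : ℤ) = x ^ 2 + 6 * y ^ 2) ∨ (∃ x y : ℤ, (p : ℤ) = 2 * x ^ 2 + 3 * y ^ 2) := by
  obtain ⟨u, v, hne, hu, hv, huv⟩ := rep_thue hp r
  have hdvd : (p : ℤ) ∣ u ^ 2 + 6 * v ^ 2 := by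
    rw [← ZMod.intCast_zmod_eq_zero_iff_dvd]
    push_cast
    rw [huv]
    linear_combination (v : ZMod p) ^ 2 * hr
  obtain ⟨m, hm⟩ := hdvd
  have hp0 : (0 : ℤ) < p := by exact_mod_cast hp.pos
  have hpos : 0 < u ^ 2 + 6 * v ^ 2 := by
    rcases hne with h | h
    · have := sq_nonneg v
      have : 0 < u ^ 2 := by positivity
      nlinarith
    · have := sq_nonneg u
      have : 0 < v ^ 2 := by positivity
      nlinarith
  have hm0 : 0 < m := by
    rw [hm] at hpos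
    exact (pos_iff_pos_of_mul_pos hpos).mp hp0
  have hm7 : m < 7 := by
    have : (p : ℤ) * m < p * 7 := by nlinarith
    exact lt_of_mul_lt_mul_left this hp0.le
  have hmc : m = 1 ∨ m = 2 ∨ m = 3 ∨ m = 4 ∨ m = 5 ∨ m = 6 := by omega
  rcases hmc with rfl | rfl | rfl | rfl | rfl | rfl
  · left
    exact ⟨u, v, by linarith⟩
  · right
    have h2 : (2 : ℤ) ∣ u ^ 2 := ⟨p - 3 * v ^ 2, by linarith⟩
    obtain ⟨u', rfl⟩ := Int.prime_two.dvd_of_dvd_pow h2
    exact ⟨u', v, by linarith⟩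
  · right
    have h2 : (3 : ℤ) ∣ u ^ 2 := ⟨p - 2 * v ^ 2, by linarith⟩
    obtain ⟨u', rfl⟩ := Int.prime_three.dvd_of_dvd_pow h2
    exact ⟨v, u', by linarith⟩
  · left
    have h2 : (2 : ℤ) ∣ u ^ 2 := ⟨2 * p - 3 * v ^ 2, by linarith⟩
    obtain ⟨u', rfl⟩ := Int.prime_two.dvd_of_dvd_pow h2
    have h3 : (2 : ℤ) ∣ v ^ 2 := by
      have : (2 : ℤ) ∣ 3 * v ^ 2 := ⟨p - u' ^ 2, by linarith⟩
      rcases Int.prime_two.dvd_or_dvd this with h | h
      · norm_num at h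
      · exact h
    obtain ⟨v', rfl⟩ := Int.prime_two.dvd_of_dvd_pow h3
    exact ⟨u', v', by linarith⟩
  · right
    have h5 : Prime (5 : ℤ) := by norm_num
    have h2 : (5 : ℤ) ∣ (u - 2 * v) * (u + 2 * v) := ⟨p - 2 * v ^ 2, by linarith⟩
    rcases h5.dvd_or_dvd h2 with h | h
    · obtain ⟨b, hb⟩ := h
      refine ⟨b + v, b, ?_⟩
      have hu' : u = 5 * b + 2 * v := by linarith
      rw [hu'] at hm
      nlinarith
    · obtain ⟨b, hb⟩ := h
      refine ⟨b - v, b, ?_⟩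
      have hu' : u = 5 * b - 2 * v := by linarith
      rw [hu'] at hm
      nlinarith
  · left
    have h2 : (2 : ℤ) ∣ u ^ 2 := ⟨3 * p - 3 * v ^ 2, by linarith⟩
    have h3 : (3 : ℤ) ∣ u ^ 2 := ⟨2 * p - 2 * v ^ 2, by linarith⟩
    have h2' := Int.prime_two.dvd_of_dvd_pow h2
    have h3' := Int.prime_three.dvd_of_dvd_pow h3
    have h6 : (6 : ℤ) ∣ u := by omega
    obtain ⟨u', rfl⟩ := h6
    exact ⟨v, u', by linarith⟩

private theorem rep_sq24 (x : ℤ) : x ^ 2 % 24 = 0 ∨ x ^ 2 % 24 = 1 ∨ x ^ 2 % 24 = 4 ∨ x ^ 2 % 24 = 9 ∨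
    x ^ 2 % 24 = 12 ∨ x ^ 2 % 24 = 16 := by
  have h : x % 24 = 0 ∨ x % 24 = 1 ∨ x % 24 = 2 ∨ x % 24 = 3 ∨ x % 24 = 4 ∨ x % 24 = 5 ∨ x % 24 = 6 ∨
      x % 24 = 7 ∨ x % 24 = 8 ∨ x % 24 = 9 ∨ x % 24 = 10 ∨ x % 24 = 11 ∨ x % 24 = 12 ∨ x % 24 = 13 ∨
      x % 24 = 14 ∨ x % 24 = 15 ∨ x % 24 = 16 ∨ x % 24 = 17 ∨ x % 24 = 18 ∨ x % 24 = 19 ∨
      x % 24 = 20 ∨ x % 24 = 21 ∨ x % 24 = 22 ∨ x % 24 = 23 := by omega
  rcases h with h | h | h | h | h | h | h | h | h | h | h | h | h | h | h | h | h | h | h | h | h | h | h | h <;>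
    simp [pow_two, Int.mul_emod, h]

private theorem rep_sq1 : IsSquare ((1 : ℕ) : ZMod 3) := by decide

private theorem rep_sq2 : ¬ IsSquare ((2 : ℕ) : ZMod 3) := by decide

private theorem rep_square {p : ℕ} (hp : p.Prime)
    (h : p % 24 = 1 ∨ p % 24 = 5 ∨ p % 24 = 7 ∨ p % 24 = 11) : ∃ r : ZMod p, r ^ 2 = -6 := by
  have : Fact p.Prime := ⟨hp⟩
  have : Fact (Nat.Prime 3) := ⟨Nat.prime_three⟩
  have hp2 : p ≠ 2 := by omega
  have hp3 : p ≠ 3 := by omega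
  have hne2 : (-2 : ZMod p) ≠ 0 := by
    intro hcon
    have h : ((2 : ℕ) : ZMod p) = 0 := by
      push_cast
      linear_combination -hcon
    rw [ZMod.natCast_eq_zero_iff] at h
    exact hp2 ((Nat.prime_dvd_prime_iff_eq hp Nat.prime_two).mp h)
  have hne3 : ((3 : ℕ) : ZMod p) ≠ 0 := by
    intro hcon
    rw [ZMod.natCast_eq_zero_iff] at hcon
    exact hp3 ((Nat.prime_dvd_prime_iff_eq hp Nat.prime_three).mp hcon)
  have hcast : ∀ k : ℕ, p % 3 = k → (p : ZMod 3) = (k : ZMod 3) := by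
    intro k hk
    rw [← hk, ZMod.natCast_mod]
  have hsq1 := rep_sq1
  have hsq2 := rep_sq2
  have hchar : quadraticChar (ZMod p) (-2) * quadraticChar (ZMod p) ((3 : ℕ) : ZMod p) = 1 := by
    rcases h with h | h | h | h
    · have a : IsSquare (-2 : ZMod p) := (ZMod.exists_sq_eq_neg_two_iff hp2).mpr (by omega)
      have b : IsSquare ((3 : ℕ) : ZMod p) := by
        rw [ZMod.exists_sq_eq_prime_iff_of_mod_four_eq_one (by omega) (by norm_num), hcast 1 (by omega)]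
        exact hsq1
      rw [(quadraticChar_one_iff_isSquare hne2).mpr a, (quadraticChar_one_iff_isSquare hne3).mpr b]
      norm_num
    · have a : ¬ IsSquare (-2 : ZMod p) := fun hc => by
        have := (ZMod.exists_sq_eq_neg_two_iff hp2).mp hc
        omega
      have b : ¬ IsSquare ((3 : ℕ) : ZMod p) := by
        rw [ZMod.exists_sq_eq_prime_iff_of_mod_four_eq_one (by omega) (by norm_num), hcast 2 (by omega)]
        exact hsq2
      rw [quadraticChar_neg_one_iff_not_isSquare.mpr a, quadraticChar_neg_one_iff_not_isSquare.mpr b]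
      norm_num
    · have a : ¬ IsSquare (-2 : ZMod p) := fun hc => by
        have := (ZMod.exists_sq_eq_neg_two_iff hp2).mp hc
        omega
      have b : ¬ IsSquare ((3 : ℕ) : ZMod p) := by
        rw [ZMod.exists_sq_eq_prime_iff_of_mod_four_eq_three (by omega) (by norm_num) hp3,
          hcast 1 (by omega)]
        exact not_not.mpr hsq1
      rw [quadraticChar_neg_one_iff_not_isSquare.mpr a, quadraticChar_neg_one_iff_not_isSquare.mpr b]
      norm_num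
    · have a : IsSquare (-2 : ZMod p) := (ZMod.exists_sq_eq_neg_two_iff hp2).mpr (by omega)
      have b : IsSquare ((3 : ℕ) : ZMod p) := by
        rw [ZMod.exists_sq_eq_prime_iff_of_mod_four_eq_three (by omega) (by norm_num) hp3,
          hcast 2 (by omega)]
        exact hsq2
      rw [(quadraticChar_one_iff_isSquare hne2).mpr a, (quadraticChar_one_iff_isSquare hne3).mpr b]
      norm_num
  rw [← map_mul] at hchar
  have hne6 : (-2 : ZMod p) * ((3 : ℕ) : ZMod p) ≠ 0 := mul_ne_zero hne2 hne3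
  obtain ⟨r, hr⟩ := (quadraticChar_one_iff_isSquare hne6).mp hchar
  refine ⟨r, ?_⟩
  push_cast at hr
  rw [pow_two, ← hr]
  norm_num

theorem rep_a {p : ℕ} (hp : p.Prime) (h : p % 24 = 1 ∨ p % 24 = 7) :
    ∃ x y : ℤ, (p : ℤ) = x ^ 2 + 6 * y ^ 2 := by
  obtain ⟨r, hr⟩ := rep_square hp (by omega)
  rcases rep_form hp r hr with h1 | ⟨x, y, hxy⟩
  · exact h1
  · exfalso
    have hx := rep_sq24 x
    have hy := rep_sq24 y
    generalize x ^ 2 = X at hx hxy
    generalize y ^ 2 = Y at hy hxy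
    omega

theorem rep_b {p : ℕ} (hp : p.Prime) (h : p % 24 = 5 ∨ p % 24 = 11) :
    ∃ x y : ℤ, (p : ℤ) = 2 * x ^ 2 + 3 * y ^ 2 := by
  obtain ⟨r, hr⟩ := rep_square hp (by omega)
  rcases rep_form hp r hr with ⟨x, y, hxy⟩ | h1
  · exfalso
    have hx := rep_sq24 x
    have hy := rep_sq24 y
    generalize x ^ 2 = X at hx hxy
    generalize y ^ 2 = Y at hy hxy
    omega
  · exact h1

end Pool.Agent.Lib.Z32
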